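import Pool.Agent.Helper91K9.SP.Sizes

/-!
# The search over the decision trees
-/

namespace Pool.Agent.Helper91K9.SP

open Pool.Agent.Helper91K9.DL Pool.Agent.Helper91K9.TW

namespace OptL

theorem pick_cases (A B : List (List (ℕ × Bool))) (s : List (List Bool × Bool)) :
    pick A B s = A ∨ pick A B s = B := by
  unfold pick
  split_ifs
  · exact Or.inl rfl
  · exact Or.inr rfl

theorem errc_pick_left (A B : List (List (ℕ × Bool))) (s : List (List Bool × Bool)) :
    errc (pick A B s) s ≤ errc A s := by
  unfold pick
  split_ifs with h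
  · exact le_rfl
  · omega

theorem errc_pick_right (A B : List (List (ℕ × Bool))) (s : List (List Bool × Bool)) :
    errc (pick A B s) s ≤ errc B s := by
  unfold pick
  split_ifs with h
  · exact h
  · exact le_rfl

theorem fold_cases (g : ℕ → List (List (ℕ × Bool))) (s : List (List Bool × Bool)) (L : List ℕ)
    (G : List (List (ℕ × Bool))) :
    L.foldl (fun G v => pick G (g v) s) G = G ∨
      ∃ v ∈ L, L.foldl (fun G v => pick G (g v) s) G = g v := by
  induction L generalizing G with
  | nil => exact Or.inl rfl
  | cons v L ih =>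
    rw [List.foldl_cons]
    rcases ih (pick G (g v) s) with h | ⟨w, hw, h⟩
    · rcases pick_cases G (g v) s with h' | h'
      · left
        rw [h, h']
      · right
        exact ⟨v, by simp, by rw [h, h']⟩
    · right
      exact ⟨w, by simp [hw], h⟩

theorem fold_le (g : ℕ → List (List (ℕ × Bool))) (s : List (List Bool × Bool)) (L : List ℕ)
    (G : List (List (ℕ × Bool))) :
    errc (L.foldl (fun G v => pick G (g v) s) G) s ≤ errc G s ∧
      ∀ v ∈ L, errc (L.foldl (fun G v => pick G (g v) s) G) s ≤ errc (g v) s := by
  induction L generalizing G with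
  | nil => exact ⟨le_rfl, fun v hv => absurd hv (by simp)⟩
  | cons v L ih =>
    rw [List.foldl_cons]
    obtain ⟨h1, h2⟩ := ih (pick G (g v) s)
    refine ⟨h1.trans (errc_pick_left _ _ _), fun w hw => ?_⟩
    rcases List.mem_cons.1 hw with rfl | hw
    · exact h1.trans (errc_pick_right _ _ _)
    · exact h2 w hw

theorem length_filter_add {α : Type} (p q r : α → Bool)
    (h : ∀ e, p e = true → q e = true ∨ r e = true) (s : List α) :
    (s.filter p).length ≤ (s.filter q).length + (s.filter r).length := by
  induction s with
  | nil => simp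
  | cons e s ih =>
    simp only [List.filter_cons]
    rcases hp : p e
    · split_ifs <;> simp_all <;> omega
    · rcases h e hp with hq | hr
      · rw [hq]
        split_ifs <;> simp_all <;> omega
      · rw [hr]
        split_ifs <;> simp_all <;> omega

theorem termVal_cons (v : ℕ) (b : Bool) (ρ : List (ℕ × Bool)) (x : List Bool) :
    termVal ((v, b) :: ρ) x = ((x.getD v false == b) && termVal ρ x) := rfl

theorem termVal_mem {t : List (ℕ × Bool)} {x : List Bool} (h : termVal t x = true)
    {l : ℕ × Bool} (hl : l ∈ t) : x.getD l.1 false = l.2 := by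
  unfold termVal at h
  rw [List.all_eq_true] at h
  have := h l hl
  simpa using this

theorem dnfVal_append (A B : List (List (ℕ × Bool))) (x : List Bool) :
    dnfVal (A ++ B) x = (dnfVal A x || dnfVal B x) := by
  unfold dnfVal
  rw [List.any_append]

/-- A hypothesis all whose terms contain a wrong literal is false. -/
theorem dnfVal_off {A : List (List (ℕ × Bool))} {v : ℕ} {b : Bool} {x : List Bool}
    (hA : ∀ t ∈ A, (v, b) ∈ t) (hx : x.getD v false ≠ b) : dnfVal A x = false := by
  rw [← Bool.not_eq_true]
  intro h
  unfold dnfVal at h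
  rw [List.any_eq_true] at h
  obtain ⟨t, ht, h⟩ := h
  exact hx (termVal_mem h (hA t ht))

theorem errc_append (A B : List (List (ℕ × Bool))) (v : ℕ) (ρ : List (ℕ × Bool))
    (s : List (List Bool × Bool)) (hA : ∀ t ∈ A, (v, true) ∈ t) (hB : ∀ t ∈ B, (v, false) ∈ t) :
    errc (A ++ B) (inCube ρ s) ≤
      errc A (inCube ((v, true) :: ρ) s) + errc B (inCube ((v, false) :: ρ) s) := by
  unfold errc inCube
  rw [List.filter_filter, List.filter_filter, List.filter_filter]
  refine length_filter_add _ _ _ ?_ s
  rintro ⟨x, c⟩ h
  simp only [Bool.and_eq_true, dnfVal_append, termVal_cons] at h ⊢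
  obtain ⟨h1, h2⟩ := h
  rcases hv : x.getD v false
  · right
    have h3 : dnfVal A x = false := dnfVal_off hA (by rw [hv]; simp)
    rw [h3, Bool.false_or] at h1
    exact ⟨h1, by simp, h2⟩
  · left
    have h3 : dnfVal B x = false := dnfVal_off hB (by rw [hv]; simp)
    rw [h3, Bool.or_false] at h1
    exact ⟨h1, by simp, h2⟩

theorem loc_mem {R r K n : ℕ} {s : List (List Bool × Bool)} {ρ t : List (ℕ × Bool)}
    (ht : t ∈ loc R r K n s ρ) :
    t = ρ ∨ ∃ u, (∀ l ∈ u, l.1 < n) ∧ t = ρ ++ u := by
  unfold loc at ht
  rcases pick_cases [ρ]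
    ((base R r K (free n ρ) (n + 1) (negs (inCube ρ s))).map (ρ ++ ·)) (inCube ρ s) with h | h
  · rw [h] at ht
    exact Or.inl (List.mem_singleton.1 ht)
  · rw [h] at ht
    obtain ⟨u, hu, rfl⟩ := List.mem_map.1 ht
    refine Or.inr ⟨u, fun l hl => ?_, rfl⟩
    have hW : (free n ρ).length ≤ n := by
      unfold free
      exact (List.length_filter_le _ _).trans (by simp)
    have h1 := ((sizes R r K n (free n ρ) (negs (inCube ρ s)) hW).2.2 (n + 1) u hu).2.1 l hl
    unfold free at h1
    exact List.mem_range.1 (List.mem_filter.1 h1).1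

theorem loc_length (R r K n : ℕ) (s : List (List Bool × Bool)) (ρ : List (ℕ × Bool)) :
    (loc R r K n s ρ).length ≤ (n + 1) * (2 * n + 1) ^ (R + 2 * r + 1) := by
  unfold loc
  rcases pick_cases [ρ]
    ((base R r K (free n ρ) (n + 1) (negs (inCube ρ s))).map (ρ ++ ·)) (inCube ρ s) with h | h
  · rw [h, List.length_singleton]
    exact Nat.succ_le_of_lt (Nat.mul_pos (Nat.succ_pos n) (Nat.pow_pos (Nat.succ_pos _)))
  · rw [h, List.length_map]
    have hW : (free n ρ).length ≤ n := by
      unfold free
      exact (List.length_filter_le _ _).trans (by simp)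
    exact (sizes R r K n (free n ρ) (negs (inCube ρ s)) hW).1 (n + 1) le_rfl

theorem opt_lit (R r K n : ℕ) (s : List (List Bool × Bool)) (k : ℕ) :
    ∀ ρ, ∀ t ∈ opt R r K n s k ρ, ∀ l ∈ ρ, l ∈ t := by
  have h0 : ∀ ρ, ∀ t ∈ loc R r K n s ρ, ∀ l ∈ ρ, l ∈ t := by
    intro ρ t ht l hl
    rcases loc_mem ht with rfl | ⟨u, -, rfl⟩
    · exact hl
    · exact List.mem_append_left _ hl
  induction k with
  | zero => exact h0
  | succ k ih =>
    intro ρ t ht l hl
    rw [opt] at ht
    rcases fold_cases (fun v => opt R r K n s k ((v, true) :: ρ) ++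
      opt R r K n s k ((v, false) :: ρ)) (inCube ρ s) (List.range n) (loc R r K n s ρ) with
      h | ⟨v, -, h⟩
    · rw [h] at ht
      exact h0 ρ t ht l hl
    · rw [h] at ht
      rcases List.mem_append.1 ht with ht | ht
      · exact ih _ t ht l (List.mem_cons_of_mem _ hl)
      · exact ih _ t ht l (List.mem_cons_of_mem _ hl)

end OptL

open OptL in
theorem opt_ok : S_OPT := by
  intro R r K n s k
  refine ⟨?_, opt_lit R r K n s k, ?_, ?_⟩
  · induction k with
    | zero =>
      intro t ρ ht
      cases t with
      | leaf => simp [lv, opt]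
      | node v l r => simp [DT.depth] at ht
    | succ k ih =>
      intro t ρ ht
      have hf := fold_le (fun v => opt R r K n s k ((v, true) :: ρ) ++
        opt R r K n s k ((v, false) :: ρ)) (inCube ρ s) (List.range n) (loc R r K n s ρ)
      rw [opt]
      cases t with
      | leaf => simpa [lv] using hf.1
      | node v t₁ t₂ =>
        have h1 : t₁.depth ≤ k ∧ t₂.depth ≤ k := by
          simp only [DT.depth] at ht
          omega
        refine (hf.2 (v : ℕ) (List.mem_range.2 v.2)).trans ?_
        refine (errc_append _ _ (v : ℕ) ρ s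
          (fun t ht => opt_lit R r K n s k _ t ht _ (by simp))
          (fun t ht => opt_lit R r K n s k _ t ht _ (by simp))).trans ?_
        rw [lv, List.map_append, List.sum_append]
        exact Nat.add_le_add (ih t₁ _ h1.1) (ih t₂ _ h1.2)
  · have h0 : ∀ ρ : List (ℕ × Bool), (∀ l ∈ ρ, l.1 < n) → ∀ t ∈ loc R r K n s ρ, ∀ l ∈ t,
        l.1 < n := by
      intro ρ hρ t ht l hl
      rcases loc_mem ht with rfl | ⟨u, hu, rfl⟩
      · exact hρ l hl
      · rcases List.mem_append.1 hl with hl | hl
        · exact hρ l hl
        · exact hu l hl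
    induction k with
    | zero => exact h0
    | succ k ih =>
      intro ρ hρ t ht l hl
      rw [opt] at ht
      rcases fold_cases (fun v => opt R r K n s k ((v, true) :: ρ) ++
        opt R r K n s k ((v, false) :: ρ)) (inCube ρ s) (List.range n) (loc R r K n s ρ) with
        h | ⟨v, hv, h⟩
      · rw [h] at ht
        exact h0 ρ hρ t ht l hl
      · rw [h] at ht
        have hv' : v < n := List.mem_range.1 hv
        rcases List.mem_append.1 ht with ht | ht
        · refine ih _ (fun l hl => ?_) t ht l hl
          rcases List.mem_cons.1 hl with rfl | hl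
          · exact hv'
          · exact hρ l hl
        · refine ih _ (fun l hl => ?_) t ht l hl
          rcases List.mem_cons.1 hl with rfl | hl
          · exact hv'
          · exact hρ l hl
  · induction k with
    | zero =>
      intro ρ
      rw [pow_zero, one_mul, opt]
      exact loc_length R r K n s ρ
    | succ k ih =>
      intro ρ
      rw [opt]
      rcases fold_cases (fun v => opt R r K n s k ((v, true) :: ρ) ++
        opt R r K n s k ((v, false) :: ρ)) (inCube ρ s) (List.range n) (loc R r K n s ρ) with
        h | ⟨v, -, h⟩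
      · rw [h]
        exact (loc_length R r K n s ρ).trans
          (Nat.le_mul_of_pos_left _ (Nat.pow_pos (by norm_num)))
      · rw [h, List.length_append, pow_succ]
        have h1 := ih ((v, true) :: ρ)
        have h2 := ih ((v, false) :: ρ)
        nlinarith

end Pool.Agent.Helper91K9.SP
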