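import Pool.Agent.Helper91K9.SP.Fam4
import Pool.Agent.Helper91K9.SP.Opt
import Pool.Agent.Helper91K9.DL.Main2

/-!
# Learning sparse DNF formulas: assembly
-/

namespace Pool.Agent.Helper91K9.SP

open Finset Pool.Agent.NPC Pool.Agent.H424R2.PPAD Pool.Agent.Helper91K9.DL
  Pool.Agent.Helper91K9.TW

namespace AsmL

variable {n m : ℕ} {ι : Type}

theorem orc_mono {W : List ℕ} {neg : List (List Bool)} {f : Cube n → Prop} {M τ : ℝ} {S S' : ℕ}
    (h : Orc n W neg f M τ S) (hS : S' ≤ S) : Orc n W neg f M τ S' :=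
  ⟨h.pts, h.one, fun H v γ h1 => h.two H v γ (h1.trans hS)⟩

theorem satL_agr {ρ : List (ℕ × Bool)} {P : Finset (Fin n)} {z : Cube n}
    (hP : ∀ v : Fin n, v ∈ P ↔ ∃ b, ((v : ℕ), b) ∈ ρ) (hz : satL (UU n ρ) z) (x : Cube n) :
    satL (UU n ρ) x ↔ agr P z x := by
  constructor
  · intro hx v hv
    obtain ⟨b, hb⟩ := (hP v).1 hv
    rw [hx (v, b) ((mem_UU _ _).2 hb), hz (v, b) ((mem_UU _ _).2 hb)]
  · rintro hx ⟨v, b⟩ hl
    have h1 := hx v ((hP v).2 ⟨b, (mem_UU _ _).1 hl⟩)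
    rw [h1]
    exact hz (v, b) hl

theorem res_congr (I : Finset ι) (T : ι → Finset (Fin n)) (a : ι → Cube n) {B : Finset (Fin n)}
    {z y : Cube n} (h : agr B z y) : res I T a B y = res I T a B z := by
  classical
  unfold res
  refine filter_congr fun i _ => forall₂_congr fun v _ => forall_congr' fun hv => ?_
  rw [h v hv]

theorem errc_le_pick_left (A B : List (List (ℕ × Bool))) (s : List (List Bool × Bool)) :
    errc (pick A B s) s ≤ errc A s := by
  unfold pick
  split_ifs with h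
  · exact le_rfl
  · omega

theorem errc_le_pick_right (A B : List (List (ℕ × Bool))) (s : List (List Bool × Bool)) :
    errc (pick A B s) s ≤ errc B s := by
  unfold pick
  split_ifs with h
  · exact h
  · exact le_rfl

theorem inCube_nil (s : List (List Bool × Bool)) : inCube [] s = s := by
  unfold inCube
  rw [List.filter_eq_self]
  intro e _
  rfl

theorem inCube_empty {ρ : List (ℕ × Bool)} (hρ : ∀ l ∈ ρ, l.1 < n)
    (F : List (List (ℕ × Bool))) (X : Fin m → Cube n) (h : ∀ z : Cube n, ¬ satL (UU n ρ) z) :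
    inCube ρ (smp F X) = [] := by
  unfold inCube smp
  rw [List.filter_eq_nil_iff]
  intro e he
  rw [List.mem_ofFn] at he
  obtain ⟨j, rfl⟩ := he
  simp only
  rw [termVal_iff ρ hρ]
  exact h _

theorem smp_filter (F : List (List (ℕ × Bool))) (X : Fin m → Cube n)
    (p : List Bool × Bool → Bool) : ((smp F X).filter p).length =
      (univ.filter fun j => p (List.ofFn (X j), dnfVal F (List.ofFn (X j))) = true).card := by
  have h1 : smp F X = (List.finRange m).map fun j =>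
      (List.ofFn (X j), dnfVal F (List.ofFn (X j))) := by
    unfold smp; rw [List.ofFn_eq_map]
  rw [h1, List.filter_map, List.length_map]
  exact card_filter_fin _

theorem dnfVal_iff {G : List (List (ℕ × Bool))} (hG : ∀ t ∈ G, ∀ l ∈ t, l.1 < n) (x : Cube n) :
    dnfVal G (List.ofFn x) = true ↔ hh n G x := by
  unfold dnfVal hh
  rw [List.any_eq_true]
  constructor
  · rintro ⟨t, ht, h⟩
    exact ⟨t, ht, (termVal_iff t (hG t ht) x).1 h⟩
  · rintro ⟨t, ht, h⟩
    exact ⟨t, ht, (termVal_iff t (hG t ht) x).2 h⟩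

theorem hs_iff {G : List (List (ℕ × Bool))} {S : ℕ} (hS : G.length ≤ S) (x : Cube n) :
    hs (fun k : Fin S => (G[(k : ℕ)]?).map (UU n)) x ↔ hh n G x := by
  unfold hs hh
  constructor
  · rintro ⟨k, t, hk, htx⟩
    rw [Option.map_eq_some_iff] at hk
    obtain ⟨t', ht', rfl⟩ := hk
    exact ⟨t', List.mem_of_getElem? ht', htx⟩
  · rintro ⟨t, ht, htx⟩
    obtain ⟨k, hk, rfl⟩ := List.getElem_of_mem ht
    exact ⟨⟨k, lt_of_lt_of_le hk hS⟩, _, by simp [hk], htx⟩

/-- The error is not much larger than in the sample. -/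
theorem err_le {F G : List (List (ℕ × Bool))} {S : ℕ} {X : Fin m → Cube n} {τ : ℝ}
    (hX : GoodS S X (ff n F) τ) (hG : ∀ t ∈ G, ∀ l ∈ t, l.1 < n) (hS : G.length ≤ S) :
    (m : ℝ) * err n G F ≤ errc G (smp F X) + m * τ := by
  classical
  have h1 := (abs_le.1 (hX (false, none, ∅, fun k : Fin S => (G[(k : ℕ)]?).map (UU n)))).1
  have hE : ∀ x : Cube n, EvS (ff n F)
      (false, none, ∅, fun k : Fin S => (G[(k : ℕ)]?).map (UU n)) x ↔
      dnfVal G (List.ofFn x) ≠ dnfVal F (List.ofFn x) := by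
    intro x
    unfold EvS
    simp only [Bool.false_eq_true, if_false]
    rw [hs_iff hS, ← dnfVal_iff hG]
    unfold ff
    have h2 : satL (∅ : Finset (Fin n × Bool)) x := fun l hl => absurd hl (by simp)
    constructor
    · rintro ⟨_, h⟩ e
      exact h (by rw [e])
    · intro h
      refine ⟨h2, fun h3 => h ?_⟩
      exact Bool.eq_iff_iff.2 h3
  have h2 : ((univ.filter fun j => EvS (ff n F)
      (false, none, ∅, fun k : Fin S => (G[(k : ℕ)]?).map (UU n)) (X j)).card : ℝ) =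
      errc G (smp F X) := by
    unfold errc
    rw [smp_filter]
    norm_cast
    congr 1
    ext j
    simp only [mem_filter, mem_univ, true_and]
    rw [hE]
    simp
  rw [h2, PP_congr hE, ← err_eq] at h1
  linarith

open Classical in
/-- The bad points: zeros of the formula in subcubes which are not nice. -/
def Qb (I : Finset ι) (T : ι → Finset (Fin n)) (a : ι → Cube n) (O : Fin n → ι → Prop) (d : ℕ)
    (C : ℝ) (c : ℕ) (η : ℝ) (t : DT n) (x : Cube n) : Prop :=
  miss I T a x ∧ ¬ Nice (res I T a (t.path x) x) (fun i => T i \ t.path x) O d C c η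

open Classical in
/-- The error in one leaf. -/
theorem leaf_le (hPATHS : S_PATHS) (hORC : S_ORC) (hSIZ : S_SIZES)
    {F : List (List (ℕ × Bool))} {X : Fin m → Cube n} {I : Finset ι} {T : ι → Finset (Fin n)}
    {a : ι → Cube n} {O : Fin n → ι → Prop} {d : ℕ} {C : ℝ} {c : ℕ} {η ε τ : ℝ}
    {R r K e₀ D S : ℕ} (hf : ∀ x, ff n F x ↔ ¬ miss I T a x) (hX : GoodS S X (ff n F) τ)
    (hS : (n + 1) * (2 * n + 1) ^ (R + 2 * r + 1) ≤ S) (hm : 0 < m) (hτ : 0 ≤ τ) (hε : 0 ≤ ε)
    (hB : ∀ (I : Finset ι) (T : ι → Finset (Fin n)) (W : List ℕ) (neg : List (List Bool))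
      (M τ : ℝ), Nice I T O d C c η → W.length ≤ n → (∀ w ∈ W, w < n) →
      (∀ i ∈ I, ∀ w ∈ T i, (w : ℕ) ∈ W) →
      Orc n W neg (fun x => ¬ miss I T a x) M τ ((n + 1) * (2 * n + 1) ^ (R + 2 * r + 1)) →
      0 < M → 0 ≤ τ → τ * (n + 2 : ℕ) ^ e₀ ≤ 1 →
      PP (fun x => ¬ miss I T a x ∧ ¬ hh n (base R r K W (n + 1) neg) x) ≤ ε ∧
      PP (fun x => miss I T a x ∧ hh n (base R r K W (n + 1) neg) x) ≤ ε)
    (hτe : τ * 2 ^ D * (n + 2 : ℕ) ^ e₀ ≤ 1) {t : DT n} (ht : t.depth ≤ D)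
    {ρ : List (ℕ × Bool)} (hρ : ρ ∈ lv t []) :
    ((errc (loc R r K n (smp F X) ρ) (inCube ρ (smp F X)) : ℕ) : ℝ) ≤
      m * (PP (fun x => Qb I T a O d C c η t x ∧ satL (UU n ρ) x) +
        2 * ε * PP (fun x => True ∧ satL (UU n ρ) x) + τ) := by
  have hm0 : (0 : ℝ) < m := by exact_mod_cast hm
  obtain ⟨hρn, hρd, hpath⟩ := (hPATHS n t).2.2 ρ hρ
  by_cases hz : ∀ z : Cube n, ¬ satL (UU n ρ) z
  · rw [inCube_empty hρn F X hz]
    have h1 := PP_nonneg (fun x => Qb I T a O d C c η t x ∧ satL (UU n ρ) x)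
    have h2 := PP_nonneg (fun x : Cube n => True ∧ satL (UU n ρ) x)
    have h3 : errc (loc R r K n (smp F X) ρ) [] = 0 := rfl
    rw [h3, Nat.cast_zero]
    exact mul_nonneg hm0.le (add_nonneg (add_nonneg h1 (mul_nonneg (by linarith) h2)) hτ)
  push Not at hz
  obtain ⟨z, hz⟩ := hz
  set P := t.path z with hP
  have hPρ : ∀ v : Fin n, v ∈ P ↔ ∃ b, ((v : ℕ), b) ∈ ρ := hpath z hz
  have hPx : ∀ x : Cube n, satL (UU n ρ) x → t.path x = P := fun x hx => by
    ext v
    rw [hpath x hx v, hPρ v]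
  have hPc : P.card ≤ D := by
    have h1 : P.card ≤ (ρ.map Prod.fst).toFinset.card := by
      refine card_le_card_of_injOn (fun v : Fin n => (v : ℕ)) (fun v hv => ?_) (fun v _ w _ h =>
        Fin.ext h)
      obtain ⟨b, hb⟩ := (hPρ v).1 hv
      simp only [coe_sort_coe, List.coe_toFinset, Set.mem_setOf_eq, List.mem_map]
      exact ⟨_, hb, rfl⟩
    have h2 := List.toFinset_card_le (ρ.map Prod.fst)
    rw [List.length_map] at h2
    omega
  have hPP : PP (fun x => True ∧ satL (UU n ρ) x) = (1 / 2) ^ P.card := by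
    rw [← PP_agr P z]
    exact PP_congr fun x => by rw [true_and, satL_agr hPρ hz]
  obtain ⟨hO, he1, he2⟩ := hORC n m S ι F X I T a ρ P z τ hf hX hρn hPρ hz
  rw [hPP]
  have hQ0 := PP_nonneg (fun x => Qb I T a O d C c η t x ∧ satL (UU n ρ) x)
  unfold loc
  by_cases hN : Nice (res I T a P z) (fun i => T i \ P) O d C c η
  · set W := free n ρ with hW
    have hWlen : W.length ≤ n := by
      rw [hW]
      unfold free
      exact (List.length_filter_le _ _).trans (by simp)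
    have hWn : ∀ w ∈ W, w < n := fun w hw => by
      rw [hW] at hw
      unfold free at hw
      exact List.mem_range.1 (List.mem_filter.1 hw).1
    have hTW : ∀ i ∈ res I T a P z, ∀ w ∈ T i \ P, (w : ℕ) ∈ W := fun i _ w hw => by
      rw [hW]
      unfold free
      rw [List.mem_filter]
      refine ⟨List.mem_range.2 w.2, ?_⟩
      rw [Bool.not_eq_true', ← Bool.not_eq_true, List.any_eq_true]
      rintro ⟨⟨l, b⟩, hl, hlw⟩
      simp only [beq_iff_eq] at hlw
      subst hlw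
      exact (mem_sdiff.1 hw).2 ((hPρ w).2 ⟨b, hl⟩)
    set neg := negs (inCube ρ (smp F X)) with hneg
    have hP2 : (2 : ℝ) ^ P.card ≤ 2 ^ D := pow_le_pow_right₀ (by norm_num) hPc
    obtain ⟨h1, h2⟩ := hB (res I T a P z) (fun i => T i \ P) W neg (m * (1 / 2) ^ P.card)
      (τ * 2 ^ P.card) hN hWlen hWn hTW (orc_mono hO hS) (by positivity) (by positivity) (by
        refine le_trans ?_ hτe
        exact mul_le_mul_of_nonneg_right (mul_le_mul_of_nonneg_left hP2 hτ) (by positivity))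
    obtain ⟨hs1, hs2, hs3⟩ := hSIZ R r K n W neg hWlen
    have h3 := he2 (base R r K W (n + 1) neg) ((hs1 _ le_rfl).trans hS) fun t ht =>
      (hs3 _ t ht).2.1
    have h4 : PP (fun x => ¬ (hh n (base R r K W (n + 1) neg) x ↔
        ¬ miss (res I T a P z) (fun i => T i \ P) a x)) ≤ 2 * ε := by
      refine le_trans (PP_mono fun x hx => ?_) ((PP_or_le _ _).trans (by
        rw [two_mul]; exact add_le_add h1 h2))
      by_cases hmx : miss (res I T a P z) (fun i => T i \ P) a x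
      · by_cases hhx : hh n (base R r K W (n + 1) neg) x
        · exact Or.inr ⟨hmx, hhx⟩
        · exact absurd (by simp [hmx, hhx]) hx
      · by_cases hhx : hh n (base R r K W (n + 1) neg) x
        · exact absurd (by simp [hmx, hhx]) hx
        · exact Or.inl ⟨hmx, hhx⟩
    have h5 : ((errc (pick [ρ] ((base R r K W (n + 1) neg).map (ρ ++ ·)) (inCube ρ (smp F X)))
        (inCube ρ (smp F X)) : ℕ) : ℝ) ≤
        ((errc ((base R r K W (n + 1) neg).map (ρ ++ ·)) (inCube ρ (smp F X)) : ℕ) : ℝ) := by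
      exact_mod_cast errc_le_pick_right _ _ _
    refine h5.trans (h3.trans ?_)
    have h6 : (m : ℝ) * (1 / 2) ^ P.card * PP (fun x => ¬ (hh n (base R r K W (n + 1) neg) x ↔
        ¬ miss (res I T a P z) (fun i => T i \ P) a x)) ≤ m * (1 / 2) ^ P.card * (2 * ε) :=
      mul_le_mul_of_nonneg_left h4 (by positivity)
    have h7 : (0 : ℝ) ≤ m * PP (fun x => Qb I T a O d C c η t x ∧ satL (UU n ρ) x) :=
      mul_nonneg hm0.le hQ0
    nlinarith
  · have h5 : ((errc (pick [ρ] ((base R r K (free n ρ) (n + 1)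
        (negs (inCube ρ (smp F X)))).map (ρ ++ ·)) (inCube ρ (smp F X)))
        (inCube ρ (smp F X)) : ℕ) : ℝ) ≤ ((errc [ρ] (inCube ρ (smp F X)) : ℕ) : ℝ) := by
      exact_mod_cast errc_le_pick_left _ _ _
    refine h5.trans (he1.trans ?_)
    have h6 : PP (fun x => miss I T a x ∧ satL (UU n ρ) x) ≤
        PP (fun x => Qb I T a O d C c η t x ∧ satL (UU n ρ) x) := by
      refine PP_mono fun x hx => ⟨⟨hx.1, ?_⟩, hx.2⟩
      rw [hPx x hx.2, res_congr I T a ((satL_agr hPρ hz x).1 hx.2)]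
      exact hN
    have h7 : (m : ℝ) * PP (fun x => miss I T a x ∧ satL (UU n ρ) x) ≤
        m * PP (fun x => Qb I T a O d C c η t x ∧ satL (UU n ρ) x) :=
      mul_le_mul_of_nonneg_left h6 hm0.le
    have h8 : (0 : ℝ) ≤ m * (2 * ε * (1 / 2) ^ P.card) := by positivity
    nlinarith

theorem sum_map_le {α : Type} (L : List α) (f : α → ℕ) (g : α → ℝ)
    (h : ∀ x ∈ L, (f x : ℝ) ≤ g x) : (((L.map f).sum : ℕ) : ℝ) ≤ (L.map g).sum := by
  induction L with
  | nil => simp
  | cons x L ih =>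
    rw [List.map_cons, List.sum_cons, List.map_cons, List.sum_cons, Nat.cast_add]
    exact add_le_add (h x (by simp)) (ih fun y hy => h y (by simp [hy]))

theorem sum_split {α : Type} (L : List α) (f g : α → ℝ) (m ε τ : ℝ) :
    (L.map fun x => m * (f x + ε * g x + τ)).sum =
      m * ((L.map f).sum + ε * (L.map g).sum + L.length * τ) := by
  induction L with
  | nil => simp
  | cons x L ih =>
    simp only [List.map_cons, List.sum_cons, List.length_cons]
    rw [ih]
    push_cast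
    ring

theorem num_q (D E e₀ Z : ℕ) : ∃ e : ℕ, ∀ n a b m : ℕ, 1 ≤ a → 1 ≤ b → (n + a + b) ^ e ≤ m →
    8 * (2 + 3 * n + (2 * n + 1) * (2 ^ D * ((n + 1) * (2 * n + 1) ^ E)) + 2 * b) *
      (Z * (n + 2) ^ e₀) ^ 2 ≤ m := by
  obtain ⟨k, hk⟩ : ∃ k : ℕ, 8 * (5 + 2 * (2 ^ D * 2 ^ E)) * Z ^ 2 ≤ 2 ^ k :=
    ⟨_, (Nat.lt_two_pow_self).le⟩
  refine ⟨k + (E + 2) + 2 * e₀, fun n a b m ha hb hm => le_trans ?_ hm⟩
  set q := n + a + b with hq
  have hq2 : 2 ≤ q := by omega
  have h1 : 2 + 3 * n + 2 * b ≤ 5 * q ^ (E + 2) := by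
    have h2 : q ^ 1 ≤ q ^ (E + 2) := Nat.pow_le_pow_right (by omega) (by omega)
    rw [pow_one] at h2
    omega
  have h2 : (2 * n + 1) * (2 ^ D * ((n + 1) * (2 * n + 1) ^ E)) ≤
      2 * (2 ^ D * 2 ^ E) * q ^ (E + 2) := by
    calc (2 * n + 1) * (2 ^ D * ((n + 1) * (2 * n + 1) ^ E))
        ≤ (2 * q) * (2 ^ D * (q * (2 * q) ^ E)) := by
          refine Nat.mul_le_mul (by omega) (Nat.mul_le_mul_left _ (Nat.mul_le_mul (by omega) ?_))
          exact Nat.pow_le_pow_left (by omega) _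
      _ = 2 * (2 ^ D * 2 ^ E) * q ^ (E + 2) := by rw [mul_pow]; ring
  have h3 : 2 + 3 * n + (2 * n + 1) * (2 ^ D * ((n + 1) * (2 * n + 1) ^ E)) + 2 * b ≤
      (5 + 2 * (2 ^ D * 2 ^ E)) * q ^ (E + 2) := by
    calc _ = (2 + 3 * n + 2 * b) + (2 * n + 1) * (2 ^ D * ((n + 1) * (2 * n + 1) ^ E)) := by ring
      _ ≤ 5 * q ^ (E + 2) + 2 * (2 ^ D * 2 ^ E) * q ^ (E + 2) := add_le_add h1 h2
      _ = _ := by ring
  calc 8 * (2 + 3 * n + (2 * n + 1) * (2 ^ D * ((n + 1) * (2 * n + 1) ^ E)) + 2 * b) *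
      (Z * (n + 2) ^ e₀) ^ 2
      ≤ 8 * ((5 + 2 * (2 ^ D * 2 ^ E)) * q ^ (E + 2)) * (Z * q ^ e₀) ^ 2 := by
        refine Nat.mul_le_mul (Nat.mul_le_mul_left _ h3) (Nat.pow_le_pow_left ?_ _)
        exact Nat.mul_le_mul_left _ (Nat.pow_le_pow_left (by omega) _)
    _ = (8 * (5 + 2 * (2 ^ D * 2 ^ E)) * Z ^ 2) * (q ^ (E + 2) * q ^ (2 * e₀)) := by
        rw [mul_pow, ← pow_mul, mul_comm e₀ 2]; ring
    _ ≤ q ^ k * (q ^ (E + 2) * q ^ (2 * e₀)) :=
        Nat.mul_le_mul_right _ (hk.trans (Nat.pow_le_pow_left hq2 _))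
    _ = q ^ (k + (E + 2) + 2 * e₀) := by rw [pow_add, pow_add]; ring

end AsmL

open AsmL in
open Classical in
theorem target_of (hSTR : S_STR) (hBASE : S_BASE) (hOPT : S_OPT) (hSAMPS : S_SAMPS)
    (hPATHS : S_PATHS) (hORC : S_ORC) (hHALL : S_HALL) (hSIZ : S_SIZES) (hPOLY : S_POLYS) :
    S_TARGET := by
  intro d al hal
  have hal0 : (0 : ℝ) < al := by exact_mod_cast hal
  set ε : ℝ := 1 / (8 * al) with hε
  have hε0 : 0 < ε := by rw [hε]; positivity
  obtain ⟨C, hC⟩ := hSTR d ε hε0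
  obtain ⟨c, η, R, r, K, e₀, hη, hB⟩ := hBASE d C ε hε0
  obtain ⟨D, hD⟩ := hC c η hη
  set Z : ℕ := 2 ^ (D + 1) * (8 * al) with hZ
  obtain ⟨e, he⟩ := num_q D (R + 2 * r + 1) e₀ Z
  refine ⟨learnS D R r K, PTime.of_poly (hPOLY D R r K), e, fun n b F hb hFn hF m hm => ?_⟩
  obtain ⟨ι, I, T, a, O, hsps, hf⟩ := hHALL n d F hFn hF
  obtain ⟨t, ht, htP⟩ := hD n ι I T a O hsps
  set S₀ := (n + 1) * (2 * n + 1) ^ (R + 2 * r + 1) with hS₀
  set S := 2 ^ D * S₀ with hS
  have hZ0 : (0 : ℝ) < Z := by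
    have : 0 < Z := by rw [hZ]; positivity
    exact_mod_cast this
  set Q : ℝ := ((n + 2 : ℕ) : ℝ) with hQ
  have hQ1 : (1 : ℝ) ≤ Q := by rw [hQ]; exact_mod_cast (by omega : 1 ≤ n + 2)
  set τ : ℝ := 1 / (Z * Q ^ e₀) with hτ
  have hτ0 : 0 < τ := by rw [hτ]; positivity
  have hm' := he n al b m hal hb hm
  have hm0 : 0 < m := lt_of_lt_of_le (pow_pos (by omega) _) hm
  have hmR : (0 : ℝ) < m := by exact_mod_cast hm0
  have hSle : S₀ ≤ S := by rw [hS]; exact Nat.le_mul_of_pos_left _ (by positivity)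
  have hs := hSAMPS n m b S (ff n F) τ hb hτ0 (by
    rw [hτ, div_pow, one_pow, mul_one_div, le_div_iff₀ (by positivity)]
    rw [hQ]
    exact_mod_cast hm')
  unfold Succeeds
  refine hs.trans ?_
  exact_mod_cast card_le_card fun X hX => by
    rw [mem_filter] at hX ⊢
    refine ⟨mem_univ _, ?_⟩
    have hG := hX.2
    have hex : examples F X = smp F X := rfl
    rw [hex]
    have hnv : nvars (smp F X) = n := by
      unfold nvars smp
      obtain ⟨m', rfl⟩ : ∃ m', m = m' + 1 := ⟨m - 1, by omega⟩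
      simp
    have hlearn : learnS D R r K (smp F X) = opt R r K n (smp F X) D [] := by
      unfold learnS
      rw [hnv]
    rw [hlearn]
    obtain ⟨o1, o2, o3, o4⟩ := hOPT R r K n (smp F X) D
    have h1 := o1 t [] ht
    rw [inCube_nil] at h1
    obtain ⟨p1, p2, _⟩ := hPATHS n t
    have hτe : τ * 2 ^ D * Q ^ e₀ ≤ 1 := by
      have h3 : τ * 2 ^ D * Q ^ e₀ = 2 ^ D / Z := by rw [hτ]; field_simp
      rw [h3, div_le_one hZ0, hZ]
      have h4 : 2 ^ D ≤ 2 ^ (D + 1) * (8 * al) := by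
        rw [pow_succ]
        calc 2 ^ D = 2 ^ D * 1 := (Nat.mul_one _).symm
          _ ≤ 2 ^ D * (2 * (8 * al)) := Nat.mul_le_mul_left _ (by omega)
          _ = _ := by ring
      exact_mod_cast h4
    have h2 : ((errc (opt R r K n (smp F X) D []) (smp F X) : ℕ) : ℝ) ≤
        m * (PP (Qb I T a O d C c η t) + 2 * ε * PP (fun _ : Cube n => True) +
          (lv t []).length * τ) := by
      rw [← p2 (Qb I T a O d C c η t), ← p2 (fun _ : Cube n => True), ← sum_split]
      refine le_trans (by exact_mod_cast h1) (sum_map_le _ _ _ fun ρ hρ => ?_)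
      exact leaf_le hPATHS hORC hSIZ hf hG hSle hm0 hτ0.le hε0.le
        (fun I T W neg M τ => hB n ι I T a O W neg M τ) hτe ht hρ
    have h5 : PP (Qb I T a O d C c η t) ≤ ε := htP
    have h6 := err_le hG (G := opt R r K n (smp F X) D [])
      (fun u hu l hl => o3 [] (by simp) u hu l hl) (o4 [])
    rw [PP_true] at h2
    have h7 : ((lv t []).length : ℝ) ≤ 2 ^ D := by
      have : (lv t []).length ≤ 2 ^ D := p1.trans (Nat.pow_le_pow_right (by norm_num) ht)
      exact_mod_cast this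
    have h8 : (2 ^ D + 1) * τ ≤ ε := by
      have h9 : τ ≤ 1 / Z := by
        rw [hτ]
        refine one_div_le_one_div_of_le hZ0 ?_
        exact le_mul_of_one_le_right hZ0.le (one_le_pow₀ hQ1)
      have h10 : (2 : ℝ) ^ D + 1 ≤ 2 ^ (D + 1) := by
        have : (1 : ℝ) ≤ 2 ^ D := one_le_pow₀ (by norm_num)
        rw [pow_succ]
        linarith
      calc (2 ^ D + 1) * τ ≤ 2 ^ (D + 1) * (1 / Z) :=
            mul_le_mul h10 h9 hτ0.le (by positivity)
        _ = ε := by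
            rw [hZ, hε]
            push_cast
            field_simp
    have h11 : (m : ℝ) * err n (opt R r K n (smp F X) D []) F ≤ m * (4 * ε) := by
      have h12 : ((lv t []).length : ℝ) * τ ≤ 2 ^ D * τ := mul_le_mul_of_nonneg_right h7 hτ0.le
      have h13 : (m : ℝ) * (PP (Qb I T a O d C c η t) + 2 * ε * 1 +
          (lv t []).length * τ) + m * τ ≤ m * (4 * ε) := by
        rw [← mul_add]
        refine mul_le_mul_of_nonneg_left ?_ hmR.le
        linarith
      linarith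
    have h14 := le_of_mul_le_mul_left h11 hmR
    refine h14.trans ?_
    rw [hε]
    rw [show 4 * (1 / (8 * (al : ℝ))) = 1 / (2 * al) by field_simp; norm_num]
    exact one_div_le_one_div_of_le hal0 (by linarith)

end Pool.Agent.Helper91K9.SP
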