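import Pool.Agent.Helper91K9.SP.Fam3

/-!
# The reduction of a term
-/

namespace Pool.Agent.Helper91K9.SP

open Pool.Agent.Helper91K9.DL Pool.Agent.Helper91K9.TW

namespace RedL

theorem termVal_mono {t t' : List (ℕ × Bool)} (h : ∀ l ∈ t', l ∈ t) {x : List Bool}
    (hx : termVal t x = true) : termVal t' x = true := by
  unfold termVal at *
  rw [List.all_eq_true] at *
  exact fun l hl => hx l (h l hl)

theorem mem_without (t α : List (ℕ × Bool)) (l : ℕ × Bool) :
    l ∈ without t α ↔ l ∈ t ∧ l ∉ α := by
  unfold without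
  rw [List.mem_filter]
  refine and_congr_right fun _ => ?_
  rw [Bool.not_eq_true', ← Bool.not_eq_true, List.any_eq_true]
  refine not_congr ⟨?_, fun h => ⟨l, h, by simp⟩⟩
  rintro ⟨l', h1, h2⟩
  simp only [Bool.and_eq_true, beq_iff_eq] at h2
  have h3 : l' = l := Prod.ext h2.1 h2.2
  rwa [← h3]

theorem imp_iff (neg : List (List Bool)) (ρ : List (ℕ × Bool)) :
    imp neg ρ = true ↔ ∀ x ∈ neg, ¬ termVal ρ x = true := by
  unfold imp
  rw [List.all_eq_true]
  refine forall₂_congr fun x _ => ?_
  cases termVal ρ x <;> simp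

theorem exists_of_not_imp (neg : List (List Bool)) (ρ : List (ℕ × Bool))
    (h : ¬ imp neg ρ = true) : ∃ x ∈ neg, termVal ρ x = true := by
  by_contra hcon
  push Not at hcon
  exact h ((imp_iff neg ρ).2 hcon)

theorem foldl_red (neg : List (List Bool)) (p cur : List (ℕ × Bool)) :
    (∀ l ∈ p.foldl (fun cur l => if imp neg (without cur [l]) then without cur [l] else cur) cur,
      l ∈ cur) ∧
    (imp neg cur = true → imp neg
      (p.foldl (fun cur l => if imp neg (without cur [l]) then without cur [l] else cur) cur) =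
        true) ∧
    ∀ l ∈ p,
      l ∈ p.foldl (fun cur l => if imp neg (without cur [l]) then without cur [l] else cur) cur →
      ∃ x ∈ neg, termVal (without
        (p.foldl (fun cur l => if imp neg (without cur [l]) then without cur [l] else cur) cur)
          [l]) x = true := by
  induction p generalizing cur with
  | nil => exact ⟨fun l hl => hl, fun h => h, fun l hl => absurd hl (by simp)⟩
  | cons l0 p ih =>
    rw [List.foldl_cons]
    by_cases h : imp neg (without cur [l0]) = true
    · rw [if_pos h]
      obtain ⟨h1, h2, h3⟩ := ih (without cur [l0])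
      refine ⟨fun l hl => ((mem_without _ _ _).1 (h1 l hl)).1, fun _ => h2 h, ?_⟩
      intro l hl hl'
      rcases List.mem_cons.1 hl with rfl | hl
      · exact absurd (List.mem_singleton.2 rfl) ((mem_without _ _ _).1 (h1 l hl')).2
      · exact h3 l hl hl'
    · rw [if_neg h]
      obtain ⟨h1, h2, h3⟩ := ih cur
      refine ⟨h1, h2, ?_⟩
      intro l hl hl'
      rcases List.mem_cons.1 hl with rfl | hl
      · obtain ⟨x, hx, hx'⟩ := exists_of_not_imp neg _ h
        refine ⟨x, hx, termVal_mono (fun l' hl' => ?_) hx'⟩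
        rw [mem_without] at hl' ⊢
        exact ⟨h1 _ hl'.1, hl'.2⟩
      · exact h3 l hl hl'

end RedL

open RedL in
theorem red_ok : S_RED := by
  intro neg t ht
  obtain ⟨h1, h2, h3⟩ := foldl_red neg t t
  exact ⟨h1, h2 ht, fun l hl => h3 l (h1 l hl) hl⟩

end Pool.Agent.Helper91K9.SP
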