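import Pool.Agent.Helper91K9.SP.Fam3
import Pool.Agent.Helper91K9.SP.Red

/-!
# The hypothesis which is learned for a nice family
-/

namespace Pool.Agent.Helper91K9.SP

open Finset Pool.Agent.Helper91K9.DL Pool.Agent.Helper91K9.TW

namespace BaseL

variable {n : ℕ} {ι : Type}

theorem nice_mono {I : Finset ι} {T : ι → Finset (Fin n)} {O : Fin n → ι → Prop} {d : ℕ} {C : ℝ}
    {c c' : ℕ} {η η' : ℝ} (h : Nice I T O d C c η) (hc : c' ≤ c) (hη : η ≤ η') :
    Nice I T O d C c' η' :=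
  ⟨h.sps, fun i hi => hc.trans (h.long i hi), h.mass, fun v => (h.nu v).trans hη⟩

theorem card_le (hCNT : S_CNT) {I : Finset ι} {T : ι → Finset (Fin n)} {O : Fin n → ι → Prop}
    {d c : ℕ} (h : Sps I T O d) (hl : ∀ i ∈ I, c ≤ (T i).card) (hc : 2 * d + 1 ≤ c) :
    I.card ≤ n := by
  have h1 := hCNT n ι I I T O d c univ h (subset_refl _) (fun i hi => by
    rw [inter_univ]; exact hl i hi)
  rw [card_univ, Fintype.card_fin] at h1
  have h2 : I.card * (d + 1) ≤ I.card * (c - d) := Nat.mul_le_mul_left _ (by omega)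
  have h3 : d * n ≤ (d + 1) * n := Nat.mul_le_mul_right _ (by omega)
  have h4 : I.card * (d + 1) ≤ n * (d + 1) := by
    calc _ ≤ _ := h2
      _ ≤ _ := h1
      _ ≤ _ := h3
      _ = _ := Nat.mul_comm _ _
  exact Nat.le_of_mul_le_mul_right h4 (by omega)

/-- A monotone sequence of subsets of a set with at most `n` elements stops. -/
theorem stops (f : ℕ → Finset ι) (hf : ∀ j, f j ⊆ f (j + 1)) (hn : ∀ j, (f j).card ≤ n) :
    ∃ j ≤ n, f (j + 1) = f j := by
  by_contra hcon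
  push Not at hcon
  have h : ∀ j ≤ n + 1, j ≤ (f j).card := by
    intro j
    induction j with
    | zero => intro _; exact Nat.zero_le _
    | succ j ih =>
      intro hj
      have h1 := ih (by omega)
      have h2 : (f j).card < (f (j + 1)).card := by
        refine card_lt_card ((ssubset_iff_subset_ne).2 ⟨hf j, fun h => hcon j (by omega) h.symm⟩)
      omega
  have := h (n + 1) le_rfl
  have := hn (n + 1)
  omega

theorem hh_mono {H H' : List (List (ℕ × Bool))} (h : ∀ t ∈ H, t ∈ H') {x : Cube n}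
    (hx : hh n H x) : hh n H' x := by
  obtain ⟨t, ht, htx⟩ := hx
  exact ⟨t, h t ht, htx⟩

theorem ct_zero {neg : List (List Bool)} {t : List (ℕ × Bool)} (h : imp neg t = true) :
    ct neg t = 0 := by
  unfold ct
  unfold imp at h
  rw [List.all_eq_true] at h
  rw [List.length_eq_zero_iff, List.filter_eq_nil_iff]
  intro x hx
  have := h x hx
  simpa using this

theorem orc_small {W : List ℕ} {neg : List (List Bool)} {f : Cube n → Prop} {M τ : ℝ} {S : ℕ}
    (hO : Orc n W neg f M τ S) (hM : 0 < M) {t : List (ℕ × Bool)} (ht : ∀ l ∈ t, l.1 ∈ W)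
    (hi : imp neg t = true) : PP (fun x => ¬ f x ∧ satL (UU n t) x) ≤ τ := by
  have h1 := (abs_le.1 (hO.one t ht)).1
  rw [ct_zero hi] at h1
  have h2 : M * PP (fun x => ¬ f x ∧ satL (UU n t) x) ≤ M * τ := by
    push_cast at h1
    linarith
  exact le_of_mul_le_mul_left h2 hM

theorem termVal_ofFn {t : List (ℕ × Bool)} {y : Cube n} (h : termVal t (List.ofFn y) = true)
    {v : Fin n} {b : Bool} (hl : ((v : ℕ), b) ∈ t) : y v = b := by
  unfold termVal at h
  rw [List.all_eq_true] at h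
  have := h _ hl
  simp only [beq_iff_eq] at this
  rw [← this]
  exact (getD_ofFn y v).symm

/-- The properties of the hypothesis which are used. -/
structure Hyp (n : ℕ) (W : List ℕ) (neg : List (List Bool)) (S : ℕ)
    (H : List (List (ℕ × Bool))) : Prop where
  len : H.length ≤ S
  imp : ∀ t ∈ H, imp neg t = true
  var : ∀ t ∈ H, ∀ l ∈ t, l.1 ∈ W
  prime : ∀ t ∈ H, ∀ l ∈ t, ∃ x ∈ neg, termVal (without t [l]) x = true

open Classical in
/-- One typical term which is not covered and not found. -/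
theorem one_term (hHU : S_HU) (hSTEP : S_STEP) (hRED : S_RED) {I : Finset ι}
    {T : ι → Finset (Fin n)} {a : ι → Cube n} {O : Fin n → ι → Prop} {W : List ℕ}
    {neg : List (List Bool)} {M τ : ℝ} {S : ℕ} {H : List (List (ℕ × Bool))} {d u g : ℕ}
    {q σ : ℝ} {J : Finset ι} {i : ι} {c₃ r₂ K R r : ℕ} {κ θ ζ : ℝ} (hi : i ∈ I)
    (hsps : Sps I T O d) (hW : ∀ w ∈ W, w < n) (hTW : ∀ i ∈ I, ∀ w ∈ T i, (w : ℕ) ∈ W)
    (hO : Orc n W neg (fun x => ¬ miss I T a x) M τ S) (hM : 0 < M) (hτ : 0 ≤ τ)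
    (hH : Hyp n W neg S H) (htyp : Typ I J T i d u g σ)
    (hgst : ∀ (V : Finset (Fin n)) (w : Cube n), V.card ≤ 2 * d + 2 → Disjoint V (un J T) →
      q * (1 / 2) ^ V.card ≤ PP (fun x => Gs I J T a x ∧ agr V w x))
    (hsig : ∀ (h hU : Cube n → Prop) (z₀ : Cube n),
      (∀ x y, agr (un J T) x y → (hU x ↔ hU y)) → (∀ x, hU x → ∃ j ∈ J, agr (T j) (a j) x) →
      PP (fun x => Gs I J T a x ∧ h x ∧ ¬ hU x) ≤ ζ * (1 / 2) ^ (un J T).card →
      agr (T i) (a i) z₀ → ¬ hU z₀ →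
      ∃ X ⊆ T i, (T i).card ≤ X.card + c₃ ∧ ∀ v ∈ X, O v i ∧
        (rs I T a O h v ≤ κ * (1 / 2) ^ (T i).card →
          Found (fun x => ¬ miss I T a x) h T a (un I T) i v c₃ r₂ K θ))
    (hK : 1 ≤ K) (hθ : 0 < θ) (hr₂ : r₂ ≤ R) (hc₃ : 4 * c₃ + 2 ≤ r)
    (n1 : τ * 2 ^ (un J T).card < q)
    (n2 : (S : ℝ) * τ * 2 ^ (un J T).card ≤ ζ * (1 / 2) ^ (un J T).card)
    (n3 : 16 * K * τ ≤ θ * (1 / 2) ^ (T i).card)
    (hnot : ¬ ∀ x, agr (T i) (a i) x → hh n (round R r (2 * K) W neg H) x) :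
    ∃ X ⊆ T i, (T i).card ≤ X.card + c₃ ∧
      ∀ v ∈ X, O v i ∧ κ * (1 / 2) ^ (T i).card ≤ rs I T a O (hh n H) v := by
  have hnot' : ¬ ∀ x, agr (T i) (a i) x → hh n H x := fun h => hnot fun x hx =>
    hh_mono (fun t ht => by unfold round; exact List.mem_append_left _ ht) (h x hx)
  push Not at hnot'
  obtain ⟨z₀, hz₀, hhz₀⟩ := hnot'
  -- the hypothesis as a set
  set 𝒽 : Finset (Finset (Fin n × Bool)) := (H.map (UU n)).toFinset with h𝒽
  have hmem : ∀ t, t ∈ 𝒽 ↔ ∃ t' ∈ H, UU n t' = t := fun t => by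
    rw [h𝒽, List.mem_toFinset, List.mem_map]
  have hhv : ∀ x, hv 𝒽 x ↔ hh n H x := fun x => by
    unfold hv hh
    constructor
    · rintro ⟨t, ht, htx⟩
      obtain ⟨t', ht', rfl⟩ := (hmem t).1 ht
      exact ⟨t', ht', htx⟩
    · rintro ⟨t, ht, htx⟩
      exact ⟨_, (hmem _).2 ⟨t, ht, rfl⟩, htx⟩
  have hcard : 𝒽.card ≤ S := by
    refine (List.toFinset_card_le _).trans ?_
    rw [List.length_map]
    exact hH.len
  have hUV : ∀ U : Finset (Fin n), (1 / 2 : ℝ) ^ U.card * 2 ^ U.card = 1 := fun U => by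
    rw [← mul_pow]; norm_num
  obtain ⟨hU, hU1, hU2, hU3, hU4⟩ := hHU n ι I J T a 𝒽 τ htyp.clo.sub hτ (fun t ht => by
      obtain ⟨t', ht', rfl⟩ := (hmem t).1 ht
      have := orc_small hO hM (hH.var t' ht') (hH.imp t' ht')
      simpa only [not_not] using this) (fun t ht l hl => by
      obtain ⟨t', ht', rfl⟩ := (hmem t).1 ht
      have hl' := (mem_UU _ _).1 hl
      obtain ⟨x, hx, hx2⟩ := hH.prime t' ht' _ hl'
      obtain ⟨y, rfl, hy⟩ := hO.pts x hx
      rw [not_not] at hy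
      refine ⟨y, hy, fun l₁ hl₁ => ?_⟩
      rw [mem_erase] at hl₁
      refine termVal_ofFn hx2 ?_
      rw [RedL.mem_without]
      refine ⟨(mem_UU _ _).1 hl₁.2, ?_⟩
      rw [List.mem_singleton, Prod.mk.injEq]
      rintro ⟨e1, e2⟩
      exact hl₁.1 (Prod.ext (Fin.ext e1) e2)) (by
      refine lt_of_lt_of_le n1 ?_
      have := hgst ∅ z₀ (by simp) (by simp)
      rw [card_empty, pow_zero, mul_one] at this
      exact this.trans (PP_mono fun x hx => hx.1))
  have hhU : ¬ hU z₀ := fun h => hhz₀ ((hhv z₀).1 (hU2 z₀ h))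
  obtain ⟨X, hXT, hXc, hX⟩ := hsig (hh n H) hU z₀ hU1 hU3 (by
    have h1 : PP (fun x => Gs I J T a x ∧ hh n H x ∧ ¬ hU x) ≤
        𝒽.card * τ * 2 ^ (un J T).card := by
      refine le_trans (PP_mono fun x hx => ?_) hU4
      exact ⟨hx.1, (hhv x).2 hx.2.1, hx.2.2⟩
    refine h1.trans (le_trans ?_ n2)
    refine mul_le_mul_of_nonneg_right ?_ (by positivity)
    exact mul_le_mul_of_nonneg_right (by exact_mod_cast hcard) hτ) hz₀ hhU
  refine ⟨X, hXT, hXc, fun v hv => ⟨(hX v hv).1, ?_⟩⟩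
  by_contra hlt
  push Not at hlt
  have hF := (hX v hv).2 hlt.le
  obtain ⟨t, ht, htl⟩ := hSTEP n ι T a W neg _ M τ S H (un I T) i v c₃ r₂ K R r θ hO hM hτ hK hW
    hH.len hH.var hH.imp hF (hXT hv) (fun w hw => by
      obtain ⟨k, hk, hwk⟩ := mem_biUnion.1 hw
      exact hTW k hk w hwk) (hTW i hi) hθ n3 hr₂ hc₃
  have himp : imp neg t = true := by
    rw [RedL.imp_iff]
    intro x hx hval
    obtain ⟨y, rfl, hy⟩ := hO.pts x hx
    rw [not_not] at hy
    exact hy i hi fun w hw => termVal_ofFn hval ((htl _).2 ⟨w, hw, rfl⟩)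
  refine hnot fun x hx => ⟨red neg t, ?_, ?_⟩
  · unfold round
    refine List.mem_append_right _ (List.mem_map.2 ⟨t, List.mem_filter.2 ⟨ht, himp⟩, rfl⟩)
  · rintro ⟨w', b⟩ hl
    have h1 := (hRED neg t himp).1 _ ((mem_UU _ _).1 hl)
    obtain ⟨w, hw, e⟩ := (htl _).1 h1
    rw [Prod.mk.injEq] at e
    have e1 : w' = w := Fin.ext e.1
    have e2 : b = a i w := e.2
    show x w' = b
    rw [e1, e2]
    exact hx w hw

theorem base_mono {R r K : ℕ} {W : List ℕ} {neg : List (List Bool)}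
    (h : ∀ j, base R r K W (j + 1) neg = round R r K W neg (base R r K W j neg)) {j j' : ℕ}
    (hj : j ≤ j') : ∀ t ∈ base R r K W j neg, t ∈ base R r K W j' neg := by
  induction j' with
  | zero =>
    have : j = 0 := by omega
    subst this
    exact fun t ht => ht
  | succ j' ih =>
    rcases Nat.lt_or_ge j' j with h1 | h1
    · have : j = j' + 1 := by omega
      subst this
      exact fun t ht => ht
    · intro t ht
      rw [h]
      unfold round
      exact List.mem_append_left _ (ih h1 t ht)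

theorem mass_sub {I J : Finset ι} {T : ι → Finset (Fin n)} (h : J ⊆ I) : mass J T ≤ mass I T := by
  unfold mass
  exact sum_le_sum_of_subset_of_nonneg h fun i _ _ => by positivity

open Classical in
theorem mass_union (I J : Finset ι) (T : ι → Finset (Fin n)) :
    mass (I ∪ J) T ≤ mass I T + mass J T := by
  unfold mass
  rw [← sum_union_inter]
  have : 0 ≤ ∑ i ∈ I ∩ J, (1 / 2 : ℝ) ^ (T i).card := sum_nonneg fun i _ => by positivity
  linarith

/-- The mass of the long terms. -/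
theorem mass_long {I : Finset ι} {T : ι → Finset (Fin n)} {L : ℕ} (h : ∀ i ∈ I, L ≤ (T i).card) :
    mass I T ≤ I.card * (1 / 2) ^ L := by
  unfold mass
  rw [← nsmul_eq_mul]
  exact sum_le_card_nsmul _ _ _ fun i hi => pow_le_pow_of_le_one (by norm_num) (by norm_num) (h i hi)

end BaseL

open BaseL in
open Classical in
theorem base_ok (hCNT : S_CNT) (hGST : S_GST) (hTYP : S_TYP) (hSIG : S_SIG) (hHU : S_HU)
    (hCONTR : S_CONTR) (hSTEP : S_STEP) (hRED : S_RED) (hSIZ : S_SIZES) : S_BASE := by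
  intro d C ε hε
  obtain ⟨u₀, c₀, σ, q, η₀, hσ, hq, hc₀, hη₀, hG⟩ := hGST d C
  obtain ⟨u, g, c₁, η₁, hu, hc₁, hη₁, hT⟩ := hTYP d C (ε / 4) σ (max u₀ (2 * d + 2)) (by linarith) hσ
  obtain ⟨c₃, r₂, K, κ, θ, ζ, hK, hκ, hθ, hζ, hS⟩ := hSIG d u g q hq
    ((le_max_right _ _).trans hu)
  obtain ⟨N₀, hN₀⟩ := pow_unbounded_of_one_lt (4 / ε) (by norm_num : (1 : ℝ) < 2)
  set R := r₂ with hR
  set r := 4 * c₃ + 2 with hr
  set E := R + 2 * r + 1 with hE
  set B : ℝ := 2 ^ (N₀ + 1 + 2 * d * u) with hB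
  have hB0 : 0 < B := by rw [hB]; positivity
  obtain ⟨e₂, he₂⟩ := pow_unbounded_of_one_lt
    (max (max (2 * B / q) (B ^ 2 / ζ)) (max (16 * K * B / θ) (1 / ε))) (by norm_num : (1 : ℝ) < 2)
  set c := max (max c₀ c₁) (max (2 * d + 1) (c₃ + 1 + ⌈2 * (d : ℝ) ^ 2 / κ⌉₊)) with hc
  refine ⟨c, min η₀ η₁, R, r, 2 * K, e₂ + (3 + 2 * E), lt_min hη₀ hη₁, ?_⟩
  intro n ι I T a O W neg M τ hN hWn hW hTW hO hM hτ hτe
  have hcc0 : c₀ ≤ c := (le_max_left _ _).trans (le_max_left _ _)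
  have hcc1 : c₁ ≤ c := (le_max_right _ _).trans (le_max_left _ _)
  have hcd : 2 * d + 1 ≤ c := (le_max_left _ _).trans (le_max_right _ _)
  have hcc3 : c₃ + 1 + ⌈2 * (d : ℝ) ^ 2 / κ⌉₊ ≤ c := (le_max_right _ _).trans (le_max_right _ _)
  have hN0 := nice_mono hN hcc0 (min_le_left _ _)
  have hN1 := nice_mono hN hcc1 (min_le_right _ _)
  have hIn : I.card ≤ n := card_le hCNT hN.sps hN.long hcd
  obtain ⟨Gd, hGd, hmG, hGt⟩ := hT n ι I T O hN1
  obtain ⟨hs1, hs2, hs3⟩ := hSIZ R r (2 * K) n W neg hWn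
  -- numbers
  set Q : ℝ := ((n + 2 : ℕ) : ℝ) with hQ
  have hQ2 : (2 : ℝ) ≤ Q := by rw [hQ]; push_cast; have : (0 : ℝ) ≤ n := Nat.cast_nonneg n; linarith
  have hQ1 : (1 : ℝ) ≤ Q := by linarith
  have hτc : ∀ (x : ℝ) (k : ℕ), x ≤ 2 ^ e₂ → k ≤ 3 + 2 * E → τ * (x * Q ^ k) ≤ 1 := by
    intro x k hx hk
    refine le_trans ?_ hτe
    refine mul_le_mul_of_nonneg_left ?_ hτ
    rw [pow_add]
    refine mul_le_mul ?_ (pow_le_pow_right₀ hQ1 hk) (by positivity) (by positivity)
    exact hx.trans (pow_le_pow_left₀ (by norm_num) hQ2 _)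
  have x1 : 2 * B / q ≤ 2 ^ e₂ := ((le_max_left _ _).trans (le_max_left _ _)).trans he₂.le
  have x2 : B ^ 2 / ζ ≤ 2 ^ e₂ := ((le_max_right _ _).trans (le_max_left _ _)).trans he₂.le
  have x3 : 16 * K * B / θ ≤ 2 ^ e₂ := ((le_max_left _ _).trans (le_max_right _ _)).trans he₂.le
  have x4 : 1 / ε ≤ 2 ^ e₂ := ((le_max_right _ _).trans (le_max_right _ _)).trans he₂.le
  set S := (n + 1) * (2 * n + 1) ^ (R + 2 * r + 1) with hSd
  have hSQ : (S : ℝ) ≤ Q ^ (1 + 2 * E) := by
    have h1 : S ≤ (n + 2) ^ (1 + 2 * E) := by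
      rw [hSd, ← hE, pow_add (n + 2), pow_one, pow_mul (n + 2)]
      refine Nat.mul_le_mul (by omega) (Nat.pow_le_pow_left ?_ _)
      nlinarith
    rw [hQ]
    exact_mod_cast h1
  set L₀ := Nat.log 2 (n + 2) + 1 + N₀ with hL₀
  have hL1 : Q * 2 ^ N₀ ≤ 2 ^ L₀ := by
    have h1 : n + 2 < 2 ^ (Nat.log 2 (n + 2) + 1) := Nat.lt_pow_succ_log_self (by norm_num) _
    have h2 : Q ≤ 2 ^ (Nat.log 2 (n + 2) + 1) := by rw [hQ]; exact_mod_cast h1.le
    rw [hL₀, pow_add]
    exact mul_le_mul_of_nonneg_right h2 (by positivity)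
  have hL2 : (2 : ℝ) ^ (L₀ + 2 * d * u) ≤ Q * B := by
    have h1 : 2 ^ Nat.log 2 (n + 2) ≤ n + 2 := Nat.pow_log_le_self 2 (by omega)
    have h2 : (2 : ℝ) ^ Nat.log 2 (n + 2) ≤ Q := by rw [hQ]; exact_mod_cast h1
    rw [hL₀, hB, show Nat.log 2 (n + 2) + 1 + N₀ + 2 * d * u =
      Nat.log 2 (n + 2) + (N₀ + 1 + 2 * d * u) by ring, pow_add]
    exact mul_le_mul_of_nonneg_right h2 (by positivity)
  have hL3 : (2 : ℝ) ^ L₀ ≤ Q * B := le_trans (pow_le_pow_right₀ (by norm_num) (by omega)) hL2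
  -- the terms which are typical and not long
  set Gd' := Gd.filter fun i => (T i).card ≤ L₀ with hGd'
  have hsub' : Gd' ⊆ I := (filter_subset _ _).trans hGd
  have hmass : mass (I \ Gd') T ≤ ε / 2 := by
    have h1 : I \ Gd' ⊆ (I \ Gd) ∪ I.filter fun i => L₀ ≤ (T i).card := by
      intro i hi
      rw [mem_sdiff, hGd', mem_filter, not_and] at hi
      rw [mem_union, mem_sdiff, mem_filter]
      by_cases hg : i ∈ Gd
      · right
        exact ⟨hi.1, by have := hi.2 hg; omega⟩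
      · left
        exact ⟨hi.1, hg⟩
    have h2 := (mass_sub (T := T) h1).trans (mass_union _ _ _)
    have h3 : mass (I.filter fun i => L₀ ≤ (T i).card) T ≤ ε / 4 := by
      refine (mass_long (L := L₀) fun i hi => (mem_filter.1 hi).2).trans ?_
      have h4 : ((I.filter fun i => L₀ ≤ (T i).card).card : ℝ) ≤ Q := by
        rw [hQ]
        exact_mod_cast (card_filter_le _ _).trans (hIn.trans (by omega))
      have h5 : (0 : ℝ) < 2 ^ L₀ := by positivity
      have h6 : (1 / 2 : ℝ) ^ L₀ = 1 / 2 ^ L₀ := by rw [div_pow, one_pow]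
      rw [h6, mul_one_div, div_le_iff₀ h5]
      refine h4.trans ?_
      have h7 : 4 / ε * (ε / 4) = 1 := by field_simp
      have h8 : ε / 4 * (Q * 2 ^ N₀) ≤ ε / 4 * 2 ^ L₀ :=
        mul_le_mul_of_nonneg_left hL1 (by linarith)
      have h9 : 1 * Q ≤ ε / 4 * 2 ^ N₀ * Q := by
        refine mul_le_mul_of_nonneg_right ?_ (by linarith)
        rw [← h7, mul_comm (4 / ε)]
        exact mul_le_mul_of_nonneg_left hN₀.le (by linarith)
      linarith
    linarith
  have hHyp : ∀ j ≤ n, Hyp n W neg S (base R r (2 * K) W j neg) := fun j hj =>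
    ⟨hs1 j (by omega), fun t ht => (hs3 j t ht).1, fun t ht => (hs3 j t ht).2.1,
      fun t ht => (hs3 j t ht).2.2⟩
  -- the rounds
  obtain ⟨j, hj, hstop⟩ := stops (n := n)
    (fun j => Gd'.filter fun i => ∀ x, agr (T i) (a i) x → hh n (base R r (2 * K) W j neg) x)
    (fun j i hi => by
      rw [mem_filter] at hi ⊢
      exact ⟨hi.1, fun x hx => hh_mono (base_mono hs2 (Nat.le_succ j)) (hi.2 x hx)⟩)
    (fun j => (card_filter_le _ _).trans ((card_le_card hsub').trans hIn))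
  have hcon := hCONTR n ι I Gd' T a O d c c₃ κ (hh n (base R r (2 * K) W j neg)) hN.sps hsub'
    hN.long (by omega) hκ (by
      have h1 : 2 * (d : ℝ) ^ 2 / κ ≤ ⌈2 * (d : ℝ) ^ 2 / κ⌉₊ := Nat.le_ceil _
      have h2 : ((c₃ + 1 + ⌈2 * (d : ℝ) ^ 2 / κ⌉₊ : ℕ) : ℝ) ≤ c := by exact_mod_cast hcc3
      push_cast at h2
      have h3 : 2 * (d : ℝ) ^ 2 / κ ≤ c - c₃ := by linarith
      rw [div_le_iff₀ hκ] at h3
      linarith) (fun i hi => by
      by_cases hcov : ∀ x, agr (T i) (a i) x → hh n (base R r (2 * K) W j neg) x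
      · exact Or.inl hcov
      right
      have hi' := mem_filter.1 hi
      obtain ⟨J, hJ⟩ := hGt i hi'.1
      have hgst := hG u g ((le_max_left _ _).trans hu) n ι I J T a O i hN0 hJ
      have hUc : (un J T).card ≤ L₀ + 2 * d * u := by
        have h1 : un J T ⊆ T i ∪ (un J T \ T i) := by
          intro w hw
          rw [mem_union, mem_sdiff]
          by_cases h : w ∈ T i
          · exact Or.inl h
          · exact Or.inr ⟨hw, h⟩
        have h2 := (card_le_card h1).trans (card_union_le _ _)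
        have h3 := hJ.clo.small
        have h4 := hi'.2
        omega
      have hU2 : (2 : ℝ) ^ (un J T).card ≤ Q * B :=
        le_trans (pow_le_pow_right₀ (by norm_num) hUc) hL2
      have hT2 : (2 : ℝ) ^ (T i).card ≤ Q * B :=
        le_trans (pow_le_pow_right₀ (by norm_num) hi'.2) hL3
      refine one_term hHU hSTEP hRED (hGd hi'.1) hN.sps hW hTW hO hM hτ (hHyp j hj) hJ hgst
        (fun h hU z₀ h1 h2 h3 h4 h5 => hS n ι I J T a O i h hU z₀ hN.sps hJ.clo hgst h1 h2 h3 h4 h5)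
        hK hθ le_rfl le_rfl ?_ ?_ ?_ ?_
      · have h1 := hτc _ 1 x1 (by omega)
        rw [pow_one] at h1
        have h2 : τ * 2 ^ (un J T).card ≤ τ * (Q * B) := mul_le_mul_of_nonneg_left hU2 hτ
        have h3 : τ * (Q * B) ≤ q / 2 := by
          have h4 : τ * (2 * B / q * Q) = τ * (Q * B) * (2 / q) := by ring
          rw [h4] at h1
          have h5 : τ * (Q * B) * (2 / q) * (q / 2) ≤ 1 * (q / 2) :=
            mul_le_mul_of_nonneg_right h1 (by linarith)
          have h6 : τ * (Q * B) * (2 / q) * (q / 2) = τ * (Q * B) := by field_simp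
          linarith
        linarith
      · have h1 := hτc _ (1 + 2 * E + 2) x2 (by omega)
        have h0 : (0 : ℝ) < 2 ^ (un J T).card := by positivity
        have h6 : (1 / 2 : ℝ) ^ (un J T).card = 1 / 2 ^ (un J T).card := by
          rw [div_pow, one_pow]
        rw [h6, mul_one_div, le_div_iff₀ h0]
        have h2 : (S : ℝ) * τ * 2 ^ (un J T).card * 2 ^ (un J T).card ≤
            Q ^ (1 + 2 * E) * τ * (Q * B) * (Q * B) := by
          refine mul_le_mul ?_ hU2 h0.le (by positivity)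
          refine mul_le_mul ?_ hU2 h0.le (by positivity)
          exact mul_le_mul_of_nonneg_right hSQ hτ
        refine h2.trans ?_
        have h4 : τ * (B ^ 2 / ζ * Q ^ (1 + 2 * E + 2)) =
            Q ^ (1 + 2 * E) * τ * (Q * B) * (Q * B) / ζ := by
          rw [pow_add Q (1 + 2 * E) 2]; ring
        rw [h4, div_le_one hζ] at h1
        exact h1
      · have h1 := hτc _ 1 x3 (by omega)
        rw [pow_one] at h1
        have h0 : (0 : ℝ) < 2 ^ (T i).card := by positivity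
        have h6 : (1 / 2 : ℝ) ^ (T i).card = 1 / 2 ^ (T i).card := by
          rw [div_pow, one_pow]
        rw [h6, mul_one_div, le_div_iff₀ h0]
        have h2 : 16 * (K : ℝ) * τ * 2 ^ (T i).card ≤ 16 * K * τ * (Q * B) :=
          mul_le_mul_of_nonneg_left hT2 (by positivity)
        refine h2.trans ?_
        have h4 : τ * (16 * K * B / θ * Q) = 16 * K * τ * (Q * B) / θ := by ring
        rw [h4, div_le_one hθ] at h1
        exact h1
      · intro hcov'
        have h1 : i ∈ Gd'.filter fun i => ∀ x, agr (T i) (a i) x →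
            hh n (base R r (2 * K) W (j + 1) neg) x := by
          rw [mem_filter]
          refine ⟨hi, ?_⟩
          rw [hs2]
          exact hcov'
        rw [hstop, mem_filter] at h1
        exact hcov h1.2)
  refine ⟨?_, ?_⟩
  · have h1 : PP (fun x => ¬ miss I T a x ∧ ¬ hh n (base R r (2 * K) W (n + 1) neg) x) ≤
        PP (fun x => ¬ miss I T a x ∧ ¬ hh n (base R r (2 * K) W j neg) x) :=
      PP_mono fun x hx => ⟨hx.1, fun h => hx.2 (hh_mono (base_mono hs2 (by omega)) h)⟩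
    linarith
  · have h1 : PP (fun x => miss I T a x ∧ hh n (base R r (2 * K) W (n + 1) neg) x) ≤
        PP (fun x => ∃ t ∈ (base R r (2 * K) W (n + 1) neg).toFinset,
          miss I T a x ∧ satL (UU n t) x) := by
      refine PP_mono fun x hx => ?_
      obtain ⟨t, ht, htx⟩ := hx.2
      exact ⟨t, List.mem_toFinset.2 ht, hx.1, htx⟩
    refine h1.trans ((PP_exists_le _ _).trans ?_)
    refine (sum_le_card_nsmul _ _ τ fun t ht => ?_).trans ?_
    · have ht' := List.mem_toFinset.1 ht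
      have := orc_small hO hM (hs3 _ t ht').2.1 (hs3 _ t ht').1
      simpa only [not_not] using this
    · rw [nsmul_eq_mul]
      have h2 : (((base R r (2 * K) W (n + 1) neg).toFinset.card : ℕ) : ℝ) ≤ S := by
        exact_mod_cast (List.toFinset_card_le _).trans (hs1 (n + 1) le_rfl)
      have h3 := hτc _ (1 + 2 * E) x4 (by omega)
      have h4 : (((base R r (2 * K) W (n + 1) neg).toFinset.card : ℕ) : ℝ) * τ ≤
          Q ^ (1 + 2 * E) * τ := mul_le_mul_of_nonneg_right (h2.trans hSQ) hτ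
      have h5 : τ * (1 / ε * Q ^ (1 + 2 * E)) = Q ^ (1 + 2 * E) * τ / ε := by ring
      rw [h5, div_le_one hε] at h3
      linarith

end Pool.Agent.Helper91K9.SP
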