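import Pool.Agent.Helper91K9.SP.Fam2

/-!
# Clusters of terms (leaf CLOS)
-/

namespace Pool.Agent.Helper91K9.SP

open Finset Pool.Agent.Helper91K9.DL

namespace ClosL

variable {n : ℕ} {ι : Type}

open Classical in
/-- The sets which are reached from `{i}` by the greedy process. -/
inductive Rch (I : Finset ι) (T : ι → Finset (Fin n)) (u g : ℕ) (i : ι) : ℕ → Finset ι → Prop
  | base : Rch I T u g i 0 {i}
  | step {t : ℕ} {J : Finset ι} {k : ι} : Rch I T u g i t J → k ∈ I → k ∉ J →
      (T k \ un J T).card ≤ u → (T i).card ≤ (T k).card + g → Rch I T u g i (t + 1) (insert k J)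

/-- Linked terms. -/
def lk (T : ι → Finset (Fin n)) (d : ℕ) (k l : ι) : Prop :=
  (T k).card ≤ 4 * (2 * d + 1) * (T l ∩ T k).card

open Classical in
/-- The neighbourhoods. -/
noncomputable def N (I : Finset ι) (T : ι → Finset (Fin n)) (d : ℕ) : ℕ → ι → Finset ι
  | 0, l => {l}
  | t + 1, l => N I T d t l ∪ (I.filter fun k => lk T d l k).biUnion (N I T d t)

variable {I : Finset ι} {T : ι → Finset (Fin n)} {O : Fin n → ι → Prop} {d u g c : ℕ} {i : ι}

theorem Rch.card {t : ℕ} {J : Finset ι} (h : Rch I T u g i t J) : J.card = t + 1 := by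
  classical
  induction h with
  | base => simp
  | step h1 h2 h3 h4 h5 ih => rw [card_insert_of_notMem h3, ih]

theorem Rch.sub {t : ℕ} {J : Finset ι} (h : Rch I T u g i t J) (hi : i ∈ I) : J ⊆ I := by
  classical
  induction h with
  | base => simpa using hi
  | step h1 h2 h3 h4 h5 ih => exact insert_subset h2 ih

theorem Rch.mem {t : ℕ} {J : Finset ι} (h : Rch I T u g i t J) : i ∈ J := by
  classical
  induction h with
  | base => simp
  | step h1 h2 h3 h4 h5 ih => exact mem_insert_of_mem ih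

theorem Rch.big {t : ℕ} {J : Finset ι} (h : Rch I T u g i t J) :
    ∀ k ∈ J, (T i).card ≤ (T k).card + g := by
  classical
  induction h with
  | base => intro k hk; rw [mem_singleton] at hk; subst hk; omega
  | step h1 h2 h3 h4 h5 ih =>
    intro k hk
    rcases mem_insert.1 hk with rfl | hk
    · exact h5
    · exact ih k hk

theorem Rch.small {t : ℕ} {J : Finset ι} (h : Rch I T u g i t J) :
    (un J T \ T i).card ≤ t * u := by
  classical
  induction h with
  | base => simp [un]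
  | @step t J k h1 h2 h3 h4 h5 ih =>
    have h6 : un (insert k J) T \ T i ⊆ (un J T \ T i) ∪ (T k \ un J T) := by
      intro v hv
      rw [mem_sdiff, un, mem_biUnion] at hv
      obtain ⟨⟨l, hl, hvl⟩, hv2⟩ := hv
      rw [mem_union, mem_sdiff, mem_sdiff]
      by_cases h7 : v ∈ un J T
      · exact Or.inl ⟨h7, hv2⟩
      · rcases mem_insert.1 hl with rfl | hl
        · exact Or.inr ⟨hvl, h7⟩
        · exact absurd (mem_biUnion.2 ⟨l, hl, hvl⟩) h7
    have h7 := card_le_card h6
    have h8 := card_union_le (un J T \ T i) (T k \ un J T)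
    nlinarith

theorem Rch.pre {t : ℕ} {J : Finset ι} (h : Rch I T u g i t J) :
    ∀ s ≤ t, ∃ J', Rch I T u g i s J' := by
  classical
  induction h with
  | base => intro s hs; obtain rfl : s = 0 := by omega
            exact ⟨_, Rch.base⟩
  | step h1 h2 h3 h4 h5 ih =>
    intro s hs
    rcases Nat.lt_or_ge s (_ + 1) with h6 | h6
    · exact ih s (Nat.lt_succ_iff.1 h6)
    · obtain rfl := le_antisymm hs h6
      exact ⟨_, Rch.step h1 h2 h3 h4 h5⟩

/-- The constant of the leaf. -/
def cc (d u g : ℕ) : ℕ :=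
  8 * (2 * d + 1) * (d + 1) + 2 * u + (2 * d + 2) * g + d * (2 * d + 2) + d * ((2 * d + 1) * u) + 1

theorem Rch.le (hcnt : S_CNT) (hs : Sps I T O d) (hc : ∀ i ∈ I, cc d u g ≤ (T i).card) (hi : i ∈ I)
    {t : ℕ} {J : Finset ι} (h : Rch I T u g i t J) : t ≤ 2 * d := by
  classical
  by_contra hlt
  obtain ⟨J', h'⟩ := h.pre (2 * d + 1) (by omega)
  have h1 : ∀ k ∈ J', (T i).card - g ≤ (T k ∩ un J' T).card := by
    intro k hk
    have h2 : T k ∩ un J' T = T k := by
      rw [inter_eq_left]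
      intro v hv
      exact mem_biUnion.2 ⟨k, hk, hv⟩
    rw [h2]
    have := h'.big k hk
    omega
  have h2 := hcnt n ι I J' T O d _ (un J' T) hs (h'.sub hi) h1
  have h3 := h'.small
  have h4 := h'.card
  have h5 : (un J' T).card ≤ (T i).card + (2 * d + 1) * u := by
    have h6 : un J' T ⊆ T i ∪ (un J' T \ T i) := by
      intro v hv
      rw [mem_union, mem_sdiff]
      by_cases h7 : v ∈ T i
      · exact Or.inl h7
      · exact Or.inr ⟨hv, h7⟩
    have h7 := (card_le_card h6).trans (card_union_le _ _)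
    omega
  have h6 := hc i hi
  unfold cc at h6
  rw [h4] at h2
  have h7 : (T i).card - g - d + (g + d) = (T i).card := by
    have : g ≤ (2 * d + 2) * g := by nlinarith
    have : d ≤ d * (2 * d + 2) := by nlinarith
    omega
  have h8 : (2 * d + 2) * ((T i).card - g - d) ≤ d * ((T i).card + (2 * d + 1) * u) := by
    calc (2 * d + 2) * ((T i).card - g - d) = (2 * d + 1 + 1) * ((T i).card - g - d) := by ring
      _ ≤ _ := h2.trans (Nat.mul_le_mul le_rfl h5)
  generalize (T i).card - g - d = y at h7 h8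
  generalize (T i).card = x at *
  subst h7
  nlinarith

theorem card_lk (hcnt : S_CNT) (hs : Sps I T O d) (hc : ∀ i ∈ I, cc d u g ≤ (T i).card) {k : ι}
    (hk : k ∈ I) [DecidablePred fun l => lk T d k l] :
    (I.filter fun l => lk T d k l).card ≤ 8 * (2 * d + 1) * d := by
  classical
  have h1 : ∀ l ∈ I.filter (fun l => lk T d k l),
      (T k).card / (4 * (2 * d + 1)) ≤ (T l ∩ T k).card := by
    intro l hl
    have h2 := (mem_filter.1 hl).2
    unfold lk at h2
    exact Nat.div_le_of_le_mul h2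
  have h2 := hcnt n ι I _ T O d _ (T k) hs (filter_subset _ _) h1
  have h3 := hc k hk
  unfold cc at h3
  have h4 : (T k).card < 4 * (2 * d + 1) * ((T k).card / (4 * (2 * d + 1)) + 1) :=
    Nat.lt_mul_div_succ _ (by omega)
  have h5 : d ≤ (T k).card / (4 * (2 * d + 1)) := by
    rw [Nat.le_div_iff_mul_le (by omega)]
    have : d * (4 * (2 * d + 1)) ≤ 8 * (2 * d + 1) * (d + 1) := by nlinarith
    omega
  generalize (T k).card / (4 * (2 * d + 1)) = s at h2 h4 h5
  generalize (I.filter fun l => lk T d k l).card = y at h2 ⊢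
  obtain ⟨r, rfl⟩ : ∃ r, s = d + r := ⟨s - d, by omega⟩
  rw [Nat.add_sub_cancel_left] at h2
  have h6 : (T k).card ≤ 8 * (2 * d + 1) * r := by
    have : 8 * (2 * d + 1) * (d + 1) ≤ (T k).card := by omega
    nlinarith
  have h7 : 0 < (T k).card := by omega
  have h8 : y * (T k).card ≤ (8 * (2 * d + 1) * d) * (T k).card := by
    calc y * (T k).card ≤ y * (8 * (2 * d + 1) * r) := Nat.mul_le_mul le_rfl h6
      _ = 8 * (2 * d + 1) * (y * r) := by ring
      _ ≤ 8 * (2 * d + 1) * (d * (T k).card) := Nat.mul_le_mul le_rfl h2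
      _ = _ := by ring
  exact Nat.le_of_mul_le_mul_right h8 h7

theorem N_mono_one (t : ℕ) (l : ι) : N I T d t l ⊆ N I T d (t + 1) l := by
  classical
  rw [N]
  exact subset_union_left

theorem N_mono {s t : ℕ} (h : s ≤ t) (l : ι) : N I T d s l ⊆ N I T d t l := by
  induction h with
  | refl => exact Subset.rfl
  | step _ ih => exact ih.trans (N_mono_one _ _)

theorem card_N (hcnt : S_CNT) (hs : Sps I T O d) (hc : ∀ i ∈ I, cc d u g ≤ (T i).card) :
    ∀ (t : ℕ) (k : ι), k ∈ I → (N I T d t k).card ≤ (8 * (2 * d + 1) * d + 1) ^ t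
  | 0, k, _ => by simp [N]
  | t + 1, k, hk => by
    classical
    rw [N]
    have h1 := card_N hcnt hs hc t k hk
    have h2 : ((I.filter fun l => lk T d k l).biUnion (N I T d t)).card ≤
        (8 * (2 * d + 1) * d) * (8 * (2 * d + 1) * d + 1) ^ t := by
      refine (card_biUnion_le_card_mul _ _ _ fun l hl => card_N hcnt hs hc t l (mem_filter.1 hl).1).trans ?_
      exact Nat.mul_le_mul (card_lk hcnt hs hc hk) le_rfl
    refine (card_union_le _ _).trans ?_
    rw [pow_succ]
    nlinarith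

/-- The pigeonhole. -/
theorem exists_lk {J : Finset ι} (hJ : J.card ≤ 2 * d + 1) (h0 : J.Nonempty) {k : ι}
    (hk : 2 * u ≤ (T k).card) (h : (T k \ un J T).card ≤ u) : ∃ l ∈ J, lk T d k l := by
  classical
  by_contra hn
  push Not at hn
  have h1 : (T k).card ≤ (T k \ un J T).card + (T k ∩ un J T).card := by
    rw [card_sdiff_add_card_inter]
  have h2 : (T k ∩ un J T).card ≤ ∑ l ∈ J, (T l ∩ T k).card := by
    have h3 : T k ∩ un J T = J.biUnion fun l => T l ∩ T k := by
      ext v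
      simp only [un, mem_inter, mem_biUnion]
      tauto
    rw [h3]
    exact card_biUnion_le
  have h3 : ∑ l ∈ J, (T l ∩ T k).card * (4 * (2 * d + 1)) < ∑ l ∈ J, (T k).card := by
    apply sum_lt_sum_of_nonempty h0
    intro l hl
    have h4 := hn l hl
    unfold lk at h4
    push Not at h4
    nlinarith
  rw [← sum_mul, sum_const, smul_eq_mul] at h3
  have h4 : J.card * (T k).card ≤ (2 * d + 1) * (T k).card := Nat.mul_le_mul hJ le_rfl
  generalize ∑ l ∈ J, (T l ∩ T k).card = y at h2 h3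
  have h5 : y * 4 < (T k).card := by
    by_contra h6
    push Not at h6
    nlinarith
  omega

theorem mem_N (hcnt : S_CNT) (hs : Sps I T O d) (hc : ∀ i ∈ I, cc d u g ≤ (T i).card) (hi : i ∈ I)
    {t : ℕ} {J : Finset ι} (h : Rch I T u g i t J) : ∀ l ∈ J, i ∈ N I T d t l := by
  classical
  induction h with
  | base => intro l hl; rw [mem_singleton] at hl; subst hl; simp [N]
  | @step t J k h1 h2 h3 h4 h5 ih =>
    intro l hl
    rcases mem_insert.1 hl with rfl | hl
    · have h6 := Rch.le hcnt hs hc hi h1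
      have h7 := hc l h2
      unfold cc at h7
      obtain ⟨m, hm, hlm⟩ := exists_lk (d := d) (by rw [h1.card]; omega) ⟨i, h1.mem⟩
        (by omega) h4
      rw [N, mem_union, mem_biUnion]
      exact Or.inr ⟨m, mem_filter.2 ⟨h1.sub hi hm, hlm⟩, ih m hm⟩
    · exact N_mono_one _ _ (ih l hl)

end ClosL

open ClosL in
theorem clos : S_CNT → S_CLOS := by
  classical
  intro hcnt d C δ hδ
  obtain ⟨g, hg⟩ : ∃ g : ℕ, ((8 * (2 * d + 1) * d + 1) ^ (2 * d + 1) : ℕ) * |C| * (1 / 2 : ℝ) ^ g ≤ δ := by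
    obtain ⟨g, hg⟩ := exists_pow_lt_of_lt_one
      (show (0 : ℝ) < δ / (((8 * (2 * d + 1) * d + 1) ^ (2 * d + 1) : ℕ) * |C| + 1) by positivity)
      (show (1 / 2 : ℝ) < 1 by norm_num)
    refine ⟨g, ?_⟩
    have h1 : (0 : ℝ) ≤ ((8 * (2 * d + 1) * d + 1) ^ (2 * d + 1) : ℕ) * |C| := by positivity
    generalize (((8 * (2 * d + 1) * d + 1) ^ (2 * d + 1) : ℕ) : ℝ) * |C| = y at *
    rw [lt_div_iff₀ (by linarith)] at hg
    have : (0 : ℝ) < (1 / 2) ^ g := by positivity
    nlinarith
  refine ⟨(8 * (2 * d + 1) * d + 1) ^ (2 * d + 1), g, fun u => ⟨cc d u g, by unfold cc; omega, ?_⟩⟩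
  intro n ι I T O hs hc hC
  have hex : ∀ i : ι, i ∈ I → ∃ (t : ℕ) (J : Finset ι), Rch I T u g i t J ∧
      ∀ t' J', Rch I T u g i t' J' → t' ≤ t := by
    intro i hi
    have h1 : ∃ t, ∃ J, Rch I T u g i t J := ⟨0, _, Rch.base⟩
    have h2 := Nat.findGreatest_spec (P := fun t => ∃ J, Rch I T u g i t J) (Nat.zero_le (2 * d))
      ⟨_, Rch.base⟩
    obtain ⟨J, hJ⟩ := h2
    refine ⟨_, J, hJ, fun t' J' h' => ?_⟩
    exact Nat.le_findGreatest (Rch.le hcnt hs hc hi h') ⟨J', h'⟩
  choose! tt J hJ hmax using hex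
  refine ⟨I.filter fun i => ∀ k ∈ I, k ∉ J i → u < (T k \ un (J i) T).card, J, filter_subset _ _,
    ?_, ?_, ?_⟩
  · -- the mass
    have h1 : ∀ i ∈ I \ (I.filter fun i => ∀ k ∈ I, k ∉ J i → u < (T k \ un (J i) T).card),
        ∃ k ∈ I, i ∈ N I T d (2 * d + 1) k ∧ (T k).card + g ≤ (T i).card := by
      intro i hi
      rw [mem_sdiff, mem_filter, not_and] at hi
      obtain ⟨hi, h2⟩ := hi
      have h3 := h2 hi
      push Not at h3
      obtain ⟨k, hk, hkJ, h4⟩ := h3
      have h5 := hJ i hi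
      have h6 := Rch.le hcnt hs hc hi h5
      have h7 := hc k hk
      unfold cc at h7
      refine ⟨k, hk, ?_, ?_⟩
      · obtain ⟨m, hm, hlm⟩ := exists_lk (d := d) (by rw [h5.card]; omega) ⟨i, h5.mem⟩
          (by omega) h4
        rw [N, mem_union, mem_biUnion]
        exact Or.inr ⟨m, mem_filter.2 ⟨h5.sub hi hm, hlm⟩, N_mono h6 _ (mem_N hcnt hs hc hi h5 m hm)⟩
      · by_contra h8
        have h9 := hmax i hi _ _ (Rch.step h5 hk hkJ h4 (by omega))
        omega
    choose! kk hk1 hk2 hk3 using h1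
    set Bd := I \ (I.filter fun i => ∀ k ∈ I, k ∉ J i → u < (T k \ un (J i) T).card) with hBd
    have h2 : mass Bd T ≤ ∑ k ∈ I, ∑ i ∈ Bd.filter (fun i => kk i = k), (1 / 2 : ℝ) ^ (T i).card := by
      unfold mass
      rw [← sum_fiberwise_of_maps_to (g := kk) (fun i hi => hk1 i hi)]
    have h3 : ∀ k ∈ I, ∑ i ∈ Bd.filter (fun i => kk i = k), (1 / 2 : ℝ) ^ (T i).card ≤
        ((8 * (2 * d + 1) * d + 1) ^ (2 * d + 1) : ℕ) * ((1 / 2 : ℝ) ^ g * (1 / 2 : ℝ) ^ (T k).card) := by
      intro k hk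
      have h4 : ∀ i ∈ Bd.filter (fun i => kk i = k), (1 / 2 : ℝ) ^ (T i).card ≤
          (1 / 2 : ℝ) ^ g * (1 / 2 : ℝ) ^ (T k).card := by
        intro i hi
        rw [mem_filter] at hi
        have h5 := hk3 i hi.1
        rw [hi.2] at h5
        rw [← pow_add]
        exact pow_le_pow_of_le_one (by norm_num) (by norm_num) (by omega)
      refine (sum_le_card_nsmul _ _ _ h4).trans ?_
      rw [nsmul_eq_mul]
      apply mul_le_mul_of_nonneg_right _ (by positivity)
      have h5 : (Bd.filter (fun i => kk i = k)).card ≤ (N I T d (2 * d + 1) k).card := by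
        apply card_le_card
        intro i hi
        rw [mem_filter] at hi
        have h5 := hk2 i hi.1
        rw [hi.2] at h5
        exact h5
      exact_mod_cast h5.trans (card_N hcnt hs hc _ k hk)
    have h4 := h2.trans (sum_le_sum h3)
    rw [← mul_sum, ← mul_sum] at h4
    have h5 : ∑ k ∈ I, (1 / 2 : ℝ) ^ (T k).card ≤ |C| := hC.trans (le_abs_self C)
    refine h4.trans (le_trans ?_ hg)
    have h6 : (0 : ℝ) ≤ (((8 * (2 * d + 1) * d + 1) ^ (2 * d + 1) : ℕ) : ℝ) := by positivity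
    have h7 : (0 : ℝ) ≤ (1 / 2 : ℝ) ^ g := by positivity
    calc _ ≤ (((8 * (2 * d + 1) * d + 1) ^ (2 * d + 1) : ℕ) : ℝ) * ((1 / 2 : ℝ) ^ g * |C|) :=
          mul_le_mul_of_nonneg_left (mul_le_mul_of_nonneg_left h5 h7) h6
      _ = _ := by ring
  · intro i hi
    rw [mem_filter] at hi
    obtain ⟨hi, h1⟩ := hi
    have h5 := hJ i hi
    have h6 := Rch.le hcnt hs hc hi h5
    exact ⟨h5.sub hi, h5.mem, by rw [h5.card]; omega, h1, h5.big,
      h5.small.trans (Nat.mul_le_mul h6 le_rfl)⟩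
  · intro l
    by_cases hl : l ∈ I
    · refine le_trans (card_le_card ?_) (card_N hcnt hs hc (2 * d + 1) l hl)
      intro i hi
      rw [mem_filter, mem_filter] at hi
      obtain ⟨⟨hi, -⟩, h1⟩ := hi
      have h5 := hJ i hi
      have h6 := Rch.le hcnt hs hc hi h5
      exact N_mono (by omega) _ (mem_N hcnt hs hc hi h5 l h1)
    · rw [card_eq_zero.2]
      · omega
      · rw [filter_eq_empty_iff]
        intro i hi h1
        rw [mem_filter] at hi
        exact hl ((hJ i hi.1).sub hi.1 h1)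

end Pool.Agent.Helper91K9.SP
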