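import Pool.Agent.Helper91K9.SP.Fam

/-!
# Sparse families: counting terms with large intersection
-/

set_option autoImplicit false

namespace Pool.Agent.Helper91K9.SP

open Finset Pool.Agent.Helper91K9.DL

theorem cnt : S_CNT := by
  classical
  intro n ι I J T O d s U hS hJ hs
  have h1 : ∑ i ∈ J, (U.filter fun v => v ∈ T i ∧ O v i).card =
      ∑ v ∈ U, (J.filter fun i => v ∈ T i ∧ O v i).card :=
    sum_card_bipartiteAbove_eq_sum_card_bipartiteBelow (fun i v => v ∈ T i ∧ O v i)
  have h2 : ∀ i ∈ J, s - d ≤ (U.filter fun v => v ∈ T i ∧ O v i).card := by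
    intro i hi
    have h3 : T i ∩ U ⊆ (U.filter fun v => v ∈ T i ∧ O v i) ∪ ((T i).filter fun v => ¬ O v i) := by
      intro v hv
      rw [mem_inter] at hv
      rw [mem_union, mem_filter, mem_filter]
      by_cases h4 : O v i
      · exact Or.inl ⟨hv.2, hv.1, h4⟩
      · exact Or.inr ⟨hv.1, h4⟩
    have h4 := (hs i hi).trans ((card_le_card h3).trans (card_union_le _ _))
    have h5 := hS.exit i (hJ hi)
    have h6 : ((T i).filter fun v => ¬ O v i).card ≤ d := by convert h5
    omega
  have h3 : ∀ v ∈ U, (J.filter fun i => v ∈ T i ∧ O v i).card ≤ d := by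
    intro v _
    have h4 := hS.own v
    refine le_trans (card_le_card (filter_subset_filter _ hJ)) ?_
    convert h4
  calc J.card * (s - d) = ∑ i ∈ J, (s - d) := by rw [sum_const, smul_eq_mul]
    _ ≤ ∑ i ∈ J, (U.filter fun v => v ∈ T i ∧ O v i).card := sum_le_sum h2
    _ = _ := h1
    _ ≤ ∑ v ∈ U, d := sum_le_sum h3
    _ = d * U.card := by rw [sum_const, smul_eq_mul, mul_comm]

end Pool.Agent.Helper91K9.SP
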