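import Pool.Agent.Helper91K9.SP.Fam2

/-!
# If no typical term is detected then almost everything is covered
-/

set_option autoImplicit false

namespace Pool.Agent.Helper91K9.SP

open Finset Pool.Agent.Helper91K9.DL

namespace ContrL

variable {n : ℕ} {ι : Type}

open Classical in
/-- Double counting. -/
theorem swap (I : Finset ι) (P : Fin n → ι → Prop) (T : ι → Finset (Fin n)) (y : Fin n → ℝ) :
    ∑ i ∈ I, ∑ v ∈ (T i).filter (fun v => P v i), y v =
      ∑ v, ((I.filter fun i => v ∈ T i ∧ P v i).card : ℝ) * y v := by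
  have h1 : ∀ i ∈ I, ∑ v ∈ (T i).filter (fun v => P v i), y v =
      ∑ v, if v ∈ T i ∧ P v i then y v else 0 := by
    intro i _
    rw [← sum_filter]
    refine sum_congr ?_ fun _ _ => rfl
    ext v; simp
  rw [sum_congr rfl h1, sum_comm]
  refine sum_congr rfl fun v _ => ?_
  rw [← sum_filter, sum_const, nsmul_eq_mul]

open Classical in
/-- Double counting. -/
theorem swap2 (I : Finset ι) (P : Fin n → ι → Prop) (T : ι → Finset (Fin n)) (z : ι → ℝ) :
    ∑ v : Fin n, ∑ i ∈ I.filter (fun i => v ∈ T i ∧ P v i), z i =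
      ∑ i ∈ I, (((T i).filter fun v => P v i).card : ℝ) * z i := by
  have h1 : ∀ v : Fin n, ∑ i ∈ I.filter (fun i => v ∈ T i ∧ P v i), z i =
      ∑ i ∈ I, if v ∈ T i ∧ P v i then z i else 0 := fun v => sum_filter _ _
  rw [sum_congr rfl fun v _ => h1 v, sum_comm]
  refine sum_congr rfl fun i _ => ?_
  rw [← sum_filter, sum_const, nsmul_eq_mul]
  congr 2
  congr 1
  ext v; simp

end ContrL

open ContrL in
theorem contr : S_CONTR := by
  classical
  intro n ι I Gd T a O d c c₃ κ h hS hG hc hc3 hκ hd hmain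
  obtain ⟨z, hz⟩ : ∃ z : ι → ℝ, z = fun k => PP (fun x => agr (T k) (a k) x ∧ ¬ h x) := ⟨_, rfl⟩
  have hz0 : ∀ k, 0 ≤ z k := fun k => by rw [hz]; exact PP_nonneg _
  have hz1 : ∀ k, z k ≤ (1 / 2) ^ (T k).card := fun k => by
    rw [hz, ← PP_agr (T k) (a k)]
    exact PP_mono fun x hx => hx.1
  have hrs : ∀ v, rs I T a O h v = ∑ k ∈ I.filter (fun k => v ∈ T k ∧ ¬ O v k), z k := fun v => by
    rw [hz]; rfl
  have hrs0 : ∀ v, 0 ≤ rs I T a O h v := fun v => by
    rw [hrs]; exact sum_nonneg fun k _ => hz0 k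
  have h1 : PP (fun x => ¬ miss I T a x ∧ ¬ h x) ≤ ∑ k ∈ I, z k := by
    rw [hz]
    refine le_trans (PP_mono fun x hx => ?_) (PP_exists_le I _)
    obtain ⟨g1, g2⟩ := hx
    unfold miss at g1
    push Not at g1
    obtain ⟨k, hk, g3⟩ := g1
    exact ⟨k, hk, g3, g2⟩
  have h2 : ∑ k ∈ I, z k ≤ ∑ k ∈ Gd, z k + mass (I \ Gd) T := by
    rw [← sum_sdiff hG, add_comm]
    refine add_le_add_right ?_ _
    unfold mass
    exact sum_le_sum fun k _ => hz1 k
  have hM0 : (0 : ℝ) < κ * (c - c₃) := by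
    have : (c₃ : ℝ) < c := by exact_mod_cast hc3
    exact mul_pos hκ (by linarith)
  have h3 : ∀ k ∈ Gd, κ * (c - c₃) * z k ≤
      ∑ v ∈ (T k).filter (fun v => O v k), rs I T a O h v := by
    intro k hk
    have hs0 : 0 ≤ ∑ v ∈ (T k).filter (fun v => O v k), rs I T a O h v :=
      sum_nonneg fun v _ => hrs0 v
    rcases hmain k hk with hcov | ⟨X, hX, hXc, hXv⟩
    · have : z k = 0 := by
        rw [hz]
        have h5 : PP (fun x => agr (T k) (a k) x ∧ ¬ h x) = PP (fun _ : Cube n => False) :=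
          PP_congr fun x => ⟨fun g => g.2 (hcov x g.1), fun g => g.elim⟩
        simp only
        rw [h5, PP_eq]; simp
      rw [this, mul_zero]
      exact hs0
    · have e1 : ∑ v ∈ X, κ * (1 / 2 : ℝ) ^ (T k).card ≤ ∑ v ∈ X, rs I T a O h v :=
        sum_le_sum fun v hv => (hXv v hv).2
      rw [sum_const, nsmul_eq_mul] at e1
      have e2 : ∑ v ∈ X, rs I T a O h v ≤
          ∑ v ∈ (T k).filter (fun v => O v k), rs I T a O h v :=
        sum_le_sum_of_subset_of_nonneg (fun v hv => mem_filter.2 ⟨hX hv, (hXv v hv).1⟩)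
          fun v _ _ => hrs0 v
      have e3 : ((c : ℝ) - c₃) ≤ X.card := by
        have e4 : c ≤ X.card + c₃ := (hc k (hG hk)).trans hXc
        have e5 : (c : ℝ) ≤ X.card + c₃ := by exact_mod_cast e4
        linarith
      have e6 : κ * (c - c₃) * z k ≤ X.card * (κ * (1 / 2) ^ (T k).card) := by
        calc κ * (c - c₃) * z k ≤ κ * (c - c₃) * (1 / 2) ^ (T k).card :=
              mul_le_mul_of_nonneg_left (hz1 k) hM0.le
          _ = ((c : ℝ) - c₃) * (κ * (1 / 2) ^ (T k).card) := by ring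
          _ ≤ X.card * (κ * (1 / 2) ^ (T k).card) :=
              mul_le_mul_of_nonneg_right e3 (by positivity)
      linarith
  have h4 : κ * (c - c₃) * ∑ k ∈ Gd, z k ≤ d * ∑ v, rs I T a O h v := by
    calc κ * (c - c₃) * ∑ k ∈ Gd, z k = ∑ k ∈ Gd, κ * (c - c₃) * z k := by rw [mul_sum]
      _ ≤ ∑ k ∈ Gd, ∑ v ∈ (T k).filter (fun v => O v k), rs I T a O h v := sum_le_sum h3
      _ ≤ ∑ k ∈ I, ∑ v ∈ (T k).filter (fun v => O v k), rs I T a O h v :=
          sum_le_sum_of_subset_of_nonneg hG fun k _ _ => sum_nonneg fun v _ => hrs0 v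
      _ = ∑ v, ((I.filter fun i => v ∈ T i ∧ O v i).card : ℝ) * rs I T a O h v :=
          swap I O T _
      _ ≤ ∑ v, (d : ℝ) * rs I T a O h v := sum_le_sum fun v _ =>
          mul_le_mul_of_nonneg_right (by exact_mod_cast hS.own v) (hrs0 v)
      _ = d * ∑ v, rs I T a O h v := by rw [mul_sum]
  have h5 : ∑ v, rs I T a O h v ≤ d * ∑ k ∈ I, z k := by
    calc ∑ v, rs I T a O h v = ∑ v : Fin n, ∑ k ∈ I.filter (fun k => v ∈ T k ∧ ¬ O v k), z k :=
          sum_congr rfl fun v _ => hrs v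
      _ = ∑ k ∈ I, (((T k).filter fun v => ¬ O v k).card : ℝ) * z k :=
          by convert swap2 I (fun v k => ¬ O v k) T z
      _ ≤ ∑ k ∈ I, (d : ℝ) * z k := sum_le_sum fun k hk =>
          mul_le_mul_of_nonneg_right (by exact_mod_cast hS.exit k hk) (hz0 k)
      _ = d * ∑ k ∈ I, z k := by rw [mul_sum]
  have hZ0 : 0 ≤ ∑ k ∈ I, z k := sum_nonneg fun k _ => hz0 k
  have h6 : κ * (c - c₃) * ∑ k ∈ Gd, z k ≤ κ * (c - c₃) * ((∑ k ∈ I, z k) / 2) := by
    have e1 : (d : ℝ) * ∑ v, rs I T a O h v ≤ d * (d * ∑ k ∈ I, z k) :=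
      mul_le_mul_of_nonneg_left h5 (by positivity)
    have e2 : 2 * (d : ℝ) ^ 2 * ((∑ k ∈ I, z k) / 2) ≤
        κ * (c - c₃) * ((∑ k ∈ I, z k) / 2) :=
      mul_le_mul_of_nonneg_right hd (by linarith)
    have e3 : (d : ℝ) * (d * ∑ k ∈ I, z k) = 2 * (d : ℝ) ^ 2 * ((∑ k ∈ I, z k) / 2) := by ring
    linarith
  have h7 := le_of_mul_le_mul_left h6 hM0
  linarith

end Pool.Agent.Helper91K9.SP
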