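import Pool.Agent.Helper91K9.DL.Defs2
import Pool.Agent.Helper91K9.TW.Defs

/-!
# The learning algorithm for DNF formulas with sparse incidence graph
-/

namespace Pool.Agent.Helper91K9.SP

open Pool.Agent.NPC Pool.Agent.Helper91K9.DL Pool.Agent.Helper91K9.TW

/-- The literals on the variables in `W`. -/
def litsW (W : List ℕ) : List (ℕ × Bool) := W.flatMap fun j => [(j, true), (j, false)]

/-- The lists of at most `r` literals on the variables in `W`. -/
def partsW (W : List ℕ) : ℕ → List (List (ℕ × Bool))
  | 0 => [[]]
  | r + 1 => partsW W r ++ (partsW W r).flatMap fun ρ => (litsW W).map (· :: ρ)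

/-- The value of the term `t` at the point `x` with the coordinate `i` changed. -/
def flipVal (i : ℕ) (t : List (ℕ × Bool)) (x : List Bool) : Bool :=
  t.all fun l => (if l.1 = i then !(x.getD l.1 false) else x.getD l.1 false) == l.2

/-- The negative examples at which a change of the coordinate `i` does not satisfy `H`. -/
def calm (neg : List (List Bool)) (H : List (List (ℕ × Bool))) (i : ℕ) : List (List Bool) :=
  neg.filter fun x => !(H.any fun t => flipVal i t x)

/-- The literals `l` which pass the test `K D(γ, not l) ≤ D(γ)`, where `D` is the number of the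
examples with `x_i ≠ s` minus the number of those with `x_i = s`. -/
def hat (K : ℕ) (W : List ℕ) (ng : List (List Bool)) (i : ℕ) (s : Bool) (γ : List (ℕ × Bool)) :
    List (ℕ × Bool) :=
  (litsW W).filter fun l => decide (K * ct ng ((i, !s) :: (l.1, !l.2) :: γ) + ct ng ((i, s) :: γ) ≤
    ct ng ((i, !s) :: γ) + K * ct ng ((i, s) :: (l.1, !l.2) :: γ))

/-- `t` without the literals of `α`. -/
def without (t α : List (ℕ × Bool)) : List (ℕ × Bool) :=
  t.filter fun l => !(α.any fun l' => l'.1 == l.1 && l'.2 == l.2)

/-- Literals are removed one after the other as long as no negative example satisfies the term. -/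
def red (neg : List (List Bool)) (t : List (ℕ × Bool)) : List (ℕ × Bool) :=
  t.foldl (fun cur l => if imp neg (without cur [l]) then without cur [l] else cur) t

/-- The candidate terms, given the hypothesis `H`. -/
def cand (R r K : ℕ) (W : List ℕ) (neg : List (List Bool)) (H : List (List (ℕ × Bool))) :
    List (List (ℕ × Bool)) :=
  (partsW W R).flatMap fun γ => W.flatMap fun i => [true, false].flatMap fun s =>
    (partsW W r).flatMap fun α => (partsW W r).map fun β =>
      without (hat K W (calm neg H i) i s γ) α ++ β

/-- One round. -/
def round (R r K : ℕ) (W : List ℕ) (neg : List (List Bool)) (H : List (List (ℕ × Bool))) :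
    List (List (ℕ × Bool)) :=
  H ++ ((cand R r K W neg H).filter (imp neg)).map (red neg)

/-- `N` rounds. -/
def base (R r K : ℕ) (W : List ℕ) (N : ℕ) (neg : List (List Bool)) : List (List (ℕ × Bool)) :=
  (List.range N).foldl (fun H _ => round R r K W neg H) []

/-- The examples in the subcube `ρ`. -/
def inCube (ρ : List (ℕ × Bool)) (s : List (List Bool × Bool)) : List (List Bool × Bool) :=
  s.filter fun e => termVal ρ e.1

/-- The number of examples on which `G` is wrong. -/
def errc (G : List (List (ℕ × Bool))) (s : List (List Bool × Bool)) : ℕ :=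
  (s.filter fun e => !(dnfVal G e.1 == e.2)).length

/-- The better one of two hypotheses. -/
def pick (A B : List (List (ℕ × Bool))) (s : List (List Bool × Bool)) : List (List (ℕ × Bool)) :=
  if errc A s ≤ errc B s then A else B

/-- The variables below `n` which do not occur in `ρ`. -/
def free (n : ℕ) (ρ : List (ℕ × Bool)) : List ℕ :=
  (List.range n).filter fun v => !(ρ.any fun l => l.1 == v)

/-- The local hypothesis for the subcube `ρ`: constant, or learned. -/
def loc (R r K n : ℕ) (s : List (List Bool × Bool)) (ρ : List (ℕ × Bool)) :
    List (List (ℕ × Bool)) :=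
  pick [ρ] ((base R r K (free n ρ) (n + 1) (negs (inCube ρ s))).map (ρ ++ ·)) (inCube ρ s)

/-- The best hypothesis given by a decision tree of depth at most `k` for the subcube `ρ`. -/
def opt (R r K n : ℕ) (s : List (List Bool × Bool)) : ℕ → List (ℕ × Bool) →
    List (List (ℕ × Bool))
  | 0, ρ => loc R r K n s ρ
  | k + 1, ρ => (List.range n).foldl (fun G v =>
      pick G (opt R r K n s k ((v, true) :: ρ) ++ opt R r K n s k ((v, false) :: ρ)) (inCube ρ s))
      (loc R r K n s ρ)

/-- The learning algorithm; `D`, `R`, `r`, `K` are constants. -/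
def learnS (D R r K : ℕ) (s : List (List Bool × Bool)) : List (List (ℕ × Bool)) :=
  opt R r K (nvars s) s D []

/-- Leaf POLYS: the algorithm runs in polynomial time. -/
def S_POLYS : Prop := ∀ D R r K : ℕ, Poly (learnS D R r K)

end Pool.Agent.Helper91K9.SP
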