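import Pool.Agent.Helper91K9.DL.Indep

/-!
# Sparse families of subcubes

A family of subcubes (terms) is given by a finite set `I` of indices, the sets `T i` of variables and
the points `a i`; the subcube `i` consists of the points `x` with `agr (T i) (a i) x`.  The
incidences `v ∈ T i` are divided into two classes by the relation `O`: if `O v i` then we say that `v`
owns `i`, otherwise that `v` is an exit of `i`.
-/

namespace Pool.Agent.Helper91K9.SP

open Finset Pool.Agent.Helper91K9.DL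

variable {n : ℕ} {ι : Type}

open Classical in
/-- Every variable owns at most `d` terms, and every term has at most `d` exits. -/
structure Sps (I : Finset ι) (T : ι → Finset (Fin n)) (O : Fin n → ι → Prop) (d : ℕ) : Prop where
  own : ∀ v, (I.filter fun i => v ∈ T i ∧ O v i).card ≤ d
  exit : ∀ i ∈ I, ((T i).filter fun v => ¬ O v i).card ≤ d

/-- The mass: the expected number of satisfied terms. -/
noncomputable def mass (I : Finset ι) (T : ι → Finset (Fin n)) : ℝ := ∑ i ∈ I, (1 / 2 : ℝ) ^ (T i).card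

open Classical in
/-- The mass of the terms which contain the variable `v`. -/
noncomputable def mu (I : Finset ι) (T : ι → Finset (Fin n)) (v : Fin n) : ℝ :=
  mass (I.filter fun i => v ∈ T i) T

open Classical in
/-- The mass of the terms with the exit `v`. -/
noncomputable def nu (I : Finset ι) (T : ι → Finset (Fin n)) (O : Fin n → ι → Prop) (v : Fin n) : ℝ :=
  mass (I.filter fun i => v ∈ T i ∧ ¬ O v i) T

/-- No term is satisfied. -/
def miss (I : Finset ι) (T : ι → Finset (Fin n)) (a : ι → Cube n) (x : Cube n) : Prop :=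
  ∀ i ∈ I, ¬ agr (T i) (a i) x

/-- Nice families: sparse, long terms, small masses. -/
structure Nice (I : Finset ι) (T : ι → Finset (Fin n)) (O : Fin n → ι → Prop) (d : ℕ) (C : ℝ)
    (c : ℕ) (η : ℝ) : Prop where
  sps : Sps I T O d
  long : ∀ i ∈ I, c ≤ (T i).card
  mass : mass I T ≤ C
  nu : ∀ v, nu I T O v ≤ η

open Classical in
/-- Leaf CNT: counting the terms with large intersection with `U`. Proof: the `v ∈ T i ∩ U` which
own `i` are at least `s - d`, and every `v ∈ U` owns at most `d` terms. -/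
def S_CNT : Prop := ∀ (n : ℕ) (ι : Type) (I J : Finset ι) (T : ι → Finset (Fin n))
  (O : Fin n → ι → Prop) (d s : ℕ) (U : Finset (Fin n)), Sps I T O d → J ⊆ I →
  (∀ i ∈ J, s ≤ (T i ∩ U).card) → J.card * (s - d) ≤ d * U.card

/-- Leaf SQ: the sum of the squares of the masses through the variables. Proof: `mu v = own + nu v`,
`mu^2 ≤ 2 own^2 + 2 nu^2`, `own^2 ≤ d ∑_(i owned by v) 4^(-|T i|)` (Cauchy), so the first part is at most
`2 d ∑_i |T i| 4^(-|T i|) ≤ 2 d mass * c 2^(-c)` (`x 2^(-x)` is nonincreasing for `x ≥ 1`), and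
`∑ nu^2 ≤ η ∑ nu ≤ η d mass`. -/
def S_SQ : Prop := ∀ (n : ℕ) (ι : Type) (I : Finset ι) (T : ι → Finset (Fin n))
  (O : Fin n → ι → Prop) (d c : ℕ) (η : ℝ), Sps I T O d → 1 ≤ c → (∀ i ∈ I, c ≤ (T i).card) →
  0 ≤ η → (∀ v, nu I T O v ≤ η) →
  ∑ v, mu I T v ^ 2 ≤ 2 * d * mass I T * (c * (1 / 2) ^ c + η)

/-- Leaf LOW: the probability that no term of a nice family is satisfied is not small. Proof:
let `A` be the set of the `i` with `∑_(k, T k meets T i) 2^(-|T k|) > 1/8`; then
`mass A ≤ 8 ∑_v mu v ^ 2`, which is small by SQ. For the others the local lemma (with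
`x i = 2 * 2^(-|T i|)`; `p_i ≤ x_i ∏_(k meets i) (1 - x_k)` as `∏ ≥ 1 - ∑ x_k ≥ 1/2`) gives
`P(miss) ≥ ∏ (1 - x_i) ≥ exp(-4 C)` (as in `DL/Lll.lean`, `chain`), and
`P(miss I) ≥ P(miss (I \ A)) - mass A ≥ exp(-4 C) / 2`. -/
def S_LOW : Prop := ∀ (d : ℕ) (C : ℝ), ∃ (c : ℕ) (η q : ℝ), 1 ≤ c ∧ 0 < η ∧ 0 < q ∧
  ∀ (n : ℕ) (ι : Type) (I : Finset ι) (T : ι → Finset (Fin n)) (a : ι → Cube n)
    (O : Fin n → ι → Prop), Nice I T O d C c η → q ≤ PP (miss I T a)

/-- Leaf VAR: a nice family of large mass is satisfied almost surely. Proof: second moment of the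
number `N` of satisfied terms. `E N = M := mass`, `E N^2 ≤ M^2 + S` where `S` is the sum over the
ordered pairs `(i, k)` with `T i ∩ T k ≠ ∅` (`i = k` included) of `P(both) ≤ 2^(-|T i ∪ T k|)`, and
`P(N = 0) ≤ Var N / M^2 ≤ S / M^2` (Cauchy or Chebyshev). `i = k`: `M`. Pairs with `|T i ∩ T k| ≤ 2 d`:
at most `4^d ∑_v mu v ^ 2 ≤ M` by SQ if `c` is large and `η` small. Pairs with intersection `s > 2 d`
and `|T i| ≤ |T k|` (twice): for fixed `i`, the `k` with `s ≥ |T i| / 2` are at most `4 d` by CNT with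
`U = T i` (if `c ≥ 4 d`), each has `P(both) ≤ 2^(-|T i|)`; those with `s < |T i| / 2` are at most `d |T i|`
(CNT with `s = d + 1`), each with `2^(-|T i| - |T i| / 2)`; so the sum for `i` is
`≤ 2^(-|T i|) (4 d + 1)`. Total `S ≤ (8 d + 4) M`. -/
def S_VAR : Prop := ∀ (d : ℕ) (C : ℝ), ∃ (c : ℕ) (η : ℝ), 1 ≤ c ∧ 0 < η ∧
  ∀ (n : ℕ) (ι : Type) (I : Finset ι) (T : ι → Finset (Fin n)) (a : ι → Cube n)
    (O : Fin n → ι → Prop), Nice I T O d C c η → PP (miss I T a) * mass I T ≤ 8 * d + 4

/-- Leaf MASS: if the zeros have positive density in all subcubes of small codimension then the mass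
is bounded. Proof: let `C₀ = C - 1` be large (`(8 d + 4) / (C₀ - 1/2) < ε`), suppose that `mass I > C₀`.
Choose `G ⊆ I` with mass in `[C₀, C₀ + 1]` (every term has mass `≤ 1`). Let `c₁, η₁` be the constants of
VAR for `d, C₀ + 1`. Thresholds `θ 0 > θ 1 > …`, `θ 0 = 1`, `b_j = ⌈d (C₀ + 1) / θ j⌉`,
`θ (j + 1) = η₁ 2^(-b_j)` (and `≤ θ j`). As `∑_v nu G v ≤ d (C₀ + 1)`, there is `j < 2 d (C₀ + 1) + 1` with
`∑ (nu G v : θ (j+1) ≤ nu G v < θ j) ≤ 1/2`. Let `B = {v : θ j ≤ nu G v}`, so `|B| ≤ b_j`, and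
`G⁻ = {i ∈ G : no exit v of i has θ (j+1) ≤ nu G v < θ j}`, of mass `≥ C₀ - 1/2`. The average over
`z ∈ {0,1}^B` of the mass of the restriction of `G⁻` to `z` (the `i` with `a i = z` on `T i ∩ B`, sets
`T i \ B`) is `mass G⁻`; take `z` for which it is `≥ C₀ - 1/2`, and a subfamily of it with mass in
`[C₀ - 1/2, C₀ + 1]`. It is nice with `c₁, η₁`: `nu ≤ 2^(b_j) θ (j+1) ≤ η₁`, and a term with fewer than
`c₁` variables outside `B` would give a subcube of codimension `< a = max_j b_j + c₁` without zeros.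
By VAR `P(miss it) ≤ (8 d + 4) / (C₀ - 1/2) < ε`, but it is at least
`P(miss I | agr B z) ≥ ε`, contradiction. -/
def S_MASS : Prop := ∀ (d : ℕ) (ε : ℝ), 0 < ε → ∃ (e : ℕ) (C : ℝ), ∀ (n : ℕ) (ι : Type)
  (I : Finset ι) (T : ι → Finset (Fin n)) (a : ι → Cube n) (O : Fin n → ι → Prop), Sps I T O d →
  (∀ (B : Finset (Fin n)) (z : Cube n), B.card ≤ e →
    ε * (1 / 2) ^ B.card ≤ PP (fun x => miss I T a x ∧ agr B z x)) → mass I T ≤ C

/-- The point which is `z` on `B` and `x` elsewhere. -/
def mix (B : Finset (Fin n)) (z x : Cube n) : Cube n := fun v => if v ∈ B then z v else x v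

/-- The conditional probability of `f`, given that the point agrees with `z` on `B`. -/
noncomputable def pr (f : Cube n → Prop) (B : Finset (Fin n)) (z : Cube n) : ℝ :=
  PP fun x => f (mix B z x)

/-- Decision trees. -/
inductive DT (n : ℕ) : Type
  | leaf : DT n
  | node (v : Fin n) (l r : DT n) : DT n

namespace DT

/-- The depth. -/
def depth : DT n → ℕ
  | leaf => 0
  | node _ l r => max l.depth r.depth + 1

/-- The variables on the path of `x` (`l` is for the value `true`). -/
def path : DT n → Cube n → Finset (Fin n)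
  | leaf, _ => ∅
  | node v l r, x => insert v (if x v = true then l.path x else r.path x)

end DT

/-- Leaf REG: a regularity lemma for decision trees. Proof: potential
`Φ t = (∑ z, pr f (t.path z) z ^ 2) / 2^n ∈ [0, 1]`, which increases when leaves are refined. If the
set of the bad `z` has measure `> ε`, refine every bad leaf (a leaf is a set of points with the same
path and the same values on it) by its set `A`: the depth increases by at most `e`, and `Φ`
by at least `ε θ^2 2^(-e)` (the variance of `pr` over the `2^|A|` parts of the leaf is at least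
`2^(-|A|) θ^2`). So at most `2^e / (ε θ^2)` rounds, `b = e (2^e / (ε θ^2) + 1)`. -/
def S_REG : Prop := ∀ (ε θ : ℝ) (e : ℕ), 0 < ε → 0 < θ → ∃ b : ℕ, ∀ (n : ℕ)
  (f : Cube n → Prop), ∃ t : DT n, t.depth ≤ b ∧
    PP (fun z => ∃ (A : Finset (Fin n)) (w : Cube n), A.card ≤ e ∧ Disjoint A (t.path z) ∧
      θ < |pr f (t.path z ∪ A) (mix A w z) - pr f (t.path z) z|) ≤ ε

open Classical in
/-- The indices of the terms which remain in the subcube given by `z` on `B`. -/
noncomputable def res (I : Finset ι) (T : ι → Finset (Fin n)) (a : ι → Cube n) (B : Finset (Fin n))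
    (z : Cube n) : Finset ι := I.filter fun i => ∀ v ∈ T i, v ∈ B → z v = a i v

/-- Leaf STR: the structure theorem. Proof from REG and MASS. `ε₁ = ε / 8`; MASS with `ε₁ / 2` gives
`e, C`. `c, η` are given, `δ = min (η^2) (ε₁^2)`, `J = ⌈d C / δ⌉ + 1`, thresholds `θ 0 = 1`,
`b_j = ⌈d C / θ j⌉`, `θ (j+1) ≤ η 2^(-b_j)`, decreasing; `E = max_j b_j + c + e`. REG with `ε₁`, `θ = ε₁ / 2`, `E`,
`f = miss` gives `t`. The leaves with `pr < ε₁` contribute at most `ε₁` to the probability of
`miss`, the bad leaves at most `ε₁`. At any other leaf (path `P`) all subcubes of codimension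
`≤ E` have `pr ≥ ε₁ / 2`, so by MASS (for the family `res I T a P z`, `T i \ P`) the mass is at most `C`,
also for all further restrictions by at most `E - e` variables; and there are no terms with
`≤ E` variables. Choose `j < J` such that the sum of the `nu v` in `[θ (j+1), θ j)` is at most `δ`
(`∑ nu ≤ d C`), and query the at most `b_j` variables with `nu v ≥ θ j`. After that the `nu v`
which were `< θ (j+1)` are at most `2^(b_j) θ (j+1) ≤ η`, and the sum of the `nu v` of the middle `v` has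
average `≤ δ` over the parts of the leaf, so it is `≤ √δ ≤ η` for all but a `√δ ≤ ε₁` fraction
of the parts (Markov). -/
def S_STR : Prop := ∀ (d : ℕ) (ε : ℝ), 0 < ε → ∃ C : ℝ, ∀ (c : ℕ) (η : ℝ), 0 < η → ∃ b : ℕ,
  ∀ (n : ℕ) (ι : Type) (I : Finset ι) (T : ι → Finset (Fin n)) (a : ι → Cube n)
    (O : Fin n → ι → Prop), Sps I T O d → ∃ t : DT n, t.depth ≤ b ∧
    PP (fun x => miss I T a x ∧
      ¬ Nice (res I T a (t.path x) x) (fun i => T i \ t.path x) O d C c η) ≤ ε

open Classical in
/-- Leaf UC: uniform convergence (Hoeffding and the union bound, as in `DL/Samp.lean`). -/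
def S_UC : Prop := ∀ (n m b : ℕ) (Λ : Type) (L : Finset Λ) (Ev : Λ → Cube n → Prop) (τ : ℝ),
  1 ≤ b → 0 < τ → Real.log (L.card + 1) + Real.log (2 * b) ≤ m * τ ^ 2 / 8 →
  (1 - 1 / (b : ℝ)) * (Fintype.card (Fin m → Cube n) : ℝ) ≤
    ((univ.filter fun X : Fin m → Cube n => ∀ l ∈ L,
      |((univ.filter fun j => Ev l (X j)).card : ℝ) - m * PP (Ev l)| ≤ m * τ).card : ℝ)

end Pool.Agent.Helper91K9.SP
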