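import Pool.Agent.Helper91K9.SP.Fam

/-!
# Detection of the typical terms of nice families: statements
-/

namespace Pool.Agent.Helper91K9.SP

open Finset Pool.Agent.Helper91K9.DL

variable {n : ℕ} {ι : Type}

open Classical in
/-- The variables of the terms in `J`. -/
noncomputable def un (J : Finset ι) (T : ι → Finset (Fin n)) : Finset (Fin n) := J.biUnion T

/-- `J` is a cluster of the term `i`: few terms of about the same size which are almost contained in
each other, and all other terms have more than `u` further variables. -/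
structure Clo (I J : Finset ι) (T : ι → Finset (Fin n)) (i : ι) (d u g : ℕ) : Prop where
  sub : J ⊆ I
  mem : i ∈ J
  card : J.card ≤ 2 * d + 1
  far : ∀ k ∈ I, k ∉ J → u < (T k \ un J T).card
  big : ∀ k ∈ J, (T i).card ≤ (T k).card + g
  small : (un J T \ T i).card ≤ 2 * d * u

open Classical in
/-- Leaf CLOS: almost all terms have clusters. Proof: start with `J = {i}`, and add, as long as
possible, terms `k ∈ I \ J` with `|T k \ un J| ≤ u`; so after `r` steps `|un J \ T i| ≤ r u`. Let `L = |T i|`. As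
long as all members of `J` have at least `L - g` variables, counting incidences
(`∑_(k ∈ J) |T k| ≤ d |J| + d |un J|`) gives `(r + 1) (L - g) ≤ d (r + 1) + d (L + r u)`, which is false for
`r = 2 d + 1` and `L ≥ c` large. So the process stops with `|J| ≤ 2 d + 1`, unless it meets a `k` with
`|T k| < L - g` (put such `i` outside of `Gd`).
Linking: `k ~ l` if `4 (2 d + 1) |T k ∩ T l| ≥ max(|T k|, |T l|)`. By CNT every `l` is linked to at most
`K = 8 d (2 d + 1) + 1` terms (`c` large). Every added `k` with `|T k| ≥ L - g` is linked to a member of `J`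
(pigeonhole on `T k ∩ un J`, at least `|T k| - u` elements, sizes are between `L - g` and
`L + (2 d + 1) u`), so every `l ∈ J i` is joined to `i` by a path of at most `2 d` links: at most
`K' = (K + 1)^(2 d + 1)` such `i` for every `l`. A `k` with `|T k| < L - g` and `|T k \ un J| ≤ u` has at least
`(|T k| - u) / (2 d + 1)` variables in common with some `l ∈ J`; by CNT with `U = T k` there are at most
`K` such `l` for every `k`, so at most `K K'` of the `i` fail because of `k`, and these have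
`2^(-|T i|) ≤ 2^(-g) 2^(-|T k|)`. So the mass of the failing `i` is at most `K K' 2^(-g) C ≤ δ`. -/
def S_CLOS : Prop := ∀ (d : ℕ) (C δ : ℝ), 0 < δ → ∃ K' g : ℕ, ∀ u : ℕ, ∃ c : ℕ, 1 ≤ c ∧
  ∀ (n : ℕ) (ι : Type) (I : Finset ι) (T : ι → Finset (Fin n)) (O : Fin n → ι → Prop),
    Sps I T O d → (∀ i ∈ I, c ≤ (T i).card) → mass I T ≤ C →
    ∃ (Gd : Finset ι) (J : ι → Finset ι), Gd ⊆ I ∧ mass (I \ Gd) T ≤ δ ∧
      (∀ i ∈ Gd, Clo I (J i) T i d u g) ∧ ∀ l, (Gd.filter fun i => l ∈ J i).card ≤ K'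

open Classical in
/-- Typical terms: a cluster, and the other terms which meet the cluster have small mass outside. -/
structure Typ (I J : Finset ι) (T : ι → Finset (Fin n)) (i : ι) (d u g : ℕ) (σ : ℝ) : Prop where
  clo : Clo I J T i d u g
  sum : ∑ k ∈ (I \ J).filter fun k => ¬ Disjoint (T k) (un J T),
    (1 / 2 : ℝ) ^ (T k \ un J T).card ≤ σ

open Classical in
/-- Leaf TYP: almost all terms are typical. Proof: CLOS with `δ / 2`; `U = un (J i) T`. It remains to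
bound `∑_i 2^(-|T i|) ∑_k 2^(-|T k \ U|)` over `i ∈ Gd` and `k ∉ J i` meeting `U` (Markov), up to one part which
is small for every `i`. Let `s = |T k ∩ U|`, `D₀ = 2 d (2 d + 1)`.
(A) `s ≤ D₀`: `≤ 2^D₀ ∑_(v ∈ U) mu v`, and `∑_i 2^(-|T i|) ∑_(v ∈ U) mu v ≤ ∑_v mu v ^ 2 + C * 2 d u * max mu`,
`mu v ≤ d 2^(-c) + η`; small by SQ.
(B1) `s > D₀`, `|T k| ≥ |T i| - g`, for every `i`: those with `s ≥ |T i| / 2` are at most `8 d` (CNT), each has
`2^(-|T k \ U|) ≤ 2^(-u)`, so `8 d 2^(-u)` (this is why `u` has to be large); those with `s < |T i| / 2` are at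
most `d |U|`, each at most `2^(g - |T i| / 2)`.
(B2) `s > D₀`, `|T k| < |T i| - g`: fix `k`. Some `l ∈ J i` has `|T k ∩ T l| ≥ s / (2 d + 1)`; by CNT with
`U = T k` there are at most `2 d (2 d + 1) |T k| / s` such `l`, each for at most `K'` of the `i`. The weight
is `2^(-|T i| - |T k| + s) ≤ 2^(-g) 2^(-|T k|) 2^(-(|T k| - s))` with `|T k| - s > u`. The part with
`s ≥ |T k| / 2` is at most `8 d (2 d + 1) K' 2^(-u) 2^(-|T k|)`, the part with `s < |T k| / 2` at most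
`2 d (2 d + 1) K' |T k|^2 2^(-|T k| / 2) 2^(-|T k|)`; sum over `k`: small times `C`. -/
def S_TYP : Prop := ∀ (d : ℕ) (C δ σ : ℝ) (u₀ : ℕ), 0 < δ → 0 < σ → ∃ (u g c : ℕ) (η : ℝ),
  u₀ ≤ u ∧ 1 ≤ c ∧ 0 < η ∧
  ∀ (n : ℕ) (ι : Type) (I : Finset ι) (T : ι → Finset (Fin n)) (O : Fin n → ι → Prop),
    Nice I T O d C c η → ∃ Gd ⊆ I, mass (I \ Gd) T ≤ δ ∧ ∀ i ∈ Gd, ∃ J, Typ I J T i d u g σ

/-- No term outside of the cluster is satisfied outside of `un J T`. -/
def Gs (I J : Finset ι) (T : ι → Finset (Fin n)) (a : ι → Cube n) (x : Cube n) : Prop :=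
  ∀ k ∈ I, k ∉ J → ¬ agr (T k \ un J T) (a k) x

/-- Leaf GST: the event `Gs` is not unlikely, also with a few further conditions. Proof: apply LOW (for
`C + 1`) to the terms `k ∈ I \ J` with `w = a k` on `T k ∩ V`, with the sets `T k \ (un J T ∪ V)`; they are nice:
terms which meet `un J T` have mass `≤ 2^|V| σ`, terms which only meet `V` at most
`2^|V| ∑_(v ∈ V) mu v`, `mu v ≤ d 2^(-c) + η`; all others are unchanged. Then use independence
(`indep`) for `agr V w`. -/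
def S_GST : Prop := ∀ (d : ℕ) (C : ℝ), ∃ (u₀ c₀ : ℕ) (σ q η₀ : ℝ), 0 < σ ∧ 0 < q ∧ 1 ≤ c₀ ∧ 0 < η₀ ∧
  ∀ (u g : ℕ), u₀ ≤ u → ∀ (n : ℕ) (ι : Type) (I J : Finset ι) (T : ι → Finset (Fin n))
    (a : ι → Cube n) (O : Fin n → ι → Prop) (i : ι), Nice I T O d C c₀ η₀ → Typ I J T i d u g σ →
    ∀ (V : Finset (Fin n)) (w : Cube n), V.card ≤ 2 * d + 2 → Disjoint V (un J T) →
      q * (1 / 2) ^ V.card ≤ PP (fun x => Gs I J T a x ∧ agr V w x)

/-- Some term in `𝒽` is satisfied. -/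
def hv (𝒽 : Finset (Finset (Fin n × Bool))) (x : Cube n) : Prop := ∃ t ∈ 𝒽, satL t x

open Classical in
/-- Leaf HU: on `Gs` the hypothesis is a function of the variables in `U = un J T`. Proof: `hU x` says that
some `t ∈ 𝒽` with all variables in `U` is satisfied. If `t ∈ 𝒽` has all its variables in `U` then it is
covered by the terms in `J`: otherwise there is `y` with `satL t y` and `miss J y`, and
`agr U y ∧ Gs` has probability `2^(-|U|) PP Gs > τ` and implies `miss I ∧ satL t`. If `t ∈ 𝒽` has a literal `l`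
outside of `U`, let `t₁`, `t₂` be its parts inside and outside of `U`. If
`PP (Gs ∧ satL t₂) > τ 2^|U|` then `t₁` is covered by `J` by the same argument, but then the point given by
`prime` for `l` satisfies `t₁` and misses `I`, contradiction. So `PP (Gs ∧ satL t) ≤ τ 2^|U|` for all
these `t`. -/
def S_HU : Prop := ∀ (n : ℕ) (ι : Type) (I J : Finset ι) (T : ι → Finset (Fin n))
  (a : ι → Cube n) (𝒽 : Finset (Finset (Fin n × Bool))) (τ : ℝ), J ⊆ I → 0 ≤ τ →
  (∀ t ∈ 𝒽, PP (fun x => miss I T a x ∧ satL t x) ≤ τ) →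
  (∀ t ∈ 𝒽, ∀ l ∈ t, ∃ x, miss I T a x ∧ satL (t.erase l) x) →
  τ * 2 ^ (un J T).card < PP (Gs I J T a) →
  ∃ hU : Cube n → Prop, (∀ x y, agr (un J T) x y → (hU x ↔ hU y)) ∧ (∀ x, hU x → hv 𝒽 x) ∧
    (∀ x, hU x → ∃ j ∈ J, agr (T j) (a j) x) ∧
    PP (fun x => Gs I J T a x ∧ hv 𝒽 x ∧ ¬ hU x) ≤ 𝒽.card * τ * 2 ^ (un J T).card

open Classical in
/-- The point `x` with the coordinate `v` changed. -/
noncomputable def flp (v : Fin n) (x : Cube n) : Cube n := Function.update x v (!x v)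

/-- The difference which is estimated by the algorithm. -/
noncomputable def DD (f h : Cube n → Prop) (v : Fin n) (s : Bool) (γ : Finset (Fin n × Bool)) : ℝ :=
  PP (fun x => ¬ f x ∧ ¬ h x ∧ ¬ h (flp v x) ∧ satL γ x ∧ x v = !s) -
    PP (fun x => ¬ f x ∧ ¬ h x ∧ ¬ h (flp v x) ∧ satL γ x ∧ x v = s)

open Classical in
/-- The residual mass at `v`: the parts of the terms with the exit `v` which `h` does not cover. -/
noncomputable def rs (I : Finset ι) (T : ι → Finset (Fin n)) (a : ι → Cube n)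
    (O : Fin n → ι → Prop) (h : Cube n → Prop) (v : Fin n) : ℝ :=
  ∑ k ∈ I.filter fun k => v ∈ T k ∧ ¬ O v k, PP (fun x => agr (T k) (a k) x ∧ ¬ h x)

open Classical in
/-- The result of the detection of the term `i` in the direction `v`. -/
def Found (f h : Cube n → Prop) (T : ι → Finset (Fin n)) (a : ι → Cube n) (S : Finset (Fin n))
    (i : ι) (v : Fin n) (c₃ r₂ K : ℕ) (θ : ℝ) : Prop :=
  ∃ (γ : Finset (Fin n × Bool)) (core exc : Finset (Fin n)), γ.card ≤ r₂ ∧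
    (∀ l ∈ γ, l.1 ≠ v ∧ l.1 ∈ S) ∧ core ⊆ T i ∧ (T i \ core).card ≤ c₃ ∧ exc.card ≤ c₃ ∧
    θ * (1 / 2) ^ (T i).card ≤ DD f h v (a i v) γ ∧
    (∀ w ∈ core, w ≠ v → 4 * K * |DD f h v (a i v) (insert (w, !a i w) γ)| ≤ DD f h v (a i v) γ) ∧
    ∀ w, w ∉ T i → w ∉ exc → ∀ b : Bool,
      4 * DD f h v (a i v) γ ≤ K * DD f h v (a i v) (insert (w, b) γ)

/-- Leaf SIG: a term which is not covered is detected in each direction with small residual mass.
Notation: `U = un J T`, `F = ¬ miss`, `s = a i v = z₀ v`. `Sat = {j ∈ J : agr (T j) (a j) z₀}` (contains `i`);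
`bad = {w : some j ∈ J \ Sat is satisfied at flp w z₀}` has at most `2 d` elements. `X` is the set of the
`v ∈ T i` with `O v i`, `v ∈ T j` for all `j ∈ Sat`, `v ∉ bad`
(`|T i \ T j| ≤ g + 2 d u` for `j ∈ J`, by `big` and `small`). For `v ∈ X`, at `flp v z₀` no `j ∈ J` is satisfied. `γ`
consists of (1) the literals of `z₀` on `U \ T i`, (2) for each `j ∈ J \ Sat` with `v ∈ T j` the literal of
`z₀` at some `w ∈ T j`, `w ≠ v`, where `z₀ w ≠ a j w` (exists as `v ∉ bad`), (3) for each of the at most `d`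
terms `k ∈ I \ J` with `v ∈ T k`, `O v k` a literal `(w, !a k w)`, `w ∈ T k \ U`, the `w` different; `V` is the set
of these `w`.
For every set `γ' ⊇ γ` without `v`: `DD γ' = P₁ - P₂`, where
`P₁ = PP (x v = s ∧ F x ∧ ¬ F (flp v x) ∧ ¬ h x ∧ ¬ h (flp v x) ∧ satL γ' x)` and `P₂` is the same
with `¬ F x ∧ F (flp v x)` (pair `x` and `flp v x`). A term which is satisfied at `x` but not at
`flp v x` or conversely contains `v`; by (2), (3) it belongs to `Sat` or has the exit `v`, so `P₂ ≤ rs v`, and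
`P₁ ≤ PP (some j ∈ Sat is satisfied ∧ satL γ') + rs v`.
Lower bound, for `γ' = γ` or `γ' = insert (w, b) γ` with `w ∉ U ∪ V`: if `agr U z₀ x`, `Gs x` and the
conditions outside of `U` hold then `F x`, `¬ F (flp v x)`, `hU` is false at `x` and `flp v x` (as `¬ hU z₀` and
`hU` implies that some `j ∈ J` is satisfied), so
`P₁ ≥ 2^(-|U|) q 2^(-d-1) - 2 ζ 2^(-|U|)`, `|U| ≤ |T i| + 2 d u`. Upper bound
`DD γ ≤ (2 d + 1) 2^(g - |T i|) + rs v`. For `w ∈ core = ⋂_(j ∈ Sat) T j`, `w ≠ v`: `(w, !a i w)` kills all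
`j ∈ Sat`, so `|DD| ≤ rs v ≤ κ 2^(-|T i|)`. Choose `ζ = q 2^(-d-4)`,
`θ = q 2^(-2 d u - d - 3)`, `K = ⌈8 (2 d + 2) 2^g / θ⌉`, `κ = θ / (4 K)`,
`c₃ = 3 d + (2 d + 1) (g + 2 d u) + d + 1`, `r₂ = 2 d u + 3 d`. -/
def S_SIG : Prop := ∀ (d u g : ℕ) (q : ℝ), 0 < q → 2 * d + 2 ≤ u →
  ∃ (c₃ r₂ K : ℕ) (κ θ ζ : ℝ), 1 ≤ K ∧ 0 < κ ∧ 0 < θ ∧ 0 < ζ ∧
  ∀ (n : ℕ) (ι : Type) (I J : Finset ι) (T : ι → Finset (Fin n)) (a : ι → Cube n)
    (O : Fin n → ι → Prop) (i : ι) (h hU : Cube n → Prop) (z₀ : Cube n), Sps I T O d →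
    Clo I J T i d u g →
    (∀ (V : Finset (Fin n)) (w : Cube n), V.card ≤ 2 * d + 2 → Disjoint V (un J T) →
      q * (1 / 2) ^ V.card ≤ PP (fun x => Gs I J T a x ∧ agr V w x)) →
    (∀ x y, agr (un J T) x y → (hU x ↔ hU y)) →
    (∀ x, hU x → ∃ j ∈ J, agr (T j) (a j) x) →
    PP (fun x => Gs I J T a x ∧ h x ∧ ¬ hU x) ≤ ζ * (1 / 2) ^ (un J T).card →
    agr (T i) (a i) z₀ → ¬ hU z₀ →
    ∃ X ⊆ T i, (T i).card ≤ X.card + c₃ ∧ ∀ v ∈ X, O v i ∧
      (rs I T a O h v ≤ κ * (1 / 2) ^ (T i).card →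
        Found (fun x => ¬ miss I T a x) h T a (un I T) i v c₃ r₂ K θ)

open Classical in
/-- Leaf CONTR: if no typical term is detected then almost everything is covered. Proof: let
`Z = ∑_(k ∈ I) PP (agr (T k) (a k) x ∧ ¬ h x)`. For `i ∈ Gd` not covered,
`2^(-|T i|) ≤ (∑_(v ∈ X i) rs v) / (κ (c - c₃))`; the sum over `i` is at most
`d ∑_v rs v / (κ (c - c₃)) ≤ d^2 Z / (κ (c - c₃)) ≤ Z / 2`, so `Z ≤ Z / 2 + mass (I \ Gd)`. -/
def S_CONTR : Prop := ∀ (n : ℕ) (ι : Type) (I Gd : Finset ι) (T : ι → Finset (Fin n))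
  (a : ι → Cube n) (O : Fin n → ι → Prop) (d c c₃ : ℕ) (κ : ℝ) (h : Cube n → Prop), Sps I T O d →
  Gd ⊆ I → (∀ i ∈ I, c ≤ (T i).card) → c₃ < c → 0 < κ → 2 * (d : ℝ) ^ 2 ≤ κ * (c - c₃) →
  (∀ i ∈ Gd, (∀ x, agr (T i) (a i) x → h x) ∨ ∃ X ⊆ T i, (T i).card ≤ X.card + c₃ ∧
    ∀ v ∈ X, O v i ∧ κ * (1 / 2) ^ (T i).card ≤ rs I T a O h v) →
  PP (fun x => ¬ miss I T a x ∧ ¬ h x) ≤ 2 * mass (I \ Gd) T

end Pool.Agent.Helper91K9.SP
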