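import Pool.Agent.Helper91K9.SP.Fam2
import Pool.Agent.Helper91K9.SP.Defs
import Pool.Agent.Helper91K9.DL.Link

/-!
# From the population to samples: statements
-/

namespace Pool.Agent.Helper91K9.SP

open Finset Pool.Agent.Helper91K9.DL Pool.Agent.Helper91K9.TW

variable {n : ℕ} {ι : Type}

/-- Some term of the list `H` is satisfied. -/
def hh (n : ℕ) (H : List (List (ℕ × Bool))) (x : Cube n) : Prop := ∃ t ∈ H, satL (UU n t) x

/-- The list `neg` behaves like the zeros of `f` in a sample of `M` points, up to `τ`, for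
hypotheses with at most `S` terms in the variables `W`. -/
structure Orc (n : ℕ) (W : List ℕ) (neg : List (List Bool)) (f : Cube n → Prop) (M τ : ℝ)
    (S : ℕ) : Prop where
  pts : ∀ x ∈ neg, ∃ y : Cube n, x = List.ofFn y ∧ ¬ f y
  one : ∀ t : List (ℕ × Bool), (∀ l ∈ t, l.1 ∈ W) →
    |(ct neg t : ℝ) - M * PP (fun x => ¬ f x ∧ satL (UU n t) x)| ≤ M * τ
  two : ∀ (H : List (List (ℕ × Bool))) (v : Fin n) (γ : List (ℕ × Bool)), H.length ≤ S →
    (∀ t ∈ H, ∀ l ∈ t, l.1 ∈ W) → (∀ t ∈ H, imp neg t = true) → (v : ℕ) ∈ W →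
    (∀ l ∈ γ, l.1 ∈ W) →
    |(ct (calm neg H v) γ : ℝ) -
      M * PP (fun x => ¬ f x ∧ ¬ hh n H x ∧ ¬ hh n H (flp v x) ∧ satL (UU n γ) x)| ≤ M * τ

/-- Leaf STEP: a detected term is a candidate. Proof: write `γ` as a list of at most `r₂ ≤ R` literals
(in `partsW W R`), `s = a i v`. The four counts in the test `hat` (with `2 K`) are `M` times the
probabilities up to `M τ`, for `γ` and `¬ l :: γ`, both with `x_v = !s` and `x_v = s`
(`UU n ((v, !s) :: γ)`), so the test compares `2 K DD(insert (¬ l) γ)` with `DD γ` up to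
`2 (2 K + 1) τ M ≤ (3/8) M DD γ`, by `16 K τ ≤ θ 2^(-|T i|) ≤ DD γ`. For `w ∈ core`, `w ≠ v` the literal
`(w, a i w)` passes, and `(w, !a i w)` does not (`DD(insert (w, a i w) γ) ≥ (1 - 1/(4 K)) DD γ`). The
literals on `w ∉ T i ∪ exc` do not pass. So the result of `hat` and the
set of the literals of the term `i` differ only on the variables in `(T i \ core) ∪ exc ∪ {v}`, at most
`2 c₃ + 1` variables; `α` is the list of all literals on them (length `≤ 4 c₃ + 2 ≤ r`), `β` the list of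
the literals `(w, a i w)` on those of them which are in `T i`. -/
def S_STEP : Prop := ∀ (n : ℕ) (ι : Type) (T : ι → Finset (Fin n)) (a : ι → Cube n) (W : List ℕ)
  (neg : List (List Bool)) (f : Cube n → Prop) (M τ : ℝ) (S : ℕ) (H : List (List (ℕ × Bool)))
  (V : Finset (Fin n)) (i : ι) (v : Fin n) (c₃ r₂ K R r : ℕ) (θ : ℝ), Orc n W neg f M τ S →
  0 < M → 0 ≤ τ → 1 ≤ K → (∀ w ∈ W, w < n) → H.length ≤ S → (∀ t ∈ H, ∀ l ∈ t, l.1 ∈ W) →
  (∀ t ∈ H, imp neg t = true) → Found f (hh n H) T a V i v c₃ r₂ K θ → (v : Fin n) ∈ T i →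
  (∀ w ∈ V, (w : ℕ) ∈ W) → (∀ w ∈ T i, (w : ℕ) ∈ W) → 0 < θ →
  16 * K * τ ≤ θ * (1 / 2) ^ (T i).card → r₂ ≤ R → 4 * c₃ + 2 ≤ r →
  ∃ t ∈ cand R r (2 * K) W neg H, ∀ l : ℕ × Bool, l ∈ t ↔ ∃ w ∈ T i, l = ((w : ℕ), a i w)

/-- Leaf RED: the reduction of a term. -/
def S_RED : Prop := ∀ (neg : List (List Bool)) (t : List (ℕ × Bool)), imp neg t = true →
  (∀ l ∈ red neg t, l ∈ t) ∧ imp neg (red neg t) = true ∧
  ∀ l ∈ red neg t, ∃ x ∈ neg, termVal (without (red neg t) [l]) x = true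

/-- Leaf SIZE: the hypotheses are not too large. -/
def S_SIZES : Prop := ∀ (R r K n : ℕ) (W : List ℕ) (neg : List (List Bool)), W.length ≤ n →
  (∀ j ≤ n + 1, (base R r K W j neg).length ≤ (n + 1) * (2 * n + 1) ^ (R + 2 * r + 1)) ∧
  (∀ j, base R r K W (j + 1) neg = round R r K W neg (base R r K W j neg)) ∧
  (∀ j, ∀ t ∈ base R r K W j neg, imp neg t = true ∧ (∀ l ∈ t, l.1 ∈ W) ∧
    ∀ l ∈ t, ∃ x ∈ neg, termVal (without t [l]) x = true)

/-- The subcubes given by the leaves of a tree, inside the subcube `ρ`. -/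
def lv : DT n → List (ℕ × Bool) → List (List (ℕ × Bool))
  | DT.leaf, ρ => [ρ]
  | DT.node v l r, ρ => lv l (((v : ℕ), true) :: ρ) ++ lv r (((v : ℕ), false) :: ρ)

/-- Leaf OPT: the result of the search is at least as good as every decision tree. Proof:
induction on `k`; the fold over `v` with `pick` has at most the number of errors of each
member (in particular of the start value, for `t = leaf`, and of the value for the `v` at the root); all
terms of `opt k ρ` contain the literals of `ρ`, so `errc (A ++ B) (inCube ρ s) =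
errc A (inCube ((v, true) :: ρ) s) + errc B (inCube ((v, false) :: ρ) s)` for the two parts. -/
def S_OPT : Prop := ∀ (R r K n : ℕ) (s : List (List Bool × Bool)) (k : ℕ),
  (∀ (t : DT n) (ρ : List (ℕ × Bool)), t.depth ≤ k →
    errc (opt R r K n s k ρ) (inCube ρ s) ≤
      ((lv t ρ).map fun ρ' => errc (loc R r K n s ρ') (inCube ρ' s)).sum) ∧
  (∀ ρ, ∀ t ∈ opt R r K n s k ρ, ∀ l ∈ ρ, l ∈ t) ∧
  (∀ ρ, (∀ l ∈ ρ, l.1 < n) → ∀ t ∈ opt R r K n s k ρ, ∀ l ∈ t, l.1 < n) ∧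
  ∀ ρ, (opt R r K n s k ρ).length ≤ 2 ^ k * ((n + 1) * (2 * n + 1) ^ (R + 2 * r + 1))

/-- Leaf BASE: the analysis of `base` for nice families. -/
def S_BASE : Prop := ∀ (d : ℕ) (C ε : ℝ), 0 < ε → ∃ (c : ℕ) (η : ℝ) (R r K e : ℕ), 0 < η ∧
  ∀ (n : ℕ) (ι : Type) (I : Finset ι) (T : ι → Finset (Fin n)) (a : ι → Cube n)
    (O : Fin n → ι → Prop) (W : List ℕ) (neg : List (List Bool)) (M τ : ℝ),
    Nice I T O d C c η → W.length ≤ n → (∀ w ∈ W, w < n) → (∀ i ∈ I, ∀ w ∈ T i, (w : ℕ) ∈ W) →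
    Orc n W neg (fun x => ¬ miss I T a x) M τ ((n + 1) * (2 * n + 1) ^ (R + 2 * r + 1)) →
    0 < M → 0 ≤ τ → τ * (n + 2 : ℕ) ^ e ≤ 1 →
    PP (fun x => ¬ miss I T a x ∧ ¬ hh n (base R r K W (n + 1) neg) x) ≤ ε ∧
    PP (fun x => miss I T a x ∧ hh n (base R r K W (n + 1) neg) x) ≤ ε

end Pool.Agent.Helper91K9.SP
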