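import Mathlib

/-!
# DNF formulas with sparse incidence graph
-/

namespace Pool.Agent.Helper91K9.SP

/-- The incidence graph of the DNF formula `F` (the vertices are the variables and the positions of the
terms, a variable is joined to the terms in which it occurs, negated or not) and all its subgraphs
have at most `d` times as many edges as vertices: every finite set `E` of pairs `(v, j)`, where the
variable `v` occurs in the term number `j`, has at most `d * (p + q)` elements, where `p` and `q` are the
numbers of the variables and terms in these pairs. -/
def Sparse (d : ℕ) (F : List (List (ℕ × Bool))) : Prop :=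
  ∀ E : Finset (ℕ × ℕ), (∀ e ∈ E, ∃ u, F[e.2]? = some u ∧ ∃ b, (e.1, b) ∈ u) →
    E.card ≤ d * ((E.image Prod.fst).card + (E.image Prod.snd).card)

end Pool.Agent.Helper91K9.SP
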