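import Pool.Agent.Helper91K9.SP.Fam3
import Pool.Agent.Helper91K9.DL.Target
import Pool.Agent.Helper91K9.SP.Sparse

/-!
# The target and the reduction of the target to nice families: statements
-/

namespace Pool.Agent.Helper91K9.SP

open Finset Pool.Agent.Helper91K9.DL Pool.Agent.Helper91K9.TW

variable {n : ℕ} {ι : Type}

/-- Leaf HALL: the family of a sparse formula. Proof: `ι = ℕ`, `I` the consistent positions
`i < F.length`, `T i = TV n u`, `a i = AV n u` for `u = F.getD i []` (see `DL/Fam.lean`, `satL_iff`). Hall's theorem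
(`Finset.all_card_le_biUnion_card_iff_exists_injective`) for the incidences `(v, i)`, with the sets
`{inl v, inr i} ×ˢ univ` in `(ℕ ⊕ ℕ) × Fin d`, gives an injective `f`; `O v i` says that the incidence
`(v, i)` exists and `(f (v, i)).1 = inl v`. -/
def S_HALL : Prop := ∀ (n d : ℕ) (F : List (List (ℕ × Bool))), (∀ u ∈ F, ∀ l ∈ u, l.1 < n) →
  Sparse d F → ∃ (ι : Type) (I : Finset ι) (T : ι → Finset (Fin n)) (a : ι → Cube n)
    (O : Fin n → ι → Prop), Sps I T O d ∧ ∀ x, ff n F x ↔ ¬ miss I T a x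

/-- Some term of the tuple is satisfied. -/
def hs {S : ℕ} (φ : Fin S → Option (Finset (Fin n × Bool))) (x : Cube n) : Prop :=
  ∃ k t, φ k = some t ∧ satL t x

/-- The events for which the frequencies have to be close to the probabilities. -/
def EvS {S : ℕ} (f : Cube n → Prop) (l : Bool × Option (Fin n) × Finset (Fin n × Bool) ×
    (Fin S → Option (Finset (Fin n × Bool)))) (x : Cube n) : Prop :=
  if l.1 = true then ¬ f x ∧ ¬ hs l.2.2.2 x ∧ (∀ v, l.2.1 = some v → ¬ hs l.2.2.2 (flp v x)) ∧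
    satL l.2.2.1 x
  else satL l.2.2.1 x ∧ ¬ (hs l.2.2.2 x ↔ f x)

open Classical in
/-- A good sample. -/
def GoodS {m : ℕ} (S : ℕ) (X : Fin m → Cube n) (f : Cube n → Prop) (τ : ℝ) : Prop :=
  ∀ l : Bool × Option (Fin n) × Finset (Fin n × Bool) × (Fin S → Option (Finset (Fin n × Bool))),
    |((univ.filter fun j => EvS f l (X j)).card : ℝ) - m * PP (EvS f l)| ≤ m * τ

open Classical in
/-- Leaf SAMPS: almost all samples are good. Proof: UC with `L = univ`; the number of events is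
`2 (n + 1) 4^n (4^n + 1)^S`, so `Real.log (L.card + 1) ≤ 2 + 3 n + (2 n + 1) S`. -/
def S_SAMPS : Prop := ∀ (n m b S : ℕ) (f : Cube n → Prop) (τ : ℝ), 1 ≤ b → 0 < τ →
  8 * (2 + 3 * (n : ℝ) + (2 * n + 1) * S + 2 * b) ≤ m * τ ^ 2 →
  (1 - 1 / (b : ℝ)) * (Fintype.card (Fin m → Cube n) : ℝ) ≤
    ((univ.filter fun X : Fin m → Cube n => GoodS S X f τ).card : ℝ)

/-- Leaf PATHS: the leaves of a tree. Proof: induction on `t` (first with a general `ρ`). -/
def S_PATHS : Prop := ∀ (n : ℕ) (t : DT n), (lv t []).length ≤ 2 ^ t.depth ∧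
  (∀ Q : Cube n → Prop, ((lv t []).map fun ρ => PP fun x => Q x ∧ satL (UU n ρ) x).sum = PP Q) ∧
  ∀ ρ ∈ lv t [], (∀ l ∈ ρ, l.1 < n) ∧ ρ.length ≤ t.depth ∧
    ∀ x : Cube n, satL (UU n ρ) x → ∀ v : Fin n, v ∈ t.path x ↔ ∃ b, ((v : ℕ), b) ∈ ρ

open Classical in
/-- Leaf ORC: in every subcube `ρ` the negative examples behave as they should. `P` is the set of the
variables in `ρ`, and `z` is a point in the subcube. Proof: as `satL (UU n ρ) x ↔ agr P z x`, the counts are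
those of the events `EvS` (`γ` is `UU n (ρ ++ t)`, `φ k = H[k]?.map (UU n)`), and
`PP (satL (UU n ρ) x ∧ B x) = 2^(-|P|) PP B` for `B` which do not depend on `P` (`indep`, `PP_agr`); on
the subcube `miss I T a x ↔ miss (res I T a P z) (T i \ P) a x`. -/
def S_ORC : Prop := ∀ (n m S : ℕ) (ι : Type) (F : List (List (ℕ × Bool))) (X : Fin m → Cube n)
  (I : Finset ι) (T : ι → Finset (Fin n)) (a : ι → Cube n) (ρ : List (ℕ × Bool))
  (P : Finset (Fin n)) (z : Cube n) (τ : ℝ), (∀ x, ff n F x ↔ ¬ miss I T a x) →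
  GoodS S X (ff n F) τ → (∀ l ∈ ρ, l.1 < n) → (∀ v : Fin n, v ∈ P ↔ ∃ b, ((v : ℕ), b) ∈ ρ) →
  satL (UU n ρ) z →
  Orc n (free n ρ) (negs (inCube ρ (smp F X)))
    (fun x => ¬ miss (res I T a P z) (fun i => T i \ P) a x) (m * (1 / 2) ^ P.card)
    (τ * 2 ^ P.card) S ∧
  ((errc [ρ] (inCube ρ (smp F X)) : ℕ) : ℝ) ≤
    m * PP (fun x => miss I T a x ∧ satL (UU n ρ) x) + m * τ ∧
  ∀ H : List (List (ℕ × Bool)), H.length ≤ S → (∀ t ∈ H, ∀ l ∈ t, l.1 ∈ free n ρ) →
    ((errc (H.map (ρ ++ ·)) (inCube ρ (smp F X)) : ℕ) : ℝ) ≤ m * τ + m * (1 / 2) ^ P.card *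
      PP (fun x => ¬ (hh n H x ↔ ¬ miss (res I T a P z) (fun i => T i \ P) a x))

/-- The target. -/
def S_TARGET : Prop := ∀ d a : ℕ, 1 ≤ a →
  ∃ A : List (List Bool × Bool) → List (List (ℕ × Bool)), Pool.Agent.H424R2.PPAD.PTime A ∧
    ∃ e : ℕ, ∀ (n b : ℕ) (F : List (List (ℕ × Bool))), 1 ≤ b →
      (∀ u ∈ F, ∀ l ∈ u, l.1 < n) → Sparse d F →
        ∀ m, (n + a + b) ^ e ≤ m → Succeeds A n m F (1 / a) (1 / b)

end Pool.Agent.Helper91K9.SP
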