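import Pool.Agent.Helper91K9.SP.Reg

/-!
# The structure theorem for sparse families of subcubes
-/

set_option autoImplicit false

namespace Pool.Agent.Helper91K9.SP

namespace StrL

open Finset Pool.Agent.Helper91K9.DL RegL

variable {n : ℕ} {ι : Type}

/-! ## Restrictions -/

theorem mem_res {I : Finset ι} {T : ι → Finset (Fin n)} {a : ι → Cube n} {B : Finset (Fin n)}
    {z : Cube n} {i : ι} : i ∈ res I T a B z ↔ i ∈ I ∧ ∀ v ∈ T i, v ∈ B → z v = a i v := by
  simp only [res, mem_filter]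

theorem sps_res {I : Finset ι} {T : ι → Finset (Fin n)} {O : Fin n → ι → Prop} {d : ℕ}
    (h : Sps I T O d) (a : ι → Cube n) (B : Finset (Fin n)) (z : Cube n) :
    Sps (res I T a B z) (fun i => T i \ B) O d := by
  refine ⟨fun v => le_trans (card_le_card fun i hi => ?_) (h.own v),
    fun i hi => le_trans (card_le_card fun v hv => ?_) (h.exit i (mem_res.1 hi).1)⟩
  · simp only [mem_filter, mem_sdiff] at hi ⊢
    exact ⟨(mem_res.1 hi.1).1, hi.2.1.1, hi.2.2⟩
  · simp only [mem_filter, mem_sdiff] at hv ⊢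
    exact ⟨hv.1.1, hv.2⟩

theorem agr_mix (S B : Finset (Fin n)) (b z x : Cube n) :
    agr S b (mix B z x) ↔ (∀ v ∈ S, v ∈ B → z v = b v) ∧ agr (S \ B) b x := by
  unfold agr
  constructor
  · intro h
    refine ⟨fun v hv hB => ?_, fun v hv => ?_⟩
    · have := h v hv
      simp only [mix, if_pos hB] at this
      exact this
    · rw [mem_sdiff] at hv
      have := h v hv.1
      simp only [mix, if_neg hv.2] at this
      exact this
  · rintro ⟨h1, h2⟩ v hv
    by_cases hB : v ∈ B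
    · simp only [mix, if_pos hB]; exact h1 v hv hB
    · simp only [mix, if_neg hB]; exact h2 v (mem_sdiff.2 ⟨hv, hB⟩)

theorem miss_res (I : Finset ι) (T : ι → Finset (Fin n)) (a : ι → Cube n) (B : Finset (Fin n))
    (z x : Cube n) :
    miss (res I T a B z) (fun i => T i \ B) a x ↔ miss I T a (mix B z x) := by
  unfold miss
  constructor
  · intro h i hi hag
    rw [agr_mix] at hag
    exact h i (mem_res.2 ⟨hi, hag.1⟩) hag.2
  · intro h i hi hag
    rw [mem_res] at hi
    exact h i hi.1 ((agr_mix _ _ _ _ _).2 ⟨hi.2, hag⟩)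

theorem res_res (I : Finset ι) (T : ι → Finset (Fin n)) (a : ι → Cube n) (B A : Finset (Fin n))
    (z x : Cube n) :
    res (res I T a B z) (fun i => T i \ B) a A x = res I T a (B ∪ A) (mix B z x) := by
  ext i
  simp only [mem_res, mem_sdiff, mem_union]
  constructor
  · rintro ⟨⟨h1, h2⟩, h3⟩
    refine ⟨h1, fun v hv hB => ?_⟩
    by_cases hvB : v ∈ B
    · simp only [mix, if_pos hvB]; exact h2 v hv hvB
    · simp only [mix, if_neg hvB]; exact h3 v ⟨hv, hvB⟩ (by tauto)
  · rintro ⟨h1, h2⟩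
    refine ⟨⟨h1, fun v hv hB => ?_⟩, fun v hv hA => ?_⟩
    · have := h2 v hv (Or.inl hB)
      simp only [mix, if_pos hB] at this
      exact this
    · have := h2 v hv.1 (Or.inr hA)
      simp only [mix, if_neg hv.2] at this
      exact this

theorem res_congr (I : Finset ι) (T : ι → Finset (Fin n)) (a : ι → Cube n) (B : Finset (Fin n))
    {z y : Cube n} (h : ∀ v ∈ B, z v = y v) : res I T a B z = res I T a B y := by
  ext i
  simp only [mem_res]
  refine and_congr_right fun _ => forall₂_congr fun v _ => ?_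
  constructor
  · intro h1 hB; rw [← h v hB]; exact h1 hB
  · intro h1 hB; rw [h v hB]; exact h1 hB

/-! ## Good leaves -/

/-- all subcubes of small codimension have many zeros -/
def Gd (f : Cube n → Prop) (κ : ℝ) (E : ℕ) (P : Finset (Fin n)) (z : Cube n) : Prop :=
  ∀ (A : Finset (Fin n)) (w : Cube n), A.card ≤ E → Disjoint A P → κ ≤ pr f (P ∪ A) (mix A w z)

theorem Gd_congr (f : Cube n → Prop) (κ : ℝ) (E : ℕ) (P : Finset (Fin n)) {z y : Cube n}
    (h : ∀ v ∈ P, z v = y v) (hG : Gd f κ E P z) : Gd f κ E P y := by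
  intro A w h1 h2
  rw [← pr_congr f (P ∪ A) (z := mix A w z) (y := mix A w y)]
  · exact hG A w h1 h2
  · intro v hv
    by_cases hA : v ∈ A
    · simp [mix, hA]
    · simp only [mix, if_neg hA]
      exact h v (by rw [mem_union] at hv; tauto)

theorem Gd_ext (f : Cube n → Prop) (κ : ℝ) (E E' : ℕ) (P A : Finset (Fin n)) (z : Cube n)
    (hA : Disjoint A P) (hE : A.card + E' ≤ E) (hG : Gd f κ E P z) : Gd f κ E' (P ∪ A) z := by
  intro A' w h1 h2
  rw [disjoint_union_right] at h2
  have h3 := hG (A ∪ A') (mix A' w z) ((card_union_le _ _).trans (by omega))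
    (disjoint_union_left.2 ⟨hA, h2.1⟩)
  rw [← union_assoc] at h3
  refine h3.trans (le_of_eq ?_)
  refine pr_congr _ _ fun v hv => ?_
  by_cases h4 : v ∈ A' <;> by_cases h5 : v ∈ A <;> simp [mix, h4, h5]

theorem mass_hyp (I : Finset ι) (T : ι → Finset (Fin n)) (a : ι → Cube n) (κ : ℝ) (E : ℕ)
    (P : Finset (Fin n)) (z : Cube n) (hG : Gd (miss I T a) κ E P z) (B : Finset (Fin n))
    (y : Cube n) (hB : B.card ≤ E) :
    κ * (1 / 2) ^ B.card ≤
      PP (fun x => miss (res I T a P z) (fun i => T i \ P) a x ∧ agr B y x) := by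
  have h1 : PP (fun x => miss (res I T a P z) (fun i => T i \ P) a x ∧ agr B y x) =
      PP (fun x => agr B y x ∧ miss I T a (mix P z (mix B y x))) := by
    refine PP_congr fun x => ?_
    rw [miss_res, and_comm]
    refine and_congr_right fun h => ?_
    have : mix B y x = x := by
      funext v
      by_cases hv : v ∈ B
      · simp only [mix, if_pos hv]; exact (h v hv).symm
      · simp only [mix, if_neg hv]
    rw [this]
  have h2 := indep B (agr B y) (fun x => miss I T a (mix P z (mix B y x)))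
    (fun x x' h => forall₂_congr fun v hv => by rw [h v hv])
    (fun x x' h => by
      have : mix B y x = mix B y x' := by
        funext v
        by_cases hv : v ∈ B
        · simp only [mix, if_pos hv]
        · simp only [mix, if_neg hv]; exact h v hv
      rw [this])
  rw [h1, h2, PP_agr, mul_comm]
  refine mul_le_mul_of_nonneg_left ?_ (by positivity)
  have h3 := hG (B \ P) y ((card_le_card sdiff_subset).trans hB) sdiff_disjoint
  refine h3.trans (le_of_eq ?_)
  unfold pr
  refine PP_congr fun x => ?_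
  have : mix (P ∪ B \ P) (mix (B \ P) y z) x = mix P z (mix B y x) := by
    funext v
    by_cases hv : v ∈ P <;> by_cases hv' : v ∈ B <;> simp [mix, hv, hv']
  rw [this]

theorem long_of (I : Finset ι) (T : ι → Finset (Fin n)) (a : ι → Cube n) (κ : ℝ) (hκ : 0 < κ)
    (E : ℕ) (P : Finset (Fin n)) (z : Cube n) (hG : Gd (miss I T a) κ E P z) (i : ι)
    (hi : i ∈ res I T a P z) : E ≤ (T i \ P).card := by
  by_contra hlt
  push Not at hlt
  have h1 := hG (T i \ P) (a i) hlt.le sdiff_disjoint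
  rw [mem_res] at hi
  have h2 : pr (miss I T a) (P ∪ T i \ P) (mix (T i \ P) (a i) z) ≤ 0 := by
    unfold pr
    have h3 : PP (fun _ : Cube n => False) = 0 := by
      classical
      rw [PP_eq]; simp
    rw [← h3]
    refine PP_mono fun x hx => hx i hi.1 fun v hv => ?_
    by_cases hvP : v ∈ P
    · simp [mix, hvP, hi.2 v hv hvP]
    · simp [mix, hvP, hv]
  linarith

/-! ## The masses of the exits -/

open Classical in
theorem nu_eq (I : Finset ι) (T : ι → Finset (Fin n)) (O : Fin n → ι → Prop) (v : Fin n) :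
    nu I T O v = ∑ i ∈ I, if v ∈ T i ∧ ¬ O v i then (1 / 2 : ℝ) ^ (T i).card else 0 := by
  unfold nu mass
  rw [sum_filter]

theorem nu_nonneg (I : Finset ι) (T : ι → Finset (Fin n)) (O : Fin n → ι → Prop) (v : Fin n) :
    0 ≤ nu I T O v := sum_nonneg fun _ _ => by positivity

theorem mass_nonneg (I : Finset ι) (T : ι → Finset (Fin n)) : 0 ≤ mass I T :=
  sum_nonneg fun _ _ => by positivity

theorem sum_nu (I : Finset ι) (T : ι → Finset (Fin n)) (O : Fin n → ι → Prop) (d : ℕ)
    (h : Sps I T O d) : ∑ v, nu I T O v ≤ d * mass I T := by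
  classical
  simp only [nu_eq]
  rw [sum_comm, mass, mul_sum]
  refine sum_le_sum fun i hi => ?_
  rw [← sum_filter, sum_const, nsmul_eq_mul]
  refine mul_le_mul_of_nonneg_right ?_ (by positivity)
  have h1 := h.exit i hi
  have h2 : (univ.filter fun v => v ∈ T i ∧ ¬ O v i) = (T i).filter fun v => ¬ O v i := by
    ext v; simp
  rw [h2]
  exact_mod_cast h1

open Classical in
theorem nu_res (I : Finset ι) (T : ι → Finset (Fin n)) (a : ι → Cube n) (O : Fin n → ι → Prop)
    (A : Finset (Fin n)) (x : Cube n) (v : Fin n) (hv : v ∉ A) :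
    nu (res I T a A x) (fun i => T i \ A) O v = ∑ i ∈ I, (if v ∈ T i ∧ ¬ O v i then
      (1 / 2 : ℝ) ^ (T i \ A).card * ii (agr (T i ∩ A) (a i)) x else 0) := by
  rw [nu_eq, res, sum_filter]
  refine sum_congr rfl fun i _ => ?_
  have h1 : (∀ v ∈ T i, v ∈ A → x v = a i v) ↔ agr (T i ∩ A) (a i) x := by
    unfold agr
    simp only [mem_inter, and_imp]
  have h2 : (v ∈ T i \ A ∧ ¬ O v i) ↔ (v ∈ T i ∧ ¬ O v i) := by
    rw [mem_sdiff]; tauto
  by_cases h3 : agr (T i ∩ A) (a i) x
  · rw [if_pos (h1.2 h3), ii_pos h3, mul_one]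
    by_cases h4 : v ∈ T i ∧ ¬ O v i
    · rw [if_pos (h2.2 h4), if_pos h4]
    · rw [if_neg (fun h => h4 (h2.1 h)), if_neg h4]
  · rw [if_neg (fun h => h3 (h1.1 h)), ii_neg h3, mul_zero]
    split_ifs <;> rfl

theorem nu_res_le (I : Finset ι) (T : ι → Finset (Fin n)) (a : ι → Cube n) (O : Fin n → ι → Prop)
    (A : Finset (Fin n)) (x : Cube n) (v : Fin n) (hv : v ∉ A) :
    nu (res I T a A x) (fun i => T i \ A) O v ≤ 2 ^ A.card * nu I T O v := by
  classical
  rw [nu_res I T a O A x v hv, nu_eq, mul_sum]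
  refine sum_le_sum fun i _ => ?_
  split_ifs
  · have h1 : ii (agr (T i ∩ A) (a i)) x ≤ 1 := by unfold ii; split_ifs <;> norm_num
    have h2 : (T i).card ≤ (T i \ A).card + A.card := by
      have := card_sdiff_add_card (T i) A
      have h3 := card_le_card (subset_union_left (s₁ := T i) (s₂ := A))
      omega
    have h3 : (1 / 2 : ℝ) ^ ((T i \ A).card + A.card) ≤ (1 / 2) ^ (T i).card :=
      pow_le_pow_of_le_one (by norm_num) (by norm_num) h2
    have h4 : (2 : ℝ) ^ A.card * (1 / 2) ^ A.card = 1 := by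
      rw [← mul_pow]; norm_num
    calc (1 / 2 : ℝ) ^ (T i \ A).card * ii (agr (T i ∩ A) (a i)) x
        ≤ (1 / 2 : ℝ) ^ (T i \ A).card * 1 := mul_le_mul_of_nonneg_left h1 (by positivity)
      _ = (1 / 2 : ℝ) ^ (T i \ A).card * (2 ^ A.card * (1 / 2) ^ A.card) := by rw [h4]
      _ = 2 ^ A.card * (1 / 2 : ℝ) ^ ((T i \ A).card + A.card) := by rw [pow_add]; ring
      _ ≤ _ := mul_le_mul_of_nonneg_left h3 (by positivity)
  · rw [mul_zero]

theorem nu_res_mem (I : Finset ι) (T : ι → Finset (Fin n)) (a : ι → Cube n)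
    (O : Fin n → ι → Prop) (A : Finset (Fin n)) (x : Cube n) (v : Fin n) (hv : v ∈ A) :
    nu (res I T a A x) (fun i => T i \ A) O v = 0 := by
  classical
  rw [nu_eq]
  refine sum_eq_zero fun i _ => ?_
  rw [if_neg]
  rw [mem_sdiff]
  tauto

theorem EE_sum {α : Type} (s : Finset α) (h : α → Cube n → ℝ) :
    EE (fun x => ∑ i ∈ s, h i x) = ∑ i ∈ s, EE (h i) := by
  unfold EE
  rw [sum_comm, sum_div]

theorem nu_avg (I : Finset ι) (T : ι → Finset (Fin n)) (a : ι → Cube n) (O : Fin n → ι → Prop)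
    (A : Finset (Fin n)) (v : Fin n) (hv : v ∉ A) :
    EE (fun x => nu (res I T a A x) (fun i => T i \ A) O v) = nu I T O v := by
  classical
  simp only [nu_res I T a O A _ v hv]
  rw [EE_sum, nu_eq]
  refine sum_congr rfl fun i _ => ?_
  split_ifs
  · rw [EE_mul]
    have h1 : EE (ii (agr (T i ∩ A) (a i))) = (1 / 2) ^ (T i ∩ A).card := by
      rw [← PP_EE, PP_agr]
    change (1 / 2 : ℝ) ^ (T i \ A).card * EE (ii (agr (T i ∩ A) (a i))) = _
    rw [h1, ← pow_add, card_sdiff_add_card_inter]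
  · exact EE_const 0

theorem markov (h : Cube n → ℝ) (H : ∀ z, 0 ≤ h z) (τ : ℝ) :
    PP (fun x => τ < h x) * τ ≤ EE h := by
  rw [PP_EE, mul_comm, ← EE_mul]
  refine EE_mono fun x => ?_
  by_cases hx : τ < h x
  · rw [ii_pos hx, mul_one]; exact hx.le
  · rw [ii_neg hx, mul_zero]; exact H x

/-- thresholds -/
noncomputable def th (d : ℕ) (C η : ℝ) : ℕ → ℝ
  | 0 => 1
  | j + 1 => min (th d C η j) (η * (1 / 2) ^ (⌈d * C / th d C η j⌉₊))

theorem th_pos (d : ℕ) (C η : ℝ) (hη : 0 < η) (j : ℕ) : 0 < th d C η j := by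
  induction j with
  | zero => exact one_pos
  | succ j ih => exact lt_min ih (by positivity)

theorem th_anti (d : ℕ) (C η : ℝ) : Antitone (th d C η) :=
  antitone_nat_of_succ_le fun _ => min_le_left _ _

theorem stage2 (d : ℕ) (C η ε : ℝ) (hη : 0 < η) (hε : 0 < ε) :
    ∃ bb : ℕ, ∀ (n : ℕ) (ι : Type) (I : Finset ι) (T : ι → Finset (Fin n)) (a : ι → Cube n)
      (O : Fin n → ι → Prop), Sps I T O d → mass I T ≤ C →
      ∃ A : Finset (Fin n), A.card ≤ bb ∧ (∀ v ∈ A, 0 < nu I T O v) ∧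
        PP (fun x => ¬ ∀ v, nu (res I T a A x) (fun i => T i \ A) O v ≤ η) ≤ ε := by
  classical
  obtain ⟨τ, hτ⟩ : ∃ τ, τ = min η ε := ⟨_, rfl⟩
  have hτ0 : 0 < τ := by rw [hτ]; exact lt_min hη hε
  have hτη : τ ≤ η := by rw [hτ]; exact min_le_left _ _
  have hτε : τ ≤ ε := by rw [hτ]; exact min_le_right _ _
  obtain ⟨J, hJ⟩ : ∃ J : ℕ, J = ⌈d * C / τ ^ 2⌉₊ + 1 := ⟨_, rfl⟩
  obtain ⟨θ, hθ⟩ : ∃ θ, θ = th d C η := ⟨_, rfl⟩
  have hθ0 : ∀ j, 0 < θ j := fun j => by rw [hθ]; exact th_pos d C η hη j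
  have hθa : Antitone θ := by rw [hθ]; exact th_anti d C η
  have hθs : ∀ j, θ (j + 1) ≤ η * (1 / 2) ^ (⌈d * C / θ j⌉₊) := fun j => by
    rw [hθ]; exact min_le_right _ _
  refine ⟨∑ j ∈ range J, ⌈d * C / θ j⌉₊, fun n ι I T a O hS hM => ?_⟩
  have hsum : ∑ v, nu I T O v ≤ d * C :=
    (sum_nu I T O d hS).trans (mul_le_mul_of_nonneg_left hM (Nat.cast_nonneg _))
  have hn0 := nu_nonneg I T O
  -- the choice of the band
  obtain ⟨j, hjJ, hj⟩ : ∃ j, j < J ∧
      ∑ v ∈ univ.filter (fun v => θ (j + 1) ≤ nu I T O v ∧ nu I T O v < θ j), nu I T O v ≤ τ ^ 2 := by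
    by_contra hcon
    push Not at hcon
    have h1 : ∑ j ∈ range J, τ ^ 2 ≤ ∑ j ∈ range J,
        ∑ v ∈ univ.filter (fun v => θ (j + 1) ≤ nu I T O v ∧ nu I T O v < θ j), nu I T O v :=
      sum_le_sum fun j hj => (hcon j (mem_range.1 hj)).le
    have h2 : ∑ j ∈ range J,
        ∑ v ∈ univ.filter (fun v => θ (j + 1) ≤ nu I T O v ∧ nu I T O v < θ j), nu I T O v ≤
        ∑ v, nu I T O v := by
      rw [← sum_biUnion]
      · exact sum_le_sum_of_subset_of_nonneg (subset_univ _) fun v _ _ => hn0 v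
      · intro j1 _ j2 _ hne
        rw [Function.onFun_apply, disjoint_left]
        intro v h3 h4
        simp only [mem_filter, mem_univ, true_and] at h3 h4
        rcases Nat.lt_or_gt_of_ne hne with h | h
        · have := hθa (show j1 + 1 ≤ j2 by omega)
          linarith [h3.1, h4.2]
        · have := hθa (show j2 + 1 ≤ j1 by omega)
          linarith [h4.1, h3.2]
    rw [sum_const, card_range, nsmul_eq_mul] at h1
    have h3 : d * C / τ ^ 2 < J := by
      rw [hJ]; push_cast
      exact lt_of_le_of_lt (Nat.le_ceil _) (by linarith)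
    rw [div_lt_iff₀ (by positivity)] at h3
    linarith
  obtain ⟨A, hA⟩ : ∃ A : Finset (Fin n), A = univ.filter fun v => θ j ≤ nu I T O v := ⟨_, rfl⟩
  have hAm : ∀ v, v ∈ A ↔ θ j ≤ nu I T O v := fun v => by rw [hA]; simp
  have hAc : A.card ≤ ⌈d * C / θ j⌉₊ := by
    have h1 : (A.card : ℝ) * θ j ≤ d * C := by
      calc (A.card : ℝ) * θ j = ∑ _v ∈ A, θ j := by rw [sum_const, nsmul_eq_mul]
        _ ≤ ∑ v ∈ A, nu I T O v := sum_le_sum fun v hv => (hAm v).1 hv
        _ ≤ ∑ v, nu I T O v :=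
            sum_le_sum_of_subset_of_nonneg (subset_univ _) fun v _ _ => hn0 v
        _ ≤ _ := hsum
    rw [← le_div_iff₀ (hθ0 j)] at h1
    exact_mod_cast h1.trans (Nat.le_ceil _)
  refine ⟨A, hAc.trans (single_le_sum (f := fun j => ⌈d * C / θ j⌉₊) (fun _ _ => Nat.zero_le _)
    (mem_range.2 hjJ)), fun v hv => lt_of_lt_of_le (hθ0 j) ((hAm v).1 hv), ?_⟩
  obtain ⟨Md, hMd⟩ : ∃ Md : Finset (Fin n), Md = univ.filter
    fun v => θ (j + 1) ≤ nu I T O v ∧ nu I T O v < θ j := ⟨_, rfl⟩
  rw [← hMd] at hj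
  have hMm : ∀ v ∈ Md, v ∉ A := by
    intro v hv hvA
    rw [hMd, mem_filter] at hv
    rw [hAm] at hvA
    linarith [hv.2.2]
  have h1 : PP (fun x => ¬ ∀ v, nu (res I T a A x) (fun i => T i \ A) O v ≤ η) ≤
      PP (fun x => τ < ∑ v ∈ Md, nu (res I T a A x) (fun i => T i \ A) O v) := by
    refine PP_mono fun x hx => ?_
    by_contra hcon
    push Not at hcon
    apply hx
    intro v
    by_cases hvA : v ∈ A
    · rw [nu_res_mem I T a O A x v hvA]; exact hη.le
    · by_cases hvM : v ∈ Md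
      · refine le_trans ?_ (hcon.trans hτη)
        exact single_le_sum (f := fun v => nu (res I T a A x) (fun i => T i \ A) O v)
          (fun v _ => nu_nonneg _ _ _ v) hvM
      · have h2 : nu I T O v < θ (j + 1) := by
          by_contra h3
          apply hvM
          rw [hMd, mem_filter]
          rw [hAm] at hvA
          exact ⟨mem_univ _, by linarith, by linarith⟩
        refine (nu_res_le I T a O A x v hvA).trans ?_
        have h4 : (2 : ℝ) ^ A.card ≤ 2 ^ ⌈d * C / θ j⌉₊ := pow_le_pow_right₀ (by norm_num) hAc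
        calc (2 : ℝ) ^ A.card * nu I T O v
            ≤ 2 ^ ⌈d * C / θ j⌉₊ * (η * (1 / 2) ^ (⌈d * C / θ j⌉₊)) :=
              mul_le_mul h4 (h2.le.trans (hθs j)) (hn0 v) (by positivity)
          _ = η * (2 * (1 / 2)) ^ ⌈d * C / θ j⌉₊ := by rw [mul_pow]; ring
          _ = η := by norm_num
  have h2 := markov (fun x => ∑ v ∈ Md, nu (res I T a A x) (fun i => T i \ A) O v)
    (fun x => sum_nonneg fun v _ => nu_nonneg _ _ _ v) τ
  have h3 : EE (fun x => ∑ v ∈ Md, nu (res I T a A x) (fun i => T i \ A) O v) ≤ τ ^ 2 := by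
    rw [EE_sum]
    rw [sum_congr rfl fun v hv => nu_avg I T a O A v (hMm v hv)]
    exact hj
  have h4 : PP (fun x => τ < ∑ v ∈ Md, nu (res I T a A x) (fun i => T i \ A) O v) ≤ τ := by
    have h5 := h2.trans h3
    rw [sq] at h5
    exact le_of_mul_le_mul_right h5 hτ0
  exact h1.trans (h4.trans hτε)

/-- a bound for the probability of an event by conditioning on the leaf -/
theorem PP_leaf (P : Cube n → Finset (Fin n)) (hP : ∀ z x, P (mix (P z) z x) = P z)
    (q : Cube n → Prop) (ε : ℝ) (h : ∀ z, PP (fun x => q (mix (P z) z x)) ≤ ε) : PP q ≤ ε := by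
  rw [PP_EE, ← swap P hP, ← EE_const (n := n) ε]
  refine EE_mono fun z => ?_
  have := h z
  rw [PP_EE] at this
  exact this

theorem PP_le_zero {q : Cube n → Prop} (h : ∀ x, ¬ q x) : PP q ≤ 0 := by
  classical
  have h3 : PP (fun _ : Cube n => False) = 0 := by
    rw [PP_eq]; simp
  rw [← h3]
  exact PP_mono fun x hx => h x hx

open Classical in
/-- the choice of the refinement of a good leaf -/
noncomputable def gA (ch : Finset (Fin n) → Cube n → Finset (Fin n))
    (good : Finset (Fin n) → Cube n → Prop) (P : Finset (Fin n)) (z : Cube n) : Finset (Fin n) :=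
  if good P z then ch P z else ∅

theorem str : S_REG → S_MASS → S_STR := by
  classical
  intro hREG hMASS d ε hε
  obtain ⟨ε₁, hε₁⟩ : ∃ ε₁, ε₁ = ε / 4 := ⟨_, rfl⟩
  have hε0 : 0 < ε₁ := by rw [hε₁]; positivity
  obtain ⟨κ, hκ⟩ : ∃ κ, κ = ε₁ / 2 := ⟨_, rfl⟩
  have hκ0 : 0 < κ := by rw [hκ]; positivity
  obtain ⟨e, C0, hM⟩ := hMASS d κ hκ0
  obtain ⟨C, hC⟩ : ∃ C, C = max C0 1 := ⟨_, rfl⟩
  refine ⟨C, fun c η hη => ?_⟩
  obtain ⟨bb, hbb⟩ := stage2 d C η ε₁ hη hε0
  obtain ⟨E, hE⟩ : ∃ E, E = bb + c + e := ⟨_, rfl⟩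
  obtain ⟨b0, hb0⟩ := hREG ε₁ κ E hε0 hκ0
  refine ⟨b0 + bb, fun n ι I T a O hS => ?_⟩
  obtain ⟨t, ht1, ht2⟩ := hb0 n (miss I T a)
  -- masses at good leaves
  have hmass : ∀ (P : Finset (Fin n)) (z : Cube n), Gd (miss I T a) κ e P z →
      mass (res I T a P z) (fun i => T i \ P) ≤ C := by
    intro P z hG
    have h1 := hM n ι (res I T a P z) (fun i => T i \ P) a O (sps_res hS a P z)
      (fun B y hB => mass_hyp I T a κ e P z hG B y hB)
    exact h1.trans (by rw [hC]; exact le_max_left _ _)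
  have hGe : ∀ (P : Finset (Fin n)) (z : Cube n), Gd (miss I T a) κ E P z →
      Gd (miss I T a) κ e P z := fun P z hG A w h1 h2 => hG A w (h1.trans (by omega)) h2
  have hch : ∀ (P : Finset (Fin n)) (z : Cube n), ∃ A : Finset (Fin n),
      Gd (miss I T a) κ E P z → A.card ≤ bb ∧ Disjoint A P ∧
        PP (fun x => ¬ ∀ v, nu (res I T a (P ∪ A) (mix P z x)) (fun i => T i \ (P ∪ A)) O v ≤ η) ≤
          ε₁ := by
    intro P z
    by_cases hG : Gd (miss I T a) κ E P z
    · obtain ⟨A, h1, h2, h3⟩ := hbb n ι (res I T a P z) (fun i => T i \ P) a O (sps_res hS a P z)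
        (hmass P z (hGe P z hG))
      refine ⟨A, fun _ => ⟨h1, ?_, ?_⟩⟩
      · rw [disjoint_left]
        intro v hv hP
        have h4 := h2 v hv
        rw [nu_res_mem I T a O P z v hP] at h4
        exact lt_irrefl _ h4
      · refine le_trans (le_of_eq (PP_congr fun x => ?_)) h3
        rw [← res_res]
        have h5 : (fun i => T i \ (P ∪ A)) = fun i => (T i \ P) \ A := by
          funext i; rw [sdiff_sdiff_left]; rfl
        rw [h5]
    · exact ⟨∅, fun h => absurd h hG⟩
  choose ch hch using hch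
  obtain ⟨g, hg⟩ : ∃ g, g = gA ch (Gd (miss I T a) κ E) := ⟨_, rfl⟩
  have hgc : ∀ P z, (g P z).card ≤ bb := by
    intro P z
    rw [hg]; unfold gA
    split_ifs with h
    · exact (hch P z h).1
    · simp
  obtain ⟨z0, hz0⟩ : ∃ z0 : Cube n, z0 = fun _ => false := ⟨_, rfl⟩
  obtain ⟨G, hGdef⟩ : ∃ G : Cube n → Finset (Fin n),
    G = fun z => g (t.path z) (mix (t.path z) z z0) := ⟨_, rfl⟩
  have hag : ∀ z : Cube n, ∀ v ∈ t.path z, z v = mix (t.path z) z z0 v :=
    fun z v hv => by simp [mix, hv]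
  have hag2 : ∀ z x : Cube n, ∀ v ∈ t.path z, z v = mix (t.path z) z x v :=
    fun z x v hv => by simp [mix, hv]
  have hpath : ∀ z x, t.path (mix (t.path z) z x) = t.path z := fun z x =>
    path_congr t z _ (hag2 z x)
  have hGm : ∀ z x, G (mix (t.path z) z x) = G z := by
    intro z x
    rw [hGdef]
    simp only [hpath z x]
    congr 1
    funext v
    by_cases hv : v ∈ t.path z <;> simp [mix, hv]
  refine ⟨ref g t ∅ z0, (ref_depth g bb hgc t _ _).trans (by omega), ?_⟩
  have hpt : (ref g t ∅ z0).path = fun z => t.path z ∪ G z := by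
    funext z
    rw [ref_path, empty_union, hGdef]
  rw [hpt]
  simp only
  -- the three exceptional events
  have key : ∀ x, (miss I T a x ∧ ¬ Nice (res I T a (t.path x ∪ G x) x)
      (fun i => T i \ (t.path x ∪ G x)) O d C c η) →
      (miss I T a x ∧ pr (miss I T a) (t.path x) x < ε₁) ∨
      ((∃ (A : Finset (Fin n)) (w : Cube n), A.card ≤ E ∧ Disjoint A (t.path x) ∧
        κ < |pr (miss I T a) (t.path x ∪ A) (mix A w x) - pr (miss I T a) (t.path x) x|) ∨
      (Gd (miss I T a) κ E (t.path x) x ∧ ¬ ∀ v, nu (res I T a (t.path x ∪ G x) x)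
        (fun i => T i \ (t.path x ∪ G x)) O v ≤ η)) := by
    rintro x ⟨h1, h2⟩
    by_cases h3 : pr (miss I T a) (t.path x) x < ε₁
    · exact Or.inl ⟨h1, h3⟩
    right
    by_cases h4 : ∃ (A : Finset (Fin n)) (w : Cube n), A.card ≤ E ∧ Disjoint A (t.path x) ∧
        κ < |pr (miss I T a) (t.path x ∪ A) (mix A w x) - pr (miss I T a) (t.path x) x|
    · exact Or.inl h4
    right
    have hGd : Gd (miss I T a) κ E (t.path x) x := by
      intro A w h5 h6
      by_contra h7
      apply h4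
      refine ⟨A, w, h5, h6, ?_⟩
      push Not at h3 h7
      rw [abs_sub_comm]
      refine lt_of_lt_of_le ?_ (le_abs_self _)
      rw [hκ] at h7 ⊢
      linarith
    refine ⟨hGd, fun h5 => h2 ?_⟩
    -- the choice at this leaf
    have hGd' := Gd_congr _ κ E _ (hag x) hGd
    have h6 := hch _ _ hGd'
    have h7 : G x = ch (t.path x) (mix (t.path x) x z0) := by
      rw [hGdef, hg]
      simp only [gA]
      rw [if_pos hGd']
    rw [← h7] at h6
    have hGc : Gd (miss I T a) κ (c + e) (t.path x ∪ G x) x :=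
      Gd_ext _ κ E (c + e) _ _ x h6.2.1 (by have := h6.1; omega) hGd
    refine ⟨sps_res hS a _ x, fun i hi => ?_, ?_, h5⟩
    · exact (Nat.le_add_right c e).trans (long_of I T a κ hκ0 (c + e) _ x hGc i hi)
    · exact hmass _ x fun A w h8 h9 => hGc A w (h8.trans (by omega)) h9
  refine (PP_mono key).trans ((PP_or_le _ _).trans ?_)
  have e1 : PP (fun x => miss I T a x ∧ pr (miss I T a) (t.path x) x < ε₁) ≤ ε₁ := by
    refine PP_leaf t.path hpath _ ε₁ fun z => ?_
    simp only [hpath z]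
    have h1 : ∀ x, pr (miss I T a) (t.path z) (mix (t.path z) z x) =
        pr (miss I T a) (t.path z) z := fun x => (pr_congr _ _ (hag2 z x)).symm
    simp only [h1]
    by_cases h2 : pr (miss I T a) (t.path z) z < ε₁
    · refine le_trans (PP_mono fun x hx => hx.1) ?_
      exact h2.le
    · exact (PP_le_zero fun x hx => h2 hx.2).trans hε0.le
  have e3 : PP (fun x => Gd (miss I T a) κ E (t.path x) x ∧ ¬ ∀ v, nu (res I T a (t.path x ∪ G x) x)
        (fun i => T i \ (t.path x ∪ G x)) O v ≤ η) ≤ ε₁ := by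
    refine PP_leaf t.path hpath _ ε₁ fun z => ?_
    simp only [hpath z, hGm z]
    by_cases h2 : Gd (miss I T a) κ E (t.path z) z
    · have hGd' := Gd_congr _ κ E _ (hag z) h2
      have h6 := hch _ _ hGd'
      have h7 : G z = ch (t.path z) (mix (t.path z) z z0) := by
        rw [hGdef, hg]
        simp only [gA]
        rw [if_pos hGd']
      rw [← h7] at h6
      refine le_trans (PP_mono fun x hx => ?_) h6.2.2
      have h8 : mix (t.path z) (mix (t.path z) z z0) x = mix (t.path z) z x := by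
        funext v
        by_cases hv : v ∈ t.path z <;> simp [mix, hv]
      rw [h8]
      exact hx.2
    · refine (PP_le_zero fun x hx => h2 ?_).trans hε0.le
      exact Gd_congr _ κ E _ (fun v hv => (hag2 z x v hv).symm) hx.1
  have e2 := (PP_or_le (fun x => ∃ (A : Finset (Fin n)) (w : Cube n), A.card ≤ E ∧
      Disjoint A (t.path x) ∧
        κ < |pr (miss I T a) (t.path x ∪ A) (mix A w x) - pr (miss I T a) (t.path x) x|)
      (fun x => Gd (miss I T a) κ E (t.path x) x ∧ ¬ ∀ v, nu (res I T a (t.path x ∪ G x) x)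
        (fun i => T i \ (t.path x ∪ G x)) O v ≤ η)).trans (add_le_add ht2 e3)
  refine (add_le_add e1 e2).trans ?_
  rw [hε₁]
  linarith

end StrL

/-- the structure theorem -/
theorem str : S_REG → S_MASS → S_STR := StrL.str

end Pool.Agent.Helper91K9.SP
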