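import Pool.Agent.Helper91K9.SP.Fam2
import Pool.Agent.Helper91K9.SP.Str

/-!
# The event that no term outside of the cluster is satisfied is not unlikely
-/

set_option autoImplicit false

namespace Pool.Agent.Helper91K9.SP

namespace GstL

open Finset Pool.Agent.Helper91K9.DL StrL RegL

variable {n : ℕ} {ι : Type}

open Classical in
theorem mu_eq (I : Finset ι) (T : ι → Finset (Fin n)) (v : Fin n) :
    mu I T v = ∑ k ∈ I, if v ∈ T k then (1 / 2 : ℝ) ^ (T k).card else 0 := by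
  unfold mu mass
  rw [sum_filter]

theorem mu_le (I : Finset ι) (T : ι → Finset (Fin n)) (O : Fin n → ι → Prop) (d c : ℕ) (η : ℝ)
    (hS : Sps I T O d) (hc : ∀ i ∈ I, c ≤ (T i).card) (hν : ∀ v, nu I T O v ≤ η) (v : Fin n) :
    mu I T v ≤ d * (1 / 2) ^ c + η := by
  classical
  have h1 : mu I T v ≤ ∑ k ∈ I.filter (fun k => v ∈ T k ∧ O v k), (1 / 2 : ℝ) ^ (T k).card +
      nu I T O v := by
    rw [mu_eq, nu_eq, sum_filter, ← sum_add_distrib]
    refine sum_le_sum fun k _ => ?_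
    by_cases h1 : v ∈ T k <;> by_cases h2 : O v k <;> simp [h1, h2]
  refine h1.trans (add_le_add ?_ (hν v))
  calc ∑ k ∈ I.filter (fun k => v ∈ T k ∧ O v k), (1 / 2 : ℝ) ^ (T k).card
      ≤ ∑ _k ∈ I.filter (fun k => v ∈ T k ∧ O v k), (1 / 2 : ℝ) ^ c := by
        refine sum_le_sum fun k hk => ?_
        exact pow_le_pow_of_le_one (by norm_num) (by norm_num) (hc k (mem_filter.1 hk).1)
    _ = ((I.filter (fun k => v ∈ T k ∧ O v k)).card : ℝ) * (1 / 2) ^ c := by
        rw [sum_const, nsmul_eq_mul]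
    _ ≤ _ := by
        refine mul_le_mul_of_nonneg_right ?_ (by positivity)
        exact_mod_cast hS.own v

/-- removing a few variables -/
theorem pow_sdiff (S V : Finset (Fin n)) (D : ℕ) (hV : V.card ≤ D) :
    (1 / 2 : ℝ) ^ (S \ V).card ≤ 2 ^ D * (1 / 2) ^ S.card := by
  have h2 : S.card ≤ (S \ V).card + D := by
    have := card_sdiff_add_card S V
    have h3 := card_le_card (subset_union_left (s₁ := S) (s₂ := V))
    omega
  have h3 : (1 / 2 : ℝ) ^ ((S \ V).card + D) ≤ (1 / 2) ^ S.card :=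
    pow_le_pow_of_le_one (by norm_num) (by norm_num) h2
  have h4 : (2 : ℝ) ^ D * (1 / 2) ^ D = 1 := by rw [← mul_pow]; norm_num
  calc (1 / 2 : ℝ) ^ (S \ V).card = (1 / 2 : ℝ) ^ (S \ V).card * (2 ^ D * (1 / 2) ^ D) := by
        rw [h4, mul_one]
    _ = 2 ^ D * (1 / 2 : ℝ) ^ ((S \ V).card + D) := by rw [pow_add]; ring
    _ ≤ _ := mul_le_mul_of_nonneg_left h3 (by positivity)

open Classical in
/-- the masses of subfamilies after removing `U` and `V` -/
theorem sum_le (I J K : Finset ι) (T : ι → Finset (Fin n)) (U V : Finset (Fin n)) (D : ℕ)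
    (B : ℝ) (hB0 : 0 ≤ B) (hV : V.card ≤ D) (hK : K ⊆ I \ J) (hB : ∀ v, mu I T v ≤ B) :
    ∑ k ∈ K, (1 / 2 : ℝ) ^ ((T k \ U) \ V).card ≤ ∑ k ∈ K, (1 / 2 : ℝ) ^ (T k).card +
      2 ^ D * ∑ k ∈ (I \ J).filter (fun k => ¬ Disjoint (T k) U), (1 / 2 : ℝ) ^ (T k \ U).card +
      2 ^ D * (D * B) := by
  have h1 : ∀ k ∈ K, (1 / 2 : ℝ) ^ ((T k \ U) \ V).card ≤ (1 / 2 : ℝ) ^ (T k).card +
      (if ¬ Disjoint (T k) U then 2 ^ D * (1 / 2 : ℝ) ^ (T k \ U).card else 0) +
      ∑ v ∈ V, (if v ∈ T k then 2 ^ D * (1 / 2 : ℝ) ^ (T k).card else 0) := by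
    intro k _
    have hs0 : 0 ≤ ∑ v ∈ V, (if v ∈ T k then 2 ^ D * (1 / 2 : ℝ) ^ (T k).card else 0) :=
      sum_nonneg fun v _ => by split_ifs <;> positivity
    have hp : (0 : ℝ) ≤ (1 / 2 : ℝ) ^ (T k).card := by positivity
    by_cases hd : Disjoint (T k) U
    · rw [if_neg (not_not.2 hd), add_zero, sdiff_eq_self_of_disjoint hd]
      by_cases hv : ∃ v ∈ V, v ∈ T k
      · obtain ⟨v, hv, hvT⟩ := hv
        have h2 := single_le_sum (f := fun v => (if v ∈ T k then 2 ^ D * (1 / 2 : ℝ) ^ (T k).card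
          else 0)) (fun v _ => by split_ifs <;> positivity) hv
        simp only [if_pos hvT] at h2
        have h3 := pow_sdiff (T k) V D hV
        linarith
      · have h4 : T k \ V = T k := by
          refine sdiff_eq_self_of_disjoint (disjoint_left.2 fun v h5 h6 => hv ⟨v, h6, h5⟩)
        rw [h4]
        linarith
    · rw [if_pos hd]
      have h3 := pow_sdiff (T k \ U) V D hV
      linarith
  refine (sum_le_sum h1).trans ?_
  rw [sum_add_distrib, sum_add_distrib]
  refine add_le_add (add_le_add le_rfl ?_) ?_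
  · rw [mul_sum, sum_filter]
    refine sum_le_sum_of_subset_of_nonneg hK fun k _ _ => ?_
    split_ifs <;> positivity
  · rw [sum_comm]
    calc ∑ v ∈ V, ∑ k ∈ K, (if v ∈ T k then 2 ^ D * (1 / 2 : ℝ) ^ (T k).card else 0)
        ≤ ∑ v ∈ V, 2 ^ D * B := by
          refine sum_le_sum fun v _ => ?_
          refine le_trans ?_ (mul_le_mul_of_nonneg_left (hB v) (by positivity))
          rw [mu_eq, mul_sum]
          calc _ ≤ ∑ k ∈ I, (if v ∈ T k then 2 ^ D * (1 / 2 : ℝ) ^ (T k).card else 0) :=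
                sum_le_sum_of_subset_of_nonneg (hK.trans sdiff_subset)
                  fun k _ _ => by split_ifs <;> positivity
            _ = _ := sum_congr rfl fun k _ => by rw [mul_ite, mul_zero]
      _ = V.card * (2 ^ D * B) := by rw [sum_const, nsmul_eq_mul]
      _ ≤ D * (2 ^ D * B) := by
          refine mul_le_mul_of_nonneg_right ?_ (by positivity)
          exact_mod_cast hV
      _ = _ := by ring

theorem gst : S_LOW → S_GST := by
  classical
  intro hLOW d C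
  obtain ⟨c, η, q, hc1, hη, hq, hL⟩ := hLOW d (C + 1)
  obtain ⟨D, hD⟩ : ∃ D : ℕ, D = 2 * d + 2 := ⟨_, rfl⟩
  obtain ⟨m, hm⟩ : ∃ m : ℝ, m = min 1 (η / 2) := ⟨_, rfl⟩
  have hm0 : 0 < m := by rw [hm]; exact lt_min one_pos (by positivity)
  have hm1 : m ≤ 1 := by rw [hm]; exact min_le_left _ _
  have hm2 : m ≤ η / 2 := by rw [hm]; exact min_le_right _ _
  obtain ⟨ρ, hρ⟩ : ∃ ρ : ℝ, ρ = m / (4 * 2 ^ D * (D + 1) * (d + 1)) := ⟨_, rfl⟩
  have hρ0 : 0 < ρ := by rw [hρ]; positivity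
  obtain ⟨c₁, hc₁⟩ := exists_pow_lt_of_lt_one hρ0 (show (1 / 2 : ℝ) < 1 by norm_num)
  obtain ⟨η₀, hη₀⟩ : ∃ η₀ : ℝ, η₀ = min (η / 2) ρ := ⟨_, rfl⟩
  have hη₀0 : 0 < η₀ := by rw [hη₀]; exact lt_min (by positivity) hρ0
  have hη₀1 : η₀ ≤ η / 2 := by rw [hη₀]; exact min_le_left _ _
  have hη₀2 : η₀ ≤ ρ := by rw [hη₀]; exact min_le_right _ _
  refine ⟨c + D, c₁ + 1, m / (2 * 2 ^ D), q, η₀, by positivity, hq, by omega, hη₀0, ?_⟩
  intro u g hu n ι I J T a O i hN hT V w hV hVU
  rw [← hD] at hV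
  obtain ⟨U, hU⟩ : ∃ U, U = un J T := ⟨_, rfl⟩
  rw [← hU] at hVU
  obtain ⟨B, hBdef⟩ : ∃ B : ℝ, B = d * (1 / 2) ^ (c₁ + 1) + η₀ := ⟨_, rfl⟩
  have hB0 : 0 ≤ B := by rw [hBdef]; positivity
  have hB : ∀ v, mu I T v ≤ B := fun v => by
    rw [hBdef]
    exact mu_le I T O d (c₁ + 1) η₀ hN.sps hN.long hN.nu v
  -- the error
  have herr : (2 : ℝ) ^ D * (m / (2 * 2 ^ D)) + 2 ^ D * (D * B) ≤ m := by
    have h1 : (1 / 2 : ℝ) ^ (c₁ + 1) ≤ ρ := by
      refine le_trans ?_ hc₁.le
      exact pow_le_pow_of_le_one (by norm_num) (by norm_num) (Nat.le_succ _)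
    have h2 : B ≤ (d + 1) * ρ := by
      rw [hBdef]
      have : (d : ℝ) * (1 / 2) ^ (c₁ + 1) ≤ d * ρ := mul_le_mul_of_nonneg_left h1 (Nat.cast_nonneg _)
      linarith
    have h3 : (2 : ℝ) ^ D * (m / (2 * 2 ^ D)) = m / 2 := by field_simp
    have h4 : (2 : ℝ) ^ D * (D * B) ≤ 2 ^ D * ((D + 1) * ((d + 1) * ρ)) := by
      refine mul_le_mul_of_nonneg_left (mul_le_mul (by linarith) h2 hB0 (by positivity)) (by positivity)
    have h5 : (2 : ℝ) ^ D * ((D + 1) * ((d + 1) * ρ)) = m / 4 := by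
      rw [hρ]; field_simp
    rw [h3]
    linarith
  have hσ := hT.sum
  rw [← hU] at hσ
  have hsum : ∀ K ⊆ I \ J, ∑ k ∈ K, (1 / 2 : ℝ) ^ ((T k \ U) \ V).card ≤
      ∑ k ∈ K, (1 / 2 : ℝ) ^ (T k).card + m := by
    intro K hK
    have h1 := sum_le I J K T U V D B hB0 hV hK hB
    have h2 : (2 : ℝ) ^ D * ∑ k ∈ (I \ J).filter (fun k => ¬ Disjoint (T k) U),
        (1 / 2 : ℝ) ^ (T k \ U).card ≤ 2 ^ D * (m / (2 * 2 ^ D)) :=
      mul_le_mul_of_nonneg_left hσ (by positivity)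
    linarith
  -- the nice family
  have hnice : Nice (res (I \ J) (fun k => T k \ U) a V w) (fun k => (T k \ U) \ V) O d (C + 1) c
      η := by
    have hS1 : Sps (I \ J) (fun k => T k \ U) O d := by
      refine ⟨fun v => le_trans (card_le_card fun k hk => ?_) (hN.sps.own v),
        fun k hk => le_trans (card_le_card fun v hv => ?_) (hN.sps.exit k (mem_sdiff.1 hk).1)⟩
      · simp only [mem_filter, mem_sdiff] at hk ⊢
        exact ⟨hk.1.1, hk.2.1.1, hk.2.2⟩
      · simp only [mem_filter, mem_sdiff] at hv ⊢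
        exact ⟨hv.1.1, hv.2⟩
    refine ⟨sps_res hS1 a V w, fun k hk => ?_, ?_, fun v => ?_⟩
    · rw [mem_res, mem_sdiff] at hk
      have h1 := hT.clo.far k hk.1.1 hk.1.2
      rw [← hU] at h1
      have h2 := card_sdiff_add_card (T k \ U) V
      have h3 := card_le_card (subset_union_left (s₁ := T k \ U) (s₂ := V))
      omega
    · have h1 := hsum (res (I \ J) (fun k => T k \ U) a V w) (fun k hk => (mem_res.1 hk).1)
      have h2 : ∑ k ∈ res (I \ J) (fun k => T k \ U) a V w, (1 / 2 : ℝ) ^ (T k).card ≤ C := by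
        refine le_trans ?_ hN.mass
        exact sum_le_sum_of_subset_of_nonneg
          (fun k hk => (mem_sdiff.1 (mem_res.1 hk).1).1) fun _ _ _ => by positivity
      unfold mass
      linarith
    · have h1 := hsum ((res (I \ J) (fun k => T k \ U) a V w).filter
        fun k => v ∈ (T k \ U) \ V ∧ ¬ O v k) (fun k hk => (mem_res.1 (mem_filter.1 hk).1).1)
      have h2 : ∑ k ∈ (res (I \ J) (fun k => T k \ U) a V w).filter
        (fun k => v ∈ (T k \ U) \ V ∧ ¬ O v k), (1 / 2 : ℝ) ^ (T k).card ≤ nu I T O v := by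
        unfold nu mass
        refine sum_le_sum_of_subset_of_nonneg (fun k hk => ?_) fun _ _ _ => by positivity
        simp only [mem_filter, mem_sdiff] at hk ⊢
        exact ⟨(mem_sdiff.1 (mem_res.1 hk.1).1).1, hk.2.1.1.1, hk.2.2⟩
      have h3 := hN.nu v
      unfold nu mass
      linarith
  have hP := hL n ι _ _ a O hnice
  -- conditioning on `V`
  have h1 : PP (fun x => Gs I J T a x ∧ agr V w x) =
      PP (fun x => agr V w x ∧ Gs I J T a (mix V w x)) := by
    refine PP_congr fun x => ?_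
    rw [and_comm]
    refine and_congr_right fun h => ?_
    have : mix V w x = x := by
      funext v
      by_cases hv : v ∈ V
      · simp only [mix, if_pos hv]; exact (h v hv).symm
      · simp only [mix, if_neg hv]
    rw [this]
  have h2 := indep V (agr V w) (fun x => Gs I J T a (mix V w x))
    (fun x x' h => forall₂_congr fun v hv => by rw [h v hv])
    (fun x x' h => by
      have : mix V w x = mix V w x' := by
        funext v
        by_cases hv : v ∈ V
        · simp only [mix, if_pos hv]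
        · simp only [mix, if_neg hv]; exact h v hv
      rw [this])
  rw [h1, h2, PP_agr, mul_comm]
  refine mul_le_mul_of_nonneg_left ?_ (by positivity)
  refine hP.trans (le_of_eq (PP_congr fun x => ?_))
  rw [miss_res]
  unfold miss Gs
  rw [← hU]
  simp only [mem_sdiff]
  constructor
  · intro h k hk hk'; exact h k ⟨hk, hk'⟩
  · rintro h k ⟨hk, hk'⟩; exact h k hk hk'

end GstL

/-- the event `Gs` is not unlikely -/
theorem gst : S_LOW → S_GST := GstL.gst

end Pool.Agent.Helper91K9.SP
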