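import Pool.Agent.Helper91K9.SP.Fam4
import Pool.Agent.Helper91K9.DL.Fam

/-! Leaf [HALL] (helper94): the family of a sparse formula, oriented with the marriage theorem. -/

set_option autoImplicit false

namespace Pool.Agent.Helper91K9.SP

open Finset Pool.Agent.Helper91K9.DL Pool.Agent.Helper91K9.TW

namespace HallL

variable {n : ℕ}

/-- the orientation of a sparse incidence structure -/
theorem orient {n L d : ℕ} (T : Fin L → Finset (Fin n))
    (hs : ∀ E : Finset (Fin n × Fin L), (∀ e ∈ E, e.1 ∈ T e.2) →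
      E.card ≤ d * ((E.image Prod.fst).card + (E.image Prod.snd).card)) :
    ∃ O : Fin n → Fin L → Prop, (∀ v, (open Classical in (univ.filter fun i => v ∈ T i ∧ O v i)).card ≤ d) ∧
      ∀ i, (open Classical in ((T i).filter fun v => ¬ O v i)).card ≤ d := by
  classical
  let A := {e : Fin n × Fin L // e.1 ∈ T e.2}
  let t : A → Finset ((Fin n ⊕ Fin L) × Fin d) := fun e => {Sum.inl e.1.1, Sum.inr e.1.2} ×ˢ univ
  have hall : ∀ s : Finset A, s.card ≤ (s.biUnion t).card := by
    intro s
    have h1 : s.card = (s.image (Subtype.val : A → Fin n × Fin L)).card :=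
      (card_image_of_injective _ Subtype.val_injective).symm
    have h2 := hs (s.image (Subtype.val : A → Fin n × Fin L)) (by
      intro e he
      obtain ⟨e', -, rfl⟩ := mem_image.1 he
      exact e'.2)
    rw [h1]
    refine h2.trans ?_
    have h3 : ((((s.image (Subtype.val : A → Fin n × Fin L)).image Prod.fst).image (Sum.inl : _ → Fin n ⊕ Fin L) ∪
        ((s.image (Subtype.val : A → Fin n × Fin L)).image Prod.snd).image (Sum.inr : _ → Fin n ⊕ Fin L)) ×ˢ
        (univ : Finset (Fin d))) ⊆ s.biUnion t := by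
      rintro ⟨y, k⟩ hy
      rw [mem_product, mem_union] at hy
      rw [mem_biUnion]
      rcases hy.1 with h | h
      · obtain ⟨v, hv, rfl⟩ := mem_image.1 h
        obtain ⟨p, hp, rfl⟩ := mem_image.1 hv
        obtain ⟨e, he, rfl⟩ := mem_image.1 hp
        exact ⟨e, he, by simp [t]⟩
      · obtain ⟨v, hv, rfl⟩ := mem_image.1 h
        obtain ⟨p, hp, rfl⟩ := mem_image.1 hv
        obtain ⟨e, he, rfl⟩ := mem_image.1 hp
        exact ⟨e, he, by simp [t]⟩
    refine le_trans ?_ (card_le_card h3)
    rw [card_product, card_union_of_disjoint, card_image_of_injective _ Sum.inl_injective,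
      card_image_of_injective _ Sum.inr_injective, card_univ, Fintype.card_fin, mul_comm]
    rw [disjoint_left]
    intro y h4 h5
    obtain ⟨v, -, rfl⟩ := mem_image.1 h4
    obtain ⟨w, -, hw⟩ := mem_image.1 h5
    exact absurd hw (by simp)
  obtain ⟨f, hf, hft⟩ := (Finset.all_card_le_biUnion_card_iff_exists_injective t).1 hall
  obtain ⟨O, hO⟩ : ∃ O : Fin n → Fin L → Prop, ∀ v i, O v i ↔ ∃ h : v ∈ T i, (f ⟨(v, i), h⟩).1 = Sum.inl v :=
    ⟨_, fun _ _ => Iff.rfl⟩
  refine ⟨O, fun v => ?_, fun i => ?_⟩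
  · have h1 : (univ.filter fun i => v ∈ T i ∧ O v i) ⊆
        (univ.filter fun e : A => e.1.1 = v ∧ (f e).1 = Sum.inl v).image fun e => e.1.2 := by
      intro i hi
      obtain ⟨h, hfi⟩ := (hO v i).1 (mem_filter.1 hi).2.2
      rw [mem_image]
      exact ⟨⟨(v, i), h⟩, mem_filter.2 ⟨mem_univ _, rfl, hfi⟩, rfl⟩
    refine le_trans (le_of_eq (by congr)) ((card_le_card h1).trans (card_image_le.trans ?_))
    rw [← card_image_of_injective _ hf]
    have h2 : ((univ.filter fun e : A => e.1.1 = v ∧ (f e).1 = Sum.inl v).image f) ⊆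
        ({Sum.inl v} : Finset (Fin n ⊕ Fin L)) ×ˢ (univ : Finset (Fin d)) := by
      intro y hy
      obtain ⟨e, he, rfl⟩ := mem_image.1 hy
      rw [mem_product, mem_singleton]
      exact ⟨(mem_filter.1 he).2.2, mem_univ _⟩
    refine (card_le_card h2).trans ?_
    simp
  · have h1 : ((T i).filter fun v => ¬ O v i) ⊆
        (univ.filter fun e : A => e.1.2 = i ∧ (f e).1 = Sum.inr i).image fun e => e.1.1 := by
      intro v hv
      obtain ⟨h, hfi⟩ := mem_filter.1 hv
      rw [mem_image]
      refine ⟨⟨(v, i), h⟩, mem_filter.2 ⟨mem_univ _, rfl, ?_⟩, rfl⟩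
      have h3 := hft ⟨(v, i), h⟩
      simp only [t, mem_product, mem_insert, mem_singleton] at h3
      rcases h3.1 with h4 | h4
      · exact absurd ((hO v i).2 ⟨h, h4⟩) hfi
      · exact h4
    refine le_trans (le_of_eq (by congr)) ((card_le_card h1).trans (card_image_le.trans ?_))
    rw [← card_image_of_injective _ hf]
    have h2 : ((univ.filter fun e : A => e.1.2 = i ∧ (f e).1 = Sum.inr i).image f) ⊆
        ({Sum.inr i} : Finset (Fin n ⊕ Fin L)) ×ˢ (univ : Finset (Fin d)) := by
      intro y hy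
      obtain ⟨e, he, rfl⟩ := mem_image.1 hy
      rw [mem_product, mem_singleton]
      exact ⟨(mem_filter.1 he).2.2, mem_univ _⟩
    refine (card_le_card h2).trans ?_
    simp

end HallL

open HallL in
/-- **HALL** -/
theorem hall : S_HALL := by
  intro n d F hF hsp
  classical
  obtain ⟨O, hO1, hO2⟩ := orient (d := d) (fun i : Fin F.length => TV n (F.get i)) (by
    intro E hE
    have h1 := hsp (E.image fun e => ((e.1 : ℕ), (e.2 : ℕ))) (by
      intro e he
      obtain ⟨e', he', rfl⟩ := mem_image.1 he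
      refine ⟨F.get e'.2, by simp, ?_⟩
      exact (mem_TV _ _).1 (hE e' he'))
    have h2 : Function.Injective fun e : Fin n × Fin F.length => ((e.1 : ℕ), (e.2 : ℕ)) := by
      rintro ⟨v, i⟩ ⟨w, j⟩ h
      simp only [Prod.mk.injEq] at h
      exact Prod.ext (Fin.ext h.1) (Fin.ext h.2)
    rw [card_image_of_injective _ h2] at h1
    refine h1.trans (Nat.mul_le_mul_left d (Nat.add_le_add ?_ ?_))
    · rw [image_image]
      have h3 : (E.image (Prod.fst ∘ fun e : Fin n × Fin F.length => ((e.1 : ℕ), (e.2 : ℕ)))) =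
          (E.image Prod.fst).image fun v : Fin n => (v : ℕ) := by
        rw [image_image]
        rfl
      rw [h3]
      exact card_image_le
    · rw [image_image]
      have h3 : (E.image (Prod.snd ∘ fun e : Fin n × Fin F.length => ((e.1 : ℕ), (e.2 : ℕ)))) =
          (E.image Prod.snd).image fun v : Fin F.length => (v : ℕ) := by
        rw [image_image]
        rfl
      rw [h3]
      exact card_image_le)
  refine ⟨Fin F.length, univ.filter fun i => ∀ v : Fin n,
    ¬ (((v : ℕ), true) ∈ F.get i ∧ ((v : ℕ), false) ∈ F.get i),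
    fun i => TV n (F.get i), fun i => AV n (F.get i), O, ⟨fun v => ?_, fun i _ => ?_⟩, ?_⟩
  · refine le_trans (card_le_card ?_) (hO1 v)
    intro i hi
    rw [mem_filter] at hi ⊢
    exact ⟨mem_univ _, hi.2⟩
  · convert hO2 i
  · intro x
    unfold ff dnfVal miss
    push Not
    rw [List.any_eq_true]
    constructor
    · rintro ⟨t, ht, h⟩
      obtain ⟨i, rfl⟩ := List.get_of_mem ht
      rw [termVal_iff _ (hF _ ht), satL_iff] at h
      exact ⟨i, by simpa using h.2, h.1⟩
    · rintro ⟨i, hi, h⟩
      refine ⟨F.get i, List.get_mem _ _, ?_⟩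
      rw [termVal_iff _ (hF _ (List.get_mem _ _)), satL_iff]
      exact ⟨h, by simpa using hi⟩

end Pool.Agent.Helper91K9.SP
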