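import Pool.Agent.Helper91K9.SP.Fam2

/-!
# The hypothesis is a function of the variables of the cluster, up to a small set
-/

set_option autoImplicit false

namespace Pool.Agent.Helper91K9.SP

open Finset Pool.Agent.Helper91K9.DL

namespace HuL

variable {n : ℕ} {ι : Type}

/-- If a point `y` on `U` satisfies no term of the cluster then the events outside of `U` which
complete it to a point which misses all terms and satisfies `t` are unlikely. -/
theorem out (I J : Finset ι) (T : ι → Finset (Fin n)) (a : ι → Cube n)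
    (t t₂ : Finset (Fin n × Bool)) (τ : ℝ) (h1 : PP (fun x => miss I T a x ∧ satL t x) ≤ τ)
    (ht2 : ∀ l ∈ t₂, l.1 ∉ un J T) (ht : ∀ l ∈ t, l.1 ∉ un J T → l ∈ t₂) (y : Cube n)
    (hy : ∀ l ∈ t, l.1 ∈ un J T → y l.1 = l.2) (hyJ : ∀ j ∈ J, ¬ agr (T j) (a j) y) :
    PP (fun x => Gs I J T a x ∧ satL t₂ x) ≤ τ * 2 ^ (un J T).card := by
  classical
  have h2 : PP (fun x => agr (un J T) y x ∧ (Gs I J T a x ∧ satL t₂ x)) =
      (1 / 2) ^ (un J T).card * PP (fun x => Gs I J T a x ∧ satL t₂ x) := by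
    rw [indep (un J T) (agr (un J T) y) (fun x => Gs I J T a x ∧ satL t₂ x), PP_agr]
    · intro x z hxy
      unfold agr
      exact forall₂_congr fun b hb => by rw [hxy b hb]
    · intro x z hxy
      refine and_congr ?_ ?_
      · unfold Gs
        refine forall₂_congr fun k _ => forall_congr' fun _ => not_congr ?_
        unfold agr
        refine forall₂_congr fun w hw => ?_
        rw [hxy w (mem_sdiff.1 hw).2]
      · unfold satL
        exact forall₂_congr fun l hl => by rw [hxy _ (ht2 l hl)]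
  have h3 : PP (fun x => agr (un J T) y x ∧ (Gs I J T a x ∧ satL t₂ x)) ≤ τ := by
    refine le_trans (PP_mono fun x hx => ?_) h1
    obtain ⟨g1, g2, g3⟩ := hx
    constructor
    · intro k hk hag
      by_cases hkJ : k ∈ J
      · refine hyJ k hkJ fun w hw => ?_
        have hwU : w ∈ un J T := by
          unfold un
          exact mem_biUnion.2 ⟨k, hkJ, hw⟩
        rw [← g1 w hwU]
        exact hag w hw
      · exact g2 k hk hkJ fun w hw => hag w (mem_sdiff.1 hw).1
    · intro l hl
      by_cases hlU : l.1 ∈ un J T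
      · rw [g1 _ hlU]; exact hy l hl hlU
      · exact g3 l (ht l hl hlU)
  rw [h2] at h3
  have h4 : (0 : ℝ) < 2 ^ (un J T).card := by positivity
  have h5 : (1 / 2 : ℝ) ^ (un J T).card * 2 ^ (un J T).card = 1 := by
    rw [← mul_pow]; norm_num
  calc PP (fun x => Gs I J T a x ∧ satL t₂ x)
      = (1 / 2) ^ (un J T).card * PP (fun x => Gs I J T a x ∧ satL t₂ x) *
        2 ^ (un J T).card := by
        linear_combination (-PP (fun x => Gs I J T a x ∧ satL t₂ x)) * h5
    _ ≤ τ * 2 ^ (un J T).card := mul_le_mul_of_nonneg_right h3 h4.le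

end HuL

open HuL in
theorem hu : S_HU := by
  classical
  intro n ι I J T a 𝒽 τ hJ hτ h1 h2 h3
  refine ⟨fun x => ∃ t ∈ 𝒽, (∀ l ∈ t, l.1 ∈ un J T) ∧ satL t x, ?_, ?_, ?_, ?_⟩
  · intro x y hxy
    refine exists_congr fun t => and_congr_right fun _ => and_congr_right fun hU => ?_
    unfold satL
    exact forall₂_congr fun l hl => by rw [hxy _ (hU l hl)]
  · rintro x ⟨t, ht, -, hs⟩
    exact ⟨t, ht, hs⟩
  · rintro x ⟨t, ht, hU, hs⟩
    by_contra hcon
    push Not at hcon
    have h4 := out I J T a t ∅ τ (h1 t ht) (by simp) (fun l hl hn => absurd (hU l hl) hn) x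
      (fun l hl _ => hs l hl) hcon
    have h5 : PP (fun x => Gs I J T a x ∧ satL ∅ x) = PP (Gs I J T a) :=
      PP_congr fun x => by simp [satL]
    rw [h5] at h4
    linarith
  · have h4 : ∀ t ∈ 𝒽, PP (fun x => Gs I J T a x ∧ satL t x ∧ ∃ l ∈ t, l.1 ∉ un J T) ≤
        τ * 2 ^ (un J T).card := by
      intro t ht
      by_cases hl : ∃ l ∈ t, l.1 ∉ un J T
      · obtain ⟨l, hlt, hlU⟩ := hl
        obtain ⟨x, hx1, hx2⟩ := h2 t ht l hlt
        have h5 := out I J T a t (t.filter fun l => l.1 ∉ un J T) τ (h1 t ht)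
          (fun l hl => (mem_filter.1 hl).2) (fun l hl hn => mem_filter.2 ⟨hl, hn⟩) x
          (fun m hm hmU => hx2 m (mem_erase.2 ⟨fun e => hlU (by rwa [← e]), hm⟩))
          (fun j hj => hx1 j (hJ hj))
        refine le_trans (PP_mono fun y hy => ?_) h5
        exact ⟨hy.1, fun m hm => hy.2.1 m (mem_filter.1 hm).1⟩
      · have h5 : PP (fun x => Gs I J T a x ∧ satL t x ∧ ∃ l ∈ t, l.1 ∉ un J T) ≤
            PP (fun _ : Cube n => False) := PP_mono fun x hx => hl hx.2.2
        have h6 : PP (fun _ : Cube n => False) = 0 := by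
          rw [PP_eq]; simp
        rw [h6] at h5
        exact h5.trans (by positivity)
    have h5 : PP (fun x => Gs I J T a x ∧ hv 𝒽 x ∧
        ¬ ∃ t ∈ 𝒽, (∀ l ∈ t, l.1 ∈ un J T) ∧ satL t x) ≤
        PP (fun x => ∃ t ∈ 𝒽, Gs I J T a x ∧ satL t x ∧ ∃ l ∈ t, l.1 ∉ un J T) := by
      refine PP_mono fun x hx => ?_
      obtain ⟨g1, ⟨t, ht, g2⟩, g3⟩ := hx
      refine ⟨t, ht, g1, g2, ?_⟩
      by_contra hcon
      push Not at hcon
      exact g3 ⟨t, ht, hcon, g2⟩
    refine h5.trans ((PP_exists_le 𝒽 _).trans ((sum_le_sum h4).trans ?_))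
    rw [sum_const, nsmul_eq_mul, mul_assoc]

end Pool.Agent.Helper91K9.SP
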