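import Pool.Agent.Helper91K9.SP.Sq
import Pool.Agent.Helper91K9.DL.Lll

/-!
# Sparse families: the probability that no term is satisfied is not small
-/

set_option autoImplicit false

namespace Pool.Agent.Helper91K9.SP

open Finset Pool.Agent.Helper91K9.DL

namespace LowL

variable {n : ℕ} {ι : Type}

open Classical in
/-- Adding the events of a set one by one, with weights. -/
theorem chainW (T : ι → Finset (Fin n)) (a : ι → Cube n) (q : ι → ℝ) (S₂ S : Finset ι)
    (hq : ∀ j ∈ S, q j ≤ 1)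
    (h : ∀ S', S₂ ⊆ S' → S' ⊆ S → ∀ j ∈ S, j ∉ S' →
      PP (fun x => agr (T j) (a j) x ∧ NN T a S' x) ≤ q j * PP (NN T a S')) :
    ∀ D : Finset ι, D ⊆ S → Disjoint S₂ D → S₂ ⊆ S →
      (∏ j ∈ D, (1 - q j)) * PP (NN T a S₂) ≤ PP (NN T a (S₂ ∪ D)) := by
  intro D
  induction D using Finset.induction_on with
  | empty => intro _ _ _; simp
  | insert j D hj ih =>
    intro hD hdis hS
    have hD' : D ⊆ S := fun x hx => hD (mem_insert_of_mem hx)
    have hdis' : Disjoint S₂ D := by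
      rw [disjoint_insert_right] at hdis
      exact hdis.2
    have hjS : j ∉ S₂ := by
      rw [disjoint_insert_right] at hdis
      exact hdis.1
    have ih' := ih hD' hdis' hS
    have hjm : j ∈ S := hD (mem_insert_self _ _)
    have hj2 : j ∉ S₂ ∪ D := by
      simp [hj, hjS]
    have h1 := h (S₂ ∪ D) subset_union_left (union_subset hS hD') j hjm hj2
    rw [union_insert, NN_insert, prod_insert hj]
    have h0 : 0 ≤ 1 - q j := by linarith [hq j hjm]
    have h3 : (1 - q j) * (∏ j ∈ D, (1 - q j)) * PP (NN T a S₂) ≤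
        (1 - q j) * PP (NN T a (S₂ ∪ D)) := by
      rw [mul_assoc]
      exact mul_le_mul_of_nonneg_left ih' h0
    linarith

theorem prod_ge {s : Finset ι} {q : ι → ℝ} (h0 : ∀ i ∈ s, 0 ≤ q i) (h1 : ∀ i ∈ s, q i ≤ 1) :
    1 - ∑ i ∈ s, q i ≤ ∏ i ∈ s, (1 - q i) := by
  classical
  induction s using Finset.induction_on with
  | empty => simp
  | insert a s ha ih =>
    rw [sum_insert ha, prod_insert ha]
    have i1 := ih (fun i hi => h0 i (mem_insert_of_mem hi)) (fun i hi => h1 i (mem_insert_of_mem hi))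
    have h2 := h0 a (mem_insert_self a s)
    have h3 := h1 a (mem_insert_self a s)
    have h4 : 0 ≤ ∑ i ∈ s, q i := sum_nonneg fun i hi => h0 i (mem_insert_of_mem hi)
    have h5 : (1 - q a) * (1 - ∑ i ∈ s, q i) ≤ (1 - q a) * ∏ i ∈ s, (1 - q i) :=
      mul_le_mul_of_nonneg_left i1 (by linarith)
    nlinarith

open Classical in
/-- The local lemma: the conditional probabilities. -/
theorem claimW (I : Finset ι) (T : ι → Finset (Fin n)) (a : ι → Cube n)
    (hT : ∀ i ∈ I, 1 ≤ (T i).card)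
    (hm : ∀ i ∈ I, ∑ k ∈ I.filter (fun k => ¬ Disjoint (T k) (T i)), (1 / 2 : ℝ) ^ (T k).card ≤ 1 / 8) :
    ∀ S : Finset ι, S ⊆ I → ∀ i ∈ I,
      PP (fun x => agr (T i) (a i) x ∧ NN T a S x) ≤
        (2 * (1 / 2 : ℝ) ^ (T i).card) * PP (NN T a S) := by
  intro S
  induction S using Finset.strongInduction with
  | H S ih =>
  intro hS i hi
  have hq1 : ∀ j ∈ I, 2 * (1 / 2 : ℝ) ^ (T j).card ≤ 1 := by
    intro j hj
    have h1 : (1 / 2 : ℝ) ^ (T j).card ≤ (1 / 2) ^ 1 :=
      pow_le_pow_of_le_one (by norm_num) (by norm_num) (hT j hj)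
    linarith
  set S₂ := S.filter fun j => Disjoint (T j) (T i) with hS2
  set S₁ := S.filter fun j => ¬ Disjoint (T j) (T i) with hS1
  have hun : S₂ ∪ S₁ = S := filter_union_filter_not_eq _ S
  have hdis : Disjoint S₂ S₁ := disjoint_filter_filter_not _ _ _
  have hch := chainW T a (fun j => 2 * (1 / 2 : ℝ) ^ (T j).card) S₂ S
    (fun j hj => hq1 j (hS hj)) (by
    intro S' _ hS'S j hj hjS'
    exact ih S' ⟨hS'S, fun h => hjS' (h hj)⟩ (hS'S.trans hS) j (hS hj)) S₁ (filter_subset _ _)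
      hdis (filter_subset _ _)
  rw [hun] at hch
  have hind : PP (fun x => agr (T i) (a i) x ∧ NN T a S₂ x) =
      (1 / 2) ^ (T i).card * PP (NN T a S₂) := by
    rw [indep_dep (T i) _ _ (dep_agr _ _), PP_agr]
    apply dep_NN
    intro j hj v hv
    rw [mem_filter] at hj
    rw [mem_compl]
    intro hv'
    exact (Finset.disjoint_left.1 hj.2 hv) hv'
  have hmono : PP (fun x => agr (T i) (a i) x ∧ NN T a S x) ≤
      PP (fun x => agr (T i) (a i) x ∧ NN T a S₂ x) := by
    apply PP_mono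
    rintro x ⟨h1, h2⟩
    exact ⟨h1, fun j hj => h2 j (filter_subset _ _ hj)⟩
  have h0 := PP_nonneg (NN T a S₂)
  have h5 : (1 / 2 : ℝ) ≤ ∏ j ∈ S₁, (1 - 2 * (1 / 2 : ℝ) ^ (T j).card) := by
    refine le_trans ?_ (prod_ge (fun j _ => by positivity)
      (fun j hj => hq1 j (hS (filter_subset _ _ hj))))
    have h6 : ∑ j ∈ S₁, (1 / 2 : ℝ) ^ (T j).card ≤ 1 / 8 := by
      refine le_trans ?_ (hm i hi)
      exact sum_le_sum_of_subset_of_nonneg (filter_subset_filter _ hS) fun _ _ _ => by positivity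
    rw [← mul_sum]
    linarith
  have h7 : (1 / 2 : ℝ) * PP (NN T a S₂) ≤ PP (NN T a S) :=
    (mul_le_mul_of_nonneg_right h5 h0).trans hch
  have hw : (0 : ℝ) ≤ (1 / 2) ^ (T i).card := by positivity
  calc PP (fun x => agr (T i) (a i) x ∧ NN T a S x)
      ≤ (1 / 2) ^ (T i).card * PP (NN T a S₂) := hmono.trans_eq hind
    _ = 2 * (1 / 2) ^ (T i).card * (1 / 2 * PP (NN T a S₂)) := by ring
    _ ≤ _ := mul_le_mul_of_nonneg_left h7 (by positivity)

open Classical in
/-- The local lemma. -/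
theorem lllW (I : Finset ι) (T : ι → Finset (Fin n)) (a : ι → Cube n)
    (hT : ∀ i ∈ I, 2 ≤ (T i).card)
    (hm : ∀ i ∈ I, ∑ k ∈ I.filter (fun k => ¬ Disjoint (T k) (T i)), (1 / 2 : ℝ) ^ (T k).card ≤ 1 / 8) :
    Real.exp (-4 * mass I T) ≤ PP (NN T a I) := by
  have hq1 : ∀ j ∈ I, 2 * (1 / 2 : ℝ) ^ (T j).card ≤ 1 / 2 := by
    intro j hj
    have h1 : (1 / 2 : ℝ) ^ (T j).card ≤ (1 / 2) ^ 2 :=
      pow_le_pow_of_le_one (by norm_num) (by norm_num) (hT j hj)
    linarith
  have hch := chainW T a (fun j => 2 * (1 / 2 : ℝ) ^ (T j).card) ∅ I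
    (fun j hj => by linarith [hq1 j hj]) (by
    intro S' _ hS' j hj _
    exact claimW I T a (fun i hi => by have := hT i hi; omega) hm S' hS' j hj) I subset_rfl
      (disjoint_empty_left _) (empty_subset _)
  rw [empty_union] at hch
  have h1 : PP (NN T a ∅) = 1 := by
    rw [← PP_true (n := n)]
    exact PP_congr fun x => by simp [NN]
  rw [h1, mul_one] at hch
  refine le_trans ?_ hch
  have h2 : Real.exp (-4 * mass I T) = ∏ i ∈ I, Real.exp (-4 * (1 / 2 : ℝ) ^ (T i).card) := by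
    rw [← Real.exp_sum, mass, mul_sum]
  rw [h2]
  apply prod_le_prod
  · intro i _; positivity
  · intro i hi
    have h3 := hq1 i hi
    have h4 : (0 : ℝ) ≤ (1 / 2) ^ (T i).card := by positivity
    -- `exp (-2 x) ≤ 1 - x` for `0 ≤ x ≤ 1/2`
    obtain ⟨x, hx⟩ : ∃ x : ℝ, x = 2 * (1 / 2) ^ (T i).card := ⟨_, rfl⟩
    have h5 : -4 * (1 / 2 : ℝ) ^ (T i).card = -(2 * x) := by rw [hx]; ring
    rw [h5, ← hx, Real.exp_neg, inv_le_comm₀ (Real.exp_pos _) (by linarith)]
    have h6 : 1 + 2 * x ≤ Real.exp (2 * x) := by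
      have := Real.add_one_le_exp (2 * x); linarith
    refine le_trans ?_ h6
    rw [inv_le_iff_one_le_mul₀ (by linarith)]
    nlinarith

end LowL

theorem low (hsq : S_SQ) : S_LOW := by
  classical
  intro d C
  obtain ⟨M, hM⟩ : ∃ M : ℝ, M = max C 0 := ⟨_, rfl⟩
  have hM0 : 0 ≤ M := by rw [hM]; exact le_max_right _ _
  have hCM : C ≤ M := by rw [hM]; exact le_max_left _ _
  obtain ⟨δ, hδ⟩ : ∃ δ : ℝ, δ = Real.exp (-4 * M) / (64 * (d + 1) * (M + 1)) := ⟨_, rfl⟩
  have hδ0 : 0 < δ := by rw [hδ]; positivity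
  obtain ⟨c, hc2, hc⟩ : ∃ c : ℕ, 2 ≤ c ∧ (c : ℝ) * (1 / 2) ^ c ≤ δ := by
    have h1 := (tendsto_self_mul_const_pow_of_lt_one (r := (1 / 2 : ℝ)) (by norm_num)
      (by norm_num)).eventually (ge_mem_nhds hδ0)
    obtain ⟨c, h2, h3⟩ := (h1.and (Filter.eventually_ge_atTop 2)).exists
    exact ⟨c, h3, h2⟩
  refine ⟨c, δ, Real.exp (-4 * M) / 2, by omega, hδ0, by positivity, ?_⟩
  intro n ι I T a O hN
  have hmass0 := SqL.mass_nonneg I T
  have hmassM : mass I T ≤ M := hN.mass.trans hCM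
  have hS := hsq n ι I T O d c δ hN.sps (by omega) hN.long hδ0.le hN.nu
  have hS2 : ∑ v, mu I T v ^ 2 ≤ Real.exp (-4 * M) / 16 := by
    refine hS.trans ?_
    have h1 : (2 : ℝ) * d * mass I T * (c * (1 / 2) ^ c + δ) ≤ 2 * d * M * (2 * δ) := by
      have hd : (0 : ℝ) ≤ d := Nat.cast_nonneg _
      have hc0 : (0 : ℝ) ≤ (c : ℝ) * (1 / 2) ^ c := by positivity
      apply mul_le_mul (by nlinarith) (by linarith) (by positivity) (by positivity)
    refine h1.trans ?_
    have h2 : δ * (64 * (d + 1) * (M + 1)) = Real.exp (-4 * M) := by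
      rw [hδ]; field_simp
    have h3 : (d : ℝ) * M ≤ (d + 1) * (M + 1) := by
      have hd : (0 : ℝ) ≤ d := Nat.cast_nonneg _
      nlinarith
    nlinarith [mul_le_mul_of_nonneg_right h3 hδ0.le]
  -- the terms which meet too many others
  obtain ⟨A, hA⟩ : ∃ A : Finset ι, A = I.filter fun i => 1 / 8 < ∑ k ∈ I.filter
    (fun k => ¬ Disjoint (T k) (T i)), (1 / 2 : ℝ) ^ (T k).card := ⟨_, rfl⟩
  have hmA : mass A T ≤ Real.exp (-4 * M) / 2 := by
    have h1 : mass A T ≤ 8 * ∑ i ∈ I, ∑ k ∈ I.filter (fun k => ¬ Disjoint (T k) (T i)),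
        (1 / 2 : ℝ) ^ (T i).card * (1 / 2 : ℝ) ^ (T k).card := by
      rw [mass, mul_sum]
      have h2 : ∀ i ∈ A, (1 / 2 : ℝ) ^ (T i).card ≤
          8 * ∑ k ∈ I.filter (fun k => ¬ Disjoint (T k) (T i)),
            (1 / 2 : ℝ) ^ (T i).card * (1 / 2 : ℝ) ^ (T k).card := by
        intro i hi
        rw [hA, mem_filter] at hi
        rw [← mul_sum]
        have : (0 : ℝ) < (1 / 2) ^ (T i).card := by positivity
        nlinarith [hi.2]
      refine (sum_le_sum h2).trans ?_
      apply sum_le_sum_of_subset_of_nonneg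
      · rw [hA]; exact filter_subset _ _
      · intro i _ _
        exact mul_nonneg (by norm_num) (sum_nonneg fun _ _ => by positivity)
    have h3 : ∑ i ∈ I, ∑ k ∈ I.filter (fun k => ¬ Disjoint (T k) (T i)),
        (1 / 2 : ℝ) ^ (T i).card * (1 / 2 : ℝ) ^ (T k).card ≤ ∑ v, mu I T v ^ 2 := by
      have h4 : ∀ v, mu I T v ^ 2 = ∑ i ∈ I, ∑ k ∈ I,
          if v ∈ T i ∧ v ∈ T k then (1 / 2 : ℝ) ^ (T i).card * (1 / 2 : ℝ) ^ (T k).card else 0 := by
        intro v
        have h5 : mu I T v = ∑ i ∈ I, if v ∈ T i then (1 / 2 : ℝ) ^ (T i).card else 0 := by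
          rw [mu, mass, sum_filter]
        rw [h5, pow_two, sum_mul_sum]
        refine sum_congr rfl fun i _ => sum_congr rfl fun k _ => ?_
        by_cases h6 : v ∈ T i <;> by_cases h7 : v ∈ T k <;> simp [h6, h7]
      simp_rw [h4]
      rw [sum_comm]
      apply sum_le_sum
      intro i _
      rw [sum_comm, sum_filter]
      apply sum_le_sum
      intro k _
      by_cases h5 : Disjoint (T k) (T i)
      · rw [if_neg (not_not.2 h5)]
        exact sum_nonneg fun w _ => by split_ifs <;> positivity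
      · rw [if_pos h5]
        rw [not_disjoint_iff] at h5
        obtain ⟨v, hv1, hv2⟩ := h5
        refine le_trans ?_ (single_le_sum (f := fun v => if v ∈ T i ∧ v ∈ T k then
          (1 / 2 : ℝ) ^ (T i).card * (1 / 2 : ℝ) ^ (T k).card else 0)
          (fun w _ => by split_ifs <;> positivity) (mem_univ v))
        simp only [hv1, hv2, and_self, if_true]
        exact le_rfl
    linarith
  -- the local lemma for the others
  have hsub : I \ A ⊆ I := sdiff_subset
  have h1 := LowL.lllW (I \ A) T a (fun i hi => hc2.trans (hN.long i (hsub hi))) (by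
    intro i hi
    rw [mem_sdiff, hA, mem_filter, not_and, not_lt] at hi
    refine le_trans ?_ (hi.2 hi.1)
    exact sum_le_sum_of_subset_of_nonneg (filter_subset_filter _ hsub) fun _ _ _ => by positivity)
  have h2 : Real.exp (-4 * M) ≤ Real.exp (-4 * mass (I \ A) T) := by
    apply Real.exp_le_exp.2
    have := SqL.mass_mono hsub T
    linarith
  have h3 : PP (NN T a (I \ A)) ≤ PP (miss I T a) + mass A T := by
    have h4 : PP (NN T a (I \ A)) ≤ PP (fun x => miss I T a x ∨ ∃ i ∈ A, agr (T i) (a i) x) := by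
      apply PP_mono
      intro x hx
      by_cases h5 : ∃ i ∈ A, agr (T i) (a i) x
      · exact Or.inr h5
      · left
        intro i hi hag
        by_cases h6 : i ∈ A
        · exact h5 ⟨i, h6, hag⟩
        · exact hx i (mem_sdiff.2 ⟨hi, h6⟩) hag
    refine h4.trans ((PP_or_le _ _).trans ?_)
    have h5 := PP_exists_le A (fun i => agr (T i) (a i))
    have h6 : ∑ i ∈ A, PP (agr (T i) (a i)) = mass A T := by
      rw [mass]; exact sum_congr rfl fun i _ => PP_agr _ _
    linarith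
  linarith

end Pool.Agent.Helper91K9.SP
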