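import Pool.Agent.Helper91K9.SP.Fam

/-!
# A regularity lemma for decision trees
-/

set_option autoImplicit false

namespace Pool.Agent.Helper91K9.SP

namespace RegL

open Finset Pool.Agent.Helper91K9.DL

variable {n : ℕ}

/-- the average over the cube -/
noncomputable def EE (h : Cube n → ℝ) : ℝ := (∑ z, h z) / 2 ^ n

theorem EE_mono {h g : Cube n → ℝ} (H : ∀ z, h z ≤ g z) : EE h ≤ EE g :=
  div_le_div_of_nonneg_right (sum_le_sum fun z _ => H z) (by positivity)

theorem EE_congr {h g : Cube n → ℝ} (H : ∀ z, h z = g z) : EE h = EE g := by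
  unfold EE; rw [sum_congr rfl fun z _ => H z]

theorem EE_const (c : ℝ) : EE (fun _ : Cube n => c) = c := by
  unfold EE
  rw [sum_const, card_univ, nsmul_eq_mul]
  have : (Fintype.card (Cube n) : ℝ) = 2 ^ n := by simp
  rw [this, mul_div_cancel_left₀ _ (by positivity)]

theorem EE_add (h g : Cube n → ℝ) : EE (fun z => h z + g z) = EE h + EE g := by
  unfold EE; rw [sum_add_distrib, add_div]

theorem EE_mul (c : ℝ) (h : Cube n → ℝ) : EE (fun z => c * h z) = c * EE h := by
  unfold EE; rw [← mul_sum, mul_div_assoc]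

theorem EE_nonneg {h : Cube n → ℝ} (H : ∀ z, 0 ≤ h z) : 0 ≤ EE h :=
  div_nonneg (sum_nonneg fun z _ => H z) (by positivity)

open Classical in
/-- indicator -/
noncomputable def ii (p : Cube n → Prop) (z : Cube n) : ℝ := if p z then 1 else 0

theorem PP_EE (p : Cube n → Prop) : PP p = EE (ii p) := by
  classical
  rw [PP_eq]
  unfold EE ii
  congr 1
  rw [card_filter]
  push_cast
  exact sum_congr rfl fun z _ => by congr

theorem ii_nonneg (p : Cube n → Prop) (z : Cube n) : 0 ≤ ii p z := by
  unfold ii; split_ifs <;> norm_num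

theorem ii_pos {p : Cube n → Prop} {z : Cube n} (h : p z) : ii p z = 1 := by
  unfold ii; rw [if_pos h]

theorem ii_neg {p : Cube n → Prop} {z : Cube n} (h : ¬ p z) : ii p z = 0 := by
  unfold ii; rw [if_neg h]

/-- resampling outside of the path -/
theorem swap (P : Cube n → Finset (Fin n)) (hP : ∀ z x, P (mix (P z) z x) = P z)
    (h : Cube n → ℝ) : EE (fun z => EE fun x => h (mix (P z) z x)) = EE h := by
  have h2 : (2 : ℝ) ^ n ≠ 0 := by positivity
  let φ : Cube n × Cube n → Cube n × Cube n := fun y => (mix (P y.1) y.1 y.2, mix (P y.1) y.2 y.1)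
  have hφ : Function.Involutive φ := by
    rintro ⟨z, x⟩
    simp only [φ, hP]
    refine Prod.ext ?_ ?_
    · funext v
      by_cases hv : v ∈ P z <;> simp [mix, hv]
    · funext v
      by_cases hv : v ∈ P z <;> simp [mix, hv]
  have h3 : ∑ z : Cube n, ∑ x : Cube n, h (mix (P z) z x) = 2 ^ n * ∑ z, h z := by
    calc _ = ∑ y : Cube n × Cube n, h (φ y).1 := by rw [Fintype.sum_prod_type]
      _ = ∑ y : Cube n × Cube n, h y.1 := Equiv.sum_comp (hφ.toPerm φ) fun y : Cube n × Cube n => h y.1
      _ = _ := by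
        rw [Fintype.sum_prod_type]
        simp only [sum_const, card_univ, nsmul_eq_mul]
        rw [← mul_sum]
        simp
  unfold EE
  rw [← sum_div, h3]
  field_simp

theorem pr_congr (f : Cube n → Prop) (B : Finset (Fin n)) {z y : Cube n}
    (h : ∀ v ∈ B, z v = y v) : pr f B z = pr f B y := by
  unfold pr
  have : ∀ x, mix B z x = mix B y x := by
    intro x
    funext v
    unfold mix
    split_ifs with hv
    · exact h v hv
    · rfl
  simp only [this]

theorem pr_EE (f : Cube n → Prop) (B : Finset (Fin n)) (z : Cube n) :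
    pr f B z = EE fun x => ii f (mix B z x) := PP_EE _

theorem pr_nonneg (f : Cube n → Prop) (B : Finset (Fin n)) (z : Cube n) : 0 ≤ pr f B z :=
  PP_nonneg _

theorem pr_le_one (f : Cube n → Prop) (B : Finset (Fin n)) (z : Cube n) : pr f B z ≤ 1 :=
  PP_le_one _

/-- `P` is the path function of a partition, `G` is constant on its parts -/
structure Ref (P G : Cube n → Finset (Fin n)) : Prop where
  st : ∀ z y, (∀ v ∈ P z, z v = y v) → P y = P z
  ms : ∀ z y, (∀ v ∈ P z, z v = y v) → G y = G z

theorem Ref.mix {P G : Cube n → Finset (Fin n)} (h : Ref P G) (z x : Cube n) :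
    P (mix (P z) z x) = P z ∧ G (mix (P z) z x) = G z := by
  have : ∀ v ∈ P z, z v = SP.mix (P z) z x v := fun v hv => by simp [SP.mix, hv]
  exact ⟨h.st z _ this, h.ms z _ this⟩

theorem mean (f : Cube n → Prop) {P G : Cube n → Finset (Fin n)} (h : Ref P G) (z : Cube n) :
    EE (fun x => pr f (P (mix (P z) z x) ∪ G (mix (P z) z x)) (mix (P z) z x)) = pr f (P z) z := by
  have h1 : ∀ x, pr f (P (SP.mix (P z) z x) ∪ G (SP.mix (P z) z x)) (SP.mix (P z) z x) =
      EE fun x' => ii f (SP.mix (P z) z (SP.mix (G z) x x')) := by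
    intro x
    rw [(h.mix z x).1, (h.mix z x).2, pr_EE]
    refine EE_congr fun x' => ?_
    congr 1
    funext v
    by_cases h1 : v ∈ P z <;> by_cases h2 : v ∈ G z <;> simp [SP.mix, h1, h2]
  rw [EE_congr h1, swap (fun _ => G z) (fun _ _ => rfl) fun y => ii f (SP.mix (P z) z y), pr_EE]

/-- the potential -/
noncomputable def pt (f : Cube n → Prop) (P : Cube n → Finset (Fin n)) : ℝ :=
  EE fun z => pr f (P z) z ^ 2

theorem pt_le_one (f : Cube n → Prop) (P : Cube n → Finset (Fin n)) : pt f P ≤ 1 := by
  calc pt f P ≤ EE fun _ : Cube n => (1 : ℝ) :=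
        EE_mono fun _ => pow_le_one₀ (pr_nonneg _ _ _) (pr_le_one _ _ _)
    _ = 1 := EE_const 1

theorem pt_nonneg (f : Cube n → Prop) (P : Cube n → Finset (Fin n)) : 0 ≤ pt f P :=
  EE_nonneg fun _ => sq_nonneg _

theorem pyth (f : Cube n → Prop) {P G : Cube n → Finset (Fin n)} (h : Ref P G) :
    pt f (fun z => P z ∪ G z) = pt f P + EE fun z => EE fun x =>
      (pr f (P z ∪ G z) (mix (P z) z x) - pr f (P z) z) ^ 2 := by
  have e0 : ∀ (z x : Cube n), pr f (P (SP.mix (P z) z x)) (SP.mix (P z) z x) = pr f (P z) z := by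
    intro z x
    rw [(h.mix z x).1]
    exact pr_congr _ _ fun v hv => by simp [SP.mix, hv]
  have e1 : pt f (fun z => P z ∪ G z) = EE fun z => EE fun x =>
      pr f (P z ∪ G z) (SP.mix (P z) z x) ^ 2 := by
    unfold pt
    rw [← swap P (fun z x => (h.mix z x).1) fun z => pr f (P z ∪ G z) z ^ 2]
    refine EE_congr fun z => EE_congr fun x => ?_
    rw [(h.mix z x).1, (h.mix z x).2]
  rw [e1]
  unfold pt
  rw [← EE_add]
  refine EE_congr fun z => ?_
  have e2 := mean f h z
  have e3 : ∀ x, pr f (P (SP.mix (P z) z x) ∪ G (SP.mix (P z) z x)) (SP.mix (P z) z x) =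
      pr f (P z ∪ G z) (SP.mix (P z) z x) := by
    intro x
    rw [(h.mix z x).1, (h.mix z x).2]
  rw [EE_congr e3] at e2
  have e4 : ∀ x, (pr f (P z ∪ G z) (SP.mix (P z) z x) - pr f (P z) z) ^ 2 =
      pr f (P z ∪ G z) (SP.mix (P z) z x) ^ 2 +
        ((-2 * pr f (P z) z) * pr f (P z ∪ G z) (SP.mix (P z) z x) + pr f (P z) z ^ 2) := by
    intro x; ring
  rw [EE_congr e4, EE_add, EE_add, EE_mul, e2, EE_const]
  ring

/-- the increment of the potential -/
theorem incr (f : Cube n → Prop) {P G : Cube n → Finset (Fin n)} (h : Ref P G) (e : ℕ) (θ : ℝ)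
    (hθ : 0 < θ) (Bd : Cube n → Prop) (hB : ∀ z, Bd z → (G z).card ≤ e ∧ Disjoint (G z) (P z) ∧
      ∃ w, θ < |pr f (P z ∪ G z) (mix (G z) w z) - pr f (P z) z|) :
    pt f P + PP Bd * (θ ^ 2 * (1 / 2) ^ e) ≤ pt f (fun z => P z ∪ G z) := by
  rw [pyth f h]
  refine (add_le_add_iff_left _).2 ?_
  rw [PP_EE, mul_comm, ← EE_mul]
  refine EE_mono fun z => ?_
  by_cases hz : Bd z
  · obtain ⟨h1, h2, w, h3⟩ := hB z hz
    rw [ii_pos hz, mul_one]
    have h4 : θ ^ 2 * (1 / 2) ^ (G z).card ≤ EE fun x =>
        (pr f (P z ∪ G z) (SP.mix (P z) z x) - pr f (P z) z) ^ 2 := by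
      rw [← PP_agr (G z) w, PP_EE, ← EE_mul]
      refine EE_mono fun x => ?_
      by_cases hx : agr (G z) w x
      · rw [ii_pos hx, mul_one]
        have h5 : pr f (P z ∪ G z) (SP.mix (P z) z x) = pr f (P z ∪ G z) (SP.mix (G z) w z) := by
          refine pr_congr _ _ fun v hv => ?_
          rw [mem_union] at hv
          by_cases hv1 : v ∈ G z
          · have hv2 : v ∉ P z := fun hv2 => (disjoint_left.1 h2) hv1 hv2
            simp only [SP.mix, if_pos hv1, if_neg hv2]
            exact hx v hv1
          · have hv2 : v ∈ P z := by tauto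
            simp only [SP.mix, if_neg hv1, if_pos hv2]
        rw [h5, ← sq_abs (_ - _)]
        exact pow_le_pow_left₀ hθ.le h3.le 2
      · rw [ii_neg hx, mul_zero]
        positivity
    refine le_trans ?_ h4
    refine mul_le_mul_of_nonneg_left ?_ (by positivity)
    exact pow_le_pow_of_le_one (by norm_num) (by norm_num) h1
  · rw [ii_neg hz, mul_zero]
    exact EE_nonneg fun x => sq_nonneg _

/-! ## Refinement of a tree -/

/-- the tree which queries all the variables of a list -/
def full : List (Fin n) → DT n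
  | [] => DT.leaf
  | v :: l => DT.node v (full l) (full l)

theorem full_depth (l : List (Fin n)) : (full l).depth = l.length := by
  induction l with
  | nil => rfl
  | cons v l ih => simp [full, DT.depth, ih]

theorem full_path (l : List (Fin n)) (x : Cube n) : (full l).path x = l.toFinset := by
  induction l with
  | nil => rfl
  | cons v l ih => simp [full, DT.path, ih]

/-- all leaves are refined -/
noncomputable def ref (g : Finset (Fin n) → Cube n → Finset (Fin n)) :
    DT n → Finset (Fin n) → Cube n → DT n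
  | DT.leaf, B, y => full (g B y).toList
  | DT.node v l r, B, y => DT.node v (ref g l (insert v B) (Function.update y v true))
      (ref g r (insert v B) (Function.update y v false))

theorem ref_depth (g : Finset (Fin n) → Cube n → Finset (Fin n)) (e : ℕ)
    (hg : ∀ B y, (g B y).card ≤ e) (t : DT n) : ∀ B y, (ref g t B y).depth ≤ t.depth + e := by
  induction t with
  | leaf =>
    intro B y
    simp only [ref, full_depth, DT.depth, zero_add, length_toList]
    exact hg B y
  | node v l r ihl ihr =>
    intro B y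
    simp only [ref, DT.depth]
    have h1 := ihl (insert v B) (Function.update y v true)
    have h2 := ihr (insert v B) (Function.update y v false)
    omega

theorem ref_path (g : Finset (Fin n) → Cube n → Finset (Fin n)) (t : DT n) (x : Cube n) :
    ∀ B y, (ref g t B y).path x = t.path x ∪ g (B ∪ t.path x) (mix (t.path x) x y) := by
  induction t with
  | leaf =>
    intro B y
    simp only [ref, full_path, DT.path, toList_toFinset, union_empty, empty_union]
    congr 1
  | node v l r ihl ihr =>
    intro B y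
    by_cases hx : x v = true
    · simp only [ref, DT.path, if_pos hx]
      have e1 : insert v B ∪ l.path x = B ∪ insert v (l.path x) := by
        rw [insert_union, union_insert]
      have e2 : mix (l.path x) x (Function.update y v true) = mix (insert v (l.path x)) x y := by
        funext u
        by_cases h1 : u = v
        · subst h1
          by_cases h2 : u ∈ l.path x <;> simp [SP.mix, h2, hx]
        · by_cases h2 : u ∈ l.path x <;> simp [SP.mix, h2, h1]
      rw [ihl, e1, e2, insert_union]
    · simp only [ref, DT.path, if_neg hx]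
      rw [Bool.not_eq_true] at hx
      have e1 : insert v B ∪ r.path x = B ∪ insert v (r.path x) := by
        rw [insert_union, union_insert]
      have e2 : mix (r.path x) x (Function.update y v false) = mix (insert v (r.path x)) x y := by
        funext u
        by_cases h1 : u = v
        · subst h1
          by_cases h2 : u ∈ r.path x <;> simp [SP.mix, h2, hx]
        · by_cases h2 : u ∈ r.path x <;> simp [SP.mix, h2, h1]
      rw [ihr, e1, e2, insert_union]

theorem path_congr (t : DT n) (z y : Cube n) (h : ∀ v ∈ t.path z, z v = y v) :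
    t.path y = t.path z := by
  induction t with
  | leaf => rfl
  | node v l r ihl ihr =>
    have h0 : z v = y v := h v (by simp [DT.path])
    by_cases hz : z v = true
    · have hy : y v = true := by rw [← h0]; exact hz
      simp only [DT.path, if_pos hz, if_pos hy] at h ⊢
      rw [ihl fun u hu => h u (mem_insert_of_mem hu)]
    · have hy : ¬ y v = true := by rw [← h0]; exact hz
      simp only [DT.path, if_neg hz, if_neg hy] at h ⊢
      rw [ihr fun u hu => h u (mem_insert_of_mem hu)]

/-- the bad points -/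
def Bd (f : Cube n → Prop) (θ : ℝ) (e : ℕ) (P : Finset (Fin n)) (z : Cube n) : Prop :=
  ∃ (A : Finset (Fin n)) (w : Cube n), A.card ≤ e ∧ Disjoint A P ∧
    θ < |pr f (P ∪ A) (mix A w z) - pr f P z|

theorem Bd_aux (f : Cube n → Prop) (P A : Finset (Fin n)) (w : Cube n) {z y : Cube n}
    (h : ∀ v ∈ P, z v = y v) : pr f (P ∪ A) (mix A w z) - pr f P z =
      pr f (P ∪ A) (mix A w y) - pr f P y := by
  rw [pr_congr f P h, pr_congr f (P ∪ A) (z := SP.mix A w z) (y := SP.mix A w y)]
  intro v hv
  by_cases h1 : v ∈ A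
  · simp [SP.mix, h1]
  · simp only [SP.mix, if_neg h1]
    refine h v ?_
    rw [mem_union] at hv
    tauto

open Classical in
/-- the choice of the refinement -/
noncomputable def gg (f : Cube n → Prop) (θ : ℝ) (e : ℕ) (P : Finset (Fin n)) (z : Cube n) :
    Finset (Fin n) := if h : Bd f θ e P z then h.choose else ∅

theorem gg_card (f : Cube n → Prop) (θ : ℝ) (e : ℕ) (P : Finset (Fin n)) (z : Cube n) :
    (gg f θ e P z).card ≤ e := by
  unfold gg
  split_ifs with h
  · obtain ⟨w, h1, h2, h3⟩ := h.choose_spec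
    exact h1
  · simp

theorem step (f : Cube n → Prop) (ε θ : ℝ) (e : ℕ) (hθ : 0 < θ) (t : DT n)
    (hb : ε < PP fun z => Bd f θ e (t.path z) z) :
    ∃ t' : DT n, t'.depth ≤ t.depth + e ∧
      pt f t.path + ε * (θ ^ 2 * (1 / 2) ^ e) ≤ pt f t'.path := by
  obtain ⟨z0, hz0⟩ : ∃ z0 : Cube n, z0 = fun _ => false := ⟨_, rfl⟩
  obtain ⟨G, hG⟩ : ∃ G : Cube n → Finset (Fin n),
    G = fun z => gg f θ e (t.path z) (SP.mix (t.path z) z z0) := ⟨_, rfl⟩
  have hR : Ref t.path G := by
    refine ⟨fun z y h => path_congr t z y h, fun z y h => ?_⟩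
    rw [hG]
    simp only
    rw [path_congr t z y h]
    congr 1
    funext v
    unfold SP.mix
    split_ifs with hv
    · exact (h v hv).symm
    · rfl
  refine ⟨ref (gg f θ e) t ∅ z0, ref_depth _ e (gg_card f θ e) t _ _, ?_⟩
  have h1 : (ref (gg f θ e) t ∅ z0).path = fun z => t.path z ∪ G z := by
    funext z
    rw [ref_path, empty_union, hG]
  rw [h1]
  have h2 := incr f hR e θ hθ (fun z => Bd f θ e (t.path z) z) (fun z hz => ?_)
  · refine le_trans ?_ h2
    refine (add_le_add_iff_left _).2 (mul_le_mul_of_nonneg_right hb.le (by positivity))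
  · have hag : ∀ v ∈ t.path z, z v = SP.mix (t.path z) z z0 v := fun v hv => by simp [SP.mix, hv]
    have hz' : Bd f θ e (t.path z) (SP.mix (t.path z) z z0) := by
      obtain ⟨A, w, h3, h4, h5⟩ := hz
      refine ⟨A, w, h3, h4, ?_⟩
      rw [← Bd_aux f (t.path z) A w hag]
      exact h5
    have hGz : G z = hz'.choose := by
      rw [hG]
      simp only [gg]
      rw [dif_pos hz']
    obtain ⟨w, h3, h4, h5⟩ := hz'.choose_spec
    rw [hGz]
    refine ⟨h3, h4, w, ?_⟩
    rw [Bd_aux f (t.path z) _ w hag]
    exact h5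

theorem loop (f : Cube n → Prop) (ε θ : ℝ) (e : ℕ) (hθ : 0 < θ) (m : ℕ) :
    (∃ t : DT n, t.depth ≤ e * m ∧ PP (fun z => Bd f θ e (t.path z) z) ≤ ε) ∨
    ∃ t : DT n, t.depth ≤ e * m ∧ m * (ε * (θ ^ 2 * (1 / 2) ^ e)) ≤ pt f t.path := by
  induction m with
  | zero =>
    right
    exact ⟨DT.leaf, by simp [DT.depth], by simpa using pt_nonneg _ _⟩
  | succ m ih =>
    rcases ih with ⟨t, h1, h2⟩ | ⟨t, h1, h2⟩
    · left
      exact ⟨t, h1.trans (Nat.mul_le_mul_left _ (by omega)), h2⟩
    · by_cases hb : PP (fun z => Bd f θ e (t.path z) z) ≤ ε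
      · left
        exact ⟨t, h1.trans (Nat.mul_le_mul_left _ (by omega)), hb⟩
      · right
        push Not at hb
        obtain ⟨t', h3, h4⟩ := step f ε θ e hθ t hb
        refine ⟨t', ?_, ?_⟩
        · rw [Nat.mul_succ]; omega
        · push_cast
          linarith

end RegL

open Pool.Agent.Helper91K9.DL in
/-- the regularity lemma for decision trees -/
theorem reg : S_REG := by
  intro ε θ e hε hθ
  obtain ⟨m, hm⟩ := exists_nat_gt (1 / (ε * (θ ^ 2 * (1 / 2) ^ e)))
  have hpos : 0 < ε * (θ ^ 2 * (1 / 2) ^ e) := by positivity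
  refine ⟨e * m, fun n f => ?_⟩
  rcases RegL.loop f ε θ e hθ m with ⟨t, h1, h2⟩ | ⟨t, h1, h2⟩
  · exact ⟨t, h1, h2⟩
  · exfalso
    have h3 := RegL.pt_le_one f t.path
    rw [div_lt_iff₀ hpos] at hm
    linarith

end Pool.Agent.Helper91K9.SP
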