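import Pool.Agent.Helper91K9.SP.Fam

/-!
# Sparse families: the sum of the squares of the masses through the variables
-/

set_option autoImplicit false

namespace Pool.Agent.Helper91K9.SP

open Finset Pool.Agent.Helper91K9.DL

namespace SqL

variable {n : ℕ} {ι : Type}

theorem mass_nonneg (I : Finset ι) (T : ι → Finset (Fin n)) : 0 ≤ mass I T :=
  sum_nonneg fun _ _ => by positivity

theorem mass_mono {I J : Finset ι} (h : I ⊆ J) (T : ι → Finset (Fin n)) : mass I T ≤ mass J T :=
  sum_le_sum_of_subset_of_nonneg h fun _ _ _ => by positivity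

/-- `x 2^(-x)` is nonincreasing for `x ≥ 1` -/
theorem anti {c t : ℕ} (hc : 1 ≤ c) (h : c ≤ t) : (t : ℝ) * (1 / 2) ^ t ≤ c * (1 / 2) ^ c := by
  induction t, h using Nat.le_induction with
  | base => exact le_rfl
  | succ t ht ih =>
    refine le_trans ?_ ih
    have h1 : (1 : ℝ) ≤ t := by exact_mod_cast hc.trans ht
    have h2 : (0 : ℝ) < (1 / 2) ^ t := by positivity
    rw [pow_succ]
    push_cast
    nlinarith

open Classical in
/-- double counting with weights -/
theorem swap (I : Finset ι) (T : ι → Finset (Fin n)) (R : Fin n → ι → Prop) (f : ι → ℝ) :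
    ∑ v, ∑ i ∈ I.filter (fun i => v ∈ T i ∧ R v i), f i =
      ∑ i ∈ I, (((T i).filter fun v => R v i).card : ℝ) * f i := by
  have h1 : ∀ v, ∑ i ∈ I.filter (fun i => v ∈ T i ∧ R v i), f i =
      ∑ i ∈ I, if v ∈ T i ∧ R v i then f i else 0 := fun v => sum_filter _ _
  simp_rw [h1]
  rw [sum_comm]
  refine sum_congr rfl fun i _ => ?_
  rw [← sum_filter, sum_const, nsmul_eq_mul]
  congr 2
  congr 1
  ext v
  simp

end SqL

theorem sq : S_SQ := by
  classical
  intro n ι I T O d c η hS hc hT hη hnu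
  obtain ⟨own, hown⟩ : ∃ own : Fin n → ℝ, ∀ v, own v =
      ∑ i ∈ I.filter (fun i => v ∈ T i ∧ O v i), (1 / 2 : ℝ) ^ (T i).card := ⟨_, fun _ => rfl⟩
  obtain ⟨nu', hnu'⟩ : ∃ nu' : Fin n → ℝ, ∀ v, nu' v =
      ∑ i ∈ I.filter (fun i => v ∈ T i ∧ ¬ O v i), (1 / 2 : ℝ) ^ (T i).card := ⟨_, fun _ => rfl⟩
  have hnn : ∀ v, nu' v = nu I T O v := by
    intro v
    rw [hnu' v, nu, mass]
  have hmu : ∀ v, mu I T v = own v + nu' v := by
    intro v
    rw [hown v, hnu' v, mu, mass]
    rw [← sum_union]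
    · apply sum_congr _ fun _ _ => rfl
      ext i
      simp only [mem_filter, mem_union]
      tauto
    · rw [disjoint_filter]
      intro i _ h1 h2
      exact h2.2 h1.2
  have h0o : ∀ v, 0 ≤ own v := fun v => by rw [hown v]; exact sum_nonneg fun _ _ => by positivity
  have h0n : ∀ v, 0 ≤ nu' v := fun v => by rw [hnu' v]; exact sum_nonneg fun _ _ => by positivity
  -- the owned part
  have h1 : ∀ v, own v ^ 2 ≤ d * ∑ i ∈ I.filter (fun i => v ∈ T i ∧ O v i),
      ((1 / 2 : ℝ) ^ (T i).card) ^ 2 := by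
    intro v
    rw [hown v]
    refine sq_sum_le_card_mul_sum_sq.trans ?_
    apply mul_le_mul_of_nonneg_right _ (sum_nonneg fun _ _ => by positivity)
    have h2 := hS.own v
    have h3 : (I.filter (fun i => v ∈ T i ∧ O v i)).card ≤ d := by convert h2
    exact_mod_cast h3
  have h2 : ∑ v, own v ^ 2 ≤ d * (c * (1 / 2) ^ c * mass I T) := by
    calc ∑ v, own v ^ 2 ≤ ∑ v, (d : ℝ) * ∑ i ∈ I.filter (fun i => v ∈ T i ∧ O v i),
          ((1 / 2 : ℝ) ^ (T i).card) ^ 2 := sum_le_sum fun v _ => h1 v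
      _ = d * ∑ i ∈ I, (((T i).filter fun v => O v i).card : ℝ) *
          ((1 / 2 : ℝ) ^ (T i).card) ^ 2 := by rw [← mul_sum, SqL.swap I T O]
      _ ≤ d * ∑ i ∈ I, (c * (1 / 2) ^ c) * (1 / 2 : ℝ) ^ (T i).card := by
        apply mul_le_mul_of_nonneg_left _ (by positivity)
        apply sum_le_sum
        intro i hi
        have h3 : (((T i).filter fun v => O v i).card : ℝ) ≤ (T i).card := by
          exact_mod_cast card_filter_le _ _
        have h4 := SqL.anti hc (hT i hi)
        have h5 : (0 : ℝ) < (1 / 2 : ℝ) ^ (T i).card := by positivity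
        calc (((T i).filter fun v => O v i).card : ℝ) * ((1 / 2 : ℝ) ^ (T i).card) ^ 2 ≤
            (T i).card * ((1 / 2 : ℝ) ^ (T i).card) ^ 2 :=
              mul_le_mul_of_nonneg_right h3 (by positivity)
          _ = ((T i).card * (1 / 2 : ℝ) ^ (T i).card) * (1 / 2 : ℝ) ^ (T i).card := by ring
          _ ≤ _ := mul_le_mul_of_nonneg_right h4 h5.le
      _ = _ := by rw [← mul_sum, mass]
  -- the exits
  have h3 : ∑ v, nu' v ^ 2 ≤ η * (d * mass I T) := by
    calc ∑ v, nu' v ^ 2 ≤ ∑ v, η * nu' v := by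
          apply sum_le_sum
          intro v _
          have h4 := hnu v
          rw [← hnn v] at h4
          nlinarith [h0n v]
      _ = η * ∑ i ∈ I, (((T i).filter fun v => ¬ O v i).card : ℝ) * (1 / 2 : ℝ) ^ (T i).card := by
        rw [← mul_sum]
        congr 1
        have h4 := SqL.swap I T (fun v i => ¬ O v i) (fun i => (1 / 2 : ℝ) ^ (T i).card)
        have h5 : ∑ v, nu' v = ∑ v, ∑ i ∈ I.filter (fun i => v ∈ T i ∧ ¬ O v i),
          (1 / 2 : ℝ) ^ (T i).card := sum_congr rfl fun v _ => hnu' v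
        rw [h5]
        convert h4
      _ ≤ η * ∑ i ∈ I, (d : ℝ) * (1 / 2 : ℝ) ^ (T i).card := by
        apply mul_le_mul_of_nonneg_left _ hη
        apply sum_le_sum
        intro i hi
        have h4 := hS.exit i hi
        have h5 : ((T i).filter fun v => ¬ O v i).card ≤ d := by convert h4
        have h6 : (((T i).filter fun v => ¬ O v i).card : ℝ) ≤ d := by exact_mod_cast h5
        exact mul_le_mul_of_nonneg_right h6 (by positivity)
      _ = _ := by rw [← mul_sum, mass]
  calc ∑ v, mu I T v ^ 2 ≤ ∑ v, (2 * own v ^ 2 + 2 * nu' v ^ 2) := by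
        apply sum_le_sum
        intro v _
        rw [hmu v]
        nlinarith [sq_nonneg (own v - nu' v)]
    _ = 2 * ∑ v, own v ^ 2 + 2 * ∑ v, nu' v ^ 2 := by
        rw [sum_add_distrib, mul_sum, mul_sum]
    _ ≤ 2 * (d * (c * (1 / 2) ^ c * mass I T)) + 2 * (η * (d * mass I T)) := by linarith
    _ = _ := by ring

end Pool.Agent.Helper91K9.SP
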