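import Pool.Agent.Helper91K9.SP.Fam
import Pool.Agent.Helper91K9.SP.Reg
import Pool.Agent.Helper91K9.SP.Sq

/-!
# Sparse families: the mass is bounded if the zeros have positive density in all subcubes
-/

set_option autoImplicit false

namespace Pool.Agent.Helper91K9.SP

open Finset Pool.Agent.Helper91K9.DL

namespace MassL

variable {n : ℕ} {ι : Type}

/-- a subset with prescribed sum, up to one -/
theorem sub_sum (s : Finset ι) (f : ι → ℝ) (h1 : ∀ i ∈ s, f i ≤ 1) (C : ℝ) (hC : 0 ≤ C)
    (hs : C ≤ ∑ i ∈ s, f i) : ∃ t ⊆ s, C ≤ ∑ i ∈ t, f i ∧ ∑ i ∈ t, f i ≤ C + 1 := by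
  classical
  induction s using Finset.induction_on with
  | empty => exact ⟨∅, Subset.refl _, hs, by simp only [sum_empty]; linarith⟩
  | insert i s hi ih =>
    by_cases h : C ≤ ∑ i ∈ s, f i
    · obtain ⟨t, ht, h2, h3⟩ := ih (fun j hj => h1 j (mem_insert_of_mem hj)) h
      exact ⟨t, ht.trans (subset_insert _ _), h2, h3⟩
    · refine ⟨insert i s, Subset.refl _, hs, ?_⟩
      rw [sum_insert hi]
      have := h1 i (mem_insert_self _ _)
      push Not at h
      linarith

theorem sub_mass (I : Finset ι) (T : ι → Finset (Fin n)) (C : ℝ) (hC : 0 ≤ C)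
    (hs : C ≤ mass I T) : ∃ G ⊆ I, C ≤ mass G T ∧ mass G T ≤ C + 1 :=
  sub_sum I (fun i => (1 / 2 : ℝ) ^ (T i).card)
    (fun _ _ => pow_le_one₀ (by norm_num) (by norm_num)) C hC hs

theorem sum_nu {I : Finset ι} {T : ι → Finset (Fin n)} {O : Fin n → ι → Prop} {d : ℕ}
    (hS : Sps I T O d) : ∑ v, nu I T O v ≤ d * mass I T := by
  classical
  have h4 := SqL.swap I T (fun v i => ¬ O v i) (fun i => (1 / 2 : ℝ) ^ (T i).card)
  have h5 : ∑ v, nu I T O v = ∑ i ∈ I, (((T i).filter fun v => ¬ O v i).card : ℝ) *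
      (1 / 2 : ℝ) ^ (T i).card := by
    refine Eq.trans ?_ (h4.trans ?_)
    · refine sum_congr rfl fun v _ => ?_
      unfold nu mass
      refine sum_congr ?_ fun _ _ => rfl
      congr
    · refine sum_congr rfl fun i _ => ?_
      congr
  rw [h5, mass, mul_sum]
  refine sum_le_sum fun i hi => mul_le_mul_of_nonneg_right ?_ (by positivity)
  have h6 := hS.exit i hi
  have h7 : ((T i).filter fun v => ¬ O v i).card ≤ d := by convert h6
  exact_mod_cast h7

theorem sps_sub {I : Finset ι} {T : ι → Finset (Fin n)} {O : Fin n → ι → Prop} {d : ℕ}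
    (hS : Sps I T O d) {H : Finset ι} (hH : H ⊆ I) {T' : ι → Finset (Fin n)}
    (hT : ∀ i ∈ H, T' i ⊆ T i) : Sps H T' O d := by
  classical
  constructor
  · intro v
    have h1 := hS.own v
    refine le_trans (card_le_card ?_) h1
    intro i hi
    rw [mem_filter] at hi ⊢
    exact ⟨hH hi.1, hT i hi.1 hi.2.1, hi.2.2⟩
  · intro i hi
    have h1 := hS.exit i (hH hi)
    refine le_trans (card_le_card ?_) h1
    intro v hv
    rw [mem_filter] at hv ⊢
    exact ⟨hT i hi hv.1, hv.2⟩

theorem nu_nonneg (I : Finset ι) (T : ι → Finset (Fin n)) (O : Fin n → ι → Prop) (v : Fin n) :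
    0 ≤ nu I T O v := SqL.mass_nonneg _ _

theorem EE_sum (s : Finset ι) (h : ι → Cube n → ℝ) :
    RegL.EE (fun z => ∑ i ∈ s, h i z) = ∑ i ∈ s, RegL.EE (h i) := by
  unfold RegL.EE
  rw [sum_comm, sum_div]

open Classical in
theorem mass_res (G : Finset ι) (T : ι → Finset (Fin n)) (a : ι → Cube n) (B : Finset (Fin n))
    (z : Cube n) : mass (res G T a B z) (fun i => T i \ B) =
      ∑ i ∈ G, (1 / 2 : ℝ) ^ (T i \ B).card * RegL.ii (agr (T i ∩ B) (a i)) z := by
  unfold mass res
  rw [sum_filter]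
  refine sum_congr rfl fun i _ => ?_
  by_cases h : agr (T i ∩ B) (a i) z
  · rw [RegL.ii_pos h, mul_one, if_pos]
    intro v hv hB
    exact h v (mem_inter.2 ⟨hv, hB⟩)
  · rw [RegL.ii_neg h, mul_zero, if_neg]
    intro h'
    exact h fun v hv => h' v (mem_inter.1 hv).1 (mem_inter.1 hv).2

/-- the average mass of the restrictions -/
theorem mean_res (G : Finset ι) (T : ι → Finset (Fin n)) (a : ι → Cube n) (B : Finset (Fin n)) :
    RegL.EE (fun z => mass (res G T a B z) (fun i => T i \ B)) = mass G T := by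
  classical
  rw [RegL.EE_congr (mass_res G T a B), EE_sum, mass]
  refine sum_congr rfl fun i _ => ?_
  rw [RegL.EE_mul, ← RegL.PP_EE, PP_agr, ← pow_add]
  congr 1
  have := card_inter_add_card_sdiff (T i) B
  omega

theorem exists_ge_EE (h : Cube n → ℝ) : ∃ z, RegL.EE h ≤ h z := by
  by_contra hc
  push Not at hc
  have h1 : RegL.EE h < RegL.EE h := by
    calc RegL.EE h < RegL.EE (fun _ => RegL.EE h) := by
          unfold RegL.EE
          refine div_lt_div_of_pos_right ?_ (by positivity)
          exact sum_lt_sum_of_nonempty univ_nonempty fun z _ => hc z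
      _ = RegL.EE h := RegL.EE_const _
  exact lt_irrefl _ h1

/-- telescoping: some window has small sum -/
theorem window (w : Fin n → ℝ) (h0 : ∀ v, 0 ≤ w v) (θ : ℕ → ℝ) (hθ : ∀ j, θ (j + 1) ≤ θ j)
    (δ S : ℝ) (hS : ∑ v, w v ≤ S) (N : ℕ) (hN : S < N * δ) :
    ∃ j < N, ∑ v ∈ univ.filter (fun v => θ (j + 1) ≤ w v ∧ w v < θ j), w v ≤ δ := by
  classical
  by_contra hc
  push Not at hc
  have key : ∀ m ≤ N, m * δ ≤ ∑ v ∈ univ.filter (fun v => θ m ≤ w v), w v := by
    intro m
    induction m with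
    | zero =>
      intro _
      simp only [Nat.cast_zero, zero_mul]
      exact sum_nonneg fun v _ => h0 v
    | succ m ih =>
      intro hm
      have h1 := ih (by omega)
      have h2 := hc m (by omega)
      have h3 : univ.filter (fun v => θ (m + 1) ≤ w v) =
          univ.filter (fun v => θ m ≤ w v) ∪
            univ.filter (fun v => θ (m + 1) ≤ w v ∧ w v < θ m) := by
        ext v
        simp only [mem_filter, mem_univ, true_and, mem_union]
        constructor
        · intro h
          rcases le_or_gt (θ m) (w v) with h' | h'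
          · exact Or.inl h'
          · exact Or.inr ⟨h, h'⟩
        · rintro (h | h)
          · exact (hθ m).trans h
          · exact h.1
      rw [h3, sum_union]
      · push_cast
        linarith
      · rw [disjoint_filter]
        intro v _ h4 h5
        linarith [h5.2]
  have h1 := key N le_rfl
  have h2 : ∑ v ∈ univ.filter (fun v => θ N ≤ w v), w v ≤ ∑ v, w v :=
    sum_le_sum_of_subset_of_nonneg (filter_subset _ _) fun v _ _ => h0 v
  linarith

/-- the variables with large weight are few -/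
theorem few (w : Fin n → ℝ) (h0 : ∀ v, 0 ≤ w v) (t S : ℝ) (ht : 0 < t) (hS : ∑ v, w v ≤ S) :
    (univ.filter fun v => t ≤ w v).card ≤ ⌈S / t⌉₊ := by
  have h1 : ((univ.filter fun v => t ≤ w v).card : ℝ) * t ≤ S := by
    calc ((univ.filter fun v => t ≤ w v).card : ℝ) * t = ∑ v ∈ univ.filter (fun v => t ≤ w v), t := by
          rw [sum_const, nsmul_eq_mul]
      _ ≤ ∑ v ∈ univ.filter (fun v => t ≤ w v), w v :=
          sum_le_sum fun v hv => (mem_filter.1 hv).2
      _ ≤ ∑ v, w v := sum_le_sum_of_subset_of_nonneg (filter_subset _ _) fun v _ _ => h0 v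
      _ ≤ S := hS
  have h2 : ((univ.filter fun v => t ≤ w v).card : ℝ) ≤ S / t := by
    rw [le_div_iff₀ ht]; exact h1
  have h3 := h2.trans (Nat.le_ceil (S / t))
  exact_mod_cast h3

open Classical in
theorem mass_biUnion {κ : Type} (W : Finset κ) (F : κ → Finset ι) (T : ι → Finset (Fin n)) :
    mass (W.biUnion F) T ≤ ∑ v ∈ W, mass (F v) T := by
  induction W using Finset.induction_on with
  | empty => simp [mass]
  | insert v W hv ih =>
    rw [biUnion_insert, sum_insert hv]
    refine le_trans ?_ (add_le_add_right ih (mass (F v) T))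
    unfold mass
    rw [← sum_union_inter]
    have : (0 : ℝ) ≤ ∑ x ∈ F v ∩ W.biUnion F, (1 / 2) ^ (T x).card :=
      sum_nonneg fun _ _ => by positivity
    linarith

/-- the weights of the restricted terms -/
theorem pow_sdiff (A B : Finset (Fin n)) :
    (1 / 2 : ℝ) ^ (A \ B).card ≤ 2 ^ B.card * (1 / 2) ^ A.card := by
  have h1 : A.card ≤ (A \ B).card + B.card := by
    have := card_le_card_sdiff_add_card (s := A) (t := B)
    omega
  have h2 : (1 / 2 : ℝ) ^ ((A \ B).card + B.card) ≤ (1 / 2) ^ A.card :=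
    pow_le_pow_of_le_one (by norm_num) (by norm_num) h1
  calc (1 / 2 : ℝ) ^ (A \ B).card = 2 ^ B.card * (1 / 2 : ℝ) ^ ((A \ B).card + B.card) := by
        rw [pow_add, mul_left_comm, ← mul_pow]; norm_num
    _ ≤ _ := mul_le_mul_of_nonneg_left h2 (by positivity)

end MassL

open MassL

theorem mass_bd (hV : S_VAR) : S_MASS := by
  classical
  intro d ε hε
  obtain ⟨C₀, hC₀⟩ : ∃ C₀ : ℝ, C₀ = (8 * d + 4) / ε + 1 := ⟨_, rfl⟩
  have hq : 0 < (8 * (d : ℝ) + 4) / ε := by positivity
  have hC1 : 0 < C₀ := by rw [hC₀]; linarith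
  obtain ⟨c₁, η₁, hc₁, hη₁, hvar⟩ := hV d (C₀ + 1)
  -- the thresholds
  obtain ⟨θ, hθ0, hθs⟩ : ∃ θ : ℕ → ℝ, θ 0 = 1 ∧
      ∀ j, θ (j + 1) = min (θ j) (η₁ * (1 / 2) ^ ⌈(d : ℝ) * (C₀ + 1) / θ j⌉₊) := by
    refine ⟨fun j => (fun t : ℝ => min t (η₁ * (1 / 2) ^ ⌈(d : ℝ) * (C₀ + 1) / t⌉₊))^[j] 1, rfl,
      fun j => ?_⟩
    simp only [Function.iterate_succ_apply']
  have hpos : ∀ j, 0 < θ j := by
    intro j
    induction j with
    | zero => rw [hθ0]; norm_num
    | succ j ih => rw [hθs]; exact lt_min ih (by positivity)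
  have hanti : ∀ j, θ (j + 1) ≤ θ j := fun j => by rw [hθs]; exact min_le_left _ _
  obtain ⟨b, hb⟩ : ∃ b : ℕ → ℕ, ∀ j, b j = ⌈(d : ℝ) * (C₀ + 1) / θ j⌉₊ := ⟨_, fun _ => rfl⟩
  have hθb : ∀ j, θ (j + 1) ≤ η₁ * (1 / 2) ^ b j := fun j => by
    rw [hθs, hb]; exact min_le_right _ _
  obtain ⟨N, hN⟩ := exists_nat_gt (2 * (d * (C₀ + 1)))
  refine ⟨∑ j ∈ range N, b j + c₁, C₀, fun n ι I T a O hS hd => ?_⟩
  by_contra hm
  push Not at hm
  obtain ⟨G, hG, hG1, hG2⟩ := sub_mass I T C₀ hC1.le hm.le
  have hSG : Sps G T O d := sps_sub hS hG fun i _ => Subset.refl _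
  have hnu : ∑ v, nu G T O v ≤ d * (C₀ + 1) :=
    (sum_nu hSG).trans (mul_le_mul_of_nonneg_left hG2 (by positivity))
  obtain ⟨j, hj, hw⟩ := window (fun v => nu G T O v) (fun v => nu_nonneg _ _ _ _) θ hanti (1 / 2)
    (d * (C₀ + 1)) hnu N (by linarith)
  obtain ⟨B, hB⟩ : ∃ B : Finset (Fin n), B = univ.filter fun v => θ j ≤ nu G T O v := ⟨_, rfl⟩
  have hBc : B.card ≤ b j := by
    rw [hB, hb]
    exact few (fun v => nu G T O v) (fun v => nu_nonneg _ _ _ _) (θ j) _ (hpos j) hnu
  have hbe : b j ≤ ∑ j ∈ range N, b j :=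
    single_le_sum (f := b) (fun _ _ => Nat.zero_le _) (mem_range.2 hj)
  -- the terms without exits in the window
  obtain ⟨W, hW⟩ : ∃ W : Finset (Fin n),
    W = univ.filter fun v => θ (j + 1) ≤ nu G T O v ∧ nu G T O v < θ j := ⟨_, rfl⟩
  obtain ⟨G', hG'⟩ : ∃ G' : Finset ι, G' = G.filter fun i => ∀ v ∈ T i, ¬ O v i → v ∉ W :=
    ⟨_, rfl⟩
  have hm' : C₀ - 1 / 2 ≤ mass G' T := by
    have h1 : mass G T = mass G' T + mass (G.filter fun i => ¬ ∀ v ∈ T i, ¬ O v i → v ∉ W) T := by
      unfold mass
      rw [hG', sum_filter_add_sum_filter_not]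
    have h2 : mass (G.filter fun i => ¬ ∀ v ∈ T i, ¬ O v i → v ∉ W) T ≤ ∑ v ∈ W, nu G T O v := by
      calc mass (G.filter fun i => ¬ ∀ v ∈ T i, ¬ O v i → v ∉ W) T ≤
            mass (W.biUnion fun v => G.filter fun i => v ∈ T i ∧ ¬ O v i) T := by
            refine SqL.mass_mono ?_ T
            intro i hi
            rw [mem_filter] at hi
            obtain ⟨h3, h4⟩ := hi
            push Not at h4
            obtain ⟨v, h5, h6, h7⟩ := h4
            rw [mem_biUnion]
            exact ⟨v, h7, mem_filter.2 ⟨h3, h5, h6⟩⟩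
        _ ≤ ∑ v ∈ W, nu G T O v := by
            refine (mass_biUnion W _ T).trans (sum_le_sum fun v _ => le_of_eq ?_)
            unfold nu
            congr
    have h3 : ∑ v ∈ W, nu G T O v ≤ 1 / 2 := by rw [hW]; exact hw
    linarith
  -- the restriction
  obtain ⟨z, hz⟩ := exists_ge_EE fun z => mass (res G' T a B z) (fun i => T i \ B)
  rw [mean_res] at hz
  obtain ⟨H, hH, hH1, hH2⟩ := sub_mass (res G' T a B z) (fun i => T i \ B) (C₀ - 1 / 2)
    (by rw [hC₀]; linarith) (hm'.trans hz)
  have hHr : ∀ i ∈ H, i ∈ G' ∧ ∀ v ∈ T i, v ∈ B → z v = a i v := by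
    intro i hi
    have := hH hi
    unfold res at this
    rw [mem_filter] at this
    exact this
  have hHG' : H ⊆ G' := fun i hi => (hHr i hi).1
  have hG'G : G' ⊆ G := by rw [hG']; exact filter_subset _ _
  have hHI : H ⊆ I := (hHG'.trans hG'G).trans hG
  have hnice : Nice H (fun i => T i \ B) O d (C₀ + 1) c₁ η₁ := by
    refine ⟨sps_sub hS hHI fun i _ => sdiff_subset, fun i hi => ?_, by linarith, fun v => ?_⟩
    · by_contra hlt
      push Not at hlt
      have h1 := hd (B ∪ T i) (fun v => if v ∈ T i then a i v else z v) (by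
        have h2 : (B ∪ T i).card = B.card + (T i \ B).card := by
          rw [union_comm, ← card_sdiff_add_card (s := T i) (t := B)]; ring
        omega)
      have h2 : PP (fun x => miss I T a x ∧
          agr (B ∪ T i) (fun v => if v ∈ T i then a i v else z v) x) = 0 := by
        refine le_antisymm ?_ (PP_nonneg _)
        refine (PP_mono (q := fun _ => False) fun x hx => ?_).trans (le_of_eq ?_)
        · refine hx.1 i (hHI hi) fun v hv => ?_
          have := hx.2 v (mem_union_right _ hv)
          rw [this]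
          exact if_pos hv
        · rw [PP_eq]; simp
      rw [h2] at h1
      have h3 : 0 < ε * (1 / 2 : ℝ) ^ (B ∪ T i).card := by positivity
      linarith
    · by_cases hvB : v ∈ B
      · have h1 : nu H (fun i => T i \ B) O v = 0 := by
          unfold nu mass
          apply sum_eq_zero
          intro i hi
          rw [mem_filter] at hi
          exact absurd hvB (mem_sdiff.1 hi.2.1).2
        rw [h1]; exact hη₁.le
      · by_cases hex : ∃ i ∈ H, v ∈ T i ∧ ¬ O v i
        · obtain ⟨i, hi, h1, h2⟩ := hex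
          have h3 := hHG' hi
          rw [hG', mem_filter] at h3
          have h4 := h3.2 v h1 h2
          have h5 : nu G T O v < θ (j + 1) := by
            by_contra h6
            push Not at h6
            apply h4
            rw [hW, mem_filter]
            refine ⟨mem_univ _, h6, ?_⟩
            by_contra h7
            push Not at h7
            apply hvB
            rw [hB, mem_filter]
            exact ⟨mem_univ _, h7⟩
          calc nu H (fun i => T i \ B) O v ≤ 2 ^ B.card * nu G T O v := by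
                unfold nu mass
                rw [mul_sum]
                refine (sum_le_sum fun i _ => pow_sdiff (T i) B).trans ?_
                refine sum_le_sum_of_subset_of_nonneg ?_ fun _ _ _ => by positivity
                intro k hk
                rw [mem_filter] at hk ⊢
                exact ⟨hG'G (hHG' hk.1), (mem_sdiff.1 hk.2.1).1, hk.2.2⟩
            _ ≤ 2 ^ b j * (η₁ * (1 / 2) ^ b j) := by
                refine mul_le_mul ?_ (h5.le.trans (hθb j)) (nu_nonneg _ _ _ _) (by positivity)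
                exact pow_le_pow_right₀ (by norm_num) hBc
            _ = η₁ := by
                rw [mul_left_comm, ← mul_pow]; norm_num
        · have h1 : nu H (fun i => T i \ B) O v = 0 := by
            unfold nu mass
            apply sum_eq_zero
            intro i hi
            rw [mem_filter] at hi
            exact absurd ⟨i, hi.1, (mem_sdiff.1 hi.2.1).1, hi.2.2⟩ hex
          rw [h1]; exact hη₁.le
  have hv := hvar n ι H (fun i => T i \ B) a O hnice
  have hdB := hd B z (by omega)
  have h1 : PP (fun x => miss I T a x ∧ agr B z x) ≤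
      PP (fun x => miss H (fun i => T i \ B) a x ∧ agr B z x) := by
    refine PP_mono fun x hx => ⟨fun i hi hag => hx.1 i (hHI hi) fun v hv => ?_, hx.2⟩
    by_cases hvB : v ∈ B
    · rw [hx.2 v hvB]
      exact (hHr i hi).2 v hv hvB
    · exact hag v (mem_sdiff.2 ⟨hv, hvB⟩)
  have h2 : PP (fun x => miss H (fun i => T i \ B) a x ∧ agr B z x) =
      PP (miss H (fun i => T i \ B) a) * PP (agr B z) := by
    rw [mul_comm, ← indep B (agr B z) (miss H (fun i => T i \ B) a) ?_ ?_]
    · exact PP_congr fun x => and_comm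
    · intro x y hxy
      exact forall₂_congr fun v hv => by rw [hxy v hv]
    · intro x y hxy
      refine forall₂_congr fun i _ => not_congr (forall₂_congr fun v hv => ?_)
      rw [hxy v (mem_sdiff.1 hv).2]
  rw [h2, PP_agr] at h1
  have h3 : ε ≤ PP (miss H (fun i => T i \ B) a) :=
    le_of_mul_le_mul_right (hdB.trans h1) (by positivity)
  have h4 : ε * (C₀ - 1 / 2) ≤ 8 * d + 4 := by
    refine le_trans ?_ hv
    exact mul_le_mul h3 hH1 (by rw [hC₀]; linarith) (PP_nonneg _)
  have h5 : ε * (C₀ - 1 / 2) = 8 * d + 4 + ε / 2 := by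
    rw [hC₀]; field_simp; ring
  linarith

end Pool.Agent.Helper91K9.SP
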