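import Pool.Agent.Helper91K9.SP.Fam4

/-!
# The negative examples in a subcube
-/

namespace Pool.Agent.Helper91K9.SP

open Finset Pool.Agent.Helper91K9.DL Pool.Agent.Helper91K9.TW

variable {n : ℕ} {ι : Type}

namespace OrcL

theorem satL_cube (ρ : List (ℕ × Bool)) (P : Finset (Fin n)) (z : Cube n)
    (hP : ∀ v : Fin n, v ∈ P ↔ ∃ b, ((v : ℕ), b) ∈ ρ) (hz : satL (UU n ρ) z) (x : Cube n) :
    satL (UU n ρ) x ↔ agr P z x := by
  constructor
  · intro h v hv
    obtain ⟨b, hb⟩ := (hP v).1 hv
    have h1 := h (v, b) ((mem_UU ρ _).2 hb)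
    have h2 := hz (v, b) ((mem_UU ρ _).2 hb)
    exact h1.trans h2.symm
  · intro h l hl
    have hv : l.1 ∈ P := (hP l.1).2 ⟨l.2, (mem_UU ρ l).1 hl⟩
    exact (h _ hv).trans (hz l hl)

theorem miss_iff (I : Finset ι) (T : ι → Finset (Fin n)) (a : ι → Cube n) (P : Finset (Fin n))
    (z x : Cube n) (h : agr P z x) :
    miss (res I T a P z) (fun i => T i \ P) a x ↔ miss I T a x := by
  classical
  unfold miss
  constructor
  · intro h1 i hi hag
    refine h1 i ?_ ?_
    · unfold res
      rw [mem_filter]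
      refine ⟨hi, fun v hv hvP => ?_⟩
      rw [← h v hvP]; exact hag v hv
    · intro v hv
      exact hag v (mem_sdiff.1 hv).1
  · intro h1 i hi hag
    unfold res at hi
    rw [mem_filter] at hi
    refine h1 i hi.1 fun v hv => ?_
    by_cases hvP : v ∈ P
    · rw [h v hvP]; exact hi.2 v hv hvP
    · exact hag v (mem_sdiff.2 ⟨hv, hvP⟩)

theorem cube_indep (ρ : List (ℕ × Bool)) (P : Finset (Fin n)) (z : Cube n)
    (hP : ∀ v : Fin n, v ∈ P ↔ ∃ b, ((v : ℕ), b) ∈ ρ) (hz : satL (UU n ρ) z)
    (B : Cube n → Prop) (hB : ∀ x y, (∀ v, v ∉ P → x v = y v) → (B x ↔ B y)) :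
    PP (fun x => satL (UU n ρ) x ∧ B x) = (1 / 2) ^ P.card * PP B := by
  have h1 : PP (fun x => satL (UU n ρ) x ∧ B x) = PP (fun x => agr P z x ∧ B x) :=
    PP_congr fun x => by rw [satL_cube ρ P z hP hz]
  rw [h1, indep P (agr P z) B (fun x y h => ?_) hB, PP_agr]
  unfold agr
  exact forall₂_congr fun w hw => by rw [h w hw]

theorem UU_append (ρ t : List (ℕ × Bool)) (x : Cube n) :
    satL (UU n (ρ ++ t)) x ↔ satL (UU n ρ) x ∧ satL (UU n t) x := by
  unfold satL
  constructor
  · intro h
    refine ⟨fun l hl => h l ?_, fun l hl => h l ?_⟩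
    · rw [mem_UU] at hl ⊢; exact List.mem_append_left _ hl
    · rw [mem_UU] at hl ⊢; exact List.mem_append_right _ hl
  · rintro ⟨h1, h2⟩ l hl
    rw [mem_UU, List.mem_append] at hl
    rcases hl with hl | hl
    · exact h1 l ((mem_UU _ _).2 hl)
    · exact h2 l ((mem_UU _ _).2 hl)

/-- The tuple of the terms. -/
noncomputable def phi (n S : ℕ) (H : List (List (ℕ × Bool))) :
    Fin S → Option (Finset (Fin n × Bool)) := fun k => (H[(k : ℕ)]?).map (UU n)

theorem hs_iff (S : ℕ) (H : List (List (ℕ × Bool))) (hS : H.length ≤ S) (x : Cube n) :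
    hs (phi n S H) x ↔ hh n H x := by
  unfold hs hh phi
  constructor
  · rintro ⟨k, t, h1, h2⟩
    rw [Option.map_eq_some_iff] at h1
    obtain ⟨u, hu, rfl⟩ := h1
    exact ⟨u, List.mem_of_getElem? hu, h2⟩
  · rintro ⟨t, ht, h2⟩
    obtain ⟨k, hk, e⟩ := List.getElem_of_mem ht
    refine ⟨⟨k, by omega⟩, UU n t, ?_, h2⟩
    rw [Option.map_eq_some_iff]
    exact ⟨t, by simp [List.getElem?_eq_getElem hk, e], rfl⟩

theorem hs_none (S : ℕ) (x : Cube n) :
    ¬ hs (fun _ : Fin S => (none : Option (Finset (Fin n × Bool)))) x := by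
  rintro ⟨k, t, h1, _⟩
  exact absurd h1 (by simp)

theorem mem_free (ρ : List (ℕ × Bool)) (v : ℕ) :
    v ∈ free n ρ ↔ v < n ∧ ∀ b, (v, b) ∉ ρ := by
  unfold free
  rw [List.mem_filter, List.mem_range]
  constructor
  · rintro ⟨h1, h2⟩
    refine ⟨h1, fun b hb => ?_⟩
    have : (ρ.any fun l => l.1 == v) = true := by
      rw [List.any_eq_true]; exact ⟨(v, b), hb, by simp⟩
    rw [this] at h2
    exact absurd h2 (by simp)
  · rintro ⟨h1, h2⟩
    refine ⟨h1, ?_⟩
    rw [Bool.not_eq_true', ← Bool.not_eq_true, List.any_eq_true]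
    rintro ⟨⟨w, b⟩, hl, he⟩
    simp only [beq_iff_eq] at he
    subst he
    exact h2 b hl

theorem free_notMem (ρ : List (ℕ × Bool)) (P : Finset (Fin n))
    (hP : ∀ v : Fin n, v ∈ P ↔ ∃ b, ((v : ℕ), b) ∈ ρ) (v : Fin n) (hv : (v : ℕ) ∈ free n ρ) :
    v ∉ P := fun h => by
  obtain ⟨b, hb⟩ := (hP v).1 h
  exact ((mem_free ρ _).1 hv).2 b hb

theorem satL_congr (ρ : List (ℕ × Bool)) (P : Finset (Fin n))
    (hP : ∀ v : Fin n, v ∈ P ↔ ∃ b, ((v : ℕ), b) ∈ ρ) (t : List (ℕ × Bool))
    (ht : ∀ l ∈ t, l.1 ∈ free n ρ) (x y : Cube n) (h : ∀ v, v ∉ P → x v = y v) :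
    satL (UU n t) x ↔ satL (UU n t) y := by
  unfold satL
  refine forall₂_congr fun l hl => ?_
  rw [h l.1 (free_notMem ρ P hP l.1 (ht _ ((mem_UU t l).1 hl)))]

theorem hh_congr (ρ : List (ℕ × Bool)) (P : Finset (Fin n))
    (hP : ∀ v : Fin n, v ∈ P ↔ ∃ b, ((v : ℕ), b) ∈ ρ) (H : List (List (ℕ × Bool)))
    (hH : ∀ t ∈ H, ∀ l ∈ t, l.1 ∈ free n ρ) (x y : Cube n) (h : ∀ v, v ∉ P → x v = y v) :
    hh n H x ↔ hh n H y := by
  unfold hh
  refine exists_congr fun t => and_congr_right fun ht => ?_
  exact satL_congr ρ P hP t (hH t ht) x y h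

theorem miss_congr (I : Finset ι) (T : ι → Finset (Fin n)) (a : ι → Cube n) (P : Finset (Fin n))
    (x y : Cube n) (h : ∀ v, v ∉ P → x v = y v) :
    miss I (fun i => T i \ P) a x ↔ miss I (fun i => T i \ P) a y := by
  classical
  unfold miss agr
  refine forall₂_congr fun i _ => not_congr (forall₂_congr fun v hv => ?_)
  rw [h v (mem_sdiff.1 hv).2]

theorem flp_congr (P : Finset (Fin n)) (v : Fin n) (x y : Cube n)
    (h : ∀ w, w ∉ P → x w = y w) (w : Fin n) (hw : w ∉ P) : flp v x w = flp v y w := by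
  unfold flp
  by_cases e : w = v
  · subst e
    rw [Function.update_self, Function.update_self, h w hw]
  · rw [Function.update_of_ne e, Function.update_of_ne e, h w hw]

theorem negs_inCube (ρ : List (ℕ × Bool)) (s : List (List Bool × Bool)) :
    negs (inCube ρ s) = (negs s).filter fun x => termVal ρ x := by
  unfold negs inCube
  rw [List.filter_map, List.filter_filter, List.filter_filter]
  congr 1
  refine List.filter_congr fun e _ => ?_
  simp [Bool.and_comm]

theorem neg_count {m : ℕ} (F : List (List (ℕ × Bool))) (X : Fin m → Cube n)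
    (ρ : List (ℕ × Bool)) (hρ : ∀ l ∈ ρ, l.1 < n) (p : List Bool → Bool) :
    ((negs (inCube ρ (smp F X))).filter p).length =
      (open Classical in (univ.filter fun j => p (List.ofFn (X j)) = true ∧ satL (UU n ρ) (X j) ∧
        ¬ ff n F (X j)).card) := by
  classical
  rw [negs_inCube, List.filter_filter, negs_filter]
  refine congrArg Finset.card (Finset.ext fun j => ?_)
  simp only [mem_filter, mem_univ, true_and, Bool.and_eq_true]
  rw [termVal_iff ρ hρ, and_assoc]

theorem mem_neg {m : ℕ} (F : List (List (ℕ × Bool))) (X : Fin m → Cube n)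
    (ρ : List (ℕ × Bool)) (hρ : ∀ l ∈ ρ, l.1 < n) (x : List Bool) :
    x ∈ negs (inCube ρ (smp F X)) ↔
      ∃ j, x = List.ofFn (X j) ∧ satL (UU n ρ) (X j) ∧ ¬ ff n F (X j) := by
  rw [negs_inCube, List.mem_filter]
  unfold negs smp
  rw [List.mem_map]
  constructor
  · rintro ⟨⟨e, he, rfl⟩, h2⟩
    rw [List.mem_filter, List.mem_ofFn] at he
    obtain ⟨⟨j, rfl⟩, h3⟩ := he
    exact ⟨j, rfl, (termVal_iff ρ hρ _).1 h2, by simpa [ff] using h3⟩
  · rintro ⟨j, rfl, h2, h3⟩
    refine ⟨⟨(List.ofFn (X j), dnfVal F (List.ofFn (X j))), ?_, rfl⟩,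
      (termVal_iff ρ hρ _).2 h2⟩
    rw [List.mem_filter, List.mem_ofFn]
    exact ⟨⟨j, rfl⟩, by simpa [ff] using h3⟩

theorem dnf_map (ρ : List (ℕ × Bool)) (H : List (List (ℕ × Bool))) (x : List Bool) :
    dnfVal (H.map (ρ ++ ·)) x = (termVal ρ x && dnfVal H x) := by
  unfold dnfVal
  rw [List.any_map]
  induction H with
  | nil => simp
  | cons t H ih =>
    rw [List.any_cons, List.any_cons, ih]
    have : (Function.comp (fun t => termVal t x) (ρ ++ ·)) t = (termVal ρ x && termVal t x) := by
      simp [termVal, List.all_append]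
    rw [this]
    cases termVal ρ x <;> simp

theorem dnf_iff (H : List (List (ℕ × Bool))) (hH : ∀ t ∈ H, ∀ l ∈ t, l.1 < n) (x : Cube n) :
    dnfVal H (List.ofFn x) = true ↔ hh n H x := by
  unfold dnfVal hh
  rw [List.any_eq_true]
  exact exists_congr fun t => and_congr_right fun ht => termVal_iff t (hH t ht) x

theorem err_count {m : ℕ} (F : List (List (ℕ × Bool))) (X : Fin m → Cube n)
    (ρ : List (ℕ × Bool)) (hρ : ∀ l ∈ ρ, l.1 < n) (H : List (List (ℕ × Bool)))
    (hH : ∀ t ∈ H, ∀ l ∈ t, l.1 < n) :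
    errc (H.map (ρ ++ ·)) (inCube ρ (smp F X)) =
      (open Classical in (univ.filter fun j => satL (UU n ρ) (X j) ∧
        ¬ (hh n H (X j) ↔ ff n F (X j))).card) := by
  classical
  unfold errc inCube
  have h1 : smp F X = (List.finRange m).map fun j =>
      (List.ofFn (X j), dnfVal F (List.ofFn (X j))) := by
    unfold smp; rw [List.ofFn_eq_map]
  rw [h1, List.filter_filter]
  simp only [List.filter_map, List.length_map]
  rw [card_filter_fin]
  congr 1
  ext j
  simp only [mem_filter, mem_univ, true_and, Function.comp, Bool.and_eq_true]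
  rw [termVal_iff ρ hρ, and_comm]
  refine and_congr_right fun hs => ?_
  rw [dnf_map, (termVal_iff ρ hρ (X j)).2 hs, Bool.true_and, ← dnf_iff H hH]
  unfold ff
  cases dnfVal H (List.ofFn (X j)) <;> cases dnfVal F (List.ofFn (X j)) <;> simp

theorem flipVal_iff (v : Fin n) (t : List (ℕ × Bool)) (ht : ∀ l ∈ t, l.1 < n) (x : Cube n) :
    flipVal (v : ℕ) t (List.ofFn x) = true ↔ satL (UU n t) (flp v x) := by
  have key : ∀ w : Fin n, (if (w : ℕ) = (v : ℕ) then !((List.ofFn x).getD (w : ℕ) false)
      else (List.ofFn x).getD (w : ℕ) false) = flp v x w := by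
    intro w
    unfold flp
    by_cases e : w = v
    · subst e
      rw [if_pos rfl, Function.update_self, getD_ofFn]
    · rw [if_neg (fun h => e (Fin.ext h)), Function.update_of_ne e, getD_ofFn]
  unfold flipVal satL
  rw [List.all_eq_true]
  constructor
  · intro h l hl
    have := h _ ((mem_UU t l).1 hl)
    simp only [beq_iff_eq] at this
    rw [← this, ← key l.1]
  · intro h l hl
    have := h (⟨l.1, ht l hl⟩, l.2) ((mem_UU t _).2 hl)
    simp only [beq_iff_eq]
    rw [← this]
    exact key ⟨l.1, ht l hl⟩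

end OrcL

open Classical OrcL in
theorem orc : S_ORC := by
  intro n m S ι F X I T a ρ P z τ hF hG hρ hP hz
  have hpow : (m : ℝ) * (1 / 2) ^ P.card * (τ * 2 ^ P.card) = m * τ := by
    have h2 : ((1 : ℝ) / 2) ^ P.card * 2 ^ P.card = 1 := by
      rw [← mul_pow]; norm_num
    calc (m : ℝ) * (1 / 2) ^ P.card * (τ * 2 ^ P.card)
        = m * τ * ((1 / 2) ^ P.card * 2 ^ P.card) := by ring
      _ = m * τ := by rw [h2, mul_one]
  have hlt : ∀ t : List (ℕ × Bool), (∀ l ∈ t, l.1 ∈ free n ρ) → ∀ l ∈ t, l.1 < n :=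
    fun t ht l hl => ((mem_free ρ _).1 (ht l hl)).1
  have hff : ∀ x, satL (UU n ρ) x → (¬ ff n F x ↔ miss (res I T a P z) (fun i => T i \ P) a x) := by
    intro x hx
    rw [miss_iff I T a P z x ((satL_cube ρ P z hP hz x).1 hx), hF x, not_not]
  have hff' : ∀ x, satL (UU n ρ) x → (ff n F x ↔ ¬ miss (res I T a P z) (fun i => T i \ P) a x) := by
    intro x hx
    rw [← hff x hx, not_not]
  refine ⟨⟨?_, ?_, ?_⟩, ?_, ?_⟩
  · intro x hx
    obtain ⟨j, rfl, h1, h2⟩ := (mem_neg F X ρ hρ x).1 hx
    exact ⟨X j, rfl, not_not.2 ((hff _ h1).1 h2)⟩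
  · intro t ht
    have h1 := hG (true, none, UU n (ρ ++ t), fun _ => none)
    have e1 : (univ.filter fun j => EvS (ff n F) (true, none, UU n (ρ ++ t), fun _ : Fin S => none) (X j)).card =
        ct (negs (inCube ρ (smp F X))) t := by
      unfold ct
      rw [neg_count F X ρ hρ]
      refine congrArg Finset.card (Finset.ext fun j => ?_)
      simp only [mem_filter, mem_univ, true_and]
      unfold EvS
      simp only [if_true]
      rw [termVal_iff t (hlt t ht), UU_append]
      constructor
      · rintro ⟨h1, _, _, h2, h3⟩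
        exact ⟨h3, h2, h1⟩
      · rintro ⟨h3, h2, h1⟩
        exact ⟨h1, hs_none S _, fun v hv => by simp at hv, h2, h3⟩
    have e2 : PP (EvS (ff n F) (true, none, UU n (ρ ++ t), fun _ : Fin S => none)) =
        (1 / 2) ^ P.card * PP (fun x => ¬ ¬ miss (res I T a P z) (fun i => T i \ P) a x ∧
          satL (UU n t) x) := by
      rw [← cube_indep ρ P z hP hz]
      · refine PP_congr fun x => ?_
        unfold EvS
        simp only [if_true]
        rw [UU_append]
        constructor
        · rintro ⟨h1, _, _, h2, h3⟩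
          exact ⟨h2, not_not.2 ((hff x h2).1 h1), h3⟩
        · rintro ⟨h2, h1, h3⟩
          exact ⟨(hff x h2).2 (not_not.1 h1), hs_none S _, fun v hv => by simp at hv, h2, h3⟩
      · intro x y h
        rw [miss_congr _ T a P x y h, satL_congr ρ P hP t ht x y h]
    rw [e1, e2] at h1
    rw [hpow, mul_assoc]
    exact h1
  · intro H v γ hS hH himp hv hγ
    have h1 := hG (true, some v, UU n (ρ ++ γ), phi n S H)
    have hHn : ∀ t ∈ H, ∀ l ∈ t, l.1 < n := fun t ht => hlt t (hH t ht)
    have e1 : (univ.filter fun j => EvS (ff n F) (true, some v, UU n (ρ ++ γ), phi n S H) (X j)).card =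
        ct (calm (negs (inCube ρ (smp F X))) H v) γ := by
      unfold ct calm
      rw [List.filter_filter, neg_count F X ρ hρ]
      refine congrArg Finset.card (Finset.ext fun j => ?_)
      simp only [mem_filter, mem_univ, true_and, Bool.and_eq_true]
      unfold EvS
      simp only [if_true]
      rw [termVal_iff γ (hlt γ hγ), UU_append, hs_iff S H hS]
      have h5 : (!(H.any fun t => flipVal (v : ℕ) t (List.ofFn (X j)))) = true ↔
          ¬ hh n H (flp v (X j)) := by
        rw [Bool.not_eq_true', ← Bool.not_eq_true, List.any_eq_true]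
        unfold hh
        exact not_congr (exists_congr fun t => and_congr_right fun ht =>
          flipVal_iff v t (hHn t ht) (X j))
      rw [h5]
      constructor
      · rintro ⟨h1, _, h4, h2, h3⟩
        exact ⟨⟨h3, fun h => h4 v rfl ((hs_iff S H hS _).2 h)⟩, h2, h1⟩
      · rintro ⟨⟨h3, h4⟩, h2, h1⟩
        refine ⟨h1, ?_, fun w hw => ?_, h2, h3⟩
        · rintro ⟨t, ht, hs⟩
          have h6 := himp t ht
          unfold imp at h6
          rw [List.all_eq_true] at h6
          have h7 := h6 (List.ofFn (X j)) ((mem_neg F X ρ hρ _).2 ⟨j, rfl, h2, h1⟩)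
          rw [(termVal_iff t (hHn t ht) (X j)).2 hs] at h7
          exact absurd h7 (by simp)
        · cases hw
          rw [hs_iff S H hS]
          exact h4
    have e2 : PP (EvS (ff n F) (true, some v, UU n (ρ ++ γ), phi n S H)) =
        (1 / 2) ^ P.card * PP (fun x => ¬ ¬ miss (res I T a P z) (fun i => T i \ P) a x ∧
          ¬ hh n H x ∧ ¬ hh n H (flp v x) ∧ satL (UU n γ) x) := by
      rw [← cube_indep ρ P z hP hz]
      · refine PP_congr fun x => ?_
        unfold EvS
        simp only [if_true]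
        rw [UU_append, hs_iff S H hS]
        constructor
        · rintro ⟨h1, h5, h4, h2, h3⟩
          exact ⟨h2, not_not.2 ((hff x h2).1 h1), h5, fun h => h4 v rfl ((hs_iff S H hS _).2 h), h3⟩
        · rintro ⟨h2, h1, h5, h4, h3⟩
          refine ⟨(hff x h2).2 (not_not.1 h1), h5, fun w hw => ?_, h2, h3⟩
          cases hw
          rw [hs_iff S H hS]
          exact h4
      · intro x y h
        rw [miss_congr _ T a P x y h, satL_congr ρ P hP γ hγ x y h, hh_congr ρ P hP H hH x y h,
          hh_congr ρ P hP H hH (flp v x) (flp v y) (flp_congr P v x y h)]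
    rw [e1, e2] at h1
    rw [hpow, mul_assoc]
    exact h1
  · have h1 := hG (true, none, UU n ρ, fun _ => none)
    have e1 : (univ.filter fun j => EvS (ff n F) (true, none, UU n ρ, fun _ : Fin S => none) (X j)).card =
        errc [ρ] (inCube ρ (smp F X)) := by
      have h2 := err_count F X ρ hρ [[]] (by simp)
      rw [List.map_cons, List.append_nil, List.map_nil] at h2
      rw [h2]
      congr 1
      ext j
      simp only [mem_filter, mem_univ, true_and]
      unfold EvS
      simp only [if_true]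
      have h3 : hh n [[]] (X j) := ⟨[], by simp, by intro l hl; rw [mem_UU] at hl; simp at hl⟩
      constructor
      · rintro ⟨h1, _, _, h2⟩
        exact ⟨h2, fun h => h1 (h.1 h3)⟩
      · rintro ⟨h2, h1⟩
        exact ⟨fun h => h1 ⟨fun _ => h, fun _ => h3⟩, hs_none S _, fun v hv => by simp at hv, h2⟩
    have e2 : PP (EvS (ff n F) (true, none, UU n ρ, fun _ : Fin S => none)) =
        PP (fun x => miss I T a x ∧ satL (UU n ρ) x) := by
      refine PP_congr fun x => ?_
      unfold EvS
      simp only [if_true]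
      constructor
      · rintro ⟨h1, _, _, h2⟩
        exact ⟨by rw [hF x, not_not] at h1; exact h1, h2⟩
      · rintro ⟨h1, h2⟩
        exact ⟨by rw [hF x, not_not]; exact h1, hs_none S _, fun v hv => by simp at hv, h2⟩
    rw [e1, e2] at h1
    have := (abs_le.1 h1).2
    linarith
  · intro H hS hH
    have h1 := hG (false, none, UU n ρ, phi n S H)
    have hHn : ∀ t ∈ H, ∀ l ∈ t, l.1 < n := fun t ht => hlt t (hH t ht)
    have e1 : (univ.filter fun j => EvS (ff n F) (false, none, UU n ρ, phi n S H) (X j)).card =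
        errc (H.map (ρ ++ ·)) (inCube ρ (smp F X)) := by
      rw [err_count F X ρ hρ H hHn]
      congr 1
      ext j
      simp only [mem_filter, mem_univ, true_and]
      unfold EvS
      simp only [Bool.false_eq_true, if_false]
      rw [hs_iff S H hS]
    have e2 : PP (EvS (ff n F) (false, none, UU n ρ, phi n S H)) =
        (1 / 2) ^ P.card *
          PP (fun x => ¬ (hh n H x ↔ ¬ miss (res I T a P z) (fun i => T i \ P) a x)) := by
      rw [← cube_indep ρ P z hP hz]
      · refine PP_congr fun x => ?_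
        unfold EvS
        simp only [Bool.false_eq_true, if_false]
        rw [hs_iff S H hS]
        refine and_congr_right fun h2 => ?_
        rw [hff' x h2]
      · intro x y h
        rw [miss_congr _ T a P x y h, hh_congr ρ P hP H hH x y h]
    rw [e1, e2] at h1
    have := (abs_le.1 h1).2
    rw [← mul_assoc] at this
    linarith

end Pool.Agent.Helper91K9.SP
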