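import Pool.Agent.Helper91K9.SP.Fam4

/-!
# The leaves of a decision tree
-/

set_option autoImplicit false

namespace Pool.Agent.Helper91K9.SP

open Finset Pool.Agent.Helper91K9.DL Pool.Agent.Helper91K9.TW

namespace PathsL

variable {n : ℕ}

theorem len (t : DT n) : ∀ ρ, (lv t ρ).length ≤ 2 ^ t.depth := by
  induction t with
  | leaf => intro ρ; simp [lv, DT.depth]
  | node v l r ihl ihr =>
    intro ρ
    simp only [lv, List.length_append, DT.depth, pow_succ]
    have h1 := ihl (((v : ℕ), true) :: ρ)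
    have h2 := ihr (((v : ℕ), false) :: ρ)
    have h3 : 2 ^ l.depth ≤ 2 ^ max l.depth r.depth := Nat.pow_le_pow_right (by norm_num)
      (le_max_left _ _)
    have h4 : 2 ^ r.depth ≤ 2 ^ max l.depth r.depth := Nat.pow_le_pow_right (by norm_num)
      (le_max_right _ _)
    omega

theorem satL_cons (v : Fin n) (b : Bool) (ρ : List (ℕ × Bool)) (x : Cube n) :
    satL (UU n (((v : ℕ), b) :: ρ)) x ↔ x v = b ∧ satL (UU n ρ) x := by
  unfold satL
  constructor
  · intro h
    refine ⟨h (v, b) ((mem_UU _ _).2 (by simp)), fun l hl => ?_⟩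
    exact h l ((mem_UU _ _).2 (List.mem_cons_of_mem _ ((mem_UU _ _).1 hl)))
  · rintro ⟨h1, h2⟩ l hl
    rcases List.mem_cons.1 ((mem_UU _ _).1 hl) with h | h
    · have e1 : l.1 = v := by
        have := congrArg Prod.fst h
        exact Fin.ext this
      have e2 : l.2 = b := congrArg Prod.snd h
      rw [e1, e2]; exact h1
    · exact h2 l ((mem_UU _ _).2 h)

theorem split (Q : Cube n → Prop) (v : Fin n) (ρ : List (ℕ × Bool)) :
    (PP fun x => Q x ∧ satL (UU n (((v : ℕ), true) :: ρ)) x) +
      (PP fun x => Q x ∧ satL (UU n (((v : ℕ), false) :: ρ)) x) =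
        PP fun x => Q x ∧ satL (UU n ρ) x := by
  classical
  have h1 := PP_and_not (fun x => Q x ∧ satL (UU n ρ) x) (fun x => x v = true)
  have h2 : PP (fun x => Q x ∧ satL (UU n (((v : ℕ), true) :: ρ)) x) =
      PP (fun x => x v = true ∧ Q x ∧ satL (UU n ρ) x) :=
    PP_congr fun x => by rw [satL_cons]; tauto
  have h3 : PP (fun x => Q x ∧ satL (UU n (((v : ℕ), false) :: ρ)) x) =
      PP (fun x => (Q x ∧ satL (UU n ρ) x) ∧ ¬ x v = true) :=
    PP_congr fun x => by rw [satL_cons, Bool.not_eq_true]; tauto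
  rw [h2, h3, h1]
  ring

theorem sum (t : DT n) (Q : Cube n → Prop) : ∀ ρ,
    ((lv t ρ).map fun ρ' => PP fun x => Q x ∧ satL (UU n ρ') x).sum =
      PP fun x => Q x ∧ satL (UU n ρ) x := by
  induction t with
  | leaf => intro ρ; simp [lv]
  | node v l r ihl ihr =>
    intro ρ
    simp only [lv, List.map_append, List.sum_append]
    rw [ihl, ihr, split]

theorem mem (t : DT n) : ∀ ρ, ∀ ρ' ∈ lv t ρ, (∀ l ∈ ρ, l ∈ ρ') ∧
    ((∀ l ∈ ρ, l.1 < n) → ∀ l ∈ ρ', l.1 < n) ∧ ρ'.length ≤ ρ.length + t.depth ∧
    ∀ x : Cube n, satL (UU n ρ') x → ∀ v : Fin n,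
      (v ∈ t.path x ∨ ∃ b, ((v : ℕ), b) ∈ ρ) ↔ ∃ b, ((v : ℕ), b) ∈ ρ' := by
  induction t with
  | leaf =>
    intro ρ ρ' h
    simp only [lv, List.mem_singleton] at h
    subst h
    refine ⟨fun _ h => h, fun h => h, by simp [DT.depth], fun x _ v => ?_⟩
    simp [DT.path]
  | node u l r ihl ihr =>
    intro ρ ρ' h
    simp only [lv, List.mem_append] at h
    rcases h with h | h
    · obtain ⟨h1, h2, h3, h4⟩ := ihl _ _ h
      refine ⟨fun l hl => h1 l (List.mem_cons_of_mem _ hl), fun hρ => h2 fun l hl => ?_, ?_,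
        fun x hx v => ?_⟩
      · rcases List.mem_cons.1 hl with h5 | h5
        · rw [h5]; exact u.2
        · exact hρ l h5
      · simp only [List.length_cons, DT.depth] at h3 ⊢
        have := le_max_left l.depth r.depth
        omega
      · have hu : x u = true := hx (u, true) ((mem_UU _ _).2 (h1 _ (by simp)))
        have h5 := h4 x hx v
        simp only [DT.path, if_pos hu, mem_insert]
        rw [← h5]
        constructor
        · rintro ((h6 | h6) | ⟨b, h6⟩)
          · exact Or.inr ⟨true, by rw [h6]; simp⟩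
          · exact Or.inl h6
          · exact Or.inr ⟨b, List.mem_cons_of_mem _ h6⟩
        · rintro (h6 | ⟨b, h6⟩)
          · exact Or.inl (Or.inr h6)
          · rcases List.mem_cons.1 h6 with h7 | h7
            · exact Or.inl (Or.inl (Fin.ext (congrArg Prod.fst h7)))
            · exact Or.inr ⟨b, h7⟩
    · obtain ⟨h1, h2, h3, h4⟩ := ihr _ _ h
      refine ⟨fun l hl => h1 l (List.mem_cons_of_mem _ hl), fun hρ => h2 fun l hl => ?_, ?_,
        fun x hx v => ?_⟩
      · rcases List.mem_cons.1 hl with h5 | h5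
        · rw [h5]; exact u.2
        · exact hρ l h5
      · simp only [List.length_cons, DT.depth] at h3 ⊢
        have := le_max_right l.depth r.depth
        omega
      · have hu : ¬ x u = true := by
          have : x u = false := hx (u, false) ((mem_UU _ _).2 (h1 _ (by simp)))
          rw [this]; simp
        have h5 := h4 x hx v
        simp only [DT.path, if_neg hu, mem_insert]
        rw [← h5]
        constructor
        · rintro ((h6 | h6) | ⟨b, h6⟩)
          · exact Or.inr ⟨false, by rw [h6]; simp⟩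
          · exact Or.inl h6
          · exact Or.inr ⟨b, List.mem_cons_of_mem _ h6⟩
        · rintro (h6 | ⟨b, h6⟩)
          · exact Or.inl (Or.inr h6)
          · rcases List.mem_cons.1 h6 with h7 | h7
            · exact Or.inl (Or.inl (Fin.ext (congrArg Prod.fst h7)))
            · exact Or.inr ⟨b, h7⟩

end PathsL

theorem paths : S_PATHS := by
  intro n t
  refine ⟨PathsL.len t [], fun Q => ?_, fun ρ hρ => ?_⟩
  · rw [PathsL.sum t Q []]
    refine PP_congr fun x => ?_
    constructor
    · exact fun h => h.1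
    · intro h
      refine ⟨h, fun l hl => ?_⟩
      have := (mem_UU _ _).1 hl
      simp at this
  · obtain ⟨_, h2, h3, h4⟩ := PathsL.mem t [] ρ hρ
    refine ⟨h2 (by simp), by simpa using h3, fun x hx v => ?_⟩
    rw [← h4 x hx v]
    simp

end Pool.Agent.Helper91K9.SP
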