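import Pool.Agent.Helper91K9.TW.Poly3
import Pool.Agent.Helper91K9.SP.Defs

/-!
# The learning algorithm for sparse incidence graphs runs in polynomial time
-/

namespace Pool.Agent.Helper91K9.SP

open Pool.Agent.NPC Pool.Agent.Helper91K9.DL Pool.Agent.Helper91K9.TW

namespace PolysL

section Sizes

variable {β γ : Type} [TEnc β] [TEnc γ]

theorem sz_filter_le (p : β → Bool) (l : List β) : sz (l.filter p) ≤ sz l := by
  induction l with
  | nil => simp
  | cons b l ih =>
    rw [List.filter_cons]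
    split_ifs
    · simp only [sz_list_cons]; omega
    · simp only [sz_list_cons]; omega

omit [TEnc β] in
theorem sz_map_mono (F G : β → γ) (l : List β) (h : ∀ b ∈ l, sz (F b) ≤ sz (G b)) :
    sz (l.map F) ≤ sz (l.map G) := by
  induction l with
  | nil => simp
  | cons b l ih =>
    have h1 := h b (by simp)
    have h2 := ih fun c hc => h c (List.mem_cons_of_mem _ hc)
    simp only [List.map_cons, sz_list_cons]
    omega

theorem sz_map_le (F : β → β) (l : List β) (h : ∀ b ∈ l, sz (F b) ≤ sz b) :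
    sz (l.map F) ≤ sz l := by
  have := sz_map_mono F (fun b => b) l h
  simpa using this

omit [TEnc β] in
theorem sz_flatMap_mono (F G : β → List γ) (l : List β) (h : ∀ b ∈ l, sz (F b) ≤ sz (G b)) :
    sz (l.flatMap F) ≤ sz (l.flatMap G) := by
  induction l with
  | nil => simp
  | cons b l ih =>
    have h1 := h b (by simp)
    have h2 := ih fun c hc => h c (List.mem_cons_of_mem _ hc)
    simp only [List.flatMap_cons]
    have h3 := sz_append (F b) (l.flatMap F)
    have h4 := sz_append (G b) (l.flatMap G)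
    omega

omit [TEnc β] in
theorem foldl_sz {σ : Type} [TEnc σ] (F : σ → β → σ) (C : ℕ) (h : ∀ s b, sz (F s b) ≤ sz s + C) :
    ∀ (l : List β) (s : σ), sz (l.foldl F s) ≤ sz s + l.length * C := by
  intro l
  induction l with
  | nil => intro s; simp
  | cons b l ih =>
    intro s
    rw [List.foldl_cons, List.length_cons, Nat.succ_mul]
    have h1 := ih (F s b)
    have h2 := h s b
    omega

omit [TEnc β] in
theorem foldl_pick {σ : Type} (F : σ → β → σ) (B : β → σ)
    (h : ∀ s b, F s b = s ∨ F s b = B b) :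
    ∀ (l : List β) (s : σ), l.foldl F s = s ∨ ∃ b ∈ l, l.foldl F s = B b := by
  intro l
  induction l with
  | nil => intro s; exact Or.inl rfl
  | cons b l ih =>
    intro s
    rw [List.foldl_cons]
    rcases ih (F s b) with h1 | ⟨c, hc, h1⟩
    · rw [h1]
      rcases h s b with h2 | h2
      · exact Or.inl h2
      · exact Or.inr ⟨b, by simp, h2⟩
    · exact Or.inr ⟨c, List.mem_cons_of_mem _ hc, h1⟩

end Sizes

section

variable {α : Type} [TEnc α]

theorem litsW_poly {W : α → List ℕ} (hW : Poly W) : Poly (fun a => litsW (W a)) :=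
  NPC.Poly.flatMap (F := fun _ j => [(j, true), (j, false)]) hW
    (NPC.Poly.cons (NPC.Poly.pair (NPC.Poly.snd NPC.Poly.id) (NPC.Poly.const true))
      (NPC.Poly.cons (NPC.Poly.pair (NPC.Poly.snd NPC.Poly.id) (NPC.Poly.const false))
        (NPC.Poly.const [])))

theorem partsW_poly {W : α → List ℕ} (hW : Poly W) (r : ℕ) :
    Poly (fun a => partsW (W a) r) := by
  induction r with
  | zero => exact NPC.Poly.const [[]]
  | succ r ih =>
    refine NPC.Poly.append ih (NPC.Poly.flatMap (F := fun a ρ => (litsW (W a)).map (· :: ρ)) ih ?_)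
    refine NPC.Poly.map (F := fun p l => l :: p.2) ((litsW_poly hW).comp
      (NPC.Poly.fst NPC.Poly.id)) ?_
    exact NPC.Poly.cons (NPC.Poly.snd NPC.Poly.id) (NPC.Poly.snd (NPC.Poly.fst NPC.Poly.id))

theorem flipVal_poly {i : α → ℕ} {t : α → List (ℕ × Bool)} {x : α → List Bool} (hi : Poly i)
    (ht : Poly t) (hx : Poly x) : Poly (fun a => flipVal (i a) (t a) (x a)) := by
  have h0 : Poly (fun p : α × (ℕ × Bool) => p.1) := NPC.Poly.fst NPC.Poly.id
  have h1 : Poly (fun p : α × (ℕ × Bool) => (x p.1).getD p.2.1 false) :=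
    NPC.Poly.getD (hx.comp h0) (NPC.Poly.fst (NPC.Poly.snd NPC.Poly.id))
      (NPC.Poly.const false)
  have h2 : Poly (fun p : α × (ℕ × Bool) => p.2.2) := NPC.Poly.snd (NPC.Poly.snd NPC.Poly.id)
  have h3 : Poly (fun p : α × (ℕ × Bool) => decide (p.2.1 = i p.1)) :=
    NPC.Poly.decide_eq (NPC.Poly.fst (NPC.Poly.snd NPC.Poly.id)) (hi.comp h0)
  have h4 : Poly (fun p : α × (ℕ × Bool) => if p.2.1 = i p.1 then !((x p.1).getD p.2.1 false)
      else (x p.1).getD p.2.1 false) := NPC.Poly.ite h3 (NPC.Poly.not h1) h1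
  exact NPC.Poly.all (p := fun a l => (if l.1 = i a then !((x a).getD l.1 false)
    else (x a).getD l.1 false) == l.2) ht (beq_poly h4 h2)

theorem calm_poly {neg : α → List (List Bool)} {H : α → List (List (ℕ × Bool))} {i : α → ℕ}
    (hneg : Poly neg) (hH : Poly H) (hi : Poly i) :
    Poly (fun a => calm (neg a) (H a) (i a)) := by
  have h0 : Poly (fun p : α × List Bool => p.1) := NPC.Poly.fst NPC.Poly.id
  have g0 : Poly (fun p : (α × List Bool) × List (ℕ × Bool) => p.1.1) :=
    NPC.Poly.fst (NPC.Poly.fst NPC.Poly.id)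
  have h1 : Poly (fun p : α × List Bool => (H p.1).any fun t => flipVal (i p.1) t p.2) :=
    NPC.Poly.any (l := fun p : α × List Bool => H p.1) (p := fun (p : α × List Bool) t =>
      flipVal (i p.1) t p.2) (hH.comp h0) (flipVal_poly (hi.comp g0) (NPC.Poly.snd NPC.Poly.id)
        (NPC.Poly.snd (NPC.Poly.fst NPC.Poly.id)))
  exact NPC.Poly.filter (p := fun a x => !((H a).any fun t => flipVal (i a) t x)) hneg
    (NPC.Poly.not h1)

theorem hat_poly (K : ℕ) {W : α → List ℕ} {ng : α → List (List Bool)} {i : α → ℕ} {s : α → Bool}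
    {γ : α → List (ℕ × Bool)} (hW : Poly W) (hng : Poly ng) (hi : Poly i) (hs : Poly s)
    (hγ : Poly γ) : Poly (fun a => hat K (W a) (ng a) (i a) (s a) (γ a)) := by
  have h0 : Poly (fun p : α × (ℕ × Bool) => p.1) := NPC.Poly.fst NPC.Poly.id
  have h2 : Poly (fun p : α × (ℕ × Bool) => p.2) := NPC.Poly.snd NPC.Poly.id
  have e1 : Poly (fun p : α × (ℕ × Bool) => (i p.1, s p.1)) :=
    NPC.Poly.pair (hi.comp h0) (hs.comp h0)
  have e2 : Poly (fun p : α × (ℕ × Bool) => (i p.1, !s p.1)) :=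
    NPC.Poly.pair (hi.comp h0) (NPC.Poly.not (hs.comp h0))
  have e3 : Poly (fun p : α × (ℕ × Bool) => (p.2.1, !p.2.2) :: γ p.1) :=
    NPC.Poly.cons (NPC.Poly.pair (NPC.Poly.fst h2) (NPC.Poly.not (NPC.Poly.snd h2)))
      (hγ.comp h0)
  have f1 : Poly (fun p : α × (ℕ × Bool) =>
      ct (ng p.1) ((i p.1, !s p.1) :: (p.2.1, !p.2.2) :: γ p.1)) :=
    ct_poly (neg := fun p : α × (ℕ × Bool) => ng p.1)
      (ρ := fun p : α × (ℕ × Bool) => (i p.1, !s p.1) :: (p.2.1, !p.2.2) :: γ p.1)
      (hng.comp h0) (NPC.Poly.cons e2 e3)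
  have f2 : Poly (fun p : α × (ℕ × Bool) => ct (ng p.1) ((i p.1, s p.1) :: γ p.1)) :=
    ct_poly (neg := fun p : α × (ℕ × Bool) => ng p.1)
      (ρ := fun p : α × (ℕ × Bool) => (i p.1, s p.1) :: γ p.1)
      (hng.comp h0) (NPC.Poly.cons e1 (hγ.comp h0))
  have f3 : Poly (fun p : α × (ℕ × Bool) => ct (ng p.1) ((i p.1, !s p.1) :: γ p.1)) :=
    ct_poly (neg := fun p : α × (ℕ × Bool) => ng p.1)
      (ρ := fun p : α × (ℕ × Bool) => (i p.1, !s p.1) :: γ p.1)
      (hng.comp h0) (NPC.Poly.cons e2 (hγ.comp h0))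
  have f4 : Poly (fun p : α × (ℕ × Bool) =>
      ct (ng p.1) ((i p.1, s p.1) :: (p.2.1, !p.2.2) :: γ p.1)) :=
    ct_poly (neg := fun p : α × (ℕ × Bool) => ng p.1)
      (ρ := fun p : α × (ℕ × Bool) => (i p.1, s p.1) :: (p.2.1, !p.2.2) :: γ p.1)
      (hng.comp h0) (NPC.Poly.cons e1 e3)
  have hK : Poly (fun _ : α × (ℕ × Bool) => K) := NPC.Poly.const K
  have m1 := NPC.Poly.mul hK f1
  have m4 := NPC.Poly.mul hK f4
  have a1 := NPC.Poly.add m1 f2
  have a2 := NPC.Poly.add f3 m4
  have d1 := NPC.Poly.decide_le a1 a2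
  have hl := litsW_poly hW
  unfold hat
  refine NPC.Poly.filter hl ?_
  exact d1

theorem without_poly {t u : α → List (ℕ × Bool)} (ht : Poly t) (hu : Poly u) :
    Poly (fun a => without (t a) (u a)) := by
  have h0 : Poly (fun p : α × (ℕ × Bool) => p.1) := NPC.Poly.fst NPC.Poly.id
  have g1 : Poly (fun p : (α × (ℕ × Bool)) × (ℕ × Bool) => p.1.2) :=
    NPC.Poly.snd (NPC.Poly.fst NPC.Poly.id)
  have g2 : Poly (fun p : (α × (ℕ × Bool)) × (ℕ × Bool) => p.2) := NPC.Poly.snd NPC.Poly.id
  have h1 : Poly (fun p : (α × (ℕ × Bool)) × (ℕ × Bool) => p.2.1 == p.1.2.1) :=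
    (NPC.Poly.decide_eq (NPC.Poly.fst g2) (NPC.Poly.fst g1)).congr fun a => by
      simp only [beq_eq_decide]
  have h2 : Poly (fun p : (α × (ℕ × Bool)) × (ℕ × Bool) => p.2.2 == p.1.2.2) :=
    beq_poly (NPC.Poly.snd g2) (NPC.Poly.snd g1)
  exact NPC.Poly.filter (p := fun a l => !((u a).any fun l' => l'.1 == l.1 && l'.2 == l.2)) ht
    (NPC.Poly.not (NPC.Poly.any (l := fun p : α × (ℕ × Bool) => u p.1)
      (p := fun (p : α × (ℕ × Bool)) (l' : ℕ × Bool) => l'.1 == p.2.1 && l'.2 == p.2.2)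
      (hu.comp h0) (NPC.Poly.and h1 h2)))

theorem sz_without (t u : List (ℕ × Bool)) : sz (without t u) ≤ sz t := sz_filter_le _ _

theorem sz_red_aux (neg : List (List Bool)) : ∀ (l t : List (ℕ × Bool)),
    sz (l.foldl (fun cur l => if imp neg (without cur [l]) then without cur [l] else cur) t) ≤
      sz t := by
  intro l
  induction l with
  | nil => intro t; simp
  | cons b l ih =>
    intro t
    rw [List.foldl_cons]
    refine (ih _).trans ?_
    split_ifs
    · exact sz_without _ _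
    · exact le_rfl

theorem sz_red (neg : List (List Bool)) (t : List (ℕ × Bool)) : sz (red neg t) ≤ sz t :=
  sz_red_aux neg t t

theorem red_poly {neg : α → List (List Bool)} {t : α → List (ℕ × Bool)} (hneg : Poly neg)
    (ht : Poly t) : Poly (fun a => red (neg a) (t a)) := by
  obtain ⟨q, hq⟩ := ht.sz_le
  have h1 : Poly (fun p : α × List (ℕ × Bool) × (ℕ × Bool) => without p.2.1 [p.2.2]) :=
    without_poly (NPC.Poly.fst (NPC.Poly.snd NPC.Poly.id))
      (NPC.Poly.cons (NPC.Poly.snd (NPC.Poly.snd NPC.Poly.id)) (NPC.Poly.const []))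
  have h2 : Poly (fun p : α × List (ℕ × Bool) × (ℕ × Bool) =>
      decide (imp (neg p.1) (without p.2.1 [p.2.2]) = true)) :=
    NPC.Poly.decide_bool (imp_poly (hneg.comp (NPC.Poly.fst NPC.Poly.id)) h1)
  refine NPC.Poly.foldl (F := fun a cur l => if imp (neg a) (without cur [l]) then without cur [l]
    else cur) ht ht (NPC.Poly.ite h2 h1 (NPC.Poly.fst (NPC.Poly.snd NPC.Poly.id))) q ?_
  intro a k _
  exact (sz_red_aux (neg a) _ _).trans (hq a)

end

/-- The nested enumeration of the candidates with the elements given by `f`. -/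
def nest (R r : ℕ) (W : List ℕ) (f : List (ℕ × Bool) → ℕ → Bool → List (ℕ × Bool) →
    List (ℕ × Bool) → List (ℕ × Bool)) : List (List (ℕ × Bool)) :=
  (partsW W R).flatMap fun γ => W.flatMap fun i => [true, false].flatMap fun s =>
    (partsW W r).flatMap fun α => (partsW W r).map fun β => f γ i s α β

theorem nest_mono (R r : ℕ) (W : List ℕ) (f g : List (ℕ × Bool) → ℕ → Bool → List (ℕ × Bool) →
    List (ℕ × Bool) → List (ℕ × Bool)) (h : ∀ γ i s α β, sz (f γ i s α β) ≤ sz (g γ i s α β)) :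
    sz (nest R r W f) ≤ sz (nest R r W g) := by
  unfold nest
  refine sz_flatMap_mono _ _ _ fun γ _ => sz_flatMap_mono _ _ _ fun i _ =>
    sz_flatMap_mono _ _ _ fun s _ => sz_flatMap_mono _ _ _ fun α _ =>
    sz_map_mono _ _ _ fun β _ => h γ i s α β

theorem cand_eq (R r K : ℕ) (W : List ℕ) (neg : List (List Bool)) (H : List (List (ℕ × Bool))) :
    cand R r K W neg H = nest R r W fun γ i s α β =>
      without (hat K W (calm neg H i) i s γ) α ++ β := rfl

/-- The nested enumeration with full elements. -/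
def candAll (R r : ℕ) (W : List ℕ) : List (List (ℕ × Bool)) :=
  nest R r W fun _ _ _ _ β => litsW W ++ β

theorem sz_cand (R r K : ℕ) (W : List ℕ) (neg : List (List Bool)) (H : List (List (ℕ × Bool))) :
    sz (cand R r K W neg H) ≤ sz (candAll R r W) := by
  rw [cand_eq]
  refine nest_mono R r W _ _ fun γ i s α β => ?_
  have h1 := sz_append (without (hat K W (calm neg H i) i s γ) α) β
  have h2 := sz_append (litsW W) β
  have h3 := sz_without (hat K W (calm neg H i) i s γ) α
  have h4 : sz (hat K W (calm neg H i) i s γ) ≤ sz (litsW W) := sz_filter_le _ _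
  omega

section

/-- The nested enumeration is polynomial. -/
theorem nest_poly {α : Type} [TEnc α] (R r : ℕ) {W : α → List ℕ}
    {f : α → List (ℕ × Bool) → ℕ → Bool → List (ℕ × Bool) → List (ℕ × Bool) → List (ℕ × Bool)}
    (hW : Poly W)
    (hf : Poly (fun p : ((((α × List (ℕ × Bool)) × ℕ) × Bool) × List (ℕ × Bool)) ×
      List (ℕ × Bool) => f p.1.1.1.1.1 p.1.1.1.1.2 p.1.1.1.2 p.1.1.2 p.1.2 p.2)) :
    Poly (fun a => nest R r (W a) (f a)) := by
  have w1 : Poly (fun p : α × List (ℕ × Bool) => W p.1) := hW.comp (NPC.Poly.fst NPC.Poly.id)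
  have w2 : Poly (fun p : (α × List (ℕ × Bool)) × ℕ => W p.1.1) :=
    w1.comp (NPC.Poly.fst NPC.Poly.id)
  have w3 : Poly (fun p : ((α × List (ℕ × Bool)) × ℕ) × Bool => W p.1.1.1) :=
    w2.comp (NPC.Poly.fst NPC.Poly.id)
  have w4 : Poly (fun p : (((α × List (ℕ × Bool)) × ℕ) × Bool) × List (ℕ × Bool) => W p.1.1.1.1) :=
    w3.comp (NPC.Poly.fst NPC.Poly.id)
  have h4 : Poly (fun p : (((α × List (ℕ × Bool)) × ℕ) × Bool) × List (ℕ × Bool) =>
      (partsW (W p.1.1.1.1) r).map fun β => f p.1.1.1.1 p.1.1.1.2 p.1.1.2 p.1.2 p.2 β) :=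
    NPC.Poly.map (F := fun (p : (((α × List (ℕ × Bool)) × ℕ) × Bool) × List (ℕ × Bool)) β =>
      f p.1.1.1.1 p.1.1.1.2 p.1.1.2 p.1.2 p.2 β) (partsW_poly w4 r) hf
  have h3 : Poly (fun p : ((α × List (ℕ × Bool)) × ℕ) × Bool =>
      (partsW (W p.1.1.1) r).flatMap fun a' => (partsW (W p.1.1.1) r).map fun β =>
        f p.1.1.1 p.1.1.2 p.1.2 p.2 a' β) :=
    NPC.Poly.flatMap (F := fun (p : ((α × List (ℕ × Bool)) × ℕ) × Bool) a' =>
      (partsW (W p.1.1.1) r).map fun β => f p.1.1.1 p.1.1.2 p.1.2 p.2 a' β) (partsW_poly w3 r) h4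
  have h2 : Poly (fun p : (α × List (ℕ × Bool)) × ℕ => [true, false].flatMap fun s =>
      (partsW (W p.1.1) r).flatMap fun a' => (partsW (W p.1.1) r).map fun β =>
        f p.1.1 p.1.2 p.2 s a' β) :=
    NPC.Poly.flatMap (F := fun (p : (α × List (ℕ × Bool)) × ℕ) s =>
      (partsW (W p.1.1) r).flatMap fun a' => (partsW (W p.1.1) r).map fun β =>
        f p.1.1 p.1.2 p.2 s a' β) (NPC.Poly.const [true, false]) h3
  have h1 : Poly (fun p : α × List (ℕ × Bool) => (W p.1).flatMap fun i =>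
      [true, false].flatMap fun s =>
      (partsW (W p.1) r).flatMap fun a' => (partsW (W p.1) r).map fun β =>
        f p.1 p.2 i s a' β) :=
    NPC.Poly.flatMap (F := fun (p : α × List (ℕ × Bool)) i => [true, false].flatMap fun s =>
      (partsW (W p.1) r).flatMap fun a' => (partsW (W p.1) r).map fun β =>
        f p.1 p.2 i s a' β) w1 h2
  exact NPC.Poly.flatMap (F := fun a γ => (W a).flatMap fun i => [true, false].flatMap fun s =>
      (partsW (W a) r).flatMap fun a' => (partsW (W a) r).map fun β =>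
        f a γ i s a' β) (partsW_poly hW R) h1

variable {α : Type} [TEnc α]

theorem candAll_poly (R r : ℕ) {W : α → List ℕ} (hW : Poly W) :
    Poly (fun a => candAll R r (W a)) := by
  refine nest_poly (f := fun a _ _ _ _ β => litsW (W a) ++ β) R r hW ?_
  exact NPC.Poly.append (litsW_poly (hW.comp (NPC.Poly.fst (NPC.Poly.fst (NPC.Poly.fst
    (NPC.Poly.fst (NPC.Poly.fst NPC.Poly.id))))))) (NPC.Poly.snd NPC.Poly.id)

theorem cand_poly (R r K : ℕ) {W : α → List ℕ} {neg : α → List (List Bool)}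
    {H : α → List (List (ℕ × Bool))} (hW : Poly W) (hneg : Poly neg) (hH : Poly H) :
    Poly (fun a => cand R r K (W a) (neg a) (H a)) := by
  refine nest_poly (f := fun a γ i s a' β =>
    without (hat K (W a) (calm (neg a) (H a) i) i s γ) a' ++ β) R r hW ?_
  have p5 : Poly (fun p : ((((α × List (ℕ × Bool)) × ℕ) × Bool) × List (ℕ × Bool)) ×
      List (ℕ × Bool) => p.1) := NPC.Poly.fst NPC.Poly.id
  have p4 := NPC.Poly.fst p5
  have p3 := NPC.Poly.fst p4
  have p2 := NPC.Poly.fst p3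
  have p1 := NPC.Poly.fst p2
  have qγ := NPC.Poly.snd p2
  have qi := NPC.Poly.snd p3
  have qs := NPC.Poly.snd p4
  have qa := NPC.Poly.snd p5
  have qb : Poly (fun p : ((((α × List (ℕ × Bool)) × ℕ) × Bool) × List (ℕ × Bool)) ×
      List (ℕ × Bool) => p.2) := NPC.Poly.snd NPC.Poly.id
  exact NPC.Poly.append (without_poly (hat_poly K (hW.comp p1) (calm_poly (hneg.comp p1)
    (hH.comp p1) qi) qi qs qγ) qa) qb

theorem round_poly (R r K : ℕ) {W : α → List ℕ} {neg : α → List (List Bool)}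
    {H : α → List (List (ℕ × Bool))} (hW : Poly W) (hneg : Poly neg) (hH : Poly H) :
    Poly (fun a => round R r K (W a) (neg a) (H a)) := by
  have h0 : Poly (fun p : α × List (ℕ × Bool) => p.1) := NPC.Poly.fst NPC.Poly.id
  have h2 : Poly (fun p : α × List (ℕ × Bool) => p.2) := NPC.Poly.snd NPC.Poly.id
  exact NPC.Poly.append hH (NPC.Poly.map (F := fun a t => red (neg a) t)
    (NPC.Poly.filter (p := fun a t => imp (neg a) t) (cand_poly R r K hW hneg hH)
      (imp_poly (hneg.comp h0) h2)) (red_poly (hneg.comp h0) h2))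

theorem sz_round (R r K : ℕ) (W : List ℕ) (neg : List (List Bool)) (H : List (List (ℕ × Bool))) :
    sz (round R r K W neg H) ≤ sz H + sz (candAll R r W) := by
  unfold round
  have h1 := sz_append H (((cand R r K W neg H).filter (imp neg)).map (red neg))
  have h2 := sz_map_le (red neg) ((cand R r K W neg H).filter (imp neg))
    fun t _ => sz_red neg t
  have h3 := sz_filter_le (imp neg) (cand R r K W neg H)
  have h4 := sz_cand R r K W neg H
  omega

theorem base_poly (R r K : ℕ) {W : α → List ℕ} {N : α → ℕ} {neg : α → List (List Bool)}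
    (hW : Poly W) (hN : UPoly N) (hneg : Poly neg) :
    Poly (fun a => base R r K (W a) (N a) (neg a)) := by
  obtain ⟨q, hq⟩ := (candAll_poly R r hW).sz_le
  obtain ⟨p, hp⟩ := UPoly.sz_le hN
  have h0 : Poly (fun p : α × List (List (ℕ × Bool)) × ℕ => p.1) := NPC.Poly.fst NPC.Poly.id
  refine NPC.Poly.foldl (F := fun a H _ => round R r K (W a) (neg a) H) hN.range
    (NPC.Poly.const []) (round_poly R r K (hW.comp h0) (hneg.comp h0)
      (NPC.Poly.fst (NPC.Poly.snd NPC.Poly.id))) (Polynomial.C 1 + p * q) ?_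
  intro a k hk
  have h1 := foldl_sz (fun H (_ : ℕ) => round R r K (W a) (neg a) H) (sz (candAll R r (W a)))
    (fun s _ => sz_round R r K (W a) (neg a) s) ((List.range (N a)).take k) []
  refine h1.trans ?_
  simp only [Polynomial.eval_add, Polynomial.eval_mul, Polynomial.eval_C, sz_list_nil]
  refine Nat.add_le_add_left (Nat.mul_le_mul ?_ (hq a)) 1
  rw [List.length_take]
  exact (min_le_left _ _).trans (hk.trans (by rw [List.length_range]; exact hp a))

theorem inCube_poly {ρ : α → List (ℕ × Bool)} {s : α → List (List Bool × Bool)} (hρ : Poly ρ)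
    (hs : Poly s) : Poly (fun a => inCube (ρ a) (s a)) :=
  NPC.Poly.filter (p := fun a (e : List Bool × Bool) => termVal (ρ a) e.1) hs
    (termVal_poly (hρ.comp (NPC.Poly.fst NPC.Poly.id)) (NPC.Poly.fst (NPC.Poly.snd NPC.Poly.id)))

theorem dnfVal_poly {G : α → List (List (ℕ × Bool))} {x : α → List Bool} (hG : Poly G)
    (hx : Poly x) : Poly (fun a => dnfVal (G a) (x a)) :=
  NPC.Poly.any (p := fun a t => termVal t (x a)) hG
    (termVal_poly (NPC.Poly.snd NPC.Poly.id) (hx.comp (NPC.Poly.fst NPC.Poly.id)))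

theorem errc_poly {G : α → List (List (ℕ × Bool))} {s : α → List (List Bool × Bool)}
    (hG : Poly G) (hs : Poly s) : Poly (fun a => errc (G a) (s a)) :=
  NPC.Poly.length (NPC.Poly.filter
    (p := fun a (e : List Bool × Bool) => !(dnfVal (G a) e.1 == e.2)) hs
    (NPC.Poly.not (beq_poly (dnfVal_poly (hG.comp (NPC.Poly.fst NPC.Poly.id))
      (NPC.Poly.fst (NPC.Poly.snd NPC.Poly.id))) (NPC.Poly.snd (NPC.Poly.snd NPC.Poly.id)))))

theorem pick_poly {A B : α → List (List (ℕ × Bool))} {s : α → List (List Bool × Bool)}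
    (hA : Poly A) (hB : Poly B) (hs : Poly s) : Poly (fun a => pick (A a) (B a) (s a)) :=
  NPC.Poly.ite (NPC.Poly.decide_le (errc_poly hA hs) (errc_poly hB hs)) hA hB

theorem free_poly {n : α → ℕ} {ρ : α → List (ℕ × Bool)} (hn : UPoly n) (hρ : Poly ρ) :
    Poly (fun a => free (n a) (ρ a)) := by
  have h1 : Poly (fun p : α × ℕ => (ρ p.1).any fun l => l.1 == p.2) := by
    refine NPC.Poly.any (l := fun p : α × ℕ => ρ p.1) (p := fun (p : α × ℕ) l => l.1 == p.2)
      (hρ.comp (NPC.Poly.fst NPC.Poly.id)) ?_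
    exact (NPC.Poly.decide_eq (NPC.Poly.fst (NPC.Poly.snd NPC.Poly.id))
      (NPC.Poly.snd (NPC.Poly.fst NPC.Poly.id))).congr fun a => by simp only [beq_eq_decide]
  exact NPC.Poly.filter (p := fun a v => !((ρ a).any fun l => l.1 == v)) hn.range
    (NPC.Poly.not h1)

theorem loc_poly (R r K : ℕ) {n : α → ℕ} {s : α → List (List Bool × Bool)}
    {ρ : α → List (ℕ × Bool)} (hn : UPoly n) (hs : Poly s) (hρ : Poly ρ) :
    Poly (fun a => loc R r K (n a) (s a) (ρ a)) := by
  have h1 := inCube_poly hρ hs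
  have h2 : Poly (fun a => negs (inCube (ρ a) (s a))) := negs_poly.comp h1
  have h3 : UPoly (fun a => n a + 1) := hn.add (UPoly.const 1)
  have h4 := base_poly R r K (free_poly hn hρ) h3 h2
  have h5 : Poly (fun a => (base R r K (free (n a) (ρ a)) (n a + 1)
      (negs (inCube (ρ a) (s a)))).map (ρ a ++ ·)) :=
    NPC.Poly.map (F := fun a t => ρ a ++ t) h4
      (NPC.Poly.append (hρ.comp (NPC.Poly.fst NPC.Poly.id)) (NPC.Poly.snd NPC.Poly.id))
  exact pick_poly (NPC.Poly.cons hρ (NPC.Poly.const [])) h5 h1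

end

theorem opt_poly (R r K : ℕ) : ∀ (k : ℕ) {α : Type} [TEnc α] {n : α → ℕ}
    {s : α → List (List Bool × Bool)} {ρ : α → List (ℕ × Bool)}, UPoly n → Poly s → Poly ρ →
    Poly (fun a => opt R r K (n a) (s a) k (ρ a)) := by
  intro k
  induction k with
  | zero =>
    intro α _ n s ρ hn hs hρ
    exact loc_poly R r K hn hs hρ
  | succ k ih =>
    intro α _ n s ρ hn hs hρ
    have h0 : Poly (fun p : α × ℕ => p.1) := NPC.Poly.fst NPC.Poly.id
    have h2 : Poly (fun p : α × ℕ => p.2) := NPC.Poly.snd NPC.Poly.id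
    have hb : ∀ b : Bool, Poly (fun p : α × ℕ => opt R r K (n p.1) (s p.1) k
        ((p.2, b) :: ρ p.1)) := fun b =>
      ih (α := α × ℕ) (n := fun p => n p.1) (s := fun p => s p.1)
        (ρ := fun p => (p.2, b) :: ρ p.1) (UPoly.comp hn h0) (hs.comp h0)
        (NPC.Poly.cons (NPC.Poly.pair h2 (NPC.Poly.const b)) (hρ.comp h0))
    have hB := NPC.Poly.append (hb true) (hb false)
    have hL := loc_poly R r K hn hs hρ
    obtain ⟨q, hq⟩ := hB.sz_le
    obtain ⟨p, hp⟩ := UPoly.sz_le hn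
    obtain ⟨t, ht⟩ := hL.sz_le
    have g0 : Poly (fun p : α × List (List (ℕ × Bool)) × ℕ => p.1) := NPC.Poly.fst NPC.Poly.id
    have g1 : Poly (fun p : α × List (List (ℕ × Bool)) × ℕ => p.2.1) :=
      NPC.Poly.fst (NPC.Poly.snd NPC.Poly.id)
    have g2 : Poly (fun p : α × List (List (ℕ × Bool)) × ℕ => (p.1, p.2.2)) :=
      NPC.Poly.pair g0 (NPC.Poly.snd (NPC.Poly.snd NPC.Poly.id))
    have hF := pick_poly g1 (hB.comp g2) (inCube_poly (hρ.comp g0) (hs.comp g0))
    refine NPC.Poly.foldl (F := fun a G v =>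
      pick G (opt R r K (n a) (s a) k ((v, true) :: ρ a) ++
        opt R r K (n a) (s a) k ((v, false) :: ρ a)) (inCube (ρ a) (s a)))
      hn.range hL hF (t + q.comp (Polynomial.X + Polynomial.C 4 * p + Polynomial.C 2)) ?_
    intro a k' _
    rcases foldl_pick (fun (G : List (List (ℕ × Bool))) (v : ℕ) =>
      pick G (opt R r K (n a) (s a) k ((v, true) :: ρ a) ++
        opt R r K (n a) (s a) k ((v, false) :: ρ a)) (inCube (ρ a) (s a)))
      (fun v => opt R r K (n a) (s a) k ((v, true) :: ρ a) ++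
        opt R r K (n a) (s a) k ((v, false) :: ρ a)) (fun G v => by
          unfold pick
          split_ifs
          · exact Or.inl rfl
          · exact Or.inr rfl) ((List.range (n a)).take k') (loc R r K (n a) (s a) (ρ a))
      with h | ⟨v, hv, h⟩
    · rw [h]
      refine (ht a).trans ?_
      simp only [Polynomial.eval_add]
      exact Nat.le_add_right _ _
    · rw [h]
      refine (hq (a, v)).trans ?_
      simp only [Polynomial.eval_add, Polynomial.eval_comp, Polynomial.eval_mul,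
        Polynomial.eval_C, Polynomial.eval_X]
      refine le_trans (eval_mono q ?_) (Nat.le_add_left _ _)
      have h3 : v < n a := List.mem_range.1 (List.mem_of_mem_take hv)
      have h4 := hp a
      have h5 := sz_nat_le v
      have h6 : v.size ≤ v := NPC.Poly.size_le_self v
      rw [sz_pair]
      omega

end PolysL

open PolysL in
/-- Leaf POLYS. -/
theorem polys : S_POLYS := by
  intro D R r K
  exact opt_poly R r K D nvars_upoly NPC.Poly.id (NPC.Poly.const [])

end Pool.Agent.Helper91K9.SP
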