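import Pool.Agent.Helper91K9.SP.Fam4

/-!
# Almost all samples are good
-/

set_option autoImplicit false

namespace Pool.Agent.Helper91K9.SP

open Finset Pool.Agent.Helper91K9.DL Pool.Agent.Helper91K9.TW

namespace SampsL

theorem num (n S : ℕ) : Real.log (2 * ((n + 1) * ((4 : ℝ) ^ n * (4 ^ n + 1) ^ S)) + 1) ≤
      2 + 3 * n + (2 * n + 1) * S := by
  have h2 : (2 : ℝ) ≤ Real.exp 1 := by
    have := Real.add_one_le_exp (1 : ℝ)
    linarith
  have h4 : (4 : ℝ) ≤ Real.exp 2 := by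
    have : Real.exp 2 = Real.exp 1 * Real.exp 1 := by rw [← Real.exp_add]; norm_num
    rw [this]; nlinarith
  have h4n : (4 : ℝ) ^ n ≤ Real.exp (2 * n) := by
    have : Real.exp (2 * n) = Real.exp 2 ^ n := by rw [← Real.exp_nat_mul]; ring_nf
    rw [this]
    exact pow_le_pow_left₀ (by norm_num) h4 n
  have h5 : (4 : ℝ) ^ n + 1 ≤ Real.exp (2 * n + 1) := by
    rw [Real.exp_add]
    have h6 : (1 : ℝ) ≤ 4 ^ n := one_le_pow₀ (by norm_num)
    nlinarith [Real.exp_pos (2 * (n : ℝ))]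
  have h6 : (1 : ℝ) ≤ (n + 1) * (4 ^ n * (4 ^ n + 1) ^ S) := by
    have e1 : (1 : ℝ) ≤ (n : ℝ) + 1 := by linarith [Nat.cast_nonneg (α := ℝ) n]
    have e2 : (1 : ℝ) ≤ 4 ^ n := one_le_pow₀ (by norm_num)
    have e3 : (1 : ℝ) ≤ (4 ^ n + 1) ^ S := one_le_pow₀ (by linarith)
    exact one_le_mul_of_one_le_of_one_le e1 (one_le_mul_of_one_le_of_one_le e2 e3)
  have h7 : 2 * ((n + 1) * ((4 : ℝ) ^ n * (4 ^ n + 1) ^ S)) + 1 ≤
      Real.exp (2 + 3 * n + (2 * n + 1) * S) := by
    calc (2 : ℝ) * ((n + 1) * (4 ^ n * (4 ^ n + 1) ^ S)) + 1 ≤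
          4 * ((n + 1) * (4 ^ n * (4 ^ n + 1) ^ S)) := by linarith
      _ ≤ Real.exp 2 * (Real.exp n * (Real.exp (2 * n) * Real.exp (2 * n + 1) ^ S)) := by
          refine mul_le_mul h4 ?_ (by positivity) (by positivity)
          refine mul_le_mul (Real.add_one_le_exp _) ?_ (by positivity) (by positivity)
          refine mul_le_mul h4n ?_ (by positivity) (by positivity)
          exact pow_le_pow_left₀ (by positivity) h5 S
      _ = _ := by
          rw [← Real.exp_nat_mul, ← Real.exp_add, ← Real.exp_add, ← Real.exp_add]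
          congr 1
          ring
  calc Real.log (2 * ((n + 1) * ((4 : ℝ) ^ n * (4 ^ n + 1) ^ S)) + 1) ≤
        Real.log (Real.exp (2 + 3 * n + (2 * n + 1) * S)) :=
          Real.log_le_log (by positivity) h7
    _ = _ := Real.log_exp _

theorem card_ev (n S : ℕ) : (Fintype.card (Bool × Option (Fin n) × Finset (Fin n × Bool) ×
      (Fin S → Option (Finset (Fin n × Bool)))) : ℝ) =
      2 * ((n + 1) * (4 ^ n * (4 ^ n + 1) ^ S)) := by
  rw [Fintype.card_prod, Fintype.card_prod, Fintype.card_prod, Fintype.card_bool,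
    Fintype.card_option, Fintype.card_fin, Fintype.card_fun, Fintype.card_option,
    Fintype.card_finset, Fintype.card_prod, Fintype.card_fin, Fintype.card_bool,
    Fintype.card_fin]
  push_cast
  have : (2 : ℝ) ^ (n * 2) = 4 ^ n := by rw [mul_comm, pow_mul]; norm_num
  rw [this]

open Classical in
theorem gen (hU : S_UC) (n m b : ℕ) (Λ : Type) (L : Finset Λ) (Ev : Λ → Cube n → Prop) (τ K : ℝ)
    (hb : 1 ≤ b) (hτ : 0 < τ) (hK : Real.log ((L.card : ℝ) + 1) ≤ K)
    (hm : 8 * (K + 2 * b) ≤ m * τ ^ 2) (Gd : (Fin m → Cube n) → Prop)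
    (hG : ∀ X, (∀ l ∈ L, |((univ.filter fun j => Ev l (X j)).card : ℝ) - m * PP (Ev l)| ≤ m * τ) →
      Gd X) :
    (1 - 1 / (b : ℝ)) * (Fintype.card (Fin m → Cube n) : ℝ) ≤
    ((univ.filter fun X : Fin m → Cube n => Gd X).card : ℝ) := by
  have hlb : Real.log (2 * (b : ℝ)) ≤ 2 * b := by
    have hb0 : (0 : ℝ) < b := by exact_mod_cast hb
    have := Real.log_le_sub_one_of_pos (show (0 : ℝ) < 2 * b by positivity)
    linarith
  have h := hU n m b Λ L Ev τ hb hτ (by linarith)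
  refine h.trans (Nat.cast_le.2 (card_le_card fun X hX => ?_))
  exact mem_filter.2 ⟨mem_univ _, hG X (mem_filter.1 hX).2⟩

end SampsL

theorem samps (hU : S_UC) : S_SAMPS := by
  intro n m b S f τ hb hτ hm
  refine SampsL.gen hU n m b _ univ (EvS f) τ (2 + 3 * n + (2 * n + 1) * S) hb hτ ?_ hm
    (fun X => GoodS S X f τ) fun X hX l => hX l (mem_univ l)
  rw [card_univ, SampsL.card_ev]
  exact SampsL.num n S

end Pool.Agent.Helper91K9.SP
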