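import Pool.Agent.Helper91K9.SP.Fam2

/-!
# Detection of a term in one direction
-/

set_option autoImplicit false

namespace Pool.Agent.Helper91K9.SP

open Finset Pool.Agent.Helper91K9.DL

namespace SigL

variable {n : ℕ} {ι : Type}

theorem flp_self (v : Fin n) (x : Cube n) : flp v x v = !x v := by
  classical
  simp [flp]

theorem flp_ne {v w : Fin n} (h : w ≠ v) (x : Cube n) : flp v x w = x w := by
  classical
  simp [flp, h]

theorem flp_flp (v : Fin n) (x : Cube n) : flp v (flp v x) = x := by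
  funext w
  by_cases h : w = v
  · rw [h, flp_self, flp_self, Bool.not_not]
  · rw [flp_ne h, flp_ne h]

theorem PP_flp (v : Fin n) (p : Cube n → Prop) : PP (fun x => p (flp v x)) = PP p := by
  classical
  rw [PP_eq, PP_eq]
  congr 1
  norm_cast
  refine card_bij' (fun x _ => flp v x) (fun x _ => flp v x) ?_ ?_ ?_ ?_
  · intro x hx
    simpa only [mem_filter, mem_univ, true_and] using hx
  · intro x hx
    simp only [mem_filter, mem_univ, true_and] at hx ⊢
    rwa [flp_flp]
  · intro x _; exact flp_flp v x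
  · intro x _; exact flp_flp v x

theorem PP_split (p q : Cube n → Prop) :
    PP p = PP (fun x => p x ∧ q x) + PP (fun x => p x ∧ ¬ q x) := by
  have h := PP_and_not p q
  rw [h, PP_congr (p := fun x => q x ∧ p x) (q := fun x => p x ∧ q x) (fun x => and_comm)]
  ring

/-- The main event. -/
def E1 (f h : Cube n → Prop) (v : Fin n) (s : Bool) (γ : Finset (Fin n × Bool)) (x : Cube n) :
    Prop := x v = s ∧ f x ∧ ¬ f (flp v x) ∧ ¬ h x ∧ ¬ h (flp v x) ∧ satL γ x

/-- The opposite event. -/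
def E2 (f h : Cube n → Prop) (v : Fin n) (s : Bool) (γ : Finset (Fin n × Bool)) (x : Cube n) :
    Prop := x v = s ∧ ¬ f x ∧ f (flp v x) ∧ ¬ h x ∧ ¬ h (flp v x) ∧ satL γ x

theorem satL_flp {γ : Finset (Fin n × Bool)} {v : Fin n} (hv : ∀ l ∈ γ, l.1 ≠ v) (x : Cube n) :
    satL γ (flp v x) ↔ satL γ x := by
  unfold satL
  exact forall₂_congr fun l hl => by rw [flp_ne (hv l hl)]

theorem DD_eq (f h : Cube n → Prop) (v : Fin n) (s : Bool) (γ : Finset (Fin n × Bool))
    (hv : ∀ l ∈ γ, l.1 ≠ v) :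
    DD f h v s γ = PP (E1 f h v s γ) - PP (E2 f h v s γ) := by
  unfold DD
  have e1 : PP (fun x => ¬ f x ∧ ¬ h x ∧ ¬ h (flp v x) ∧ satL γ x ∧ x v = !s) =
      PP (fun x => x v = s ∧ ¬ f (flp v x) ∧ ¬ h x ∧ ¬ h (flp v x) ∧ satL γ x) := by
    rw [← PP_flp v]
    refine PP_congr fun x => ?_
    rw [flp_flp, satL_flp hv, flp_self]
    have : ((!x v) = !s) ↔ x v = s := by cases x v <;> cases s <;> simp
    rw [this]
    tauto
  rw [e1, PP_split (fun x => x v = s ∧ ¬ f (flp v x) ∧ ¬ h x ∧ ¬ h (flp v x) ∧ satL γ x) f,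
    PP_split (fun x => ¬ f x ∧ ¬ h x ∧ ¬ h (flp v x) ∧ satL γ x ∧ x v = s)
      (fun x => f (flp v x))]
  have a1 : PP (fun x => (x v = s ∧ ¬ f (flp v x) ∧ ¬ h x ∧ ¬ h (flp v x) ∧ satL γ x) ∧ f x) =
      PP (E1 f h v s γ) := PP_congr fun x => by unfold E1; tauto
  have a2 : PP (fun x => (¬ f x ∧ ¬ h x ∧ ¬ h (flp v x) ∧ satL γ x ∧ x v = s) ∧ f (flp v x)) =
      PP (E2 f h v s γ) := PP_congr fun x => by unfold E2; tauto
  have a3 : PP (fun x => (x v = s ∧ ¬ f (flp v x) ∧ ¬ h x ∧ ¬ h (flp v x) ∧ satL γ x) ∧ ¬ f x) =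
      PP (fun x => (¬ f x ∧ ¬ h x ∧ ¬ h (flp v x) ∧ satL γ x ∧ x v = s) ∧ ¬ f (flp v x)) :=
    PP_congr fun x => by tauto
  rw [a1, a2, a3]
  ring

theorem choice {α β : Type} (b₀ : β) (S : α → Finset β) (K : Finset α)
    (h : ∀ k ∈ K, K.card ≤ (S k).card) :
    ∃ f : α → β, (∀ k ∈ K, f k ∈ S k) ∧ ∀ k ∈ K, ∀ l ∈ K, f k = f l → k = l := by
  classical
  induction K using Finset.induction_on with
  | empty => exact ⟨fun _ => b₀, by simp, by simp⟩
  | insert k₀ K hk ih =>
    obtain ⟨f, hf, hi⟩ := ih fun k hk' => by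
      have := h k (mem_insert_of_mem hk')
      rw [card_insert_of_notMem hk] at this
      omega
    have h0 := h k₀ (mem_insert_self _ _)
    rw [card_insert_of_notMem hk] at h0
    have h1 : (K.image f).card < (S k₀).card := lt_of_le_of_lt card_image_le (by omega)
    obtain ⟨b, hb1, hb2⟩ := exists_mem_notMem_of_card_lt_card h1
    have hb3 : ∀ k ∈ K, f k ≠ b := fun k hk' e => hb2 (mem_image.2 ⟨k, hk', e⟩)
    have hne : ∀ k ∈ K, k ≠ k₀ := fun k hk' e => hk (e ▸ hk')
    refine ⟨Function.update f k₀ b, ?_, ?_⟩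
    · intro k hk'
      rcases mem_insert.1 hk' with rfl | h2
      · simpa using hb1
      · rw [Function.update_of_ne (hne k h2)]; exact hf k h2
    · intro k hk' l hl' e
      rcases mem_insert.1 hk' with rfl | h2 <;> rcases mem_insert.1 hl' with rfl | h3
      · rfl
      · rw [Function.update_self, Function.update_of_ne (hne l h3)] at e
        exact absurd e.symm (hb3 l h3)
      · rw [Function.update_self, Function.update_of_ne (hne k h2)] at e
        exact absurd e (hb3 k h2)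
      · rw [Function.update_of_ne (hne k h2), Function.update_of_ne (hne l h3)] at e
        exact hi k h2 l h3 e

theorem agr_flp_of_notMem {S : Finset (Fin n)} {v : Fin n} (hv : v ∉ S) (b x : Cube n) :
    agr S b (flp v x) ↔ agr S b x := by
  unfold agr
  refine forall₂_congr fun w hw => ?_
  rw [flp_ne (fun e : w = v => hv (by rwa [← e]))]

theorem low (U V : Finset (Fin n)) (z₀ w : Cube n) (G h hU E : Cube n → Prop) (v : Fin n)
    (q ζ : ℝ) (hv : v ∈ U) (hV : Disjoint V U)
    (hG : ∀ x y, (∀ w, w ∉ U → x w = y w) → (G x ↔ G y))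
    (hq : q * (1 / 2) ^ V.card ≤ PP (fun x => G x ∧ agr V w x))
    (hζ : PP (fun x => G x ∧ h x ∧ ¬ hU x) ≤ ζ * (1 / 2) ^ U.card)
    (hE : ∀ x, agr U z₀ x → G x → agr V w x →
      ¬ hU x ∧ ¬ hU (flp v x) ∧ (¬ h x → ¬ h (flp v x) → E x)) :
    (1 / 2) ^ U.card * (q * (1 / 2) ^ V.card - 2 * ζ) ≤ PP E := by
  have h1 : PP (fun x => agr U z₀ x ∧ (G x ∧ agr V w x)) =
      (1 / 2) ^ U.card * PP (fun x => G x ∧ agr V w x) := by
    rw [indep U (agr U z₀) (fun x => G x ∧ agr V w x), PP_agr]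
    · intro x y hxy
      unfold agr
      exact forall₂_congr fun a ha => by rw [hxy a ha]
    · intro x y hxy
      have h2 : agr V w x ↔ agr V w y := by
        unfold agr
        refine forall₂_congr fun a ha => ?_
        rw [hxy a (disjoint_left.1 hV ha)]
      rw [hG x y hxy, h2]
  have hGf : ∀ x, G (flp v x) ↔ G x := fun x =>
    hG _ _ fun a ha => flp_ne (fun e : a = v => ha (by rwa [e])) x
  have h3 : PP (fun x => agr U z₀ x ∧ (G x ∧ agr V w x)) ≤ PP (fun x => E x ∨
      ((G x ∧ h x ∧ ¬ hU x) ∨ (G (flp v x) ∧ h (flp v x) ∧ ¬ hU (flp v x)))) := by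
    refine PP_mono fun x hx => ?_
    obtain ⟨a1, a2, a3⟩ := hE x hx.1 hx.2.1 hx.2.2
    by_cases c1 : h x
    · exact Or.inr (Or.inl ⟨hx.2.1, c1, a1⟩)
    · by_cases c2 : h (flp v x)
      · exact Or.inr (Or.inr ⟨(hGf x).2 hx.2.1, c2, a2⟩)
      · exact Or.inl (a3 c1 c2)
  have h4 := PP_or_le E (fun x => (G x ∧ h x ∧ ¬ hU x) ∨
    (G (flp v x) ∧ h (flp v x) ∧ ¬ hU (flp v x)))
  have h5 := PP_or_le (fun x => G x ∧ h x ∧ ¬ hU x)
    (fun x => G (flp v x) ∧ h (flp v x) ∧ ¬ hU (flp v x))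
  have h6 := PP_flp v (fun x => G x ∧ h x ∧ ¬ hU x)
  have h7 : (1 / 2 : ℝ) ^ U.card * (q * (1 / 2) ^ V.card) ≤
      (1 / 2) ^ U.card * PP (fun x => G x ∧ agr V w x) :=
    mul_le_mul_of_nonneg_left hq (by positivity)
  rw [h1] at h3
  rw [h6] at h5
  have h8 : (1 / 2 : ℝ) ^ U.card * (q * (1 / 2) ^ V.card) ≤ PP E + 2 * (ζ * (1 / 2) ^ U.card) := by
    linarith
  linarith

/-- The terms which change at `x` in the direction `v`. -/
theorem chg {T : Finset (Fin n)} {b x : Cube n} {v : Fin n}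
    (h : ¬ (agr T b x ↔ agr T b (flp v x))) : v ∈ T := by
  by_contra hv
  exact h (agr_flp_of_notMem hv b x).symm

theorem sub_un {J : Finset ι} {T : ι → Finset (Fin n)} {j : ι} (hj : j ∈ J) : T j ⊆ un J T := by
  classical
  unfold un
  exact subset_biUnion_of_mem T hj

theorem un_mono {I J : Finset ι} {T : ι → Finset (Fin n)} (h : J ⊆ I) : un J T ⊆ un I T := by
  classical
  unfold un
  exact biUnion_subset_biUnion_of_subset_left T h

/-- A term which is satisfied at exactly one of the points `x` and `flp v x` is a term of the cluster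
which is satisfied at `z₀`, or has the exit `v`. -/
def Kill (I J : Finset ι) (T : ι → Finset (Fin n)) (a : ι → Cube n) (O : Fin n → ι → Prop)
    (v : Fin n) (z₀ x : Cube n) : Prop :=
  ∀ k ∈ I, v ∈ T k → (agr (T k) (a k) x ∨ agr (T k) (a k) (flp v x)) →
    ¬ O v k ∨ (k ∈ J ∧ agr (T k) (a k) z₀)

open Classical in
theorem rs_ge (I : Finset ι) (T : ι → Finset (Fin n)) (a : ι → Cube n) (O : Fin n → ι → Prop)
    (h : Cube n → Prop) (v : Fin n) :
    PP (fun x => ∃ k ∈ I.filter (fun k => v ∈ T k ∧ ¬ O v k), agr (T k) (a k) x ∧ ¬ h x) ≤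
      rs I T a O h v := by
  unfold rs
  exact PP_exists_le _ _

theorem E2_le (I J : Finset ι) (T : ι → Finset (Fin n)) (a : ι → Cube n) (O : Fin n → ι → Prop)
    (h : Cube n → Prop) (v : Fin n) (z₀ : Cube n) (γ : Finset (Fin n × Bool))
    (hk : ∀ x, satL γ x → Kill I J T a O v z₀ x) :
    PP (E2 (fun x => ¬ miss I T a x) h v (z₀ v) γ) ≤ rs I T a O h v := by
  classical
  refine le_trans ?_ (rs_ge I T a O h v)
  rw [← PP_flp v (fun x => ∃ k ∈ I.filter (fun k => v ∈ T k ∧ ¬ O v k), agr (T k) (a k) x ∧ ¬ h x)]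
  refine PP_mono fun x hx => ?_
  obtain ⟨h1, h2, h3, h4, h5, h6⟩ := hx
  rw [not_not] at h2
  unfold miss at h3
  push Not at h3
  obtain ⟨k, hkI, hk3⟩ := h3
  have hvk : v ∈ T k := chg (b := a k) (x := x) fun e => h2 k hkI (e.2 hk3)
  rcases hk x h6 k hkI hvk (Or.inr hk3) with h7 | ⟨h7, h8⟩
  · exact ⟨k, mem_filter.2 ⟨hkI, hvk, h7⟩, hk3, h5⟩
  · exfalso
    have e1 := h8 v hvk
    have e2 := hk3 v hvk
    rw [flp_self, h1, e1] at e2
    cases hh : a k v <;> simp [hh] at e2

theorem E1_le (I J : Finset ι) (T : ι → Finset (Fin n)) (a : ι → Cube n) (O : Fin n → ι → Prop)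
    (h : Cube n → Prop) (v : Fin n) (z₀ : Cube n) (γ : Finset (Fin n × Bool))
    (hk : ∀ x, satL γ x → Kill I J T a O v z₀ x) :
    PP (E1 (fun x => ¬ miss I T a x) h v (z₀ v) γ) ≤ rs I T a O h v +
      PP (fun x => ∃ j ∈ J, agr (T j) (a j) z₀ ∧ agr (T j) (a j) x ∧ satL γ x) := by
  classical
  refine le_trans ?_ (add_le_add_left (rs_ge I T a O h v) _)
  refine le_trans (PP_mono fun x hx => ?_) (PP_or_le _ _)
  obtain ⟨h1, h2, h3, h4, h5, h6⟩ := hx
  rw [not_not] at h3
  unfold miss at h2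
  push Not at h2
  obtain ⟨k, hkI, hk3⟩ := h2
  have hvk : v ∈ T k := chg (b := a k) (x := x) fun e => h3 k hkI (e.1 hk3)
  rcases hk x h6 k hkI hvk (Or.inl hk3) with h7 | ⟨h7, h8⟩
  · exact Or.inl ⟨k, mem_filter.2 ⟨hkI, hvk, h7⟩, hk3, h4⟩
  · exact Or.inr ⟨k, h7, h8, hk3, h6⟩

/-- The term `i` in the direction `v` at the point `z₀` can be isolated by a set of literals. -/
theorem exists_gam (I J : Finset ι) (T : ι → Finset (Fin n)) (a : ι → Cube n)
    (O : Fin n → ι → Prop) (i : ι) (d u g : ℕ) (z₀ : Cube n) (hS : Sps I T O d)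
    (hC : Clo I J T i d u g) (hdu : d ≤ u) (v : Fin n) (hv : v ∈ T i)
    (hbad : ∀ j ∈ J, ¬ agr (T j) (a j) z₀ → ¬ agr (T j) (a j) (flp v z₀)) :
    ∃ (γ : Finset (Fin n × Bool)) (V : Finset (Fin n)) (w : Cube n),
      γ.card ≤ 2 * d * u + (2 * d + 1) + d ∧ V.card ≤ d ∧ Disjoint V (un J T) ∧
      (∀ l ∈ γ, l.1 ≠ v ∧ l.1 ∈ un I T) ∧ (∀ x, satL γ x → Kill I J T a O v z₀ x) ∧
      ∀ x, agr (un J T) z₀ x → agr V w x → satL γ x := by
  classical
  have hvU : v ∈ un J T := sub_un hC.mem hv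
  -- the second kind of literals
  have h2 : ∀ j : ι, ∃ w : Fin n, j ∈ J → ¬ agr (T j) (a j) z₀ →
      w ∈ T j ∧ w ≠ v ∧ z₀ w ≠ a j w := by
    intro j
    by_cases hj : j ∈ J ∧ ¬ agr (T j) (a j) z₀
    · obtain ⟨hj1, hj2⟩ := hj
      have h3 := hbad j hj1 hj2
      have h4 := hj2
      unfold agr at h3 h4
      push Not at h3 h4
      obtain ⟨w, hw1, hw2⟩ := h3
      by_cases hwv : w = v
      · subst hwv
        rw [flp_self] at hw2
        obtain ⟨w', hw3, hw4⟩ := h4
        refine ⟨w', fun _ _ => ⟨hw3, ?_, hw4⟩⟩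
        rintro rfl
        revert hw2 hw4
        cases z₀ w' <;> cases a j w' <;> simp
      · rw [flp_ne hwv] at hw2
        exact ⟨w, fun _ _ => ⟨hw1, hwv, hw2⟩⟩
    · exact ⟨v, fun h1 h2 => absurd ⟨h1, h2⟩ hj⟩
  choose e he using h2
  -- the third kind
  let Kv : Finset ι := (I \ J).filter fun k => v ∈ T k ∧ O v k
  have hKc : Kv.card ≤ d := le_trans (card_le_card fun k hk => by
    simp only [Kv, mem_filter, mem_sdiff] at hk
    exact mem_filter.2 ⟨hk.1.1, hk.2⟩) (hS.own v)
  obtain ⟨f, hf, hfi⟩ := choice v (fun k => T k \ un J T) Kv fun k hk => by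
    simp only [Kv, mem_filter, mem_sdiff] at hk
    have := hC.far k hk.1.1 hk.1.2
    omega
  have hf1 : ∀ k ∈ Kv, f k ∈ T k := fun k hk => (mem_sdiff.1 (hf k hk)).1
  have hf2 : ∀ k ∈ Kv, f k ∉ un J T := fun k hk => (mem_sdiff.1 (hf k hk)).2
  let w : Cube n := fun y => if h : ∃ k ∈ Kv, f k = y then !a h.choose y else false
  have hw : ∀ k ∈ Kv, w (f k) = !a k (f k) := by
    intro k hk
    have hex : ∃ k' ∈ Kv, f k' = f k := ⟨k, hk, rfl⟩
    have h1 : hex.choose = k := hfi _ hex.choose_spec.1 _ hk hex.choose_spec.2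
    simp only [w]
    rw [dif_pos hex, h1]
  refine ⟨(un J T \ T i).image (fun y => (y, z₀ y)) ∪
    ((J.filter fun j => ¬ agr (T j) (a j) z₀).image (fun j => (e j, z₀ (e j))) ∪
    Kv.image fun k => (f k, !a k (f k))), Kv.image f, w, ?_, ?_, ?_, ?_, ?_, ?_⟩
  · refine (card_union_le _ _).trans ?_
    have c1 := (card_image_le (s := un J T \ T i) (f := fun y => (y, z₀ y))).trans hC.small
    have c2 := (card_union_le ((J.filter fun j => ¬ agr (T j) (a j) z₀).image
      (fun j => (e j, z₀ (e j)))) (Kv.image fun k => (f k, !a k (f k))))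
    have c3 : ((J.filter fun j => ¬ agr (T j) (a j) z₀).image
      (fun j => (e j, z₀ (e j)))).card ≤ 2 * d + 1 :=
      card_image_le.trans ((card_filter_le _ _).trans hC.card)
    have c4 : (Kv.image fun k => (f k, !a k (f k))).card ≤ d := card_image_le.trans hKc
    omega
  · exact card_image_le.trans hKc
  · rw [disjoint_left]
    intro y hy
    obtain ⟨k, hk, rfl⟩ := mem_image.1 hy
    exact hf2 k hk
  · intro l hl
    rcases mem_union.1 hl with hl | hl
    · obtain ⟨y, hy, rfl⟩ := mem_image.1 hl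
      rw [mem_sdiff] at hy
      exact ⟨fun e => hy.2 (by rw [show y = v from e]; exact hv), un_mono hC.sub hy.1⟩
    · rcases mem_union.1 hl with hl | hl
      · obtain ⟨j, hj, rfl⟩ := mem_image.1 hl
        rw [mem_filter] at hj
        obtain ⟨g1, g2, g3⟩ := he j hj.1 hj.2
        exact ⟨g2, un_mono hC.sub (sub_un hj.1 g1)⟩
      · obtain ⟨k, hk, rfl⟩ := mem_image.1 hl
        refine ⟨fun e => hf2 k hk (by rw [show f k = v from e]; exact hvU), ?_⟩
        have : k ∈ I := by
          simp only [Kv, mem_filter, mem_sdiff] at hk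
          exact hk.1.1
        exact sub_un this (hf1 k hk)
  · intro x hx k hkI hvk hag
    by_contra hcon
    push Not at hcon
    obtain ⟨hO, hcon⟩ := hcon
    by_cases hkJ : k ∈ J
    · have h3 := hcon hkJ
      obtain ⟨g1, g2, g3⟩ := he k hkJ h3
      have g4 := hx (e k, z₀ (e k)) (mem_union_right _ (mem_union_left _
        (mem_image.2 ⟨k, mem_filter.2 ⟨hkJ, h3⟩, rfl⟩)))
      simp only at g4
      rcases hag with h5 | h5
      · exact g3 (g4.symm.trans (h5 _ g1))
      · have := h5 _ g1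
        rw [flp_ne g2] at this
        exact g3 (g4.symm.trans this)
    · have hkK : k ∈ Kv := by
        simp only [Kv, mem_filter, mem_sdiff]
        exact ⟨⟨hkI, hkJ⟩, hvk, hO⟩
      have g4 := hx (f k, !a k (f k)) (mem_union_right _ (mem_union_right _
        (mem_image.2 ⟨k, hkK, rfl⟩)))
      simp only at g4
      have hne : f k ≠ v := fun e => hf2 k hkK (by rw [e]; exact hvU)
      rcases hag with h5 | h5
      · have := h5 _ (hf1 k hkK)
        rw [g4] at this
        cases hh : a k (f k) <;> simp [hh] at this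
      · have := h5 _ (hf1 k hkK)
        rw [flp_ne hne, g4] at this
        cases hh : a k (f k) <;> simp [hh] at this
  · intro x h1 h3 l hl
    rcases mem_union.1 hl with hl | hl
    · obtain ⟨y, hy, rfl⟩ := mem_image.1 hl
      rw [mem_sdiff] at hy
      exact h1 y hy.1
    · rcases mem_union.1 hl with hl | hl
      · obtain ⟨j, hj, rfl⟩ := mem_image.1 hl
        rw [mem_filter] at hj
        exact h1 _ (sub_un hj.1 (he j hj.1 hj.2).1)
      · obtain ⟨k, hk, rfl⟩ := mem_image.1 hl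
        have := h3 (f k) (mem_image.2 ⟨k, hk, rfl⟩)
        rw [hw k hk] at this
        exact this

theorem sdiff_card {I J : Finset ι} {T : ι → Finset (Fin n)} {i : ι} {d u g : ℕ}
    (hC : Clo I J T i d u g) {j : ι} (hj : j ∈ J) : (T i \ T j).card ≤ g + 2 * d * u := by
  classical
  have h1 : (T j \ T i).card ≤ 2 * d * u :=
    (card_le_card (sdiff_subset_sdiff (sub_un hj) le_rfl)).trans hC.small
  have h2 := card_sdiff_add_card (T i) (T j)
  have h3 := card_sdiff_add_card (T j) (T i)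
  rw [union_comm] at h3
  have h4 := hC.big j hj
  omega

open Classical in
theorem bad_card (S : Finset (Fin n)) (b z : Cube n) :
    (univ.filter fun w => ¬ agr S b z ∧ agr S b (flp w z)).card ≤ 1 := by
  rw [card_le_one]
  intro w hw w' hw'
  simp only [mem_filter, mem_univ, true_and] at hw hw'
  obtain ⟨h1, h2⟩ := hw
  obtain ⟨-, h3⟩ := hw'
  unfold agr at h1
  push Not at h1
  obtain ⟨p, hp, hpne⟩ := h1
  have e1 : p = w := by
    by_contra h
    have := h2 p hp
    rw [flp_ne h] at this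
    exact hpne this
  have e2 : p = w' := by
    by_contra h
    have := h3 p hp
    rw [flp_ne h] at this
    exact hpne this
  rw [← e1, ← e2]

theorem Gs_congr (I J : Finset ι) (T : ι → Finset (Fin n)) (a : ι → Cube n) (x y : Cube n)
    (h : ∀ w, w ∉ un J T → x w = y w) : Gs I J T a x ↔ Gs I J T a y := by
  classical
  unfold Gs
  refine forall₂_congr fun k _ => forall_congr' fun _ => not_congr ?_
  unfold agr
  refine forall₂_congr fun w hw => ?_
  rw [h w (mem_sdiff.1 hw).2]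

/-- The event at a point which agrees with `z₀` on the variables of the cluster. -/
theorem event (I J : Finset ι) (T : ι → Finset (Fin n)) (a : ι → Cube n)
    (i : ι) (h hU : Cube n → Prop) (z₀ : Cube n) (hJI : J ⊆ I) (hi : i ∈ J)
    (hU1 : ∀ x y, agr (un J T) x y → (hU x ↔ hU y))
    (hU2 : ∀ x, hU x → ∃ j ∈ J, agr (T j) (a j) x)
    (hz : agr (T i) (a i) z₀) (hz2 : ¬ hU z₀) (v : Fin n) (hv : v ∈ T i)
    (hX : ∀ j ∈ J, agr (T j) (a j) z₀ → v ∈ T j)
    (hbad : ∀ j ∈ J, ¬ agr (T j) (a j) z₀ → ¬ agr (T j) (a j) (flp v z₀))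
    (γ : Finset (Fin n × Bool)) (x : Cube n) (hx : agr (un J T) z₀ x) (hG : Gs I J T a x)
    (hγ : satL γ x) : ¬ hU x ∧ ¬ hU (flp v x) ∧
      (¬ h x → ¬ h (flp v x) → E1 (fun x => ¬ miss I T a x) h v (z₀ v) γ x) := by
  classical
  have hvU : v ∈ un J T := sub_un hi hv
  have hno : ∀ j ∈ J, ¬ agr (T j) (a j) (flp v x) := by
    intro j hj hag
    have h1 : agr (T j) (a j) (flp v z₀) := by
      intro w hw
      have h2 := hag w hw
      by_cases hwv : w = v
      · subst hwv
        rw [flp_self] at h2 ⊢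
        rw [hx w hvU] at h2
        exact h2
      · rw [flp_ne hwv] at h2 ⊢
        rw [hx w (sub_un hj hw)] at h2
        exact h2
    by_cases h3 : agr (T j) (a j) z₀
    · have h4 := hX j hj h3
      have h5 := h1 v h4
      have h6 := h3 v h4
      rw [flp_self, h6] at h5
      cases hh : a j v <;> simp [hh] at h5
    · exact hbad j hj h3 h1
  refine ⟨fun hh => hz2 ((hU1 z₀ x hx).2 hh), fun hh => ?_, fun c1 c2 => ?_⟩
  · obtain ⟨j, hj, hag⟩ := hU2 _ hh
    exact hno j hj hag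
  · refine ⟨hx v hvU, ?_, ?_, c1, c2, hγ⟩
    · intro hm
      exact hm i (hJI hi) fun w hw => (hx w (sub_un hi hw)).trans (hz w hw)
    · rw [not_not]
      intro k hk hag
      by_cases hkJ : k ∈ J
      · exact hno k hkJ hag
      · refine hG k hk hkJ fun w hw => ?_
        rw [mem_sdiff] at hw
        have := hag w hw.1
        rwa [flp_ne (fun e : w = v => hw.2 (by rwa [e]))] at this

end SigL

open SigL in
theorem sig : S_SIG := by
  classical
  intro d u g q hq hdu
  obtain ⟨θ, hθ⟩ : ∃ θ : ℝ, θ = q * (1 / 2) ^ (2 * d * u + d + 3) := ⟨_, rfl⟩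
  have hθ0 : 0 < θ := by rw [hθ]; positivity
  obtain ⟨K, hK⟩ : ∃ K : ℕ, K = ⌈4 * (2 * (d : ℝ) + 1) * 2 ^ g / θ⌉₊ + 1 := ⟨_, rfl⟩
  have hK1 : 1 ≤ K := by omega
  have hKr : (1 : ℝ) ≤ K := by exact_mod_cast hK1
  have hKθ : 4 * (2 * (d : ℝ) + 1) * 2 ^ g + θ ≤ K * θ := by
    have h1 := Nat.le_ceil (4 * (2 * (d : ℝ) + 1) * 2 ^ g / θ)
    rw [div_le_iff₀ hθ0] at h1
    rw [hK]
    push_cast
    linarith
  obtain ⟨κ, hκ⟩ : ∃ κ : ℝ, κ = θ / (4 * K) := ⟨_, rfl⟩
  have hκ0 : 0 < κ := by rw [hκ]; positivity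
  have hκ1 : 4 * K * κ = θ := by
    rw [hκ]; field_simp
  have hκ2 : 4 * κ ≤ θ := by
    rw [← hκ1]
    nlinarith
  obtain ⟨ζ, hζe⟩ : ∃ ζ : ℝ, ζ = q * (1 / 2) ^ (d + 4) := ⟨_, rfl⟩
  refine ⟨2 * d + 2 * d * u + (2 * d + 1) * (g + 2 * d * u) + (2 * d + 1) * 1,
    2 * d * u + (2 * d + 1) + d, K, κ, θ, ζ, hK1, hκ0, hθ0, by rw [hζe]; positivity, ?_⟩
  intro n ι I J T a O i h hU z₀ hS hC hGs hU1 hU2 hζ hz hz2
  have hiI : i ∈ I := hC.sub hC.mem
  refine ⟨(T i).filter fun v => O v i ∧ (∀ j ∈ J, agr (T j) (a j) z₀ → v ∈ T j) ∧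
    ∀ j ∈ J, ¬ agr (T j) (a j) z₀ → ¬ agr (T j) (a j) (flp v z₀), filter_subset _ _, ?_, ?_⟩
  · -- the number of the bad directions
    have hcov : T i ⊆ ((T i).filter fun v => O v i ∧ (∀ j ∈ J, agr (T j) (a j) z₀ → v ∈ T j) ∧
        ∀ j ∈ J, ¬ agr (T j) (a j) z₀ → ¬ agr (T j) (a j) (flp v z₀)) ∪
        (((T i).filter fun v => ¬ O v i) ∪ (J.biUnion (fun j => T i \ T j) ∪
          J.biUnion fun j => univ.filter fun w =>
            ¬ agr (T j) (a j) z₀ ∧ agr (T j) (a j) (flp w z₀))) := by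
      intro v hv
      simp only [mem_union, mem_filter, mem_biUnion, mem_sdiff, mem_univ, true_and]
      by_cases c1 : O v i
      · by_cases c2 : ∀ j ∈ J, agr (T j) (a j) z₀ → v ∈ T j
        · by_cases c3 : ∀ j ∈ J, ¬ agr (T j) (a j) z₀ → ¬ agr (T j) (a j) (flp v z₀)
          · exact Or.inl ⟨hv, c1, c2, c3⟩
          · push Not at c3
            obtain ⟨j, hj, h1, h2⟩ := c3
            exact Or.inr (Or.inr (Or.inr ⟨j, hj, h1, h2⟩))
        · push Not at c2
          obtain ⟨j, hj, h1, h2⟩ := c2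
          exact Or.inr (Or.inr (Or.inl ⟨j, hj, hv, h2⟩))
      · exact Or.inr (Or.inl ⟨hv, c1⟩)
    have b1 := card_le_card hcov
    have b2 := card_union_le ((T i).filter fun v => O v i ∧
      (∀ j ∈ J, agr (T j) (a j) z₀ → v ∈ T j) ∧
        ∀ j ∈ J, ¬ agr (T j) (a j) z₀ → ¬ agr (T j) (a j) (flp v z₀))
        (((T i).filter fun v => ¬ O v i) ∪ (J.biUnion (fun j => T i \ T j) ∪
          J.biUnion fun j => univ.filter fun w =>
            ¬ agr (T j) (a j) z₀ ∧ agr (T j) (a j) (flp w z₀)))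
    have b3 := card_union_le ((T i).filter fun v => ¬ O v i) (J.biUnion (fun j => T i \ T j) ∪
          J.biUnion fun j => univ.filter fun w =>
            ¬ agr (T j) (a j) z₀ ∧ agr (T j) (a j) (flp w z₀))
    have b4 := card_union_le (J.biUnion (fun j => T i \ T j))
          (J.biUnion fun j => univ.filter fun w =>
            ¬ agr (T j) (a j) z₀ ∧ agr (T j) (a j) (flp w z₀))
    have b5 : (J.biUnion fun j => T i \ T j).card ≤ J.card * (g + 2 * d * u) :=
      card_biUnion_le_card_mul _ _ _ fun j hj => sdiff_card hC hj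
    have b6 : (J.biUnion fun j => univ.filter fun w =>
        ¬ agr (T j) (a j) z₀ ∧ agr (T j) (a j) (flp w z₀)).card ≤ J.card * 1 :=
      card_biUnion_le_card_mul _ _ _ fun j _ => bad_card _ _ _
    have b7 := hS.exit i hiI
    have b8 : J.card * (g + 2 * d * u) ≤ (2 * d + 1) * (g + 2 * d * u) :=
      Nat.mul_le_mul_right _ hC.card
    have b9 : J.card * 1 ≤ (2 * d + 1) * 1 := Nat.mul_le_mul_right _ hC.card
    omega
  · intro v hv
    rw [mem_filter] at hv
    obtain ⟨hvT, hO, hX, hbad⟩ := hv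
    refine ⟨hO, fun hrs => ?_⟩
    have hvU : v ∈ un J T := sub_un hC.mem hvT
    have hs : a i v = z₀ v := (hz v hvT).symm
    obtain ⟨γ, V, w₀, hγc, hVc, hVd, hγ1, hγ2, hγ3⟩ :=
      exists_gam I J T a O i d u g z₀ hS hC (by omega) v hvT hbad
    obtain ⟨t, ht⟩ : ∃ t : ℝ, t = (1 / 2) ^ (T i).card := ⟨_, rfl⟩
    have ht0 : 0 < t := by rw [ht]; positivity
    have hUc : (un J T).card ≤ (T i).card + 2 * d * u := by
      have h1 := card_sdiff_add_card (un J T) (T i)
      have h2 : (un J T).card ≤ (un J T ∪ T i).card := card_le_card subset_union_left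
      have h3 := hC.small
      omega
    have hUp : t * (1 / 2) ^ (2 * d * u) ≤ (1 / 2) ^ (un J T).card := by
      rw [ht, ← pow_add]
      exact pow_le_pow_of_le_one (by norm_num) (by norm_num) hUc
    -- the lower bound
    have LB : ∀ (γ' : Finset (Fin n × Bool)) (V' : Finset (Fin n)) (w' : Cube n),
        V'.card ≤ d + 1 → Disjoint V' (un J T) → (∀ l ∈ γ', l.1 ≠ v) →
        (∀ x, satL γ' x → Kill I J T a O v z₀ x) →
        (∀ x, agr (un J T) z₀ x → agr V' w' x → satL γ' x) →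
        θ * t ≤ DD (fun x => ¬ miss I T a x) h v (a i v) γ' := by
      intro γ' V' w' g1 g2 g3 g4 g5
      have l1 := low (un J T) V' z₀ w' (Gs I J T a) h hU
        (E1 (fun x => ¬ miss I T a x) h v (z₀ v) γ') v q ζ hvU g2
        (Gs_congr I J T a) (hGs V' w' (by omega) g2) hζ (fun x hx hG hw =>
          event I J T a i h hU z₀ hC.sub hC.mem hU1 hU2 hz hz2 v hvT hX hbad γ' x hx hG
            (g5 x hx hw))
      have l2 := E2_le I J T a O h v z₀ γ' g4
      rw [hs, DD_eq _ _ _ _ _ g3]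
      have n2 : (1 / 2 : ℝ) ^ (d + 1) ≤ (1 / 2) ^ V'.card :=
        pow_le_pow_of_le_one (by norm_num) (by norm_num) g1
      have n3 : 3 * (q * (1 / 2) ^ (d + 3)) ≤ q * (1 / 2) ^ V'.card - 2 * ζ := by
        rw [hζe]
        have n4 : q * (1 / 2 : ℝ) ^ (d + 1) ≤ q * (1 / 2) ^ V'.card :=
          mul_le_mul_of_nonneg_left n2 hq.le
        have n5 : (1 / 2 : ℝ) ^ (d + 1) = 4 * (1 / 2) ^ (d + 3) := by
          rw [pow_add, pow_add]; norm_num; ring
        have n6 : (1 / 2 : ℝ) ^ (d + 4) = (1 / 2) * (1 / 2) ^ (d + 3) := by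
          rw [pow_add, pow_add]; norm_num; ring
        rw [n5] at n4
        rw [n6]
        linarith
      have n7 : t * (1 / 2) ^ (2 * d * u) * (3 * (q * (1 / 2) ^ (d + 3))) ≤
          (1 / 2) ^ (un J T).card * (q * (1 / 2) ^ V'.card - 2 * ζ) :=
        mul_le_mul hUp n3 (by positivity) (by positivity)
      have n8 : t * (1 / 2) ^ (2 * d * u) * (3 * (q * (1 / 2) ^ (d + 3))) = 3 * (θ * t) := by
        rw [hθ, show 2 * d * u + d + 3 = 2 * d * u + (d + 3) by ring, pow_add (1 / 2 : ℝ)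
          (2 * d * u) (d + 3)]
        ring
      rw [← ht] at hrs
      have n9 : κ * t ≤ θ * t := mul_le_mul_of_nonneg_right (by linarith) ht0.le
      have n10 : 0 < θ * t := by positivity
      linarith
    have LB0 : θ * t ≤ DD (fun x => ¬ miss I T a x) h v (a i v) γ :=
      LB γ V w₀ (by omega) hVd (fun l hl => (hγ1 l hl).1) hγ2 hγ3
    -- the upper bound
    have UB : DD (fun x => ¬ miss I T a x) h v (a i v) γ ≤ ((2 * d + 1) * 2 ^ g + κ) * t := by
      rw [hs, DD_eq _ _ _ _ _ (fun l hl => (hγ1 l hl).1)]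
      have u1 := E1_le I J T a O h v z₀ γ hγ2
      have u2 := PP_nonneg (E2 (fun x => ¬ miss I T a x) h v (z₀ v) γ)
      have u3 : PP (fun x => ∃ j ∈ J, agr (T j) (a j) z₀ ∧ agr (T j) (a j) x ∧ satL γ x) ≤
          ∑ j ∈ J, PP (agr (T j) (a j)) :=
        le_trans (PP_mono fun x hx => by
          obtain ⟨j, hj, h1⟩ := hx
          exact ⟨j, hj, h1.2.1⟩) (PP_exists_le J fun j => agr (T j) (a j))
      have u4 : ∑ j ∈ J, PP (agr (T j) (a j)) ≤ ∑ j ∈ J, 2 ^ g * t := by
        refine sum_le_sum fun j hj => ?_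
        rw [PP_agr, ht]
        have e1 : (1 / 2 : ℝ) ^ ((T j).card + g) ≤ (1 / 2) ^ (T i).card :=
          pow_le_pow_of_le_one (by norm_num) (by norm_num) (hC.big j hj)
        have e2 : (1 / 2 : ℝ) ^ (T j).card = 2 ^ g * (1 / 2) ^ ((T j).card + g) := by
          rw [pow_add, mul_comm ((1 / 2 : ℝ) ^ (T j).card), ← mul_assoc, ← mul_pow]
          norm_num
        rw [e2]
        exact mul_le_mul_of_nonneg_left e1 (by positivity)
      rw [sum_const, nsmul_eq_mul] at u4
      have u5 : (J.card : ℝ) ≤ 2 * d + 1 := by exact_mod_cast hC.card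
      have u6 : (J.card : ℝ) * (2 ^ g * t) ≤ (2 * d + 1) * (2 ^ g * t) :=
        mul_le_mul_of_nonneg_right u5 (by positivity)
      rw [← ht] at hrs
      nlinarith
    refine ⟨γ, (T i).filter fun y => ∀ j ∈ J, agr (T j) (a j) z₀ → y ∈ T j,
      (un J T \ T i) ∪ V, hγc, hγ1, filter_subset _ _, ?_, ?_, ?_, ?_, ?_⟩
    · have c1 : T i \ ((T i).filter fun y => ∀ j ∈ J, agr (T j) (a j) z₀ → y ∈ T j) ⊆
          J.biUnion fun j => T i \ T j := by
        intro y hy
        simp only [mem_sdiff, mem_filter, mem_biUnion, not_and] at hy ⊢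
        have := hy.2 hy.1
        push Not at this
        obtain ⟨j, hj, h1, h2⟩ := this
        exact ⟨j, hj, hy.1, h2⟩
      have c2 := card_le_card c1
      have c3 : (J.biUnion fun j => T i \ T j).card ≤ J.card * (g + 2 * d * u) :=
        card_biUnion_le_card_mul _ _ _ fun j hj => sdiff_card hC hj
      have c4 : J.card * (g + 2 * d * u) ≤ (2 * d + 1) * (g + 2 * d * u) :=
        Nat.mul_le_mul_right _ hC.card
      omega
    · have c1 := card_union_le (un J T \ T i) V
      have c2 := hC.small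
      omega
    · rw [← ht]; exact LB0
    · intro y hy hyv
      rw [mem_filter] at hy
      have hnv : ∀ l ∈ insert (y, !a i y) γ, l.1 ≠ v := by
        intro l hl
        rcases mem_insert.1 hl with rfl | hl
        · exact hyv
        · exact (hγ1 l hl).1
      have hks : ∀ x, satL (insert (y, !a i y) γ) x → Kill I J T a O v z₀ x := fun x hx =>
        hγ2 x fun l hl => hx l (mem_insert_of_mem hl)
      have m1 := E1_le I J T a O h v z₀ _ hks
      have m2 := E2_le I J T a O h v z₀ _ hks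
      have m3 := PP_nonneg (E1 (fun x => ¬ miss I T a x) h v (z₀ v) (insert (y, !a i y) γ))
      have m4 := PP_nonneg (E2 (fun x => ¬ miss I T a x) h v (z₀ v) (insert (y, !a i y) γ))
      have m5 : PP (fun x => ∃ j ∈ J, agr (T j) (a j) z₀ ∧ agr (T j) (a j) x ∧
          satL (insert (y, !a i y) γ) x) ≤ 0 := by
        have : PP (fun _ : Cube n => False) = 0 := by
          rw [PP_eq]; simp
        rw [← this]
        refine PP_mono fun x hx => ?_
        obtain ⟨j, hj, h1, h2, h3⟩ := hx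
        have h4 := hy.2 j hj h1
        have h5 := h1 y h4
        have h6 := h2 y h4
        have h7 := h3 _ (mem_insert_self _ _)
        have h8 := hz y hy.1
        simp only at h7
        rw [h6, ← h5, h8] at h7
        cases hh : a i y <;> simp [hh] at h7
      rw [← ht] at hrs
      have m6 : |DD (fun x => ¬ miss I T a x) h v (a i v) (insert (y, !a i y) γ)| ≤ κ * t := by
        rw [hs, DD_eq _ _ _ _ _ hnv, abs_le]
        constructor <;> linarith
      have m7 : 4 * (K : ℝ) * |DD (fun x => ¬ miss I T a x) h v (a i v)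
          (insert (y, !a i y) γ)| ≤ 4 * K * (κ * t) :=
        mul_le_mul_of_nonneg_left m6 (by positivity)
      have m8 : 4 * (K : ℝ) * (κ * t) = θ * t := by rw [← hκ1]; ring
      linarith
    · intro y hyT hye b
      rw [mem_union, not_or, mem_sdiff, not_and_not_right] at hye
      have hyU : y ∉ un J T := fun e => hyT (hye.1 e)
      have hyv : y ≠ v := fun e => hyU (by rw [e]; exact hvU)
      have L1 : θ * t ≤ DD (fun x => ¬ miss I T a x) h v (a i v) (insert (y, b) γ) := by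
        refine LB _ (insert y V) (Function.update w₀ y b) ?_ ?_ ?_ ?_ ?_
        · exact (card_insert_le _ _).trans (by omega)
        · rw [disjoint_insert_left]
          exact ⟨hyU, hVd⟩
        · intro l hl
          rcases mem_insert.1 hl with rfl | hl
          · exact hyv
          · exact (hγ1 l hl).1
        · exact fun x hx => hγ2 x fun l hl => hx l (mem_insert_of_mem hl)
        · intro x hx hw l hl
          rcases mem_insert.1 hl with rfl | hl
          · have := hw y (mem_insert_self _ _)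
            rwa [Function.update_self] at this
          · refine hγ3 x hx (fun p hp => ?_) l hl
            have := hw p (mem_insert_of_mem hp)
            rwa [Function.update_of_ne (fun e : p = y => hye.2 (by rwa [← e]))] at this
      have L2 : (K : ℝ) * (θ * t) ≤ K * DD (fun x => ¬ miss I T a x) h v (a i v)
          (insert (y, b) γ) := mul_le_mul_of_nonneg_left L1 (by positivity)
      have L3 : (4 * (2 * (d : ℝ) + 1) * 2 ^ g + θ) * t ≤ K * θ * t :=
        mul_le_mul_of_nonneg_right hKθ ht0.le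
      have L4 : 4 * κ * t ≤ θ * t := mul_le_mul_of_nonneg_right hκ2 ht0.le
      linarith

end Pool.Agent.Helper91K9.SP
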