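import Pool.Agent.Helper91K9.SP.Red

/-!
# The sizes of the hypotheses
-/

namespace Pool.Agent.Helper91K9.SP

open Pool.Agent.Helper91K9.DL Pool.Agent.Helper91K9.TW

namespace SizesL

theorem length_litsW (W : List ℕ) : (litsW W).length = 2 * W.length := by
  unfold litsW
  simp [List.length_flatMap, mul_comm]

theorem length_partsW (W : List ℕ) (r : ℕ) :
    (partsW W r).length = (2 * W.length + 1) ^ r := by
  induction r with
  | zero => simp [partsW]
  | succ r ih =>
    simp only [partsW, List.length_append, List.length_flatMap, List.length_map, length_litsW, ih,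
      List.map_const', List.sum_replicate, smul_eq_mul]
    ring

theorem mem_litsW {W : List ℕ} {l : ℕ × Bool} : l ∈ litsW W ↔ l.1 ∈ W := by
  unfold litsW
  rw [List.mem_flatMap]
  constructor
  · rintro ⟨j, hj, h⟩
    rcases List.mem_cons.1 h with rfl | h
    · exact hj
    · rcases List.mem_singleton.1 h with rfl
      exact hj
  · intro h
    refine ⟨l.1, h, ?_⟩
    obtain ⟨v, b⟩ := l
    cases b <;> simp

theorem mem_partsW {W : List ℕ} {r : ℕ} {β : List (ℕ × Bool)} (h : β ∈ partsW W r) :
    ∀ l ∈ β, l.1 ∈ W := by
  induction r generalizing β with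
  | zero =>
    simp only [partsW, List.mem_singleton] at h
    rw [h]
    simp
  | succ r ih =>
    rw [partsW, List.mem_append] at h
    rcases h with h | h
    · exact ih h
    · obtain ⟨ρ, hρ, h⟩ := List.mem_flatMap.1 h
      obtain ⟨l', hl', rfl⟩ := List.mem_map.1 h
      intro l hl
      rcases List.mem_cons.1 hl with rfl | hl
      · exact mem_litsW.1 hl'
      · exact ih hρ l hl

/-- All lists of at most `r` literals on the variables in `W`. -/
theorem partsW_of {W : List ℕ} {r : ℕ} {β : List (ℕ × Bool)} (h : ∀ l ∈ β, l.1 ∈ W)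
    (hr : β.length ≤ r) : β ∈ partsW W r := by
  induction r generalizing β with
  | zero =>
    have : β = [] := List.length_eq_zero_iff.1 (by omega)
    rw [this]
    simp [partsW]
  | succ r ih =>
    rw [partsW, List.mem_append]
    rcases β with _ | ⟨l, β⟩
    · exact Or.inl (ih (by simp) (by simp))
    · right
      rw [List.mem_flatMap]
      refine ⟨β, ih (fun l hl => h l (by simp [hl])) (by simpa using hr), ?_⟩
      exact List.mem_map.2 ⟨l, mem_litsW.2 (h l (by simp)), rfl⟩

theorem length_cand (R r K : ℕ) (W : List ℕ) (neg : List (List Bool))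
    (H : List (List (ℕ × Bool))) : (cand R r K W neg H).length =
      (2 * W.length + 1) ^ R * (W.length * (2 * ((2 * W.length + 1) ^ r *
        (2 * W.length + 1) ^ r))) := by
  unfold cand
  simp only [List.length_flatMap, List.length_map, length_partsW, List.map_const',
    List.sum_replicate, smul_eq_mul, List.length_cons, List.length_nil]

theorem cand_W {R r K : ℕ} {W : List ℕ} {neg : List (List Bool)}
    {H : List (List (ℕ × Bool))} {t : List (ℕ × Bool)} (ht : t ∈ cand R r K W neg H) :
    ∀ l ∈ t, l.1 ∈ W := by
  unfold cand at ht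
  obtain ⟨γ, -, ht⟩ := List.mem_flatMap.1 ht
  obtain ⟨i, -, ht⟩ := List.mem_flatMap.1 ht
  obtain ⟨s, -, ht⟩ := List.mem_flatMap.1 ht
  obtain ⟨α, -, ht⟩ := List.mem_flatMap.1 ht
  obtain ⟨β, hβ, rfl⟩ := List.mem_map.1 ht
  intro l hl
  rcases List.mem_append.1 hl with hl | hl
  · exact mem_litsW.1 (List.mem_filter.1 ((RedL.mem_without _ _ _).1 hl).1).1
  · exact mem_partsW hβ l hl

theorem base_succ (R r K : ℕ) (W : List ℕ) (j : ℕ) (neg : List (List Bool)) :
    base R r K W (j + 1) neg = round R r K W neg (base R r K W j neg) := by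
  unfold base
  rw [List.range_succ, List.foldl_append]
  rfl

theorem length_round (R r K : ℕ) (W : List ℕ) (neg : List (List Bool))
    (H : List (List (ℕ × Bool))) :
    (round R r K W neg H).length ≤ H.length + (cand R r K W neg H).length := by
  unfold round
  rw [List.length_append, List.length_map]
  exact Nat.add_le_add_left (List.length_filter_le _ _) _

theorem length_base (R r K n : ℕ) (W : List ℕ) (neg : List (List Bool)) (hW : W.length ≤ n)
    (j : ℕ) : (base R r K W j neg).length ≤ j * (2 * n + 1) ^ (R + 2 * r + 1) := by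
  induction j with
  | zero => simp [base]
  | succ j ih =>
    rw [base_succ]
    refine (length_round R r K W neg _).trans ?_
    rw [length_cand, add_mul, one_mul]
    refine Nat.add_le_add ih ?_
    have h1 : ∀ k, (2 * W.length + 1) ^ k ≤ (2 * n + 1) ^ k := fun k =>
      Nat.pow_le_pow_left (by omega) k
    calc (2 * W.length + 1) ^ R * (W.length * (2 * ((2 * W.length + 1) ^ r *
          (2 * W.length + 1) ^ r)))
        ≤ (2 * n + 1) ^ R * (n * (2 * ((2 * n + 1) ^ r * (2 * n + 1) ^ r))) := by
          gcongr
      _ = (2 * n) * (2 * n + 1) ^ (R + 2 * r) := by ring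
      _ ≤ (2 * n + 1) * (2 * n + 1) ^ (R + 2 * r) := by gcongr; omega
      _ = (2 * n + 1) ^ (R + 2 * r + 1) := by ring

end SizesL

open SizesL in
theorem sizes : S_SIZES := by
  intro R r K n W neg hW
  refine ⟨fun j hj => (length_base R r K n W neg hW j).trans (Nat.mul_le_mul_right _ hj),
    fun j => base_succ R r K W j neg, fun j => ?_⟩
  induction j with
  | zero =>
    intro t ht
    simp [base] at ht
  | succ j ih =>
    intro t ht
    rw [base_succ] at ht
    unfold round at ht
    rcases List.mem_append.1 ht with ht | ht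
    · exact ih t ht
    · obtain ⟨t', ht', rfl⟩ := List.mem_map.1 ht
      obtain ⟨h1, h2⟩ := List.mem_filter.1 ht'
      obtain ⟨h3, h4, h5⟩ := red_ok neg t' h2
      exact ⟨h4, fun l hl => cand_W h1 l (h3 l hl), h5⟩

end Pool.Agent.Helper91K9.SP
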