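import Pool.Agent.Helper91K9.SP.Sizes

/-!
# A detected term is a candidate
-/

namespace Pool.Agent.Helper91K9.SP

open Finset Pool.Agent.Helper91K9.DL Pool.Agent.Helper91K9.TW

namespace StepL

variable {n : ℕ}

theorem satL_cons (w : Fin n) (b : Bool) (ρ : List (ℕ × Bool)) (x : Cube n) :
    satL (UU n (((w : ℕ), b) :: ρ)) x ↔ satL (UU n ρ) x ∧ x w = b := by
  constructor
  · intro h
    refine ⟨fun l hl => h l ?_, ?_⟩
    · rw [mem_UU] at hl ⊢
      exact List.mem_cons_of_mem _ hl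
    · exact h (w, b) ((mem_UU _ _).2 List.mem_cons_self)
  · rintro ⟨h1, h2⟩ l hl
    rw [mem_UU] at hl
    rcases List.mem_cons.1 hl with h | h
    · have h3 : l.1 = w := Fin.ext (congrArg Prod.fst h)
      have h4 : l.2 = b := congrArg Prod.snd h
      rw [h3, h4, h2]
    · exact h1 l ((mem_UU _ _).2 h)

/-- The list of a set of literals. -/
noncomputable def lst (γ : Finset (Fin n × Bool)) : List (ℕ × Bool) :=
  γ.toList.map fun l => ((l.1 : ℕ), l.2)

theorem mem_lst (γ : Finset (Fin n × Bool)) (l : ℕ × Bool) :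
    l ∈ lst γ ↔ ∃ l' ∈ γ, ((l'.1 : ℕ), l'.2) = l := by
  unfold lst
  rw [List.mem_map]
  simp only [mem_toList]

theorem UU_lst (γ : Finset (Fin n × Bool)) : UU n (lst γ) = γ := by
  ext l
  rw [mem_UU, mem_lst]
  constructor
  · rintro ⟨l', h1, h2⟩
    have h3 : l' = l := Prod.ext (Fin.ext (Prod.ext_iff.1 h2).1) (Prod.ext_iff.1 h2).2
    rwa [← h3]
  · exact fun h => ⟨l, h, rfl⟩

theorem UU_cons (γ : Finset (Fin n × Bool)) (w : Fin n) (b : Bool) :
    UU n (((w : ℕ), b) :: lst γ) = insert (w, b) γ := by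
  ext l
  rw [mem_UU, mem_insert, List.mem_cons]
  refine or_congr ⟨fun h => ?_, fun h => by rw [h]⟩ ?_
  · have h4 : l.2 = b := congrArg Prod.snd h
    exact Prod.ext (Fin.ext (congrArg Prod.fst h)) h4
  rw [← mem_UU, UU_lst]

theorem PP_split (p : Cube n → Prop) (w : Fin n) (b : Bool) :
    PP p = PP (fun x => p x ∧ x w = b) + PP (fun x => p x ∧ x w = !b) := by
  have h1 := PP_and_not p (fun x : Cube n => x w = b)
  have h2 : PP (fun x => p x ∧ ¬ x w = b) = PP (fun x => p x ∧ x w = !b) :=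
    PP_congr fun x => and_congr_right fun _ => by cases x w <;> cases b <;> simp
  have h3 : PP (fun x : Cube n => x w = b ∧ p x) = PP (fun x => p x ∧ x w = b) :=
    PP_congr fun x => and_comm
  rw [h2, h3] at h1
  linarith

theorem satL_insert (γ : Finset (Fin n × Bool)) (w : Fin n) (b : Bool) (x : Cube n) :
    satL (insert (w, b) γ) x ↔ satL γ x ∧ x w = b := by
  rw [← UU_cons, satL_cons, UU_lst]

theorem DD_split (f h : Cube n → Prop) (v : Fin n) (s : Bool) (γ : Finset (Fin n × Bool))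
    (w : Fin n) (b : Bool) :
    DD f h v s γ = DD f h v s (insert (w, b) γ) + DD f h v s (insert (w, !b) γ) := by
  unfold DD
  rw [PP_split (fun x => ¬ f x ∧ ¬ h x ∧ ¬ h (flp v x) ∧ satL γ x ∧ x v = !s) w b,
    PP_split (fun x => ¬ f x ∧ ¬ h x ∧ ¬ h (flp v x) ∧ satL γ x ∧ x v = s) w b]
  have h1 : ∀ b s : Bool,
      PP (fun x => (¬ f x ∧ ¬ h x ∧ ¬ h (flp v x) ∧ satL γ x ∧ x v = s) ∧ x w = b) =
        PP (fun x => ¬ f x ∧ ¬ h x ∧ ¬ h (flp v x) ∧ satL (insert (w, b) γ) x ∧ x v = s) :=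
    fun b s => PP_congr fun x => by rw [satL_insert]; tauto
  rw [h1, h1, h1, h1]
  ring

/-- The difference of the counts. -/
noncomputable def Dh (ng : List (List Bool)) (i : ℕ) (s : Bool) (ρ : List (ℕ × Bool)) : ℝ :=
  (ct ng ((i, !s) :: ρ) : ℝ) - ct ng ((i, s) :: ρ)

theorem mem_hat (K : ℕ) (W : List ℕ) (ng : List (List Bool)) (i : ℕ) (s : Bool)
    (γ : List (ℕ × Bool)) (l : ℕ × Bool) : l ∈ hat K W ng i s γ ↔
      l.1 ∈ W ∧ K * Dh ng i s ((l.1, !l.2) :: γ) ≤ Dh ng i s γ := by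
  unfold hat Dh
  rw [List.mem_filter, SizesL.mem_litsW, decide_eq_true_eq]
  refine and_congr_right fun _ => ?_
  rw [← Nat.cast_le (α := ℝ)]
  push_cast
  constructor <;> intro h <;> linarith

theorem Dh_close {W : List ℕ} {neg : List (List Bool)} {f : Cube n → Prop} {M τ : ℝ} {S : ℕ}
    (hO : Orc n W neg f M τ S) (H : List (List (ℕ × Bool))) (hH : H.length ≤ S)
    (hHW : ∀ t ∈ H, ∀ l ∈ t, l.1 ∈ W) (hHi : ∀ t ∈ H, imp neg t = true) (v : Fin n)
    (hv : (v : ℕ) ∈ W) (s : Bool) (ρ : List (ℕ × Bool)) (hρ : ∀ l ∈ ρ, l.1 ∈ W) :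
    |Dh (calm neg H v) v s ρ - M * DD f (hh n H) v s (UU n ρ)| ≤ 2 * (M * τ) := by
  have h1 : ∀ b : Bool, |(ct (calm neg H v) (((v : ℕ), b) :: ρ) : ℝ) -
      M * PP (fun x => ¬ f x ∧ ¬ hh n H x ∧ ¬ hh n H (flp v x) ∧ satL (UU n ρ) x ∧ x v = b)| ≤
        M * τ := by
    intro b
    have h2 := hO.two H v (((v : ℕ), b) :: ρ) hH hHW hHi hv (fun l hl => by
      rcases List.mem_cons.1 hl with rfl | hl
      · exact hv
      · exact hρ l hl)
    have h3 : PP (fun x => ¬ f x ∧ ¬ hh n H x ∧ ¬ hh n H (flp v x) ∧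
        satL (UU n (((v : ℕ), b) :: ρ)) x) =
        PP (fun x => ¬ f x ∧ ¬ hh n H x ∧ ¬ hh n H (flp v x) ∧ satL (UU n ρ) x ∧ x v = b) :=
      PP_congr fun x => by rw [satL_cons]
    rwa [h3] at h2
  have h2 := abs_le.1 (h1 (!s))
  have h3 := abs_le.1 (h1 s)
  unfold Dh DD
  rw [abs_le]
  constructor <;> linarith [h2.1, h2.2, h3.1, h3.2]

end StepL

open StepL in
theorem step : S_STEP := by
  classical
  intro n ι T a W neg f M τ S H V i v c₃ r₂ K R r θ hO hM hτ hK hW hH hHW hHi hF hv hV hT hθ hτ'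
    hR hr
  obtain ⟨γ, core, exc, h1, h2, h3, h4, h5, h6, h7, h8⟩ := hF
  set s := a i v with hs
  set D := DD f (hh n H) v s γ with hD
  have hvW : (v : ℕ) ∈ W := hT v hv
  have hγW : ∀ l ∈ lst γ, l.1 ∈ W := by
    intro l hl
    obtain ⟨l', hl', rfl⟩ := (mem_lst _ _).1 hl
    exact hV _ (h2 l' hl').2
  have hK1 : (1 : ℝ) ≤ K := by exact_mod_cast hK
  have hKτ : 16 * (K : ℝ) * τ ≤ D := hτ'.trans h6
  have hD0 : 0 < D := lt_of_lt_of_le (by positivity) h6
  have hKτ0 : 0 ≤ (K : ℝ) * τ := by positivity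
  have hττ : τ ≤ K * τ := le_mul_of_one_le_left hτ hK1
  -- the counts
  have c0 := abs_le.1 (Dh_close hO H hH hHW hHi v hvW s (lst γ) hγW)
  rw [UU_lst, ← hD] at c0
  have c1 : ∀ (w : Fin n) (b : Bool), (w : ℕ) ∈ W →
      |Dh (calm neg H v) v s (((w : ℕ), b) :: lst γ) - M * DD f (hh n H) v s (insert (w, b) γ)| ≤
        2 * (M * τ) := by
    intro w b hw
    have h := Dh_close hO H hH hHW hHi v hvW s (((w : ℕ), b) :: lst γ) (fun l hl => by
      rcases List.mem_cons.1 hl with rfl | hl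
      · exact hw
      · exact hγW l hl)
    rwa [UU_cons] at h
  have hMD : 0 < M * D := mul_pos hM hD0
  have hMK : 16 * (K * (M * τ)) ≤ M * D := by
    have := mul_le_mul_of_nonneg_left hKτ hM.le
    linarith
  have hMτ : M * τ ≤ K * (M * τ) := le_mul_of_one_le_left (by positivity) hK1
  have hKMD : M * D ≤ K * (M * D) := le_mul_of_one_le_left hMD.le hK1
  -- the literals of the term
  have t1 : ∀ w ∈ core, w ≠ v → (w : ℕ) ∈ W →
      ((w : ℕ), a i w) ∈ hat (2 * K) W (calm neg H v) v s (lst γ) := by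
    intro w hw hwv hwW
    rw [mem_hat]
    refine ⟨hwW, ?_⟩
    have e1 := (abs_le.1 (c1 w (!a i w) hwW)).2
    have e2 : 4 * (K : ℝ) * DD f (hh n H) v s (insert (w, !a i w) γ) ≤ D :=
      (mul_le_mul_of_nonneg_left (le_abs_self _) (by positivity)).trans (h7 w hw hwv)
    have e3 := mul_le_mul_of_nonneg_left e2 hM.le
    have e4 := mul_le_mul_of_nonneg_left e1 (show (0 : ℝ) ≤ 2 * K by positivity)
    push_cast
    change 2 * (K : ℝ) * Dh (calm neg H v) v s (((w : ℕ), !a i w) :: lst γ) ≤ _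
    nlinarith [c0.1, c0.2]
  have t2 : ∀ w ∈ core, w ≠ v → (w : ℕ) ∈ W →
      ((w : ℕ), !a i w) ∉ hat (2 * K) W (calm neg H v) v s (lst γ) := by
    intro w hw hwv hwW hmem
    rw [mem_hat] at hmem
    have e0 := hmem.2
    have e1 := (abs_le.1 (c1 w (a i w) hwW)).1
    have e2 : 4 * (K : ℝ) * DD f (hh n H) v s (insert (w, !a i w) γ) ≤ D :=
      (mul_le_mul_of_nonneg_left (le_abs_self _) (by positivity)).trans (h7 w hw hwv)
    have e3 := DD_split f (hh n H) v s γ w (a i w)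
    rw [← hD] at e3
    have e5 := mul_le_mul_of_nonneg_left e2 hM.le
    have e4 := mul_le_mul_of_nonneg_left e1 (show (0 : ℝ) ≤ 2 * K by positivity)
    push_cast at e0
    rw [Bool.not_not] at e0
    have e6 : (K : ℝ) * (M * D) = K * (M * DD f (hh n H) v s (insert (w, a i w) γ)) +
        K * (M * DD f (hh n H) v s (insert (w, !a i w) γ)) := by
      rw [e3]; ring
    nlinarith [c0.1, c0.2]
  have t3 : ∀ w, w ∉ T i → w ∉ exc → (w : ℕ) ∈ W → ∀ b,
      ((w : ℕ), b) ∉ hat (2 * K) W (calm neg H v) v s (lst γ) := by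
    intro w hw hwe hwW b hmem
    rw [mem_hat] at hmem
    have e0 := hmem.2
    have e1 := (abs_le.1 (c1 w (!b) hwW)).1
    have e2 := h8 w hw hwe (!b)
    have e5 := mul_le_mul_of_nonneg_left e2 hM.le
    have e4 := mul_le_mul_of_nonneg_left e1 (show (0 : ℝ) ≤ 2 * K by positivity)
    push_cast at e0
    nlinarith [c0.1, c0.2]
  -- the corrections
  let Bd : Finset (Fin n) := ((T i \ core) ∪ exc ∪ {v}).filter fun w => (w : ℕ) ∈ W
  have hBd : Bd.card ≤ 2 * c₃ + 1 := by
    refine (card_filter_le _ _).trans ((card_union_le _ _).trans ?_)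
    rw [card_singleton]
    have := card_union_le (T i \ core) exc
    omega
  let α : List (ℕ × Bool) := Bd.toList.flatMap fun w : Fin n =>
    [((w : ℕ), true), ((w : ℕ), false)]
  let β : List (ℕ × Bool) := (Bd.filter fun w => w ∈ T i).toList.map fun w : Fin n =>
    ((w : ℕ), a i w)
  have hα : ∀ l : ℕ × Bool, l ∈ α ↔ ∃ w ∈ Bd, (w : ℕ) = l.1 := by
    intro l
    rw [List.mem_flatMap]
    constructor
    · rintro ⟨w, hw, h⟩
      refine ⟨w, mem_toList.1 hw, ?_⟩
      rcases List.mem_cons.1 h with rfl | h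
      · rfl
      · rw [List.mem_singleton.1 h]
    · rintro ⟨w, hw, h⟩
      refine ⟨w, mem_toList.2 hw, ?_⟩
      obtain ⟨l1, l2⟩ := l
      simp only at h
      subst h
      cases l2 <;> simp
  have hβ : ∀ l : ℕ × Bool, l ∈ β ↔ ∃ w ∈ Bd, w ∈ T i ∧ ((w : ℕ), a i w) = l := by
    intro l
    rw [List.mem_map]
    simp only [mem_toList, mem_filter, and_assoc]
  have hBdW : ∀ w ∈ Bd, (w : ℕ) ∈ W := fun w hw => (mem_filter.1 hw).2
  have hαl : α.length ≤ r := by
    have : α.length = Bd.card * 2 := by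
      simp only [α, List.length_flatMap, List.length_cons, List.length_nil, List.map_const',
        List.sum_replicate, length_toList, smul_eq_mul]
    omega
  have hβl : β.length ≤ r := by
    have : β.length = (Bd.filter fun w => w ∈ T i).card := by
      simp only [β, List.length_map, length_toList]
    have := card_filter_le Bd fun w => w ∈ T i
    omega
  have hγl : (lst γ).length ≤ R := by
    unfold lst
    rw [List.length_map, length_toList]
    omega
  refine ⟨without (hat (2 * K) W (calm neg H v) v s (lst γ)) α ++ β, ?_, fun l => ?_⟩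
  · unfold cand
    refine List.mem_flatMap.2 ⟨lst γ, SizesL.partsW_of hγW hγl, ?_⟩
    refine List.mem_flatMap.2 ⟨(v : ℕ), hvW, ?_⟩
    refine List.mem_flatMap.2 ⟨s, by cases s <;> simp, ?_⟩
    refine List.mem_flatMap.2 ⟨α, SizesL.partsW_of (fun l hl => ?_) hαl, ?_⟩
    · obtain ⟨w, hw, h⟩ := (hα l).1 hl
      rw [← h]
      exact hBdW w hw
    · refine List.mem_map.2 ⟨β, SizesL.partsW_of (fun l hl => ?_) hβl, rfl⟩
      obtain ⟨w, hw, -, rfl⟩ := (hβ l).1 hl
      exact hBdW w hw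
  · rw [List.mem_append, RedL.mem_without, hα, hβ]
    constructor
    · rintro (⟨hl, hl'⟩ | ⟨w, -, hw, rfl⟩)
      · have hlW : l.1 ∈ W := ((mem_hat _ _ _ _ _ _ _).1 hl).1
        obtain ⟨w, hw⟩ : ∃ w : Fin n, (w : ℕ) = l.1 := ⟨⟨l.1, hW _ hlW⟩, rfl⟩
        have hwW : (w : ℕ) ∈ W := hw ▸ hlW
        have hwB : w ∉ (T i \ core) ∪ exc ∪ {v} := fun h => hl' ⟨w, mem_filter.2 ⟨h, hwW⟩, hw⟩
        rw [mem_union, mem_union, mem_singleton, mem_sdiff, not_or, not_or, not_and,
          not_not] at hwB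
        have hl2 : l = ((w : ℕ), l.2) := Prod.ext hw.symm rfl
        by_cases hwT : w ∈ T i
        · refine ⟨w, hwT, ?_⟩
          have hwc := hwB.1.1 hwT
          by_contra hne
          have h9 : l.2 = !a i w := by
            rcases Bool.eq_or_eq_not l.2 (a i w) with h | h
            · exact absurd (by rw [hl2, h]) hne
            · exact h
          rw [hl2, h9] at hl
          exact t2 w hwc hwB.2 hwW hl
        · rw [hl2] at hl
          exact absurd hl (t3 w hwT hwB.1.2 hwW l.2)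
      · exact ⟨w, hw, rfl⟩
    · rintro ⟨w, hw, rfl⟩
      by_cases hwB : w ∈ Bd
      · exact Or.inr ⟨w, hwB, hw, rfl⟩
      · left
        have hwW := hT w hw
        have hwB' : w ∉ (T i \ core) ∪ exc ∪ {v} := fun h => hwB (mem_filter.2 ⟨h, hwW⟩)
        rw [mem_union, mem_union, mem_singleton, mem_sdiff, not_or, not_or, not_and,
          not_not] at hwB'
        refine ⟨t1 w (hwB'.1.1 hw) hwB'.2 hwW, ?_⟩
        rintro ⟨w', hw', h⟩
        have h10 : w' = w := Fin.ext h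
        exact hwB (h10 ▸ hw')

end Pool.Agent.Helper91K9.SP
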