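import Pool.Agent.Helper91K9.SP.Gst

/-!
# Almost all terms are typical
-/

set_option autoImplicit false

namespace Pool.Agent.Helper91K9.SP

namespace TypL

open Finset Pool.Agent.Helper91K9.DL StrL RegL GstL

variable {n : ℕ} {ι : Type}

/-! ## Elementary facts -/

theorem small_pow (ε : ℝ) (hε : 0 < ε) : ∃ m₀ : ℕ, ∀ m ≥ m₀, (1 / 2 : ℝ) ^ m ≤ ε := by
  obtain ⟨m₀, hm₀⟩ := exists_pow_lt_of_lt_one hε (show (1 / 2 : ℝ) < 1 by norm_num)
  exact ⟨m₀, fun m hm => (pow_le_pow_of_le_one (by norm_num) (by norm_num) hm).trans hm₀.le⟩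

theorem small_lin (A : ℕ) (ε : ℝ) (hε : 0 < ε) :
    ∃ m₀ : ℕ, ∀ m ≥ m₀, ((m : ℝ) + A) * (1 / 2) ^ m ≤ ε := by
  have h1 : Filter.Tendsto (fun m : ℕ => ((m : ℝ) + A) * (1 / 2) ^ m) Filter.atTop (nhds 0) := by
    have h2 := tendsto_self_mul_const_pow_of_lt_one (r := (1 / 2 : ℝ)) (by norm_num) (by norm_num)
    have h3 := (tendsto_pow_atTop_nhds_zero_of_lt_one (r := (1 / 2 : ℝ)) (by norm_num)
      (by norm_num)).const_mul (A : ℝ)
    have h4 := h2.add h3
    rw [mul_zero, add_zero] at h4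
    refine h4.congr fun m => ?_
    ring
  have h2 := (h1.eventually (ge_mem_nhds hε))
  obtain ⟨m₀, hm₀⟩ := Filter.eventually_atTop.1 h2
  exact ⟨m₀, fun m hm => hm₀ m hm⟩

theorem small_half (A : ℕ) (ε : ℝ) (hε : 0 < ε) :
    ∃ L₀ : ℕ, ∀ L ≥ L₀, ((L : ℝ) + A) * (1 / 2) ^ (L / 2) ≤ ε := by
  obtain ⟨m₀, hm₀⟩ := small_lin (A + 1) (ε / 2) (by positivity)
  refine ⟨2 * m₀, fun L hL => ?_⟩
  have h1 := hm₀ (L / 2) (by omega)
  have h2 : ((L : ℝ) + A) ≤ 2 * (((L / 2 : ℕ) : ℝ) + ((A + 1 : ℕ) : ℝ)) := by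
    have h3 : L + A ≤ 2 * (L / 2 + (A + 1)) := by omega
    have h4 : ((L + A : ℕ) : ℝ) ≤ ((2 * (L / 2 + (A + 1)) : ℕ) : ℝ) := by exact_mod_cast h3
    push_cast at h4 ⊢
    linarith
  calc ((L : ℝ) + A) * (1 / 2) ^ (L / 2)
      ≤ (2 * (((L / 2 : ℕ) : ℝ) + ((A + 1 : ℕ) : ℝ))) * (1 / 2) ^ (L / 2) :=
        mul_le_mul_of_nonneg_right h2 (by positivity)
    _ = 2 * ((((L / 2 : ℕ) : ℝ) + ((A + 1 : ℕ) : ℝ)) * (1 / 2) ^ (L / 2)) := by ring
    _ ≤ 2 * (ε / 2) := by linarith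
    _ = ε := by ring

/-! ## Counting -/

/-- at most `4 d M` terms contain at least the part `1 / M` of a set with at most `2 * L` elements -/
theorem cnt_part (hC : S_CNT) (I J : Finset ι) (T : ι → Finset (Fin n)) (O : Fin n → ι → Prop)
    (d M L : ℕ) (U : Finset (Fin n)) (hS : Sps I T O d) (hJ : J ⊆ I) (hL0 : 0 < L)
    (hL : 2 * M * d ≤ L) (hU : U.card ≤ 2 * L) (h : ∀ k ∈ J, L ≤ M * (T k ∩ U).card) :
    J.card ≤ 4 * M * d := by
  have hM : 0 < M ∨ J = ∅ := by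
    rcases Nat.eq_zero_or_pos M with h0 | h0
    · right
      rw [eq_empty_iff_forall_notMem]
      intro k hk
      have := h k hk
      rw [h0, zero_mul] at this
      omega
    · exact Or.inl h0
  rcases hM with hM | hM
  · -- `s = ⌈L / M⌉`
    obtain ⟨s, hs⟩ : ∃ s, s = (L + M - 1) / M := ⟨_, rfl⟩
    have hs1 : L ≤ M * s := by
      have := Nat.div_add_mod (L + M - 1) M
      have h2 := Nat.mod_lt (L + M - 1) hM
      rw [← hs] at this
      omega
    have hs2 : ∀ k ∈ J, s ≤ (T k ∩ U).card := by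
      intro k hk
      have h1 := h k hk
      by_contra h2
      push Not at h2
      have h3 : M * s ≤ L + M - 1 := by rw [hs]; exact Nat.mul_div_le _ _
      have h4 : M * ((T k ∩ U).card + 1) ≤ M * s := Nat.mul_le_mul_left _ h2
      rw [mul_add, mul_one] at h4
      omega
    have h1 := hC n ι I J T O d s U hS hJ hs2
    have h2 : L ≤ 2 * M * (s - d) := by
      have h3 : M * d ≤ M * s := by
        have : 2 * M * d = 2 * (M * d) := by ring
        omega
      have h4 : M * (s - d) = M * s - M * d := Nat.mul_sub _ _ _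
      have h5 : 2 * M * (s - d) = 2 * (M * (s - d)) := by ring
      have h6 : 2 * M * d = 2 * (M * d) := by ring
      omega
    have h3 : J.card * L ≤ (4 * M * d) * L := by
      calc J.card * L ≤ J.card * (2 * M * (s - d)) := Nat.mul_le_mul_left _ h2
        _ = 2 * M * (J.card * (s - d)) := by ring
        _ ≤ 2 * M * (d * U.card) := Nat.mul_le_mul_left _ h1
        _ ≤ 2 * M * (d * (2 * L)) := Nat.mul_le_mul_left _ (Nat.mul_le_mul_left _ hU)
        _ = (4 * M * d) * L := by ring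
    exact Nat.le_of_mul_le_mul_right h3 hL0
  · rw [hM]; simp

/-- terms with at least `d + 1` variables in `U` -/
theorem cnt_few (hC : S_CNT) (I J : Finset ι) (T : ι → Finset (Fin n)) (O : Fin n → ι → Prop)
    (d : ℕ) (U : Finset (Fin n)) (hS : Sps I T O d) (hJ : J ⊆ I)
    (h : ∀ k ∈ J, d + 1 ≤ (T k ∩ U).card) : J.card ≤ d * U.card := by
  have h1 := hC n ι I J T O d (d + 1) U hS hJ h
  rw [Nat.add_sub_cancel_left, mul_one] at h1
  exact h1

theorem un_card (J : Finset ι) (T : ι → Finset (Fin n)) (S : Finset (Fin n)) :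
    (S ∩ un J T).card ≤ ∑ l ∈ J, (S ∩ T l).card := by
  classical
  unfold un
  rw [inter_biUnion]
  exact card_biUnion_le

/-- pigeonhole in a cluster -/
theorem pigeon (J : Finset ι) (T : ι → Finset (Fin n)) (S : Finset (Fin n)) (N : ℕ)
    (hN : J.card ≤ N) (hJ : J.Nonempty) :
    ∃ l ∈ J, (S ∩ un J T).card ≤ N * (S ∩ T l).card := by
  by_contra hcon
  push Not at hcon
  have h1 : N * (S ∩ un J T).card ≤ ∑ l ∈ J, N * (S ∩ T l).card := by
    rw [← mul_sum]
    exact Nat.mul_le_mul_left _ (un_card J T S)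
  have h2 : ∑ l ∈ J, N * (S ∩ T l).card < ∑ _l ∈ J, (S ∩ un J T).card :=
    sum_lt_sum_of_nonempty hJ hcon
  rw [sum_const, smul_eq_mul] at h2
  have h3 : J.card * (S ∩ un J T).card ≤ N * (S ∩ un J T).card := Nat.mul_le_mul_right _ hN
  omega

/-- `(1/2)^|S \ U|` if `S ∩ U` is small -/
theorem pow_sdiff' (S U : Finset (Fin n)) (D : ℕ) (h : (S ∩ U).card ≤ D) :
    (1 / 2 : ℝ) ^ (S \ U).card ≤ 2 ^ D * (1 / 2) ^ S.card := by
  have := pow_sdiff S (S ∩ U) D h
  rwa [sdiff_inter_self_left] at this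

/-! ## Part A -/

open Classical in
theorem partA1 (I : Finset ι) (T : ι → Finset (Fin n)) (U : Finset (Fin n)) (D : ℕ) :
    ∑ k ∈ I.filter (fun k => ¬ Disjoint (T k) U ∧ (T k ∩ U).card ≤ D),
      (1 / 2 : ℝ) ^ (T k \ U).card ≤ 2 ^ D * ∑ v ∈ U, mu I T v := by
  have h1 : ∀ k ∈ I.filter (fun k => ¬ Disjoint (T k) U ∧ (T k ∩ U).card ≤ D),
      (1 / 2 : ℝ) ^ (T k \ U).card ≤
        ∑ v ∈ U, (if v ∈ T k then 2 ^ D * (1 / 2 : ℝ) ^ (T k).card else 0) := by
    intro k hk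
    rw [mem_filter] at hk
    obtain ⟨hk1, hk2, hk3⟩ := hk
    rw [not_disjoint_iff] at hk2
    obtain ⟨v, hv1, hv2⟩ := hk2
    have h2 := single_le_sum (f := fun v => (if v ∈ T k then 2 ^ D * (1 / 2 : ℝ) ^ (T k).card
          else 0)) (fun v _ => by split_ifs <;> positivity) hv2
    simp only [if_pos hv1] at h2
    exact (pow_sdiff' _ _ _ hk3).trans h2
  refine (sum_le_sum h1).trans ?_
  calc _ ≤ ∑ k ∈ I, ∑ v ∈ U, (if v ∈ T k then 2 ^ D * (1 / 2 : ℝ) ^ (T k).card else 0) :=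
        sum_le_sum_of_subset_of_nonneg (filter_subset _ _)
          fun k _ _ => sum_nonneg fun v _ => by split_ifs <;> positivity
    _ = _ := by
        rw [sum_comm, mul_sum]
        refine sum_congr rfl fun v _ => ?_
        rw [mu_eq, mul_sum]
        exact sum_congr rfl fun k _ => by rw [mul_ite, mul_zero]

theorem partA2 (I Gd : Finset ι) (T : ι → Finset (Fin n)) (U : ι → Finset (Fin n)) (R : ℕ)
    (B C : ℝ) (hB0 : 0 ≤ B) (hB : ∀ v, mu I T v ≤ B) (hGd : Gd ⊆ I) (hmass : mass I T ≤ C)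
    (hU : ∀ i ∈ Gd, (U i \ T i).card ≤ R) :
    ∑ i ∈ Gd, (1 / 2 : ℝ) ^ (T i).card * ∑ v ∈ U i, mu I T v ≤
      ∑ v, mu I T v ^ 2 + C * (R * B) := by
  classical
  have hmu0 : ∀ v, 0 ≤ mu I T v := fun v => sum_nonneg fun _ _ => by positivity
  have h1 : ∀ i ∈ Gd, (1 / 2 : ℝ) ^ (T i).card * ∑ v ∈ U i, mu I T v ≤
      (1 / 2 : ℝ) ^ (T i).card * ∑ v ∈ T i, mu I T v + (1 / 2 : ℝ) ^ (T i).card * (R * B) := by
    intro i hi
    rw [← mul_add]
    refine mul_le_mul_of_nonneg_left ?_ (by positivity)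
    calc ∑ v ∈ U i, mu I T v ≤ ∑ v ∈ T i ∪ (U i \ T i), mu I T v :=
          sum_le_sum_of_subset_of_nonneg (fun v hv => by
            by_cases h : v ∈ T i
            · exact mem_union_left _ h
            · exact mem_union_right _ (mem_sdiff.2 ⟨hv, h⟩)) fun v _ _ => hmu0 v
      _ = ∑ v ∈ T i, mu I T v + ∑ v ∈ U i \ T i, mu I T v := sum_union disjoint_sdiff
      _ ≤ ∑ v ∈ T i, mu I T v + ∑ _v ∈ U i \ T i, B := by
          refine add_le_add le_rfl (sum_le_sum fun v _ => hB v)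
      _ ≤ _ := by
          rw [sum_const, nsmul_eq_mul]
          refine add_le_add le_rfl (mul_le_mul_of_nonneg_right ?_ hB0)
          exact_mod_cast hU i hi
  refine (sum_le_sum h1).trans ?_
  rw [sum_add_distrib]
  refine add_le_add ?_ ?_
  · calc ∑ i ∈ Gd, (1 / 2 : ℝ) ^ (T i).card * ∑ v ∈ T i, mu I T v
        ≤ ∑ i ∈ I, (1 / 2 : ℝ) ^ (T i).card * ∑ v ∈ T i, mu I T v :=
          sum_le_sum_of_subset_of_nonneg hGd fun i _ _ =>
            mul_nonneg (by positivity) (sum_nonneg fun v _ => hmu0 v)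
      _ = ∑ i ∈ I, ∑ v, (if v ∈ T i then (1 / 2 : ℝ) ^ (T i).card * mu I T v else 0) := by
          refine sum_congr rfl fun i _ => ?_
          rw [mul_sum, ← sum_filter]
          refine sum_congr ?_ fun _ _ => rfl
          ext v; simp
      _ = ∑ v, mu I T v ^ 2 := by
          rw [sum_comm]
          refine sum_congr rfl fun v _ => ?_
          have h2 := mu_eq I T v
          calc ∑ i ∈ I, (if v ∈ T i then (1 / 2 : ℝ) ^ (T i).card * mu I T v else 0)
              = (∑ i ∈ I, if v ∈ T i then (1 / 2 : ℝ) ^ (T i).card else 0) * mu I T v := by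
                rw [sum_mul]
                exact sum_congr rfl fun i _ => by rw [ite_mul, zero_mul]
            _ = _ := by rw [← h2, sq]
  · rw [← sum_mul]
    refine mul_le_mul_of_nonneg_right ?_ (mul_nonneg (Nat.cast_nonneg _) hB0)
    refine le_trans ?_ hmass
    exact sum_le_sum_of_subset_of_nonneg hGd fun _ _ _ => by positivity

/-! ## Part B1 -/

open Classical in
theorem partB1 (hC : S_CNT) (I J : Finset ι) (T : ι → Finset (Fin n)) (O : Fin n → ι → Prop)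
    (i : ι) (d u g : ℕ) (hS : Sps I T O d) (hc : Clo I J T i d u g) (hL0 : 0 < (T i).card)
    (hL1 : 4 * d ≤ (T i).card) (hL2 : 2 * d * u ≤ (T i).card) :
    ∑ k ∈ I.filter (fun k => k ∉ J ∧ 2 * d * (2 * d + 1) < (T k ∩ un J T).card ∧
        (T i).card ≤ (T k).card + g), (1 / 2 : ℝ) ^ (T k \ un J T).card ≤
      8 * d * (1 / 2) ^ u +
        d * 2 ^ g * (((T i).card + (2 * d * u : ℕ)) * (1 / 2) ^ ((T i).card / 2)) := by
  obtain ⟨U, hU⟩ : ∃ U, U = un J T := ⟨_, rfl⟩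
  obtain ⟨L, hL⟩ : ∃ L, L = (T i).card := ⟨_, rfl⟩
  rw [← hU, ← hL]
  have hUc : U.card ≤ L + 2 * d * u := by
    have h1 := hc.small
    rw [← hU] at h1
    have h2 := card_sdiff_add_card_inter U (T i)
    have h3 := card_le_card (inter_subset_right (s₁ := U) (s₂ := T i))
    omega
  rw [← hL] at hL0 hL1 hL2
  obtain ⟨K, hK⟩ : ∃ K : Finset ι, K = I.filter (fun k => k ∉ J ∧
    2 * d * (2 * d + 1) < (T k ∩ U).card ∧ L ≤ (T k).card + g) := ⟨_, rfl⟩
  rw [← hK]
  have hKm : ∀ k ∈ K, k ∈ I ∧ k ∉ J ∧ 2 * d * (2 * d + 1) < (T k ∩ U).card ∧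
      L ≤ (T k).card + g := fun k hk => by rw [hK, mem_filter] at hk; exact hk
  rw [← sum_filter_add_sum_filter_not K fun k => L ≤ 2 * (T k ∩ U).card]
  refine add_le_add ?_ ?_
  · have h1 : (K.filter fun k => L ≤ 2 * (T k ∩ U).card).card ≤ 4 * 2 * d :=
      cnt_part hC I _ T O d 2 L U hS (fun k hk => (hKm k (mem_filter.1 hk).1).1) hL0
        (by omega) (by omega) fun k hk => (mem_filter.1 hk).2
    calc ∑ k ∈ K.filter (fun k => L ≤ 2 * (T k ∩ U).card), (1 / 2 : ℝ) ^ (T k \ U).card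
        ≤ ∑ _k ∈ K.filter (fun k => L ≤ 2 * (T k ∩ U).card), (1 / 2 : ℝ) ^ u := by
          refine sum_le_sum fun k hk => ?_
          have h2 := hKm k (mem_filter.1 hk).1
          have h3 := hc.far k h2.1 h2.2.1
          rw [← hU] at h3
          exact pow_le_pow_of_le_one (by norm_num) (by norm_num) h3.le
      _ = ((K.filter fun k => L ≤ 2 * (T k ∩ U).card).card : ℝ) * (1 / 2) ^ u := by
          rw [sum_const, nsmul_eq_mul]
      _ ≤ _ := by
          refine mul_le_mul_of_nonneg_right ?_ (by positivity)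
          have : ((K.filter fun k => L ≤ 2 * (T k ∩ U).card).card : ℝ) ≤ ((4 * 2 * d : ℕ) : ℝ) := by
            exact_mod_cast h1
          push_cast at this
          linarith
  · have h1 : (K.filter fun k => ¬ L ≤ 2 * (T k ∩ U).card).card ≤ d * U.card :=
      cnt_few hC I _ T O d U hS (fun k hk => (hKm k (mem_filter.1 hk).1).1) fun k hk => by
        have h2 := (hKm k (mem_filter.1 hk).1).2.2.1
        have h3 : d ≤ 2 * d * (2 * d + 1) := by nlinarith
        omega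
    calc ∑ k ∈ K.filter (fun k => ¬ L ≤ 2 * (T k ∩ U).card), (1 / 2 : ℝ) ^ (T k \ U).card
        ≤ ∑ _k ∈ K.filter (fun k => ¬ L ≤ 2 * (T k ∩ U).card), 2 ^ g * (1 / 2 : ℝ) ^ (L / 2) := by
          refine sum_le_sum fun k hk => ?_
          rw [mem_filter] at hk
          have h2 := (hKm k hk.1).2.2.2
          have h3 := card_sdiff_add_card_inter (T k) U
          have h4 : L / 2 ≤ (T k \ U).card + g := by omega
          have h5 : (1 / 2 : ℝ) ^ ((T k \ U).card + g) ≤ (1 / 2) ^ (L / 2) :=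
            pow_le_pow_of_le_one (by norm_num) (by norm_num) h4
          have h6 : (2 : ℝ) ^ g * (1 / 2) ^ g = 1 := by rw [← mul_pow]; norm_num
          calc (1 / 2 : ℝ) ^ (T k \ U).card
              = (1 / 2 : ℝ) ^ (T k \ U).card * (2 ^ g * (1 / 2) ^ g) := by rw [h6, mul_one]
            _ = 2 ^ g * (1 / 2 : ℝ) ^ ((T k \ U).card + g) := by rw [pow_add]; ring
            _ ≤ _ := mul_le_mul_of_nonneg_left h5 (by positivity)
      _ = ((K.filter fun k => ¬ L ≤ 2 * (T k ∩ U).card).card : ℝ) *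
            (2 ^ g * (1 / 2 : ℝ) ^ (L / 2)) := by rw [sum_const, nsmul_eq_mul]
      _ ≤ (d * (L + (2 * d * u : ℕ))) * (2 ^ g * (1 / 2 : ℝ) ^ (L / 2)) := by
          refine mul_le_mul_of_nonneg_right ?_ (by positivity)
          have h7 : (K.filter fun k => ¬ L ≤ 2 * (T k ∩ U).card).card ≤ d * (L + 2 * d * u) :=
            h1.trans (Nat.mul_le_mul_left _ hUc)
          exact_mod_cast h7
      _ = _ := by ring

/-! ## Part B2 -/

open Classical in
theorem count_i (Gd Q J' : Finset ι) (J : ι → Finset ι) (K' : ℕ) (hQ : Q ⊆ Gd)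
    (hJ : ∀ l, (Gd.filter fun i => l ∈ J i).card ≤ K') (h : ∀ i ∈ Q, ∃ l ∈ J', l ∈ J i) :
    Q.card ≤ K' * J'.card := by
  have h1 : Q ⊆ J'.biUnion fun l => Gd.filter fun i => l ∈ J i := by
    intro i hi
    obtain ⟨l, hl, hl'⟩ := h i hi
    exact mem_biUnion.2 ⟨l, hl, mem_filter.2 ⟨hQ hi, hl'⟩⟩
  calc Q.card ≤ _ := card_le_card h1
    _ ≤ ∑ l ∈ J', (Gd.filter fun i => l ∈ J i).card := card_biUnion_le
    _ ≤ ∑ _l ∈ J', K' := sum_le_sum fun l _ => hJ l
    _ = K' * J'.card := by rw [sum_const, smul_eq_mul, mul_comm]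

open Classical in
/-- for one term `k` -/
theorem partB2 (hC : S_CNT) (I Gd : Finset ι) (J : ι → Finset ι) (T : ι → Finset (Fin n))
    (O : Fin n → ι → Prop) (k : ι) (d u g K' : ℕ) (hS : Sps I T O d)
    (hc : ∀ i ∈ Gd, Clo I (J i) T i d u g) (hJ : ∀ l, (Gd.filter fun i => l ∈ J i).card ≤ K')
    (hk : k ∈ I) (hL0 : 0 < (T k).card) (hL1 : 2 * (2 * (2 * d + 1)) * d ≤ (T k).card) :
    ∑ i ∈ Gd.filter (fun i => k ∉ J i ∧ 2 * d * (2 * d + 1) < (T k ∩ un (J i) T).card ∧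
        ¬ (T i).card ≤ (T k).card + g),
      (1 / 2 : ℝ) ^ (T i).card * (1 / 2 : ℝ) ^ (T k \ un (J i) T).card ≤
      (1 / 2 : ℝ) ^ (T k).card * (K' * (8 * (2 * d + 1) * d) * (1 / 2) ^ u +
        K' * d * (((T k).card + (0 : ℕ)) * (1 / 2) ^ ((T k).card / 2))) := by
  obtain ⟨L, hL⟩ : ∃ L, L = (T k).card := ⟨_, rfl⟩
  obtain ⟨Q, hQ⟩ : ∃ Q : Finset ι, Q = Gd.filter (fun i => k ∉ J i ∧
    2 * d * (2 * d + 1) < (T k ∩ un (J i) T).card ∧ ¬ (T i).card ≤ (T k).card + g) := ⟨_, rfl⟩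
  rw [← hQ, ← hL]
  rw [← hL] at hL0 hL1
  have hQm : ∀ i ∈ Q, i ∈ Gd ∧ k ∉ J i ∧ 2 * d * (2 * d + 1) < (T k ∩ un (J i) T).card ∧
      L + g < (T i).card := fun i hi => by
    rw [hQ, mem_filter, not_le, ← hL] at hi; exact hi
  have hw : ∀ i ∈ Q, (1 / 2 : ℝ) ^ (T i).card ≤ (1 / 2) ^ L := fun i hi =>
    pow_le_pow_of_le_one (by norm_num) (by norm_num) (by have := (hQm i hi).2.2.2; omega)
  have hpig : ∀ i ∈ Q, ∃ l ∈ J i, (T k ∩ un (J i) T).card ≤ (2 * d + 1) * (T k ∩ T l).card :=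
    fun i hi => pigeon (J i) T (T k) (2 * d + 1) (hc i (hQm i hi).1).card
      ⟨i, (hc i (hQm i hi).1).mem⟩
  rw [← sum_filter_add_sum_filter_not Q fun i => L ≤ 2 * (T k ∩ un (J i) T).card, mul_add]
  refine add_le_add ?_ ?_
  · have h1 : (Q.filter fun i => L ≤ 2 * (T k ∩ un (J i) T).card).card ≤
        K' * (4 * (2 * (2 * d + 1)) * d) := by
      obtain ⟨J', hJ'⟩ : ∃ J' : Finset ι,
        J' = I.filter fun l => L ≤ 2 * (2 * d + 1) * (T l ∩ T k).card := ⟨_, rfl⟩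
      have h2 : J'.card ≤ 4 * (2 * (2 * d + 1)) * d :=
        cnt_part hC I J' T O d (2 * (2 * d + 1)) L (T k) hS
          (by rw [hJ']; exact filter_subset _ _) hL0 hL1 (by omega)
          fun l hl => by rw [hJ', mem_filter] at hl; exact hl.2
      refine (count_i Gd _ J' J K' (fun i hi => (hQm i (mem_filter.1 hi).1).1) hJ
        fun i hi => ?_).trans (Nat.mul_le_mul_left _ h2)
      rw [mem_filter] at hi
      obtain ⟨l, hl, hl2⟩ := hpig i hi.1
      refine ⟨l, ?_, hl⟩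
      rw [hJ', mem_filter, inter_comm (T l)]
      refine ⟨(hc i (hQm i hi.1).1).sub hl, ?_⟩
      calc L ≤ 2 * (T k ∩ un (J i) T).card := hi.2
        _ ≤ 2 * ((2 * d + 1) * (T k ∩ T l).card) := Nat.mul_le_mul_left _ hl2
        _ = _ := by ring
    calc ∑ i ∈ Q.filter (fun i => L ≤ 2 * (T k ∩ un (J i) T).card),
          (1 / 2 : ℝ) ^ (T i).card * (1 / 2 : ℝ) ^ (T k \ un (J i) T).card
        ≤ ∑ _i ∈ Q.filter (fun i => L ≤ 2 * (T k ∩ un (J i) T).card),
          (1 / 2 : ℝ) ^ L * (1 / 2) ^ u := by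
          refine sum_le_sum fun i hi => ?_
          have hi' := (mem_filter.1 hi).1
          have h3 := (hc i (hQm i hi').1).far k hk (hQm i hi').2.1
          exact mul_le_mul (hw i hi') (pow_le_pow_of_le_one (by norm_num) (by norm_num) h3.le)
            (by positivity) (by positivity)
      _ = ((Q.filter fun i => L ≤ 2 * (T k ∩ un (J i) T).card).card : ℝ) *
          ((1 / 2 : ℝ) ^ L * (1 / 2) ^ u) := by rw [sum_const, nsmul_eq_mul]
      _ ≤ (K' * (8 * (2 * d + 1) * d)) * ((1 / 2 : ℝ) ^ L * (1 / 2) ^ u) := by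
          refine mul_le_mul_of_nonneg_right ?_ (by positivity)
          have : ((Q.filter fun i => L ≤ 2 * (T k ∩ un (J i) T).card).card : ℝ) ≤
            ((K' * (4 * (2 * (2 * d + 1)) * d) : ℕ) : ℝ) := by exact_mod_cast h1
          push_cast at this
          linarith
      _ = _ := by ring
  · have h1 : (Q.filter fun i => ¬ L ≤ 2 * (T k ∩ un (J i) T).card).card ≤ K' * (d * L) := by
      obtain ⟨J', hJ'⟩ : ∃ J' : Finset ι, J' = I.filter fun l => d + 1 ≤ (T l ∩ T k).card :=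
        ⟨_, rfl⟩
      have h2 : J'.card ≤ d * (T k).card :=
        cnt_few hC I J' T O d (T k) hS (by rw [hJ']; exact filter_subset _ _)
          fun l hl => by rw [hJ', mem_filter] at hl; exact hl.2
      rw [← hL] at h2
      refine (count_i Gd _ J' J K' (fun i hi => (hQm i (mem_filter.1 hi).1).1) hJ
        fun i hi => ?_).trans (Nat.mul_le_mul_left _ h2)
      rw [mem_filter] at hi
      obtain ⟨l, hl, hl2⟩ := hpig i hi.1
      refine ⟨l, ?_, hl⟩
      rw [hJ', mem_filter, inter_comm (T l)]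
      refine ⟨(hc i (hQm i hi.1).1).sub hl, ?_⟩
      have h3 := (hQm i hi.1).2.2.1
      by_contra h4
      push Not at h4
      have h5 : (T k ∩ T l).card ≤ d := by omega
      have h6 : (2 * d + 1) * (T k ∩ T l).card ≤ (2 * d + 1) * d := Nat.mul_le_mul_left _ h5
      have h7 : (2 * d + 1) * d ≤ 2 * d * (2 * d + 1) := by nlinarith
      omega
    calc ∑ i ∈ Q.filter (fun i => ¬ L ≤ 2 * (T k ∩ un (J i) T).card),
          (1 / 2 : ℝ) ^ (T i).card * (1 / 2 : ℝ) ^ (T k \ un (J i) T).card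
        ≤ ∑ _i ∈ Q.filter (fun i => ¬ L ≤ 2 * (T k ∩ un (J i) T).card),
          (1 / 2 : ℝ) ^ L * (1 / 2) ^ (L / 2) := by
          refine sum_le_sum fun i hi => ?_
          have hi' := (mem_filter.1 hi).1
          have hi2 := (mem_filter.1 hi).2
          have h3 := card_sdiff_add_card_inter (T k) (un (J i) T)
          rw [← hL] at h3
          exact mul_le_mul (hw i hi') (pow_le_pow_of_le_one (by norm_num) (by norm_num) (by omega))
            (by positivity) (by positivity)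
      _ = ((Q.filter fun i => ¬ L ≤ 2 * (T k ∩ un (J i) T).card).card : ℝ) *
          ((1 / 2 : ℝ) ^ L * (1 / 2) ^ (L / 2)) := by rw [sum_const, nsmul_eq_mul]
      _ ≤ (K' * (d * L)) * ((1 / 2 : ℝ) ^ L * (1 / 2) ^ (L / 2)) := by
          refine mul_le_mul_of_nonneg_right ?_ (by positivity)
          exact_mod_cast h1
      _ = _ := by push_cast; ring

/-! ## The theorem -/

theorem typ : S_CNT → S_SQ → S_CLOS → S_TYP := by
  classical
  intro hCNT hSQ hCLOS d C δ σ u₀ hδ hσ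
  obtain ⟨C1, hC1⟩ : ∃ C1 : ℝ, C1 = max C 0 := ⟨_, rfl⟩
  have hC10 : 0 ≤ C1 := by rw [hC1]; exact le_max_right _ _
  have hCC : C ≤ C1 := by rw [hC1]; exact le_max_left _ _
  obtain ⟨K', g, hu⟩ := hCLOS d C (δ / 2) (by positivity)
  obtain ⟨κ, hκ⟩ : ∃ κ : ℝ, κ = σ * δ / 4 := ⟨_, rfl⟩
  have hκ0 : 0 < κ := by rw [hκ]; positivity
  obtain ⟨N1, hN1⟩ : ∃ N1 : ℝ, N1 = K' * (8 * (2 * d + 1) * d) := ⟨_, rfl⟩
  have hN10 : 0 ≤ N1 := by rw [hN1]; positivity
  obtain ⟨m₁, hm₁⟩ := small_pow (σ / (4 * (8 * d + 1))) (by positivity)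
  obtain ⟨m₂, hm₂⟩ := small_pow (κ / (6 * (N1 + 1) * (C1 + 1))) (by positivity)
  obtain ⟨u, hu₀⟩ : ∃ u, u = m₁ + m₂ + u₀ := ⟨_, rfl⟩
  have hu1 := hm₁ u (by omega)
  have hu2 := hm₂ u (by omega)
  obtain ⟨c₀, hc₀, hcl⟩ := hu u
  obtain ⟨L₁, hL₁⟩ := small_half (2 * d * u) (σ / (4 * (d * 2 ^ g + 1))) (by positivity)
  obtain ⟨L₂, hL₂⟩ := small_half 0 (κ / (6 * (K' * d + 1) * (C1 + 1))) (by positivity)
  obtain ⟨D, hD⟩ : ∃ D : ℕ, D = 2 * d * (2 * d + 1) := ⟨_, rfl⟩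
  obtain ⟨N3, hN3⟩ : ∃ N3 : ℝ, N3 = 2 * d + 2 * d * u * (d + 1) := ⟨_, rfl⟩
  have hN30 : 0 ≤ N3 := by rw [hN3]; positivity
  obtain ⟨ε3, hε3⟩ : ∃ ε3 : ℝ, ε3 = κ / (3 * 2 ^ D * (C1 + 1) * (N3 + 1)) := ⟨_, rfl⟩
  have hε30 : 0 < ε3 := by rw [hε3]; positivity
  obtain ⟨c₃, hc₃⟩ := small_lin 0 (ε3 / 2) (by positivity)
  obtain ⟨c, hc⟩ : ∃ c : ℕ, c = c₀ + L₁ + L₂ + c₃ + 4 * d + 2 * d * u +
    2 * (2 * (2 * d + 1)) * d + 1 := ⟨_, rfl⟩
  refine ⟨u, g, c, ε3 / 2, by omega, by omega, by positivity, ?_⟩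
  intro n ι I T O hN
  have hlen := hN.long
  have hmass : mass I T ≤ C1 := hN.mass.trans hCC
  obtain ⟨Gd0, J, hG1, hG2, hG3, hG4⟩ := hcl n ι I T O hN.sps
    (fun i hi => le_trans (by omega) (hlen i hi)) hN.mass
  -- the bounds for the masses at the variables
  obtain ⟨y, hy⟩ : ∃ y : ℝ, y = c * (1 / 2) ^ c + ε3 / 2 := ⟨_, rfl⟩
  have hyε : y ≤ ε3 := by
    have := hc₃ c (by omega)
    push_cast at this
    rw [add_zero] at this
    rw [hy]; linarith
  have hy0 : 0 ≤ y := by rw [hy]; positivity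
  have hsq : ∑ v, mu I T v ^ 2 ≤ 2 * d * C1 * y := by
    have h1 := hSQ n ι I T O d c (ε3 / 2) hN.sps (by omega) hlen (by positivity) hN.nu
    rw [← hy] at h1
    refine h1.trans ?_
    refine mul_le_mul_of_nonneg_right ?_ hy0
    exact mul_le_mul_of_nonneg_left hmass (by positivity)
  obtain ⟨B, hB⟩ : ∃ B : ℝ, B = (d + 1) * y := ⟨_, rfl⟩
  have hB0 : 0 ≤ B := by rw [hB]; positivity
  have hBmu : ∀ v, mu I T v ≤ B := by
    intro v
    refine (mu_le I T O d c (ε3 / 2) hN.sps hlen hN.nu v).trans ?_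
    have h1 : (1 / 2 : ℝ) ^ c ≤ c * (1 / 2) ^ c := by
      have h2 : (1 : ℝ) ≤ c := by exact_mod_cast (by omega : 1 ≤ c)
      have h3 : (0 : ℝ) ≤ (1 / 2) ^ c := by positivity
      nlinarith
    have h4 : (d : ℝ) * (1 / 2) ^ c ≤ d * (c * (1 / 2) ^ c) :=
      mul_le_mul_of_nonneg_left h1 (Nat.cast_nonneg _)
    have h5 : (d : ℝ) * (c * (1 / 2) ^ c) ≤ d * y := by
      refine mul_le_mul_of_nonneg_left ?_ (Nat.cast_nonneg _)
      rw [hy]; linarith
    have h6 : ε3 / 2 ≤ y := by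
      rw [hy]
      have : (0 : ℝ) ≤ c * (1 / 2) ^ c := by positivity
      linarith
    rw [hB]; linarith
  -- the three parts
  obtain ⟨A, hA⟩ : ∃ A : ι → ℝ, A = fun i => ∑ k ∈ I.filter (fun k =>
    ¬ Disjoint (T k) (un (J i) T) ∧ (T k ∩ un (J i) T).card ≤ D),
    (1 / 2 : ℝ) ^ (T k \ un (J i) T).card := ⟨_, rfl⟩
  obtain ⟨B1, hB1⟩ : ∃ B1 : ι → ℝ, B1 = fun i => ∑ k ∈ I.filter (fun k => k ∉ J i ∧
    2 * d * (2 * d + 1) < (T k ∩ un (J i) T).card ∧ (T i).card ≤ (T k).card + g),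
    (1 / 2 : ℝ) ^ (T k \ un (J i) T).card := ⟨_, rfl⟩
  obtain ⟨B2, hB2⟩ : ∃ B2 : ι → ℝ, B2 = fun i => ∑ k ∈ I.filter (fun k => k ∉ J i ∧
    2 * d * (2 * d + 1) < (T k ∩ un (J i) T).card ∧ ¬ (T i).card ≤ (T k).card + g),
    (1 / 2 : ℝ) ^ (T k \ un (J i) T).card := ⟨_, rfl⟩
  obtain ⟨X, hX⟩ : ∃ X : ι → ℝ, X = fun i => ∑ k ∈ (I \ J i).filter
    (fun k => ¬ Disjoint (T k) (un (J i) T)), (1 / 2 : ℝ) ^ (T k \ un (J i) T).card := ⟨_, rfl⟩
  have hXle : ∀ i, X i ≤ A i + B1 i + B2 i := by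
    intro i
    rw [hX, hA, hB1, hB2]
    simp only
    have h1 : (I \ J i).filter (fun k => ¬ Disjoint (T k) (un (J i) T)) =
        I.filter fun k => k ∉ J i ∧ ¬ Disjoint (T k) (un (J i) T) := by
      ext k; simp only [mem_filter, mem_sdiff]; tauto
    rw [h1, sum_filter, sum_filter, sum_filter, sum_filter, ← sum_add_distrib, ← sum_add_distrib]
    refine sum_le_sum fun k _ => ?_
    have hp : (0 : ℝ) ≤ (1 / 2 : ℝ) ^ (T k \ un (J i) T).card := by positivity
    by_cases q1 : k ∉ J i ∧ ¬ Disjoint (T k) (un (J i) T)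
    · rw [if_pos q1]
      by_cases q2 : (T k ∩ un (J i) T).card ≤ D
      · rw [if_pos (show ¬ Disjoint (T k) (un (J i) T) ∧ (T k ∩ un (J i) T).card ≤ D from
          ⟨q1.2, q2⟩)]
        have : 0 ≤ (if k ∉ J i ∧ 2 * d * (2 * d + 1) < (T k ∩ un (J i) T).card ∧
          (T i).card ≤ (T k).card + g then (1 / 2 : ℝ) ^ (T k \ un (J i) T).card else 0) := by
          split_ifs <;> positivity
        have : 0 ≤ (if k ∉ J i ∧ 2 * d * (2 * d + 1) < (T k ∩ un (J i) T).card ∧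
          ¬ (T i).card ≤ (T k).card + g then (1 / 2 : ℝ) ^ (T k \ un (J i) T).card else 0) := by
          split_ifs <;> positivity
        linarith
      · rw [if_neg (show ¬ (¬ Disjoint (T k) (un (J i) T) ∧ (T k ∩ un (J i) T).card ≤ D) from
          fun h => q2 h.2)]
        rw [hD, not_le] at q2
        by_cases q3 : (T i).card ≤ (T k).card + g
        · rw [if_pos ⟨q1.1, q2, q3⟩, if_neg (fun h => h.2.2 q3)]
          linarith
        · rw [if_neg (fun h => q3 h.2.2), if_pos ⟨q1.1, q2, q3⟩]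
          linarith
    · rw [if_neg q1]
      refine add_nonneg (add_nonneg ?_ ?_) ?_ <;> split_ifs <;> positivity
  have hA0 : ∀ i, 0 ≤ A i := fun i => by rw [hA]; exact sum_nonneg fun _ _ => by positivity
  have hB20 : ∀ i, 0 ≤ B2 i := fun i => by rw [hB2]; exact sum_nonneg fun _ _ => by positivity
  -- part B1
  have hB1σ : ∀ i ∈ Gd0, B1 i ≤ σ / 2 := by
    intro i hi
    have hLi := hlen i (hG1 hi)
    have h1 := partB1 hCNT I (J i) T O i d u g hN.sps (hG3 i hi) (by omega) (by omega) (by omega)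
    have h2 := hL₁ (T i).card (by omega)
    have h3 : (8 : ℝ) * d * (1 / 2) ^ u ≤ σ / 4 := by
      calc (8 : ℝ) * d * (1 / 2) ^ u ≤ (8 * d + 1) * (σ / (4 * (8 * d + 1))) :=
            mul_le_mul (by linarith) hu1 (by positivity) (by positivity)
        _ = σ / 4 := by field_simp
    have h4 : (d : ℝ) * 2 ^ g * (((T i).card + (2 * d * u : ℕ)) * (1 / 2) ^ ((T i).card / 2)) ≤
        σ / 4 := by
      calc _ ≤ ((d : ℝ) * 2 ^ g + 1) * (σ / (4 * (d * 2 ^ g + 1))) :=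
            mul_le_mul (by linarith) h2 (by positivity) (by positivity)
        _ = σ / 4 := by field_simp
    rw [hB1]
    simp only
    linarith
  -- part A
  have hAs : ∑ i ∈ Gd0, (1 / 2 : ℝ) ^ (T i).card * A i ≤ κ / 3 := by
    have h1 : ∀ i ∈ Gd0, (1 / 2 : ℝ) ^ (T i).card * A i ≤
        2 ^ D * ((1 / 2 : ℝ) ^ (T i).card * ∑ v ∈ un (J i) T, mu I T v) := by
      intro i _
      have h2 := partA1 I T (un (J i) T) D
      calc (1 / 2 : ℝ) ^ (T i).card * A i
          ≤ (1 / 2 : ℝ) ^ (T i).card * (2 ^ D * ∑ v ∈ un (J i) T, mu I T v) := by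
            rw [hA]
            exact mul_le_mul_of_nonneg_left h2 (by positivity)
        _ = _ := by ring
    refine (sum_le_sum h1).trans ?_
    rw [← mul_sum]
    have h2 := partA2 I Gd0 T (fun i => un (J i) T) (2 * d * u) B C1 hB0 hBmu hG1 hmass
      fun i hi => (hG3 i hi).small
    have h3 : ∑ v, mu I T v ^ 2 + C1 * ((2 * d * u : ℕ) * B) ≤ C1 * (N3 * y) := by
      rw [hN3, hB]
      push_cast
      have : C1 * ((2 * d + 2 * d * u * (d + 1)) * y) =
        2 * d * C1 * y + C1 * (2 * d * u * ((d + 1) * y)) := by ring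
      rw [this]
      linarith
    have h4 : C1 * (N3 * y) ≤ (C1 + 1) * ((N3 + 1) * ε3) :=
      mul_le_mul (by linarith) (mul_le_mul (by linarith) hyε hy0 (by positivity))
        (by positivity) (by positivity)
    calc (2 : ℝ) ^ D * ∑ i ∈ Gd0, (1 / 2 : ℝ) ^ (T i).card * ∑ v ∈ un (J i) T, mu I T v
        ≤ 2 ^ D * ((C1 + 1) * ((N3 + 1) * ε3)) :=
          mul_le_mul_of_nonneg_left (h2.trans (h3.trans h4)) (by positivity)
      _ = κ / 3 := by rw [hε3]; field_simp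
  -- part B2
  have hBs : ∑ i ∈ Gd0, (1 / 2 : ℝ) ^ (T i).card * B2 i ≤ κ / 3 := by
    have h1 : ∑ i ∈ Gd0, (1 / 2 : ℝ) ^ (T i).card * B2 i =
        ∑ k ∈ I, ∑ i ∈ Gd0.filter (fun i => k ∉ J i ∧
          2 * d * (2 * d + 1) < (T k ∩ un (J i) T).card ∧ ¬ (T i).card ≤ (T k).card + g),
          (1 / 2 : ℝ) ^ (T i).card * (1 / 2 : ℝ) ^ (T k \ un (J i) T).card := by
      rw [hB2]
      simp only [sum_filter, mul_sum]
      rw [sum_comm]
      refine sum_congr rfl fun k _ => sum_congr rfl fun i _ => ?_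
      rw [mul_ite, mul_zero]
    rw [h1]
    have h2 : ∀ k ∈ I, ∑ i ∈ Gd0.filter (fun i => k ∉ J i ∧
          2 * d * (2 * d + 1) < (T k ∩ un (J i) T).card ∧ ¬ (T i).card ≤ (T k).card + g),
          (1 / 2 : ℝ) ^ (T i).card * (1 / 2 : ℝ) ^ (T k \ un (J i) T).card ≤
        (1 / 2 : ℝ) ^ (T k).card * (κ / (3 * (C1 + 1))) := by
      intro k hk
      have hLk := hlen k hk
      refine (partB2 hCNT I Gd0 J T O k d u g K' hN.sps hG3 hG4 hk (by omega) (by omega)).trans ?_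
      refine mul_le_mul_of_nonneg_left ?_ (by positivity)
      have h3 := hL₂ (T k).card (by omega)
      rw [← hN1]
      have h4 : N1 * (1 / 2) ^ u ≤ κ / (6 * (C1 + 1)) := by
        calc N1 * (1 / 2) ^ u ≤ (N1 + 1) * (κ / (6 * (N1 + 1) * (C1 + 1))) :=
              mul_le_mul (by linarith) hu2 (by positivity) (by positivity)
          _ = _ := by field_simp
      have h5 : (K' : ℝ) * d * (((T k).card + (0 : ℕ)) * (1 / 2) ^ ((T k).card / 2)) ≤
          κ / (6 * (C1 + 1)) := by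
        calc _ ≤ ((K' : ℝ) * d + 1) * (κ / (6 * (K' * d + 1) * (C1 + 1))) :=
              mul_le_mul (by linarith) h3 (by positivity) (by positivity)
          _ = _ := by field_simp
      have h6 : κ / (3 * (C1 + 1)) = κ / (6 * (C1 + 1)) + κ / (6 * (C1 + 1)) := by
        field_simp; ring
      rw [h6]
      exact add_le_add h4 h5
    refine (sum_le_sum h2).trans ?_
    rw [← sum_mul]
    have h7 : (∑ k ∈ I, (1 / 2 : ℝ) ^ (T k).card) ≤ C1 + 1 := by
      have : mass I T = ∑ k ∈ I, (1 / 2 : ℝ) ^ (T k).card := rfl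
      rw [← this]; linarith
    calc (∑ k ∈ I, (1 / 2 : ℝ) ^ (T k).card) * (κ / (3 * (C1 + 1)))
        ≤ (C1 + 1) * (κ / (3 * (C1 + 1))) := mul_le_mul_of_nonneg_right h7 (by positivity)
      _ = κ / 3 := by field_simp
  -- the typical terms
  refine ⟨Gd0.filter fun i => X i ≤ σ, fun i hi => hG1 (mem_filter.1 hi).1, ?_, ?_⟩
  · have h1 : mass (Gd0.filter fun i => ¬ X i ≤ σ) T * (σ / 2) ≤ κ := by
      calc mass (Gd0.filter fun i => ¬ X i ≤ σ) T * (σ / 2)
          = ∑ i ∈ Gd0.filter (fun i => ¬ X i ≤ σ), (1 / 2 : ℝ) ^ (T i).card * (σ / 2) := by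
            unfold mass; rw [sum_mul]
        _ ≤ ∑ i ∈ Gd0.filter (fun i => ¬ X i ≤ σ),
            ((1 / 2 : ℝ) ^ (T i).card * A i + (1 / 2 : ℝ) ^ (T i).card * B2 i) := by
            refine sum_le_sum fun i hi => ?_
            rw [mem_filter, not_le] at hi
            rw [← mul_add]
            refine mul_le_mul_of_nonneg_left ?_ (by positivity)
            have h2 := hXle i
            have h3 := hB1σ i hi.1
            linarith [hi.2]
        _ ≤ ∑ i ∈ Gd0,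
            ((1 / 2 : ℝ) ^ (T i).card * A i + (1 / 2 : ℝ) ^ (T i).card * B2 i) :=
            sum_le_sum_of_subset_of_nonneg (filter_subset _ _) fun i _ _ =>
              add_nonneg (mul_nonneg (by positivity) (hA0 i)) (mul_nonneg (by positivity) (hB20 i))
        _ ≤ κ := by rw [sum_add_distrib]; linarith
    have h2 : mass (Gd0.filter fun i => ¬ X i ≤ σ) T ≤ δ / 2 := by
      have h3 : κ = δ / 2 * (σ / 2) := by rw [hκ]; ring
      rw [h3] at h1
      exact le_of_mul_le_mul_right h1 (by positivity)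
    have h4 : mass (I \ Gd0.filter fun i => X i ≤ σ) T ≤
        mass (I \ Gd0) T + mass (Gd0.filter fun i => ¬ X i ≤ σ) T := by
      unfold mass
      rw [← sum_union]
      · refine sum_le_sum_of_subset_of_nonneg (fun i hi => ?_) fun _ _ _ => by positivity
        simp only [mem_sdiff, mem_union, mem_filter] at hi ⊢
        tauto
      · rw [disjoint_left]
        intro i hi hi'
        exact (mem_sdiff.1 hi).2 (mem_filter.1 hi').1
    linarith
  · intro i hi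
    rw [mem_filter] at hi
    refine ⟨J i, hG3 i hi.1, ?_⟩
    have h1 := hi.2
    rw [hX] at h1
    exact h1

end TypL

/-- almost all terms are typical -/
theorem typ : S_CNT → S_SQ → S_CLOS → S_TYP := TypL.typ

end Pool.Agent.Helper91K9.SP
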