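import Pool.Agent.Helper91K9.SP.Fam
import Pool.Agent.TH689.LXHoeff

/-!
# [UC] uniform convergence (helper55)
-/

set_option autoImplicit false

namespace Pool.Agent.Helper91K9.SP

open Finset Pool.Agent.Helper91K9.DL

namespace UcL

theorem PP_mem (n : ℕ) (p : Cube n → Prop) : 0 ≤ PP p ∧ PP p ≤ 1 := by
  classical
  unfold PP
  constructor
  · positivity
  · rw [div_le_one (by positivity)]
    have h1 : (univ.filter p).card ≤ (univ : Finset (Cube n)).card := card_filter_le _ _
    have h2 : (univ : Finset (Cube n)).card = 2 ^ n := by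
      rw [card_univ, Fintype.card_fun, Fintype.card_bool, Fintype.card_fin]
    rw [h2] at h1
    calc _ ≤ (((univ.filter p).card : ℕ) : ℝ) := le_of_eq (by congr!)
      _ ≤ ((2 ^ n : ℕ) : ℝ) := by exact_mod_cast h1
      _ = 2 ^ n := by push_cast; rfl

theorem PP_sum (n : ℕ) (p : Cube n → Prop) [DecidablePred p] :
    ∑ x : Cube n, (if p x then (1 : ℝ) else 0) = 2 ^ n * PP p := by
  classical
  unfold PP
  rw [sum_boole, mul_div_cancel₀ _ (by positivity)]
  congr!

end UcL

open UcL in
theorem uc : S_UC := by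
  classical
  intro n m b Λ L Ev τ hb hτ hm
  have hb0 : (1 : ℝ) ≤ b := by exact_mod_cast hb
  have hL0 : (0 : ℝ) ≤ L.card := Nat.cast_nonneg _
  have hlogL : 0 ≤ Real.log ((L.card : ℝ) + 1) := Real.log_nonneg (by linarith)
  have hlogb : 0 < Real.log (2 * (b : ℝ)) := Real.log_pos (by linarith)
  have hm0 : (0 : ℝ) < m := by
    by_contra h
    have h1 : (m : ℝ) = 0 := le_antisymm (not_lt.1 h) (Nat.cast_nonneg m)
    rw [h1, zero_mul, zero_div] at hm
    linarith
  set T : ℝ := (Fintype.card (Fin m → Cube n) : ℝ) with hT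
  have hT0 : 0 ≤ T := Nat.cast_nonneg _
  -- one event
  have hone : ∀ l ∈ L,
      ((univ.filter fun X : Fin m → Cube n =>
        m * τ < |((univ.filter fun j => Ev l (X j)).card : ℝ) - m * PP (Ev l)|).card : ℝ) ≤
        2 * Real.exp (-(m * τ ^ 2 / 8)) * T := by
    intro l _
    set φ : Fin m → Cube n → ℝ := fun _ x => (if Ev l x then 1 else 0) - PP (Ev l) with hφ
    set r : ℝ := Real.sqrt m * τ / 2 with hr
    have hr0 : 0 ≤ r := by positivity
    have h1 := Pool.Agent.TH689.LX.hoeff_tail φ (fun _ => 2) (2 * Real.sqrt m) r hr0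
      (fun _ => by norm_num) (fun t x => by
        simp only [hφ]
        have h2 := PP_mem n (Ev l)
        rw [abs_le]
        split_ifs <;> constructor <;> linarith [h2.1, h2.2]) (fun t => by
        simp only [hφ]
        rw [sum_sub_distrib, sum_const, card_univ, PP_sum]
        simp only [Fintype.card_fun, Fintype.card_bool, Fintype.card_fin, nsmul_eq_mul]
        push_cast
        ring) (by positivity) (by
        rw [sum_const, card_univ, Fintype.card_fin, nsmul_eq_mul, mul_pow,
          Real.sq_sqrt hm0.le]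
        linarith)
    have h2 : r * (2 * Real.sqrt m) = m * τ := by
      rw [hr]
      have := Real.mul_self_sqrt hm0.le
      calc Real.sqrt m * τ / 2 * (2 * Real.sqrt m) = (Real.sqrt m * Real.sqrt m) * τ := by ring
        _ = _ := by rw [this]
    have h3 : ∀ X : Fin m → Cube n, ∑ t, φ t (X t) =
        ((univ.filter fun j => Ev l (X j)).card : ℝ) - m * PP (Ev l) := by
      intro X
      simp only [hφ]
      rw [sum_sub_distrib, sum_const, card_univ, Fintype.card_fin, nsmul_eq_mul, sum_boole]
    rw [h2] at h1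
    simp only [h3] at h1
    refine h1.trans ?_
    refine mul_le_mul_of_nonneg_right ?_ hT0
    refine mul_le_mul_of_nonneg_left ?_ (by norm_num)
    refine Real.exp_le_exp.2 ?_
    have h4 : r ^ 2 = m * τ ^ 2 / 4 := by
      rw [hr, div_pow, mul_pow, Real.sq_sqrt hm0.le]; norm_num
    rw [h4]
    linarith
  -- union bound
  have hbad : ((univ.filter fun X : Fin m → Cube n => ¬ ∀ l ∈ L,
      |((univ.filter fun j => Ev l (X j)).card : ℝ) - m * PP (Ev l)| ≤ m * τ).card : ℝ) ≤
      1 / b * T := by
    have h1 : (univ.filter fun X : Fin m → Cube n => ¬ ∀ l ∈ L,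
        |((univ.filter fun j => Ev l (X j)).card : ℝ) - m * PP (Ev l)| ≤ m * τ) ⊆
        L.biUnion fun l => univ.filter fun X : Fin m → Cube n =>
            m * τ < |((univ.filter fun j => Ev l (X j)).card : ℝ) - m * PP (Ev l)| := by
      intro X hX
      have h2 := (mem_filter.1 hX).2
      push Not at h2
      obtain ⟨l, hl, h3⟩ := h2
      exact mem_biUnion.2 ⟨l, hl, mem_filter.2 ⟨mem_univ _, h3⟩⟩
    have h2 : ((univ.filter fun X : Fin m → Cube n => ¬ ∀ l ∈ L,
        |((univ.filter fun j => Ev l (X j)).card : ℝ) - m * PP (Ev l)| ≤ m * τ).card : ℝ) ≤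
        ∑ _l ∈ L, 2 * Real.exp (-(m * τ ^ 2 / 8)) * T := by
      calc _ ≤ ((L.biUnion fun l => univ.filter fun X : Fin m → Cube n =>
            m * τ < |((univ.filter fun j => Ev l (X j)).card : ℝ) - m * PP (Ev l)|).card : ℝ) := by
              exact_mod_cast card_le_card h1
        _ ≤ ((∑ l ∈ L, (univ.filter fun X : Fin m → Cube n =>
            m * τ < |((univ.filter fun j => Ev l (X j)).card : ℝ) - m * PP (Ev l)|).card : ℕ) :
              ℝ) := by
              exact_mod_cast card_biUnion_le
        _ ≤ _ := by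
              push_cast
              exact sum_le_sum fun l hl => hone l hl
    rw [sum_const, nsmul_eq_mul] at h2
    refine h2.trans ?_
    rw [← mul_assoc]
    refine mul_le_mul_of_nonneg_right ?_ hT0
    have h3 : Real.exp (-(m * τ ^ 2 / 8)) ≤ 1 / (((L.card : ℝ) + 1) * (2 * b)) := by
      rw [Real.exp_neg, ← one_div]
      refine one_div_le_one_div_of_le (by positivity) ?_
      rw [← Real.exp_log (by positivity : (0 : ℝ) < ((L.card : ℝ) + 1) * (2 * b)),
        Real.log_mul (by positivity) (by positivity)]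
      exact Real.exp_le_exp.2 hm
    calc (L.card : ℝ) * (2 * Real.exp (-(m * τ ^ 2 / 8))) ≤
        L.card * (2 * (1 / (((L.card : ℝ) + 1) * (2 * b)))) :=
          mul_le_mul_of_nonneg_left (mul_le_mul_of_nonneg_left h3 (by norm_num)) hL0
      _ = L.card / ((L.card : ℝ) + 1) * (1 / b) := by
          field_simp
      _ ≤ 1 * (1 / b) := by
          refine mul_le_mul_of_nonneg_right ?_ (by positivity)
          rw [div_le_one (by positivity)]
          linarith
      _ = 1 / b := one_mul _
  have hsum : ((univ.filter fun X : Fin m → Cube n => ∀ l ∈ L,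
      |((univ.filter fun j => Ev l (X j)).card : ℝ) - m * PP (Ev l)| ≤ m * τ).card : ℝ) +
      ((univ.filter fun X : Fin m → Cube n => ¬ ∀ l ∈ L,
      |((univ.filter fun j => Ev l (X j)).card : ℝ) - m * PP (Ev l)| ≤ m * τ).card : ℝ) = T := by
    have := card_filter_add_card_filter_not (s := (univ : Finset (Fin m → Cube n)))
      (fun X => ∀ l ∈ L,
        |((univ.filter fun j => Ev l (X j)).card : ℝ) - m * PP (Ev l)| ≤ m * τ)
    rw [card_univ] at this
    rw [hT]
    exact_mod_cast this
  have e : (1 - 1 / (b : ℝ)) * T = T - 1 / b * T := by ring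
  rw [e]
  linarith

end Pool.Agent.Helper91K9.SP
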