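import Pool.Agent.Helper91K9.SP.Mass

/-!
# Sparse families: a nice family of large mass is satisfied almost surely
-/

set_option autoImplicit false

namespace Pool.Agent.Helper91K9.SP

open Finset Pool.Agent.Helper91K9.DL

namespace VarL

variable {n : ℕ} {ι : Type}

/-- two terms are satisfied together with small probability -/
theorem both (A B : Finset (Fin n)) (a b : Cube n) :
    PP (fun x => agr A a x ∧ agr B b x) ≤ (1 / 2) ^ (A ∪ B).card := by
  classical
  by_cases h : ∃ x, agr A a x ∧ agr B b x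
  · obtain ⟨x, hx⟩ := h
    rw [← PP_agr (A ∪ B) x]
    refine PP_mono fun y hy v hv => ?_
    rcases mem_union.1 hv with h | h
    · rw [hy.1 v h, hx.1 v h]
    · rw [hy.2 v h, hx.2 v h]
  · have h1 : PP (fun x => agr A a x ∧ agr B b x) ≤ PP (fun _ : Cube n => False) :=
      PP_mono fun x hx => h ⟨x, hx⟩
    have h2 : PP (fun _ : Cube n => False) = 0 := by rw [PP_eq]; simp
    rw [h2] at h1
    exact h1.trans (by positivity)

theorem ii_mul (p q : Cube n → Prop) (z : Cube n) :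
    RegL.ii p z * RegL.ii q z = RegL.ii (fun x => p x ∧ q x) z := by
  unfold RegL.ii
  by_cases h1 : p z <;> by_cases h2 : q z <;> simp [h1, h2]

/-- the second moment -/
theorem second (I : Finset ι) (T : ι → Finset (Fin n)) (a : ι → Cube n) :
    PP (miss I T a) * mass I T ^ 2 + mass I T ^ 2 ≤
      ∑ i ∈ I, ∑ k ∈ I, PP (fun x => agr (T i) (a i) x ∧ agr (T k) (a k) x) := by
  classical
  obtain ⟨N, hN⟩ : ∃ N : Cube n → ℝ, N = fun x => ∑ i ∈ I, RegL.ii (agr (T i) (a i)) x := ⟨_, rfl⟩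
  have h1 : RegL.EE N = mass I T := by
    rw [hN, MassL.EE_sum, mass]
    exact sum_congr rfl fun i _ => by rw [← RegL.PP_EE, PP_agr]
  have h2 : RegL.EE (fun x => N x ^ 2) =
      ∑ i ∈ I, ∑ k ∈ I, PP (fun x => agr (T i) (a i) x ∧ agr (T k) (a k) x) := by
    have h3 : ∀ x, N x ^ 2 = ∑ i ∈ I, ∑ k ∈ I,
        RegL.ii (fun x => agr (T i) (a i) x ∧ agr (T k) (a k) x) x := by
      intro x
      rw [hN, pow_two, sum_mul_sum]
      exact sum_congr rfl fun i _ => sum_congr rfl fun k _ => ii_mul _ _ _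
    rw [RegL.EE_congr h3, MassL.EE_sum]
    refine sum_congr rfl fun i _ => ?_
    rw [MassL.EE_sum]
    exact sum_congr rfl fun k _ => (RegL.PP_EE _).symm
  have h3 : RegL.EE (fun x => mass I T ^ 2 * RegL.ii (miss I T a) x) ≤
      RegL.EE (fun x => N x ^ 2 + ((-2 * mass I T) * N x + mass I T ^ 2)) := by
    refine RegL.EE_mono fun x => ?_
    by_cases hx : miss I T a x
    · have h4 : N x = 0 := by
        rw [hN]
        exact sum_eq_zero fun i hi => RegL.ii_neg (hx i hi)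
      rw [h4, RegL.ii_pos hx]
      simp
    · rw [RegL.ii_neg hx]
      nlinarith [sq_nonneg (N x - mass I T)]
  rw [RegL.EE_mul, ← RegL.PP_EE, RegL.EE_add, RegL.EE_add, RegL.EE_mul, RegL.EE_const, h1, h2] at h3
  nlinarith

open Classical in
/-- pairs with large intersection, the first term is the shorter one -/
noncomputable def g (T : ι → Finset (Fin n)) (d : ℕ) (i k : ι) : ℝ :=
  if 2 * d < (T i ∩ T k).card ∧ (T i).card ≤ (T k).card then (1 / 2 : ℝ) ^ (T i ∪ T k).card else 0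

theorem g_nonneg (T : ι → Finset (Fin n)) (d : ℕ) (i k : ι) : 0 ≤ g T d i k := by
  unfold g; split_ifs <;> positivity

theorem pair (T : ι → Finset (Fin n)) (a : ι → Cube n) (d : ℕ) (i k : ι) :
    PP (fun x => agr (T i) (a i) x ∧ agr (T k) (a k) x) ≤
      (1 / 2 : ℝ) ^ (T i).card * (1 / 2) ^ (T k).card +
      4 ^ d * ((T i ∩ T k).card * ((1 / 2 : ℝ) ^ (T i).card * (1 / 2) ^ (T k).card)) +
      (g T d i k + g T d k i) := by
  classical
  have h0 := both (T i) (T k) (a i) (a k)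
  have hc := card_union_add_card_inter (T i) (T k)
  have hp : (0 : ℝ) < (1 / 2 : ℝ) ^ (T i).card * (1 / 2) ^ (T k).card := by positivity
  have he : (1 / 2 : ℝ) ^ (T i ∪ T k).card = 2 ^ (T i ∩ T k).card *
      ((1 / 2 : ℝ) ^ (T i).card * (1 / 2) ^ (T k).card) := by
    rw [← pow_add, ← hc, pow_add, mul_left_comm, ← mul_pow]; norm_num
  have hg1 := g_nonneg T d i k
  have hg2 := g_nonneg T d k i
  rcases Nat.eq_zero_or_pos (T i ∩ T k).card with hs | hs
  · rw [he, hs] at h0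
    rw [hs]
    simp only [pow_zero, one_mul, Nat.cast_zero, zero_mul, mul_zero, add_zero] at h0 ⊢
    linarith
  · by_cases hd : (T i ∩ T k).card ≤ 2 * d
    · have h1 : (2 : ℝ) ^ (T i ∩ T k).card ≤ 4 ^ d * (T i ∩ T k).card := by
        have h2 : (2 : ℝ) ^ (T i ∩ T k).card ≤ 2 ^ (2 * d) :=
          pow_le_pow_right₀ (by norm_num) hd
        have h3 : (2 : ℝ) ^ (2 * d) = 4 ^ d := by rw [pow_mul]; norm_num
        have h4 : (1 : ℝ) ≤ (T i ∩ T k).card := by exact_mod_cast hs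
        rw [h3] at h2
        nlinarith [pow_pos (show (0 : ℝ) < 4 by norm_num) d]
      rw [he] at h0
      have h5 := mul_le_mul_of_nonneg_right h1 hp.le
      have h6 : 4 ^ d * ((T i ∩ T k).card : ℝ) * ((1 / 2 : ℝ) ^ (T i).card * (1 / 2) ^ (T k).card) =
          4 ^ d * ((T i ∩ T k).card * ((1 / 2 : ℝ) ^ (T i).card * (1 / 2) ^ (T k).card)) := by ring
      linarith
    · push Not at hd
      have h1 : (0 : ℝ) ≤ 4 ^ d * ((T i ∩ T k).card *
          ((1 / 2 : ℝ) ^ (T i).card * (1 / 2) ^ (T k).card)) := by positivity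
      rcases le_total (T i).card (T k).card with h | h
      · have h2 : g T d i k = (1 / 2 : ℝ) ^ (T i ∪ T k).card := by
          unfold g; rw [if_pos ⟨hd, h⟩]
        linarith
      · have h2 : g T d k i = (1 / 2 : ℝ) ^ (T i ∪ T k).card := by
          unfold g
          rw [inter_comm, union_comm, if_pos ⟨hd, h⟩]
        linarith

/-- the small intersections -/
theorem sum_small (I : Finset ι) (T : ι → Finset (Fin n)) :
    ∑ i ∈ I, ∑ k ∈ I, ((T i ∩ T k).card * ((1 / 2 : ℝ) ^ (T i).card * (1 / 2) ^ (T k).card)) =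
      ∑ v, mu I T v ^ 2 := by
  classical
  have h1 : ∀ v, mu I T v ^ 2 = ∑ i ∈ I, ∑ k ∈ I, (if v ∈ T i ∩ T k then
      ((1 / 2 : ℝ) ^ (T i).card * (1 / 2) ^ (T k).card) else 0) := by
    intro v
    unfold mu mass
    rw [sum_filter, pow_two, sum_mul_sum]
    refine sum_congr rfl fun i _ => sum_congr rfl fun k _ => ?_
    by_cases h1 : v ∈ T i <;> by_cases h2 : v ∈ T k <;> simp [h1, h2]
  simp_rw [h1]
  symm
  rw [sum_comm]
  refine sum_congr rfl fun i _ => ?_
  rw [sum_comm]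
  refine sum_congr rfl fun k _ => ?_
  rw [← sum_filter, sum_const, nsmul_eq_mul]
  congr 3
  ext v
  simp

/-- the large intersections -/
theorem sum_large (hC : S_CNT) (I : Finset ι) (T : ι → Finset (Fin n)) (O : Fin n → ι → Prop)
    (d c' : ℕ) (hS : Sps I T O d) (hc1 : 1 ≤ c') (hc2 : 2 * d * (c' * (1 / 2 : ℝ) ^ c') ≤ 1)
    (hL : ∀ i ∈ I, 2 * c' + 4 * d ≤ (T i).card) (i : ι) (hi : i ∈ I) :
    ∑ k ∈ I, g T d i k ≤ (4 * d + 1) * (1 / 2 : ℝ) ^ (T i).card := by
  classical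
  obtain ⟨L, hLe⟩ : ∃ L, L = (T i).card := ⟨_, rfl⟩
  obtain ⟨h, hh⟩ : ∃ h, h = (L + 1) / 2 := ⟨_, rfl⟩
  have hLi := hL i hi
  rw [← hLe] at hLi ⊢
  -- far pairs and close pairs
  obtain ⟨J1, hJ1⟩ : ∃ J1 : Finset ι,
    J1 = I.filter fun k => h ≤ (T k ∩ T i).card ∧ L ≤ (T k).card := ⟨_, rfl⟩
  obtain ⟨J2, hJ2⟩ : ∃ J2 : Finset ι,
    J2 = I.filter fun k => d + 1 ≤ (T k ∩ T i).card ∧ (T k ∩ T i).card < h ∧ L ≤ (T k).card :=
      ⟨_, rfl⟩
  have c1 : J1.card ≤ 4 * d := by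
    have h1 := hC n ι I J1 T O d h (T i) hS (by rw [hJ1]; exact filter_subset _ _)
      (fun k hk => by rw [hJ1, mem_filter] at hk; exact hk.2.1)
    rw [← hLe] at h1
    -- h - d ≥ L / 4
    have h2 : L ≤ 4 * (h - d) := by omega
    have h3 : J1.card * L ≤ 4 * d * L := by
      calc J1.card * L ≤ J1.card * (4 * (h - d)) := Nat.mul_le_mul_left _ h2
        _ = 4 * (J1.card * (h - d)) := by ring
        _ ≤ 4 * (d * L) := Nat.mul_le_mul_left _ h1
        _ = 4 * d * L := by ring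
    exact Nat.le_of_mul_le_mul_right h3 (by omega)
  have c2 : J2.card ≤ d * L := by
    have h1 := hC n ι I J2 T O d (d + 1) (T i) hS (by rw [hJ2]; exact filter_subset _ _)
      (fun k hk => by rw [hJ2, mem_filter] at hk; exact hk.2.1)
    rw [← hLe] at h1
    simpa using h1
  have key : ∀ k ∈ I, g T d i k ≤ (if k ∈ J1 then (1 / 2 : ℝ) ^ L else 0) +
      (if k ∈ J2 then (1 / 2 : ℝ) ^ L * (1 / 2) ^ h else 0) := by
    intro k hk
    have p1 : (0 : ℝ) ≤ (if k ∈ J1 then (1 / 2 : ℝ) ^ L else 0) := by split_ifs <;> positivity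
    have p2 : (0 : ℝ) ≤ (if k ∈ J2 then (1 / 2 : ℝ) ^ L * (1 / 2) ^ h else 0) := by
      split_ifs <;> positivity
    by_cases hg : 2 * d < (T i ∩ T k).card ∧ (T i).card ≤ (T k).card
    · have hg' : g T d i k = (1 / 2 : ℝ) ^ (T i ∪ T k).card := if_pos hg
      rw [hg']
      have hu := card_union_add_card_inter (T i) (T k)
      rw [inter_comm] at hg hu
      by_cases hs : h ≤ (T k ∩ T i).card
      · have hm : k ∈ J1 := by
          rw [hJ1, mem_filter]; exact ⟨hk, hs, by omega⟩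
        have h1 : (1 / 2 : ℝ) ^ (T i ∪ T k).card ≤ (1 / 2) ^ L :=
          pow_le_pow_of_le_one (by norm_num) (by norm_num)
            (by rw [hLe]; exact card_le_card subset_union_left)
        rw [if_pos hm]
        linarith
      · have hm : k ∈ J2 := by
          rw [hJ2, mem_filter]; exact ⟨hk, by omega, by omega, by omega⟩
        have h1 : (1 / 2 : ℝ) ^ (T i ∪ T k).card ≤ (1 / 2) ^ L * (1 / 2) ^ h := by
          rw [← pow_add]
          exact pow_le_pow_of_le_one (by norm_num) (by norm_num) (by omega)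
        rw [if_pos hm]
        linarith
    · have hg' : g T d i k = 0 := if_neg hg
      rw [hg']
      linarith
  refine (sum_le_sum key).trans ?_
  have hJ1I : J1 ⊆ I := by rw [hJ1]; exact filter_subset _ _
  have hJ2I : J2 ⊆ I := by rw [hJ2]; exact filter_subset _ _
  rw [sum_add_distrib, ← sum_filter, ← sum_filter, filter_mem_eq_inter, filter_mem_eq_inter,
    inter_eq_right.2 hJ1I, inter_eq_right.2 hJ2I, sum_const, sum_const, nsmul_eq_mul, nsmul_eq_mul]
  have hp : (0 : ℝ) < (1 / 2) ^ L := by positivity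
  have e1 : (J1.card : ℝ) * (1 / 2) ^ L ≤ 4 * d * (1 / 2) ^ L := by
    refine mul_le_mul_of_nonneg_right ?_ hp.le
    exact_mod_cast c1
  have e2 : (J2.card : ℝ) * ((1 / 2) ^ L * (1 / 2) ^ h) ≤ (1 / 2) ^ L := by
    have h1 : (J2.card : ℝ) ≤ 2 * d * h := by
      have : J2.card ≤ 2 * d * h := by
        refine c2.trans ?_
        have h2 : L ≤ 2 * h := by omega
        calc d * L ≤ d * (2 * h) := Nat.mul_le_mul_left _ h2
          _ = 2 * d * h := by ring
      exact_mod_cast this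
    have h2 : (h : ℝ) * (1 / 2) ^ h ≤ c' * (1 / 2) ^ c' := SqL.anti hc1 (by omega)
    calc (J2.card : ℝ) * ((1 / 2) ^ L * (1 / 2) ^ h) ≤ (2 * d * h) * ((1 / 2) ^ L * (1 / 2) ^ h) :=
          mul_le_mul_of_nonneg_right h1 (by positivity)
      _ = (2 * d * (h * (1 / 2) ^ h)) * (1 / 2) ^ L := by ring
      _ ≤ (2 * d * (c' * (1 / 2 : ℝ) ^ c')) * (1 / 2) ^ L := by
          refine mul_le_mul_of_nonneg_right ?_ hp.le
          exact mul_le_mul_of_nonneg_left h2 (by positivity)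
      _ ≤ 1 * (1 / 2) ^ L := mul_le_mul_of_nonneg_right hc2 hp.le
      _ = _ := one_mul _
  linarith

end VarL

open VarL

theorem var (hC : S_CNT) (hQ : S_SQ) : S_VAR := by
  classical
  intro d C
  obtain ⟨η, hη⟩ : ∃ η : ℝ, η = 1 / (4 ^ d * (4 * d + 4)) := ⟨_, rfl⟩
  have hη0 : 0 < η := by rw [hη]; positivity
  have hη1 : 4 ^ d * (2 * d) * η ≤ 1 / 2 := by
    rw [hη, mul_one_div, div_le_iff₀ (by positivity)]
    have : (0 : ℝ) < 4 ^ d := by positivity
    nlinarith
  have hη2 : 2 * d * η ≤ 1 / 2 := by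
    refine le_trans ?_ hη1
    have : (1 : ℝ) ≤ 4 ^ d := one_le_pow₀ (by norm_num)
    have h2 : (0 : ℝ) ≤ 2 * d * η := by positivity
    nlinarith
  obtain ⟨c', hc1, hc2⟩ : ∃ c' : ℕ, 1 ≤ c' ∧ (c' : ℝ) * (1 / 2) ^ c' ≤ η := by
    have h1 := tendsto_self_mul_const_pow_of_lt_one (r := (1 / 2 : ℝ)) (by norm_num) (by norm_num)
    have h2 := (h1.eventually (gt_mem_nhds hη0)).and (Filter.eventually_ge_atTop 1)
    obtain ⟨c', h3, h4⟩ := h2.exists
    exact ⟨c', h4, h3.le⟩
  refine ⟨2 * c' + 4 * d, η, by omega, hη0, fun n ι I T a O hN => ?_⟩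
  have hM0 : 0 ≤ mass I T := SqL.mass_nonneg _ _
  have hd2 : 2 * d * ((c' : ℝ) * (1 / 2) ^ c') ≤ 1 := by
    have := mul_le_mul_of_nonneg_left hc2 (show (0 : ℝ) ≤ 2 * d by positivity)
    linarith
  have h1 := second I T a
  have h2 : ∑ i ∈ I, ∑ k ∈ I, PP (fun x => agr (T i) (a i) x ∧ agr (T k) (a k) x) ≤
      mass I T ^ 2 + 4 ^ d * ∑ v, mu I T v ^ 2 + 2 * ∑ i ∈ I, ∑ k ∈ I, g T d i k := by
    have h3 : ∑ i ∈ I, ∑ k ∈ I, g T d k i = ∑ i ∈ I, ∑ k ∈ I, g T d i k := sum_comm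
    have h4 : mass I T ^ 2 = ∑ i ∈ I, ∑ k ∈ I, (1 / 2 : ℝ) ^ (T i).card * (1 / 2) ^ (T k).card := by
      rw [pow_two, mass, sum_mul_sum]
    refine (sum_le_sum fun i _ => sum_le_sum fun k _ => pair T a d i k).trans ?_
    simp_rw [sum_add_distrib]
    rw [h3, ← sum_small, h4]
    simp_rw [← mul_sum]
    linarith
  have h3 : ∑ i ∈ I, ∑ k ∈ I, g T d i k ≤ (4 * d + 1) * mass I T := by
    rw [mass, mul_sum]
    exact sum_le_sum fun i hi => sum_large hC I T O d c' hN.sps hc1 hd2 hN.long i hi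
  have h4 : 4 ^ d * ∑ v, mu I T v ^ 2 ≤ mass I T := by
    have h5 := hQ n ι I T O d (2 * c' + 4 * d) η hN.sps (by omega) hN.long hη0.le hN.nu
    have h6 : ((2 * c' + 4 * d : ℕ) : ℝ) * (1 / 2) ^ (2 * c' + 4 * d) ≤ η :=
      (SqL.anti hc1 (by omega)).trans hc2
    have h7 : 2 * d * mass I T * (((2 * c' + 4 * d : ℕ) : ℝ) * (1 / 2) ^ (2 * c' + 4 * d) + η) ≤
        2 * d * mass I T * (2 * η) :=
      mul_le_mul_of_nonneg_left (by linarith) (by positivity)
    calc 4 ^ d * ∑ v, mu I T v ^ 2 ≤ 4 ^ d * (2 * d * mass I T * (2 * η)) :=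
          mul_le_mul_of_nonneg_left (h5.trans h7) (by positivity)
      _ = (4 ^ d * (2 * d) * η) * (2 * mass I T) := by ring
      _ ≤ 1 / 2 * (2 * mass I T) := mul_le_mul_of_nonneg_right hη1 (by positivity)
      _ = mass I T := by ring
  have h5 : PP (miss I T a) * mass I T ^ 2 ≤ (8 * d + 3) * mass I T := by
    linarith
  rcases hM0.eq_or_lt with h6 | h6
  · rw [← h6]; simp; positivity
  · have h7 : PP (miss I T a) * mass I T ≤ 8 * d + 3 := by
      refine le_of_mul_le_mul_right ?_ h6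
      calc PP (miss I T a) * mass I T * mass I T = PP (miss I T a) * mass I T ^ 2 := by ring
        _ ≤ _ := h5
    linarith

end Pool.Agent.Helper91K9.SP
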