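import Pool.Agent.Helper91K9.SP.Asm
import Pool.Agent.Helper91K9.SP.Base
import Pool.Agent.Helper91K9.SP.Cnt
import Pool.Agent.Helper91K9.SP.Sq
import Pool.Agent.Helper91K9.SP.Low
import Pool.Agent.Helper91K9.SP.Var
import Pool.Agent.Helper91K9.SP.Mass
import Pool.Agent.Helper91K9.SP.Reg
import Pool.Agent.Helper91K9.SP.Str
import Pool.Agent.Helper91K9.SP.Clos
import Pool.Agent.Helper91K9.SP.Typ
import Pool.Agent.Helper91K9.SP.Gst
import Pool.Agent.Helper91K9.SP.Hu
import Pool.Agent.Helper91K9.SP.Sig
import Pool.Agent.Helper91K9.SP.Contr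
import Pool.Agent.Helper91K9.SP.Step
import Pool.Agent.Helper91K9.SP.Red
import Pool.Agent.Helper91K9.SP.Sizes
import Pool.Agent.Helper91K9.SP.Opt
import Pool.Agent.Helper91K9.SP.Uc
import Pool.Agent.Helper91K9.SP.Samps
import Pool.Agent.Helper91K9.SP.Paths
import Pool.Agent.Helper91K9.SP.Orc
import Pool.Agent.Helper91K9.SP.Hall
import Pool.Agent.Helper91K9.SP.Polys

/-!
# DNF formulas with sparse incidence graph are learnable from uniform random examples
-/

namespace Pool.Agent.Helper91K9.SP

theorem target : S_TARGET :=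
  target_of (str reg (mass_bd (var cnt sq)))
    (base_ok cnt (gst (low sq)) (typ cnt sq (clos cnt)) sig hu contr step red_ok sizes)
    opt_ok (samps uc) paths orc hall sizes polys

end Pool.Agent.Helper91K9.SP
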